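import Pool.Agent.H65.SPD.Defs
set_option autoImplicit false

/-!
# Tls.  Small tools (proved; owner).
-/
namespace Pool.Agent.H65.SPD
open Finset Pool.Agent.Ldc

/-- kernel version of `H_congr` -/
theorem H_ker {Ω α β : Type} [Fintype Ω] (p : Ω → ℝ) (f : Ω → α) (g : Ω → β)
    (h : ∀ ω ω', f ω = f ω' ↔ g ω = g ω') : H p f = H p g := by
  unfold H
  congr 1
  refine Finset.sum_congr rfl fun ω _ => ?_
  have h1 : (fun ω' => f ω' = f ω) = (fun ω' => g ω' = g ω) := funext fun ω' => propext (h ω' ω)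
  unfold pr
  rw [h1]

/-- entropy is invariant under a bijection of the probability space -/
theorem H_equiv {Ω Ω' α : Type} [Fintype Ω] [Fintype Ω'] (e : Ω' ≃ Ω) (p : Ω → ℝ) (f : Ω → α) :
    H p f = H (fun ω' => p (e ω')) (fun ω' => f (e ω')) := by
  classical
  have hpr : ∀ a, pr p f a = pr (fun ω' => p (e ω')) (fun ω' => f (e ω')) a := by
    intro a
    unfold pr pe
    rw [← e.sum_comp]
  unfold H
  rw [← e.sum_comp]
  simp only [hpr]

theorem pp_pr {Ω Ω' α β : Type} [Fintype Ω] [Fintype Ω'] {p : Ω → ℝ} {q : Ω' → ℝ}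
    (hp : IsP p) (hq : IsP q) (f : Ω → α) (g : Ω' → β) :
    pp (pr p f) (pr q g) = pr (pp p q) (fun u => (f u.1, g u.2)) := by
  have h := pr_pair_of_indep (indep_pp hp hq f g)
  rw [pr_pp_fst hq, pr_pp_snd hp] at h
  exact h.symm

theorem H_pp_pr {Ω Ω' α β δ : Type} [Fintype Ω] [Fintype Ω'] [Fintype α] [Fintype β]
    {p : Ω → ℝ} {q : Ω' → ℝ} (hp : IsP p) (hq : IsP q) (f : Ω → α) (g : Ω' → β)
    (φ : α × β → δ) :
    H (pp (pr p f) (pr q g)) φ = H (pp p q) (fun u => φ (f u.1, g u.2)) := by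
  rw [pp_pr hp hq, H_law]

/-- exchange of the second and third of four independent copies -/
theorem H_swap23 {Ω δ : Type} [Fintype Ω] (r : Ω → ℝ) (φ : (Ω × Ω) × (Ω × Ω) → δ) :
    H (pp (pp r r) (pp r r)) φ
      = H (pp (pp r r) (pp r r)) (fun u => φ ((u.1.1, u.2.1), (u.1.2, u.2.2))) := by
  let e : (Ω × Ω) × (Ω × Ω) ≃ (Ω × Ω) × (Ω × Ω) :=
    ⟨fun u => ((u.1.1, u.2.1), (u.1.2, u.2.2)), fun u => ((u.1.1, u.2.1), (u.1.2, u.2.2)),
      fun _ => rfl, fun _ => rfl⟩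
  rw [H_equiv e]
  congr 1
  funext u
  simp only [pp, e, Equiv.coe_fn_mk]
  ring

/-- exchange of the first and second of four independent copies -/
theorem H_swap12 {Ω δ : Type} [Fintype Ω] (r : Ω → ℝ) (φ : (Ω × Ω) × (Ω × Ω) → δ) :
    H (pp (pp r r) (pp r r)) φ
      = H (pp (pp r r) (pp r r)) (fun u => φ ((u.1.2, u.1.1), u.2)) := by
  let e : (Ω × Ω) × (Ω × Ω) ≃ (Ω × Ω) × (Ω × Ω) :=
    ⟨fun u => ((u.1.2, u.1.1), u.2), fun u => ((u.1.2, u.1.1), u.2), fun _ => rfl, fun _ => rfl⟩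
  rw [H_equiv e]
  congr 1
  funext u
  simp only [pp, e, Equiv.coe_fn_mk]
  ring

end Pool.Agent.H65.SPD
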