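import Pool.Agent.H65.SPD.Defs
import Pool.Agent.H65.SPD.Tls
set_option autoImplicit false

/-!
# BsgA (size 3).  Three pair sums.

`P = pp (fW r) (fW r)`; a point is `u = ((X₁, (s, Y₁, Y₂)), (X₃, (s', Y₃, Y₄)))` with `s = X₁ + X₂`, `s' = X₃ + X₄`, i.e.
`X₁ = u.1.1`, `s = u.1.2.1`, `(Y₁,Y₂) = u.1.2.2`, `X₃ = u.2.1`, `s' = u.2.2.1`, `(Y₃,Y₄) = u.2.2.2`.
By `H_pp_pr` (`fW r` is a `pr`) all entropies are entropies on `P4 = pp (pp r r) (pp r r)` with `s = X₁ + X₂` etc.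
`HS_s`: `(s, s + s', ..)` is equivalent to `((s, Y₁, Y₂), (s', Y₃, Y₄))` (`H_ker` or `H_congr`), independent (`indep_pp`,
`H_indep`, `H_pp_fst`, `H_pp_snd`): `2 HS`.
`HS_A`: `(X₁+X₃, X₁+X₂+X₃+X₄, Y's)` on `P4` is equivalent to `((X₁+X₃, Y₁, Y₃), (X₂+X₄, Y₂, Y₄))`; apply `H_swap23` (it
exchanges the copies 2 and 3) and independence: `2 HS`.
`HS_B`: `s - X₁ + X₃ = X₂ + X₃`; `(X₂+X₃, S, Y's)` is equivalent to `((X₂+X₃, Y₂, Y₃), (X₁+X₄, Y₁, Y₄))`; `H_swap12`, then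
as before.
-/
namespace Pool.Agent.H65.SPD
open Finset Pool.Agent.Ldc
variable {G β : Type} [AddCommGroup G] [Fintype G] [Fintype β] {r : G × β → ℝ}

/-- entropy of `(X₁ + X₂, Y₁, Y₂)` -/
noncomputable def HS (r : G × β → ℝ) : ℝ := H (pp r r) (fun u => (u.1.1 + u.2.1, u.1.2, u.2.2))

private theorem BsgA_base (hr : IsP r) :
    H (pp (pp r r) (pp r r)) (fun u => ((u.1.1.1 + u.1.2.1, u.1.1.2, u.1.2.2),
      (u.2.1.1 + u.2.2.1, u.2.1.2, u.2.2.2))) = 2 * HS r := by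
  have hpp := pp_isP hr hr
  have hI := indep_pp hpp hpp
    (fun v : (G × β) × (G × β) => (v.1.1 + v.2.1, v.1.2, v.2.2))
    (fun v : (G × β) × (G × β) => (v.1.1 + v.2.1, v.1.2, v.2.2))
  have h := H_indep (pp_isP hpp hpp) _ _ hI
  have e1 := H_pp_fst (p := pp r r) hpp
    (fun v : (G × β) × (G × β) => (v.1.1 + v.2.1, v.1.2, v.2.2))
  have e2 := H_pp_snd (q := pp r r) hpp
    (fun v : (G × β) × (G × β) => (v.1.1 + v.2.1, v.1.2, v.2.2))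
  rw [e1, e2] at h
  rw [h]
  unfold HS
  ring

theorem HS_s (hr : IsP r) :
    H (pp (fW r) (fW r)) (fun u => (u.1.2.1, (u.1.2.1 + u.2.2.1, u.1.2.2, u.2.2.2))) = 2 * HS r := by
  have hpp := pp_isP hr hr
  rw [← BsgA_base hr]
  unfold fW
  rw [H_pp_pr hpp hpp]
  refine H_ker _ _ _ fun ω ω' => ?_
  simp only [Prod.ext_iff]
  constructor
  · rintro ⟨h1, h2, ⟨h3, h4⟩, h5, h6⟩
    rw [h1] at h2
    exact ⟨⟨h1, h3, h4⟩, add_left_cancel h2, h5, h6⟩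
  · rintro ⟨⟨h1, h3, h4⟩, h2, h5, h6⟩
    exact ⟨h1, by rw [h1, h2], ⟨h3, h4⟩, h5, h6⟩

theorem HS_A (hr : IsP r) :
    H (pp (fW r) (fW r)) (fun u => (u.1.1 + u.2.1, (u.1.2.1 + u.2.2.1, u.1.2.2, u.2.2.2)))
      = 2 * HS r := by
  have hpp := pp_isP hr hr
  rw [← BsgA_base hr]
  unfold fW
  rw [H_pp_pr hpp hpp, H_swap23]
  refine H_ker _ _ _ fun ω ω' => ?_
  simp only [Prod.ext_iff]
  have e : ∀ a c b d : G, a + c + (b + d) = (a + b) + (c + d) := fun a c b d => by abel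
  constructor
  · rintro ⟨h1, h2, ⟨h3, h4⟩, h5, h6⟩
    refine ⟨⟨h1, h3, h5⟩, ?_, h4, h6⟩
    rw [e ω.1.1.1, e ω'.1.1.1, h1] at h2
    exact add_left_cancel h2
  · rintro ⟨⟨h1, h3, h4⟩, h2, h5, h6⟩
    refine ⟨h1, ?_, ⟨h3, h5⟩, h4, h6⟩
    rw [e ω.1.1.1, e ω'.1.1.1, h1, h2]

theorem HS_B (hr : IsP r) :
    H (pp (fW r) (fW r)) (fun u => (u.1.2.1 - u.1.1 + u.2.1,
      (u.1.2.1 + u.2.2.1, u.1.2.2, u.2.2.2))) = 2 * HS r := by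
  have hpp := pp_isP hr hr
  rw [← BsgA_base hr]
  unfold fW
  rw [H_pp_pr hpp hpp, H_swap12, H_swap23]
  refine H_ker _ _ _ fun ω ω' => ?_
  simp only [Prod.ext_iff, add_sub_cancel_left]
  have e : ∀ c a b d : G, c + a + (b + d) = (a + b) + (c + d) := fun c a b d => by abel
  constructor
  · rintro ⟨h1, h2, ⟨h3, h4⟩, h5, h6⟩
    refine ⟨⟨h1, h4, h5⟩, ?_, h3, h6⟩
    rw [e ω.2.1.1, e ω'.2.1.1, h1] at h2
    exact add_left_cancel h2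
  · rintro ⟨⟨h1, h3, h4⟩, h2, h5, h6⟩
    refine ⟨h1, ?_, ⟨h5, h3⟩, h4, h6⟩
    rw [e ω.2.1.1, e ω'.2.1.1, h1, h2]

end Pool.Agent.H65.SPD
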