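import Pool.Agent.H65.SPD.Defs
import Pool.Agent.H65.SPD.Tls
import Pool.Agent.H65.SPD.BsgA
set_option autoImplicit false

/-!
# BsgB (size 3).  The conditional mutual information is `I = D2(U) + D2(W) - 2 D2(F)`.

Notation of BsgA: `P = pp (fW r) (fW r)`, `A = X₁ + X₃`, `B = s - X₁ + X₃ = X₂ + X₃`, `h = (s + s', (Y₁,Y₂), (Y₃,Y₄))`.
`cmi P A B h = H(A,h) + H(B,h) - H(A,B,h) - H(h) = 4 HS - H(A,B,h) - H(h)` (`HS_A`, `HS_B`).
`D2(W) = log|G| - (H(X₁+X₃, w, w') - 2 H(w))` by definition, `H(w) = H (fW r) (fun u => u.2) = HS r` (`H_law`), and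
`(X₁+X₃, w, w')` with `w = (s,Y₁,Y₂)`, `w' = (s',Y₃,Y₄)` is equivalent to `(A, B, h)`: `A + B = s + 2 X₃`, which equals `s` since
`g + g = 0` (hypothesis `h2`); so `s = A + B`, `s' = (s + s') - s`, and `B = s - A` (again `h2`) (`H_ker`).
`D2(U) = log|G| - (H_{pp (fU r) (fU r)}(sum, (Y₁,Y₂), (Y₃,Y₄)) - 2 H(fU r)(data))`; `H_pp_pr` (twice) shows that the first entropy is
`H P h` (both are `H` of `(X₁+X₂+(X₃+X₄), (Y₁,Y₂), (Y₃,Y₄))` on `pp (pp r r) (pp r r)`), the second is `2 H(Y)` (`H_law`, `H_indep`).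
`D2(F) = log|G| - (HS - 2 H(Y))`.
So `D2(U) + D2(W) - 2 D2(F) = -H(h) + 4H(Y) - H(A,B,h) + 2HS + 2HS - 4 H(Y)`, which is the `cmi`.
-/
namespace Pool.Agent.H65.SPD
open Finset Pool.Agent.Ldc
variable {G β : Type} [AddCommGroup G] [Fintype G] [Fintype β] {r : G × β → ℝ}

theorem bsg_cmi (h2 : ∀ g : G, g + g = 0) (hr : IsP r) :
    cmi (pp (fW r) (fW r)) (fun u => u.1.1 + u.2.1) (fun u => u.1.2.1 - u.1.1 + u.2.1)
        (fun u => (u.1.2.1 + u.2.2.1, u.1.2.2, u.2.2.2))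
      = D2 (fU r) + D2 (fW r) - 2 * D2 r := by
  have hpp := pp_isP hr hr
  have hA := HS_A hr
  have hB := HS_B hr
  have hneg : ∀ g : G, -g = g := fun g => neg_eq_of_add_eq_zero_left (h2 g)
  -- D2(W)
  have w1 : H (fW r) (fun u => u.2) = HS r := by
    unfold fW
    rw [H_law]
    rfl
  have w2 : H (pp (fW r) (fW r)) (fun u => (u.1.1 + u.2.1, u.1.2, u.2.2))
      = H (pp (fW r) (fW r)) (fun u => (u.1.1 + u.2.1, u.1.2.1 - u.1.1 + u.2.1,
          (u.1.2.1 + u.2.2.1, u.1.2.2, u.2.2.2))) := by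
    refine H_ker _ _ _ fun ω ω' => ?_
    simp only [Prod.ext_iff]
    have e1 : ∀ s a b : G, s - a + b = s + (a + b) := fun s a b => by
      rw [sub_eq_add_neg, hneg, add_assoc]
    constructor
    · rintro ⟨h1, ⟨h3, h4, h5⟩, h6, h7, h8⟩
      refine ⟨h1, ?_, ?_, ⟨h4, h5⟩, h7, h8⟩
      · rw [e1, e1, h1, h3]
      · rw [h3, h6]
    · rintro ⟨h1, h3, h4, ⟨h5, h6⟩, h7, h8⟩
      rw [e1, e1, h1] at h3
      have h9 := add_right_cancel h3
      rw [h9] at h4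
      exact ⟨h1, ⟨h9, h5, h6⟩, add_left_cancel h4, h7, h8⟩
  -- D2(U)
  have u1 : H (fU r) (fun u => u.2) = 2 * H r (fun u => u.2) := by
    unfold fU
    rw [H_law]
    have hI := indep_pp hr hr (fun v : G × β => v.2) (fun v : G × β => v.2)
    have h := H_indep hpp _ _ hI
    rw [H_pp_fst hr (fun v : G × β => v.2), H_pp_snd hr (fun v : G × β => v.2)] at h
    rw [two_mul]
    exact h
  have u2 : H (pp (fU r) (fU r)) (fun u => (u.1.1 + u.2.1, u.1.2, u.2.2))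
      = H (pp (fW r) (fW r)) (fun u => (u.1.2.1 + u.2.2.1, u.1.2.2, u.2.2.2)) := by
    unfold fU fW
    rw [H_pp_pr hpp hpp, H_pp_pr hpp hpp]
  have d1 : D2 (fU r) = Real.log (Fintype.card G : ℝ)
      - (H (pp (fU r) (fU r)) (fun u => (u.1.1 + u.2.1, u.1.2, u.2.2))
        - 2 * H (fU r) (fun u => u.2)) := rfl
  have d2 : D2 (fW r) = Real.log (Fintype.card G : ℝ)
      - (H (pp (fW r) (fW r)) (fun u => (u.1.1 + u.2.1, u.1.2, u.2.2))
        - 2 * H (fW r) (fun u => u.2)) := rfl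
  have d3 : D2 r = Real.log (Fintype.card G : ℝ) - (HS r - 2 * H r (fun u => u.2)) := rfl
  rw [d1, d2, d3, u1, u2, w1, w2]
  unfold cmi
  rw [hA, hB]
  ring

end Pool.Agent.H65.SPD
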