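import Pool.Agent.H65.SPD.Defs
set_option autoImplicit false

/-!
# FamA (size 2).  `d_K` and `L` of a family as averages over the data.

`H_cond_sum` with `g = (fun u => u.2)`: `H(f, Y) = H(Y) + Σ_b P(Y = b) H(cnd r Y b, f)` for `f = mk ∘ fst`, and
`H (cnd r Y b) (mk ∘ fst) = H (xb r b) mk` (`H_law`).  `Σ_b P(Y=b) = 1` (`pr_isP`).  For `Lf`: `f = fst`, `ent_eq_H`.
`wb_nonneg`, `wb_sum`: `pr_isP`.  `xb_isP`: `cnd_isP`, `pr_isP`.
-/
namespace Pool.Agent.H65.SPD
open Finset Pool.Agent.Ldc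
variable {G β : Type} [AddCommGroup G] [Fintype G] [Fintype β] {r : G × β → ℝ}

theorem wb_nonneg (hr : IsP r) (b : β) : 0 ≤ wb r b := (pr_isP hr (fun u => u.2)).1 b

theorem wb_sum (hr : IsP r) : ∑ b, wb r b = 1 := (pr_isP hr (fun u => u.2)).2

theorem xb_isP (hr : IsP r) (b : β) (h : 0 < wb r b) : IsP (xb r b) :=
  pr_isP (cnd_isP hr (fun u => u.2) b h) (fun u => u.1)

theorem dK_avg (hr : IsP r) (K : AddSubgroup G) : dK r K = ∑ b, wb r b * dl (xb r b) K := by
  have h1 := H_cond_sum hr (fun u => (QuotientAddGroup.mk u.1 : G ⧸ K)) (fun u => u.2)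
  have h2 : ∀ b, H (cnd r (fun u => u.2) b) (fun u => (QuotientAddGroup.mk u.1 : G ⧸ K))
      = H (xb r b) (fun g => (QuotientAddGroup.mk g : G ⧸ K)) := by
    intro b
    unfold xb
    rw [H_law]
  unfold dK
  rw [h1]
  have h3 : ∑ b, wb r b * dl (xb r b) K
      = (∑ b, wb r b) * ci K - ∑ b, pr r (fun u => u.2) b *
        H (cnd r (fun u => u.2) b) (fun u => (QuotientAddGroup.mk u.1 : G ⧸ K)) := by
    rw [Finset.sum_mul, ← Finset.sum_sub_distrib]
    refine Finset.sum_congr rfl fun b _ => ?_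
    rw [h2 b]
    unfold dl wb
    ring
  rw [h3, wb_sum hr]
  ring

theorem Lf_avg (hr : IsP r) : Lf r = ∑ b, wb r b * df (xb r b) := by
  have h1 := H_cond_sum hr (fun u => u.1) (fun u => u.2)
  have h2 : ∀ b, H (cnd r (fun u => u.2) b) (fun u => u.1) = ent (xb r b) := by
    intro b
    unfold xb
    rw [H_eq_ent]
  unfold Lf
  rw [h1]
  have h3 : ∑ b, wb r b * df (xb r b)
      = (∑ b, wb r b) * Real.log (Fintype.card G : ℝ) - ∑ b, pr r (fun u => u.2) b *
        H (cnd r (fun u => u.2) b) (fun u => u.1) := by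
    rw [Finset.sum_mul, ← Finset.sum_sub_distrib]
    refine Finset.sum_congr rfl fun b _ => ?_
    rw [h2 b]
    unfold df wb
    ring
  rw [h3, wb_sum hr]
  ring

end Pool.Agent.H65.SPD
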