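import Pool.Agent.H65.SPD.Defs
import Pool.Agent.H65.SPD.FamA
import Pool.Agent.H65.SPD.Tls
import Pool.Agent.Ldc.E4
import Pool.Agent.Ldc.E7a
set_option autoImplicit false

/-!
# FamB (size 3).  `D2` of a family as an average over pairs of data.

On `P = pp r r` let `g u = (u.1.2, u.2.2)` (the pair of data), `f u = u.1.1 + u.2.1`.  `H_cond_sum` (the variable `(f, g)`):
`H(f, g) = H(g) + Σ_{(b,b')} P(g = (b,b')) H(cnd P g (b,b'), f)`.
`H(g) = 2 H(Y)` (`indep_pp`, `H_indep`, `H_pp_fst`, `H_pp_snd`), `P(g = (b,b')) = wb r b * wb r b'` (`indep_pp`, `pr_pp_fst`,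
`pr_pp_snd`), and for `wb r b, wb r b' > 0`:
`cnd P g (b,b') = pp (cnd r Y b) (cnd r Y b')` (pointwise), hence `pr (cnd P g (b,b')) f = cv (xb r b) (xb r b')`
(`pr_pp_fst` / `pr_pr`; the pair `(u.1.1, u.2.1)` has law `pp (xb r b) (xb r b')`, `pr_pair_of_indep`).
Terms with weight zero vanish on both sides.  Finally `Σ Σ wb wb = 1`.
-/
namespace Pool.Agent.H65.SPD
open Finset Pool.Agent.Ldc
variable {G β : Type} [AddCommGroup G] [Fintype G] [Fintype β] {r : G × β → ℝ}

private theorem FamB_w (hr : IsP r) (b b' : β) :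
    pr (pp r r) (fun u => (u.1.2, u.2.2)) (b, b') = wb r b * wb r b' := by
  have h := indep_pp hr hr (fun u : G × β => u.2) (fun u : G × β => u.2) b b'
  rw [pr_pp_fst hr, pr_pp_snd hr] at h
  exact h

private theorem FamB_cnd (hr : IsP r) (b b' : β) :
    cnd (pp r r) (fun u => (u.1.2, u.2.2)) (b, b')
      = pp (cnd r (fun u => u.2) b) (cnd r (fun u => u.2) b') := by
  classical
  funext u
  rw [E7a_cnd_apply, FamB_w hr]
  unfold pp
  rw [E7a_cnd_apply, E7a_cnd_apply]
  unfold wb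
  by_cases h1 : u.1.2 = b
  · by_cases h2 : u.2.2 = b'
    · rw [if_pos (by rw [h1, h2]), if_pos h1, if_pos h2, mul_div_mul_comm]
    · rw [if_neg (fun h => h2 (Prod.ext_iff.mp h).2), if_neg h2, mul_zero]
  · rw [if_neg (fun h => h1 (Prod.ext_iff.mp h).1), if_neg h1, zero_mul]

/-- given the data, the sum has the law of the sum of two independent variables -/
theorem pr_cnd_sum (hr : IsP r) (b b' : β) (h : 0 < wb r b) (h' : 0 < wb r b') :
    pr (cnd (pp r r) (fun u => (u.1.2, u.2.2)) (b, b')) (fun u => u.1.1 + u.2.1)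
      = cv (xb r b) (xb r b') := by
  rw [FamB_cnd hr]
  unfold cv xb
  rw [pp_pr (cnd_isP hr _ _ h) (cnd_isP hr _ _ h'), pr_pr]

theorem D2_avg (hr : IsP r) :
    D2 r = ∑ b, ∑ b', wb r b * wb r b' * df (cv (xb r b) (xb r b')) := by
  have h1 := H_cond_sum (pp_isP hr hr) (fun u : (G × β) × (G × β) => u.1.1 + u.2.1)
    (fun u => (u.1.2, u.2.2))
  have h2 : H (pp r r) (fun u : (G × β) × (G × β) => (u.1.2, u.2.2)) = 2 * H r (fun u => u.2) := by
    have h := H_indep (pp_isP hr hr) _ _ (indep_pp hr hr (fun u : G × β => u.2) (fun u : G × β => u.2))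
    rw [H_pp_fst hr, H_pp_snd hr] at h
    rw [h]
    ring
  have h3 : ∑ b, pr (pp r r) (fun u => (u.1.2, u.2.2)) b *
      H (cnd (pp r r) (fun u => (u.1.2, u.2.2)) b) (fun u : (G × β) × (G × β) => u.1.1 + u.2.1) =
      ∑ b, ∑ b', wb r b * wb r b' * ent (cv (xb r b) (xb r b')) := by
    rw [Fintype.sum_prod_type]
    refine Finset.sum_congr rfl fun b _ => Finset.sum_congr rfl fun b' _ => ?_
    rw [FamB_w hr]
    rcases (wb_nonneg hr b).lt_or_eq with hb | hb
    · rcases (wb_nonneg hr b').lt_or_eq with hb' | hb'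
      · rw [H_eq_ent, pr_cnd_sum hr b b' hb hb']
      · rw [← hb']; ring
    · rw [← hb]; ring
  have h4 : ∑ b, ∑ b', wb r b * wb r b' = 1 := by
    rw [← Finset.sum_mul_sum, wb_sum hr, one_mul]
  have h5 : ∑ b, ∑ b', wb r b * wb r b' * df (cv (xb r b) (xb r b')) =
      (∑ b, ∑ b', wb r b * wb r b') * Real.log (Fintype.card G : ℝ)
        - ∑ b, ∑ b', wb r b * wb r b' * ent (cv (xb r b) (xb r b')) := by
    rw [Finset.sum_mul, ← Finset.sum_sub_distrib]
    refine Finset.sum_congr rfl fun b _ => ?_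
    rw [Finset.sum_mul, ← Finset.sum_sub_distrib]
    refine Finset.sum_congr rfl fun b' _ => ?_
    unfold df
    ring
  rw [h5, h4]
  unfold D2
  rw [h1, h2, h3]
  ring

end Pool.Agent.H65.SPD
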