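import Pool.Agent.H65.SPD.Defs
import Pool.Agent.H65.SPD.Tls
import Pool.Agent.H65.SPD.FamB
import Pool.Agent.H65.SPD.BsgA
import Pool.Agent.H65.SPD.BsgB
import Pool.Agent.Ldc.E7c
set_option autoImplicit false

/-!
# BsgC (size 4).  Entropic Balog-Szemeredi-Gowers for the family `W`.

`P = pp (fW r) (fW r)`, `A = X₁ + X₃`, `B = s - X₁ + X₃`, `h = (s + s', (Y₁,Y₂), (Y₃,Y₄))` as in BsgB.
The library theorem `BSG hp A B h` (`Ldc/E7c.lean`) says
`Σ_v P((A+B, h) = v) rd(A_v, B_v) ≤ 3 cmi P A B h + 2 (H(A+B,h) - H(h)) - (H(A,h) - H(h)) - (H(B,h) - H(h))`.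
`A + B = s + 2 X₃ = s` (`h2`), so by `HS_s`, `HS_A`, `HS_B` the last three terms cancel; `cmi = D2(U) + D2(W) - 2 D2` (`bsg_cmi`).
Left side: reindex `v = (a, (b, y, y')) ↔ (w, w') = ((a, y), (b - a, y'))` (an equivalence
`G × (G × (β×β) × (β×β)) ≃ (G×β×β) × (G×β×β)`); the events `(A+B, h) = v` and `(u.1.2, u.2.2) = (w, w')` are the same, so
`P(..= v) = wb (fW r) w * wb (fW r) w'` (`indep_pp`, `pr_pp_fst`, `pr_pp_snd`) and `cnd P (A+B,h) v = cnd P (fun u => (u.1.2, u.2.2)) (w,w')`.
If the weight is zero both terms vanish.  Otherwise `A_v = cv (xb W w) (xb W w') =: t` by `pr_cnd_sum` (FamB, applied to the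
family `fW r`), and under the conditional law `B = a - X₁ + X₃ = a + A` (as `-X₁ = X₁` by `h2`), so `B_v = fun g => t (g - a)` and
`rd(A_v, B_v) = rd t t` (`rd_translate`, `rd_comm`).
-/
namespace Pool.Agent.H65.SPD
open Finset Pool.Agent.Ldc
variable {G β : Type} [AddCommGroup G] [Fintype G] [Fintype β] {r : G × β → ℝ}

private theorem pr_emb {Ω α γ : Type} [Fintype Ω] (e : α ≃ γ) (p : Ω → ℝ) (g : Ω → α) (x : α) :
    pr p (fun u => e (g u)) (e x) = pr p g x := by
  unfold pr pe
  apply Finset.sum_congr rfl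
  intro u _
  by_cases h : g u = x
  · rw [if_pos h, if_pos (show e (g u) = e x by rw [h])]
  · rw [if_neg h, if_neg (fun h1 => h (e.injective h1))]

private theorem cnd_emb {Ω α γ : Type} [Fintype Ω] (e : α ≃ γ) (p : Ω → ℝ) (g : Ω → α) (x : α) :
    cnd p (fun u => e (g u)) (e x) = cnd p g x := by
  funext u
  rw [E7a_cnd_apply, E7a_cnd_apply, pr_emb e p g x]
  by_cases h : g u = x
  · rw [if_pos h, if_pos (show e (g u) = e x by rw [h])]
  · rw [if_neg h, if_neg (fun h1 => h (e.injective h1))]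

theorem bsg_W (h2 : ∀ g : G, g + g = 0) (hr : IsP r) :
    ∑ w, ∑ w', wb (fW r) w * wb (fW r) w' *
        rd (cv (xb (fW r) w) (xb (fW r) w')) (cv (xb (fW r) w) (xb (fW r) w'))
      ≤ 3 * (D2 (fU r) + D2 (fW r) - 2 * D2 r) := by
  classical
  have hW : IsP (fW r) := pr_isP (pp_isP hr hr) _
  have hp : IsP (pp (fW r) (fW r)) := pp_isP hW hW
  set P := pp (fW r) (fW r) with hP
  let A : (G × (G × β × β)) × (G × (G × β × β)) → G := fun u => u.1.1 + u.2.1
  let B : (G × (G × β × β)) × (G × (G × β × β)) → G := fun u => u.1.2.1 - u.1.1 + u.2.1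
  let h : (G × (G × β × β)) × (G × (G × β × β)) → G × (β × β) × (β × β) :=
    fun u => (u.1.2.1 + u.2.2.1, u.1.2.2, u.2.2.2)
  have hAB : ∀ u, A u + B u = u.1.2.1 := by
    intro u
    show u.1.1 + u.2.1 + (u.1.2.1 - u.1.1 + u.2.1) = u.1.2.1
    have h3 := h2 u.2.1
    have : u.1.1 + u.2.1 + (u.1.2.1 - u.1.1 + u.2.1) = u.1.2.1 + (u.2.1 + u.2.1) := by abel
    rw [this, h3, add_zero]
  have main := BSG hp A B h
  have hF : (fun ω => (A ω + B ω, h ω)) =
      fun u => (u.1.2.1, (u.1.2.1 + u.2.2.1, u.1.2.2, u.2.2.2)) := by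
    funext u
    rw [hAB u]
  have eA : H P (fun ω => (A ω, h ω)) = 2 * HS r := HS_A hr
  have eB : H P (fun ω => (B ω, h ω)) = 2 * HS r := HS_B hr
  have eS : H P (fun u => (u.1.2.1, (u.1.2.1 + u.2.2.1, u.1.2.2, u.2.2.2))) = 2 * HS r := HS_s hr
  have eC : cmi P A B h = D2 (fU r) + D2 (fW r) - 2 * D2 r := bsg_cmi h2 hr
  rw [hF, eA, eB, eS, eC] at main
  -- the reindexing
  let e : (G × β × β) × (G × β × β) ≃ G × (G × (β × β) × (β × β)) :=
    { toFun := fun x => (x.1.1, (x.1.1 + x.2.1, x.1.2, x.2.2))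
      invFun := fun v => ((v.1, v.2.2.1), (v.2.1 - v.1, v.2.2.2))
      left_inv := by
        rintro ⟨⟨a, b⟩, ⟨c, d⟩⟩
        simp
      right_inv := by
        rintro ⟨a, b, c, d⟩
        simp }
  let g2 : (G × (G × β × β)) × (G × (G × β × β)) → (G × β × β) × (G × β × β) :=
    fun u => (u.1.2, u.2.2)
  have hFe : (fun u : (G × (G × β × β)) × (G × (G × β × β)) =>
      (u.1.2.1, (u.1.2.1 + u.2.2.1, u.1.2.2, u.2.2.2))) = fun u => e (g2 u) := rfl
  rw [hFe] at main
  have hL : ∑ w, ∑ w', wb (fW r) w * wb (fW r) w' *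
        rd (cv (xb (fW r) w) (xb (fW r) w')) (cv (xb (fW r) w) (xb (fW r) w')) =
      ∑ v, pr P (fun u => e (g2 u)) v *
        rd (pr (cnd P (fun u => e (g2 u)) v) A) (pr (cnd P (fun u => e (g2 u)) v) B) := by
    rw [← e.sum_comp]
    symm
    rw [Fintype.sum_prod_type]
    apply Finset.sum_congr rfl
    intro w _
    apply Finset.sum_congr rfl
    intro w' _
    symm
    rw [pr_emb e P g2 (w, w'), cnd_emb e P g2 (w, w')]
    have hw : pr P g2 (w, w') = wb (fW r) w * wb (fW r) w' := by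
      have h3 := indep_pp hW hW (fun u => u.2) (fun u => u.2) w w'
      rw [pr_pp_fst hW, pr_pp_snd hW] at h3
      exact h3
    rw [hw]
    rcases (mul_nonneg (pr_nonneg hW (fun u => u.2) w) (pr_nonneg hW (fun u => u.2) w')).eq_or_lt
      with h0 | h0
    · have h1 : wb (fW r) w * wb (fW r) w' = 0 := h0.symm
      rw [h1]
      ring
    · have hw1 : 0 < wb (fW r) w := by
        rcases (pr_nonneg hW (fun u => u.2) w).eq_or_lt with h4 | h4
        · rw [← h4, zero_mul] at h0
          exact absurd h0 (lt_irrefl _)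
        · exact h4
      have hw2 : 0 < wb (fW r) w' := by
        rcases (pr_nonneg hW (fun u => u.2) w').eq_or_lt with h4 | h4
        · rw [← h4, mul_zero] at h0
          exact absurd h0 (lt_irrefl _)
        · exact h4
      have hA : pr (cnd P g2 (w, w')) A = cv (xb (fW r) w) (xb (fW r) w') :=
        pr_cnd_sum hW w w' hw1 hw2
      have hB : pr (cnd P g2 (w, w')) B = fun g => pr (cnd P g2 (w, w')) A (g - w.1) := by
        funext g
        unfold pr pe
        apply Finset.sum_congr rfl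
        intro u _
        rw [E7a_cnd_apply]
        by_cases hu : g2 u = (w, w')
        · have h5 : u.1.2 = w := congrArg Prod.fst hu
          have h6 : B u = w.1 + A u := by
            show u.1.2.1 - u.1.1 + u.2.1 = w.1 + (u.1.1 + u.2.1)
            rw [h5]
            have h7 : -u.1.1 = u.1.1 := by
              rw [neg_eq_iff_add_eq_zero]
              exact h2 _
            rw [sub_eq_add_neg, h7, add_assoc]
          have hiff : (B u = g) ↔ (A u = g - w.1) := by
            rw [h6, eq_sub_iff_add_eq, add_comm]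
          by_cases h8 : A u = g - w.1
          · have h9 : B u = g := hiff.2 h8
            simp only [h8, h9, if_true]
          · have h9 : ¬ B u = g := fun h => h8 (hiff.1 h)
            simp only [h8, h9, if_false]
        · rw [if_neg hu]
          simp
      rw [hB, hA, rd_comm (cv (xb (fW r) w) (xb (fW r) w')) (fun g =>
        cv (xb (fW r) w) (xb (fW r) w') (g - w.1)), rd_translate]
  rw [hL]
  linarith

end Pool.Agent.H65.SPD
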