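import Pool.Agent.H65.SPD.Defs
import Pool.Agent.H65.SPD.Tls
set_option autoImplicit false

/-!
# FKm (size 3).  Inequality (1):  `K' ≤ K  ⟹  f(K) ≤ d_{K'} - d_K + f(K')`.

On `pp r r`: `S = X₁ + X₂`, `π = mod K`, `π' = mod K'` (`π` is a function of `π'`), `Pt = ((Y₁, πX₁), (Y₂, πX₂))`,
`Pt' = ((Y₁, π'X₁), (Y₂, π'X₂))`.  `H(Pt) = 2 H(Y, πX)`, `H(Pt') = 2 H(Y, π'X)` (`H_indep`, `H_pp_fst`, `H_pp_snd`).
`H_submod` with `f = S`, `g = Pt'`, `h = (π'S, Pt)`, using `H_congr` (`π'S` is a function of `S` and of `Pt'`; `Pt` of `Pt'`):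
  `H(S, Pt') + H(π'S, Pt) ≤ H(S, Pt) + H(Pt')`.                                         (a)
`H_cond_anti` (condition also on `X₂`): with `Z = ((Y₁, πX₁), (X₂, Y₂))`
  `H(π'S, Pt) - H(Pt) ≥ H(π'S, Z) - H(Z) = H(π'X₁, Z) - H(Z) = H(Y, π'X) - H(Y, πX)`.    (b)
[`H_congr`: `π'X₁ = π'S - π'X₂`; independence: `H(π'X₁, Z) = H(Y,π'X) + H(X,Y)`, `H(Z) = H(Y,πX) + H(X,Y)`.]
Now `f(K) - f(K') = log|K| - log|K'| - (H(S,Pt) - H(Pt)) + (H(S,Pt') - H(Pt')) ≤ log|K| - log|K'| - (H(Y,π'X) - H(Y,πX))`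
by (a), (b), and the right side is `d_{K'} - d_K` (`ci K' - ci K = log|K| - log|K'|`; `H(π'X, Y) = H(Y, π'X)` by `H_congr`).
-/
namespace Pool.Agent.H65.SPD
open Finset Pool.Agent.Ldc
variable {G β : Type} [AddCommGroup G] [Fintype G] [Fintype β] {r : G × β → ℝ}

private theorem FKm_pair {A B : Type} (hr : IsP r) (f : G × β → A) (g : G × β → B) :
    H (pp r r) (fun u => (f u.1, g u.2)) = H r f + H r g := by
  rw [H_indep (pp_isP hr hr) (fun u => f u.1) (fun u => g u.2) (indep_pp hr hr f g),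
    H_pp_fst hr, H_pp_snd hr]

theorem fK_le (hr : IsP r) {K K' : AddSubgroup G} (h : K' ≤ K) :
    fK r K ≤ dK r K' - dK r K + fK r K' := by
  have hP : IsP (pp r r) := pp_isP hr hr
  -- the projection modulo `K` is a function of the projection modulo `K'`
  have hmk : ∀ a b : G, (QuotientAddGroup.mk a : G ⧸ K') = QuotientAddGroup.mk b →
      (QuotientAddGroup.mk a : G ⧸ K) = QuotientAddGroup.mk b := by
    intro a b hab
    rw [QuotientAddGroup.eq] at hab ⊢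
    exact h hab
  have hadd : ∀ (L : AddSubgroup G) (a b : G), (QuotientAddGroup.mk (a + b) : G ⧸ L) =
      QuotientAddGroup.mk a + QuotientAddGroup.mk b := fun L a b => rfl
  -- (a)
  have ha := H_submod hP (fun u : (G × β) × (G × β) => u.1.1 + u.2.1)
    (fun u : (G × β) × (G × β) => ((u.1.2, (QuotientAddGroup.mk u.1.1 : G ⧸ K')),
      (u.2.2, (QuotientAddGroup.mk u.2.1 : G ⧸ K'))))
    (fun u : (G × β) × (G × β) => ((QuotientAddGroup.mk (u.1.1 + u.2.1) : G ⧸ K'),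
      ((u.1.2, (QuotientAddGroup.mk u.1.1 : G ⧸ K)), (u.2.2, (QuotientAddGroup.mk u.2.1 : G ⧸ K)))))
  have a1 : H (pp r r) (fun u : (G × β) × (G × β) => (u.1.1 + u.2.1,
      ((u.1.2, (QuotientAddGroup.mk u.1.1 : G ⧸ K')), (u.2.2, (QuotientAddGroup.mk u.2.1 : G ⧸ K'))),
      ((QuotientAddGroup.mk (u.1.1 + u.2.1) : G ⧸ K'),
      ((u.1.2, (QuotientAddGroup.mk u.1.1 : G ⧸ K)), (u.2.2, (QuotientAddGroup.mk u.2.1 : G ⧸ K)))))) =
      H (pp r r) (fun u : (G × β) × (G × β) => (u.1.1 + u.2.1,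
      (u.1.2, (QuotientAddGroup.mk u.1.1 : G ⧸ K')), (u.2.2, (QuotientAddGroup.mk u.2.1 : G ⧸ K')))) := by
    refine H_ker _ _ _ fun ω ω' => ?_
    simp only [Prod.ext_iff]
    constructor
    · rintro ⟨e1, ⟨⟨e2, e3⟩, e4, e5⟩, -⟩
      exact ⟨e1, ⟨e2, e3⟩, e4, e5⟩
    · rintro ⟨e1, ⟨e2, e3⟩, e4, e5⟩
      exact ⟨e1, ⟨⟨e2, e3⟩, e4, e5⟩, by rw [e1], ⟨e2, hmk _ _ e3⟩, e4, hmk _ _ e5⟩
  have a2 : H (pp r r) (fun u : (G × β) × (G × β) => (u.1.1 + u.2.1,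
      ((QuotientAddGroup.mk (u.1.1 + u.2.1) : G ⧸ K'),
      ((u.1.2, (QuotientAddGroup.mk u.1.1 : G ⧸ K)), (u.2.2, (QuotientAddGroup.mk u.2.1 : G ⧸ K)))))) =
      H (pp r r) (fun u : (G × β) × (G × β) => (u.1.1 + u.2.1,
      (u.1.2, (QuotientAddGroup.mk u.1.1 : G ⧸ K)), (u.2.2, (QuotientAddGroup.mk u.2.1 : G ⧸ K)))) := by
    refine H_ker _ _ _ fun ω ω' => ?_
    simp only [Prod.ext_iff]
    constructor
    · rintro ⟨e1, -, ⟨e2, e3⟩, e4, e5⟩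
      exact ⟨e1, ⟨e2, e3⟩, e4, e5⟩
    · rintro ⟨e1, ⟨e2, e3⟩, e4, e5⟩
      exact ⟨e1, by rw [e1], ⟨e2, e3⟩, e4, e5⟩
  have a3 : H (pp r r) (fun u : (G × β) × (G × β) => (
      ((u.1.2, (QuotientAddGroup.mk u.1.1 : G ⧸ K')), (u.2.2, (QuotientAddGroup.mk u.2.1 : G ⧸ K'))),
      ((QuotientAddGroup.mk (u.1.1 + u.2.1) : G ⧸ K'),
      ((u.1.2, (QuotientAddGroup.mk u.1.1 : G ⧸ K)), (u.2.2, (QuotientAddGroup.mk u.2.1 : G ⧸ K)))))) =
      2 * H r (fun u => (u.2, (QuotientAddGroup.mk u.1 : G ⧸ K'))) := by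
    have e1 : H (pp r r) (fun u : (G × β) × (G × β) => (
        ((u.1.2, (QuotientAddGroup.mk u.1.1 : G ⧸ K')), (u.2.2, (QuotientAddGroup.mk u.2.1 : G ⧸ K'))),
        ((QuotientAddGroup.mk (u.1.1 + u.2.1) : G ⧸ K'),
        ((u.1.2, (QuotientAddGroup.mk u.1.1 : G ⧸ K)), (u.2.2, (QuotientAddGroup.mk u.2.1 : G ⧸ K)))))) =
        H (pp r r) (fun u : (G × β) × (G × β) =>
        ((u.1.2, (QuotientAddGroup.mk u.1.1 : G ⧸ K')), (u.2.2, (QuotientAddGroup.mk u.2.1 : G ⧸ K')))) := by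
      refine H_ker _ _ _ fun ω ω' => ?_
      simp only [Prod.ext_iff]
      constructor
      · rintro ⟨⟨⟨e2, e3⟩, e4, e5⟩, -⟩
        exact ⟨⟨e2, e3⟩, e4, e5⟩
      · rintro ⟨⟨e2, e3⟩, e4, e5⟩
        exact ⟨⟨⟨e2, e3⟩, e4, e5⟩, by rw [hadd, hadd, e3, e5], ⟨e2, hmk _ _ e3⟩, e4, hmk _ _ e5⟩
    rw [e1]
    rw [FKm_pair hr (fun u : G × β => (u.2, (QuotientAddGroup.mk u.1 : G ⧸ K')))
      (fun u : G × β => (u.2, (QuotientAddGroup.mk u.1 : G ⧸ K')))]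
    ring
  rw [a1, a2, a3] at ha
  -- (b)
  have hb := H_cond_anti hP (fun u : (G × β) × (G × β) => (QuotientAddGroup.mk (u.1.1 + u.2.1) : G ⧸ K'))
    (fun u : (G × β) × (G × β) => ((u.1.2, (QuotientAddGroup.mk u.1.1 : G ⧸ K)), (u.2.1, u.2.2)))
    (fun z : (β × (G ⧸ K)) × (G × β) => (z.1, (z.2.2, (QuotientAddGroup.mk z.2.1 : G ⧸ K))))
  have b1 : H (pp r r) (fun u : (G × β) × (G × β) => ((QuotientAddGroup.mk (u.1.1 + u.2.1) : G ⧸ K'),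
      ((u.1.2, (QuotientAddGroup.mk u.1.1 : G ⧸ K)), (u.2.1, u.2.2)))) =
      H r (fun u => (u.2, (QuotientAddGroup.mk u.1 : G ⧸ K'))) + H r (fun u => (u.1, u.2)) := by
    have e1 : H (pp r r) (fun u : (G × β) × (G × β) => ((QuotientAddGroup.mk (u.1.1 + u.2.1) : G ⧸ K'),
        ((u.1.2, (QuotientAddGroup.mk u.1.1 : G ⧸ K)), (u.2.1, u.2.2)))) =
        H (pp r r) (fun u : (G × β) × (G × β) => ((u.1.2, (QuotientAddGroup.mk u.1.1 : G ⧸ K')),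
          (u.2.1, u.2.2))) := by
      refine H_ker _ _ _ fun ω ω' => ?_
      simp only [Prod.ext_iff]
      constructor
      · rintro ⟨e1, ⟨e2, e3⟩, e4, e5⟩
        refine ⟨⟨e2, ?_⟩, e4, e5⟩
        rw [hadd, hadd, e4] at e1
        exact add_right_cancel e1
      · rintro ⟨⟨e2, e3⟩, e4, e5⟩
        exact ⟨by rw [hadd, hadd, e3, e4], ⟨e2, hmk _ _ e3⟩, e4, e5⟩
    rw [e1]
    exact FKm_pair hr (fun u : G × β => (u.2, (QuotientAddGroup.mk u.1 : G ⧸ K')))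
      (fun u : G × β => (u.1, u.2))
  have b2 : H (pp r r) (fun u : (G × β) × (G × β) =>
      ((u.1.2, (QuotientAddGroup.mk u.1.1 : G ⧸ K)), (u.2.1, u.2.2))) =
      H r (fun u => (u.2, (QuotientAddGroup.mk u.1 : G ⧸ K))) + H r (fun u => (u.1, u.2)) := by
    exact FKm_pair hr (fun u : G × β => (u.2, (QuotientAddGroup.mk u.1 : G ⧸ K)))
      (fun u : G × β => (u.1, u.2))
  have b3 : H (pp r r) (fun u : (G × β) × (G × β) =>
      ((u.1.2, (QuotientAddGroup.mk u.1.1 : G ⧸ K)), (u.2.2, (QuotientAddGroup.mk u.2.1 : G ⧸ K)))) =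
      2 * H r (fun u => (u.2, (QuotientAddGroup.mk u.1 : G ⧸ K))) := by
    rw [FKm_pair hr (fun u : G × β => (u.2, (QuotientAddGroup.mk u.1 : G ⧸ K)))
      (fun u : G × β => (u.2, (QuotientAddGroup.mk u.1 : G ⧸ K)))]
    ring
  rw [b1, b2] at hb
  simp only [] at hb
  rw [b3] at hb
  -- swap
  have s1 : ∀ L : AddSubgroup G, H r (fun u => ((QuotientAddGroup.mk u.1 : G ⧸ L), u.2)) =
      H r (fun u => (u.2, (QuotientAddGroup.mk u.1 : G ⧸ L))) := by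
    intro L
    refine H_ker _ _ _ fun ω ω' => ?_
    simp only [Prod.ext_iff]
    exact and_comm
  unfold fK dK
  rw [s1 K, s1 K']
  unfold ci
  linarith

end Pool.Agent.H65.SPD
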