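import Pool.Agent.H65.SPD.Defs
set_option autoImplicit false

/-!
# Ci (size 2).  The quantities `c_K = log [G:K]`.

`ci_eq`: `AddSubgroup.card_eq_card_quotient_mul_card_addSubgroup` (and `Nat.card_eq_fintype_card`, `Real.log_mul`).
`ci_nonneg`, `ci_anti`: cardinalities of subgroups, monotonicity of `Real.log`.
`ci_modular`: `|K + V| |K ∩ V| = |K| |V|` (second isomorphism theorem: `QuotientAddGroup.quotientInfEquivSumNormalQuotient`
gives `K/(K ∩ V) ≅ (K+V)/V`; or `AddSubgroup.relIndex_sup_left` etc.; or by counting the fibres of `(k,v) ↦ k+v`).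
`ci_map`: the image of `M ≤ K` in `G` has the cardinality of `M` (injectivity of the inclusion).
-/
namespace Pool.Agent.H65.SPD
open Finset Pool.Agent.Ldc
variable {G : Type} [AddCommGroup G] [Fintype G]

private theorem Ci_pos (K : AddSubgroup G) : (0 : ℝ) < (Nat.card K : ℝ) := by
  have : 0 < Nat.card K := Nat.card_pos
  exact_mod_cast this

theorem ci_eq (K : AddSubgroup G) : ci K = Real.log (Fintype.card (G ⧸ K) : ℝ) := by
  have h := AddSubgroup.card_eq_card_quotient_mul_card_addSubgroup K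
  have hG : (Nat.card G : ℝ) = (Fintype.card G : ℝ) := by rw [Nat.card_eq_fintype_card]
  have hQ : (Nat.card (G ⧸ K) : ℝ) = (Fintype.card (G ⧸ K) : ℝ) := by rw [Nat.card_eq_fintype_card]
  have hQ0 : (Nat.card (G ⧸ K) : ℝ) ≠ 0 := by
    have : 0 < Nat.card (G ⧸ K) := Nat.card_pos
    exact_mod_cast this.ne'
  have h' : (Fintype.card G : ℝ) = (Fintype.card (G ⧸ K) : ℝ) * (Nat.card K : ℝ) := by
    rw [← hG, ← hQ]
    exact_mod_cast h
  unfold ci
  rw [h', Real.log_mul (by rw [← hQ]; exact hQ0) (Ci_pos K).ne']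
  ring

theorem ci_anti {K K' : AddSubgroup G} (h : K' ≤ K) : ci K ≤ ci K' := by
  unfold ci
  have h1 : Nat.card K' ≤ Nat.card K :=
    Nat.card_le_card_of_injective (AddSubgroup.inclusion h) (AddSubgroup.inclusion_injective h)
  have h2 : Real.log (Nat.card K' : ℝ) ≤ Real.log (Nat.card K : ℝ) :=
    Real.log_le_log (Ci_pos K') (by exact_mod_cast h1)
  linarith

theorem ci_top : ci (⊤ : AddSubgroup G) = 0 := by
  unfold ci
  rw [AddSubgroup.card_top, Nat.card_eq_fintype_card, sub_self]

theorem ci_nonneg (K : AddSubgroup G) : 0 ≤ ci K := by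
  have := ci_anti (K := (⊤ : AddSubgroup G)) (K' := K) le_top
  rwa [ci_top] at this

theorem ci_bot : ci (⊥ : AddSubgroup G) = Real.log (Fintype.card G : ℝ) := by
  unfold ci
  rw [AddSubgroup.card_bot, Nat.cast_one, Real.log_one, sub_zero]

theorem ci_modular (K V : AddSubgroup G) : ci K + ci V = ci (K ⊓ V) + ci (K ⊔ V) := by
  have h1 : Nat.card V * V.relIndex (K ⊔ V) = Nat.card (K ⊔ V : AddSubgroup G) := by
    have h := AddSubgroup.relIndex_mul_relIndex (H := (⊥ : AddSubgroup G)) (K := V) (L := K ⊔ V) bot_le le_sup_right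
    rw [AddSubgroup.relIndex_bot_left, AddSubgroup.relIndex_bot_left] at h
    exact h
  have h2 : V.relIndex (K ⊔ V) = V.relIndex K := AddSubgroup.relIndex_sup_right ..
  have h3 : Nat.card (K ⊓ V : AddSubgroup G) * (K ⊓ V).relIndex K = Nat.card K := by
    have h := AddSubgroup.relIndex_mul_relIndex (H := (⊥ : AddSubgroup G)) (K := K ⊓ V) (L := K) bot_le inf_le_left
    rw [AddSubgroup.relIndex_bot_left, AddSubgroup.relIndex_bot_left] at h
    exact h
  have h4 : (K ⊓ V).relIndex K = V.relIndex K := AddSubgroup.inf_relIndex_left ..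
  rw [h2] at h1
  rw [h4] at h3
  have h5 : Nat.card K * Nat.card V = Nat.card (K ⊓ V : AddSubgroup G) * Nat.card (K ⊔ V : AddSubgroup G) := by
    rw [← h1, ← h3]
    ring
  have h6 : (Nat.card K : ℝ) * (Nat.card V : ℝ)
      = (Nat.card (K ⊓ V : AddSubgroup G) : ℝ) * (Nat.card (K ⊔ V : AddSubgroup G) : ℝ) := by
    exact_mod_cast h5
  have h7 := congrArg Real.log h6
  rw [Real.log_mul (Ci_pos K).ne' (Ci_pos V).ne', Real.log_mul (Ci_pos _).ne' (Ci_pos _).ne'] at h7
  unfold ci
  linarith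

theorem ci_inf_le (K V : AddSubgroup G) : ci (K ⊓ V) ≤ ci K + ci V := by
  have h1 := ci_modular K V
  have h2 := ci_nonneg (K ⊔ V)
  linarith

theorem ci_map (K : AddSubgroup G) (M : AddSubgroup K) :
    ci M = ci (M.map K.subtype) - ci K := by
  have h : Nat.card (M.map K.subtype) = Nat.card M :=
    Nat.card_congr (AddSubgroup.equivMapOfInjective M K.subtype K.subtype_injective).symm.toEquiv
  have hK : (Fintype.card K : ℝ) = (Nat.card K : ℝ) := by rw [Nat.card_eq_fintype_card]
  unfold ci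
  rw [h, hK]
  ring

end Pool.Agent.H65.SPD
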