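import Pool.Agent.H65.SPD.Defs
import Pool.Agent.H65.SPD.Tls
import Pool.Agent.H65.SPD.Ci
set_option autoImplicit false

/-!
# FRa (size 3).  `L` and `d_M` of the family `F^K` on the group `K`.

`H (fR r K) φ = H r (fun u => φ (shK K u.1, u.2, mk u.1))` (`H_law`).  `(shK K X, Y, X mod K)` and `(X, Y)` determine each other
(`X = shK K X + out (X mod K)`), and `X mod K` is a function of `X`.
`Lf_fR`: `L(F^K) = log|K| - H(shK X, Y, X mod K) + H(Y, X mod K) = log|K| - H(X,Y) + H(Y, X mod K)`; with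
`H(X,Y) = log|G| - L + H(Y)`, `H(Y, X mod K) = ci K - d_K + H(Y)`, `ci K = log|G| - log|K|` this is `L - d_K`.
(`Fintype.card K = Nat.card K`: `Nat.card_eq_fintype_card`.)
`dK_fR`: `M' = M.map K.subtype`.  `(shK K X mod M, Y, X mod K)` is equivalent to `(X mod M', Y)` (`H_congr`, or the kernel
version: `H` depends only on the relation `f ω = f ω'`, `H_ker` in `Tls.lean`; two elements `g, g'` with the same
class mod `K` satisfy `shK g - shK g' = g - g'`, so same class of `shK` mod `M` iff `g - g' ∈ M'`; and same class mod `M'`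
implies same class mod `K`).  So `d_M(F^K) = ci M - (H(X mod M', Y) - H(Y, X mod K)) = (ci M' - ci K) - (ci M' - d_{M'}) + (ci K - d_K)`
`= d_{M'} - d_K` (`ci_map`).
-/
namespace Pool.Agent.H65.SPD
open Finset Pool.Agent.Ldc
variable {G β : Type} [AddCommGroup G] [Fintype G] [Fintype β] {r : G × β → ℝ}

private theorem FRa_mk (K : AddSubgroup G) (g g' : G) :
    (QuotientAddGroup.mk g : G ⧸ K) = QuotientAddGroup.mk g' ↔ -g + g' ∈ K := QuotientAddGroup.eq

private theorem FRa_sh (K : AddSubgroup G) (g g' : G)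
    (h : (QuotientAddGroup.mk g : G ⧸ K) = QuotientAddGroup.mk g') :
    (-((shK K g : K) : G) + ((shK K g' : K) : G)) = -g + g' := by
  unfold shK
  simp only
  rw [h]
  abel

theorem Lf_fR (hr : IsP r) (K : AddSubgroup G) : Lf (fR r K) = Lf r - dK r K := by
  have h1 : H (fR r K) (fun u => (u.1, u.2)) = H r (fun u => (u.1, u.2)) := by
    unfold fR
    rw [H_law]
    refine H_ker _ _ _ fun ω ω' => ?_
    simp only [Prod.mk.injEq]
    constructor
    · rintro ⟨a, b, c⟩
      refine ⟨?_, b⟩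
      have h := FRa_sh K ω.1 ω'.1 c
      rw [a, neg_add_cancel] at h
      exact (neg_add_eq_zero.mp h.symm)
    · rintro ⟨a, b⟩
      rw [a]
      exact ⟨rfl, b, rfl⟩
  have h2 : H (fR r K) (fun u => u.2) = H r (fun u => ((QuotientAddGroup.mk u.1 : G ⧸ K), u.2)) := by
    unfold fR
    rw [H_law]
    refine H_ker _ _ _ fun ω ω' => ?_
    simp only [Prod.mk.injEq]
    exact and_comm
  unfold Lf dK ci
  rw [h1, h2, Nat.card_eq_fintype_card]
  ring

theorem dK_fR (hr : IsP r) (K : AddSubgroup G) (M : AddSubgroup K) :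
    dK (fR r K) M = dK r (M.map K.subtype) - dK r K := by
  have h1 : H (fR r K) (fun u => ((QuotientAddGroup.mk u.1 : K ⧸ M), u.2)) =
      H r (fun u => ((QuotientAddGroup.mk u.1 : G ⧸ (M.map K.subtype)), u.2)) := by
    unfold fR
    rw [H_law]
    refine H_ker _ _ _ fun ω ω' => ?_
    simp only [Prod.mk.injEq]
    rw [FRa_mk (M.map K.subtype), AddSubgroup.mem_map, QuotientAddGroup.eq]
    constructor
    · rintro ⟨a, b, c⟩
      refine ⟨⟨_, a, ?_⟩, b⟩
      rw [← FRa_sh K ω.1 ω'.1 c]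
      rfl
    · rintro ⟨⟨m, hm, hmm⟩, b⟩
      have c : (QuotientAddGroup.mk ω.1 : G ⧸ K) = QuotientAddGroup.mk ω'.1 := by
        rw [FRa_mk, ← hmm]
        exact m.2
      refine ⟨?_, b, c⟩
      have h3 : -shK K ω.1 + shK K ω'.1 = m := by
        apply Subtype.ext
        have h4 := FRa_sh K ω.1 ω'.1 c
        rw [← hmm] at h4
        exact h4
      rw [h3]
      exact hm
  have h2 : H (fR r K) (fun u => u.2) = H r (fun u => ((QuotientAddGroup.mk u.1 : G ⧸ K), u.2)) := by
    unfold fR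
    rw [H_law]
    refine H_ker _ _ _ fun ω ω' => ?_
    simp only [Prod.mk.injEq]
    exact and_comm
  unfold dK
  rw [h1, h2, ci_map]
  ring

end Pool.Agent.H65.SPD
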