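import Pool.Agent.H65.SPD.Defs
import Pool.Agent.H65.SPD.Tls
set_option autoImplicit false

/-!
# FRb (size 2).  `D2(F^K) = f(K)`.
-/
namespace Pool.Agent.H65.SPD
open Finset Pool.Agent.Ldc
variable {G β : Type} [AddCommGroup G] [Fintype G] [Fintype β] {r : G × β → ℝ}

private theorem FRb_out (K : AddSubgroup G) (g g' : G)
    (h : (QuotientAddGroup.mk g : G ⧸ K) = QuotientAddGroup.mk g') :
    (shK K g : G) - (shK K g' : G) = g - g' := by
  have e : ∀ x : G, (shK K x : G) = x - (QuotientAddGroup.mk x : G ⧸ K).out := fun x => rfl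
  rw [e, e, h]
  abel

theorem D2_fR (hr : IsP r) (K : AddSubgroup G) : D2 (fR r K) = fK r K := by
  unfold D2 fK
  have hcard : (Fintype.card K : ℝ) = (Nat.card K : ℝ) := by rw [Nat.card_eq_fintype_card]
  have h2 : H (fR r K) (fun u => u.2)
      = H r (fun u => (u.2, (QuotientAddGroup.mk u.1 : G ⧸ K))) := by
    unfold fR
    rw [H_law]
  have h1 : H (pp (fR r K) (fR r K)) (fun u => (u.1.1 + u.2.1, u.1.2, u.2.2))
      = H (pp r r) (fun u => (u.1.1 + u.2.1, (u.1.2, (QuotientAddGroup.mk u.1.1 : G ⧸ K)),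
          (u.2.2, (QuotientAddGroup.mk u.2.1 : G ⧸ K)))) := by
    unfold fR
    rw [H_pp_pr hr hr]
    refine H_ker _ _ _ fun u v => ?_
    simp only [Prod.mk.injEq]
    constructor
    · rintro ⟨h, ⟨ha, hb⟩, hc, hd⟩
      refine ⟨?_, ⟨ha, hb⟩, hc, hd⟩
      have e1 := FRb_out K _ _ hb
      have e2 := FRb_out K _ _ hd
      have e3 : (shK K u.1.1 : G) + (shK K u.2.1 : G) = (shK K v.1.1 : G) + (shK K v.2.1 : G) := by
        have := congrArg (fun t : K => (t : G)) h
        simpa using this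
      have e4 : u.1.1 + u.2.1 - (v.1.1 + v.2.1)
          = ((shK K u.1.1 : G) + (shK K u.2.1 : G)) - ((shK K v.1.1 : G) + (shK K v.2.1 : G)) := by
        have : u.1.1 + u.2.1 - (v.1.1 + v.2.1) = (u.1.1 - v.1.1) + (u.2.1 - v.2.1) := by abel
        rw [this, ← e1, ← e2]
        abel
      rw [e3, sub_self] at e4
      exact sub_eq_zero.mp e4
    · rintro ⟨h, ⟨ha, hb⟩, hc, hd⟩
      refine ⟨?_, ⟨ha, hb⟩, hc, hd⟩
      have e1 := FRb_out K _ _ hb
      have e2 := FRb_out K _ _ hd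
      apply Subtype.ext
      push_cast
      have e4 : ((shK K u.1.1 : G) + (shK K u.2.1 : G)) - ((shK K v.1.1 : G) + (shK K v.2.1 : G))
          = u.1.1 + u.2.1 - (v.1.1 + v.2.1) := by
        have : ((shK K u.1.1 : G) + (shK K u.2.1 : G)) - ((shK K v.1.1 : G) + (shK K v.2.1 : G))
            = ((shK K u.1.1 : G) - (shK K v.1.1 : G))
              + ((shK K u.2.1 : G) - (shK K v.2.1 : G)) := by abel
        rw [this, e1, e2]
        abel
      rw [h, sub_self] at e4
      exact sub_eq_zero.mp e4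
  rw [h1, h2, hcard]

end Pool.Agent.H65.SPD
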