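import Pool.Agent.H65.SPD.Defs
set_option autoImplicit false

/-!
# CvL (size 2).  Deficits of a sum of two independent variables.

Everything on `pp x y` (independent coordinates: `indep_pp`, `Indep.comp`, `H_pp_fst`, `H_pp_snd`); the law `cv x y` is
treated by `H_law`: `H (cv x y) φ = H (pp x y) (fun u => φ (u.1 + u.2))`, `ent_eq_H`.
`dl_cv_le_right`: `H(Y mod K) ≤ H(X + Y mod K)`: `H_le_add'` in the group `G ⧸ K` for the independent variables `X mod K`,
`Y mod K`; `dl_cv_le_left`: `H_le_add`.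
`dl_cv_inc` (`V ≤ M`): equivalent to
`H(X mod V) - H(X mod M) ≤ H(X+Y mod V) - H(X+Y mod M)`.
`H(X+Y mod V) - H(X+Y mod M) = H(X+Y mod V, X+Y mod M) - H(X+Y mod M)` (`X+Y mod M` is a function of `X+Y mod V`)
`≥ H(X+Y mod V, X+Y mod M, Y) - H(X+Y mod M, Y)` (`H_cond_anti`) `= H(X mod V, Y) - H(X mod M, Y)` (`H_congr`)
`= H(X mod V) - H(X mod M)` (`H_indep`).
`df_cv_le`: `H(X) ≤ H(X+Y)` (`H_le_add`, `ent_eq_H`).
-/
namespace Pool.Agent.H65.SPD
open Finset Pool.Agent.Ldc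
variable {G : Type} [AddCommGroup G] [Fintype G] {x y : G → ℝ}

private theorem CvL_H_ker {Ω α β : Type} [Fintype Ω] (p : Ω → ℝ) (f : Ω → α) (g : Ω → β)
    (h : ∀ ω ω', f ω = f ω' ↔ g ω = g ω') : H p f = H p g := by
  unfold H
  congr 1
  refine Finset.sum_congr rfl fun ω _ => ?_
  have h1 : (fun ω' => f ω' = f ω) = (fun ω' => g ω' = g ω) := funext fun ω' => propext (h ω' ω)
  unfold pr
  rw [h1]

theorem cv_isP (hx : IsP x) (hy : IsP y) : IsP (cv x y) := pr_isP (pp_isP hx hy) _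

private theorem CvL_H (K : AddSubgroup G) :
    H (cv x y) (fun g => (QuotientAddGroup.mk g : G ⧸ K))
      = H (pp x y) (fun u => (QuotientAddGroup.mk u.1 : G ⧸ K) + (QuotientAddGroup.mk u.2 : G ⧸ K)) := by
  unfold cv
  rw [H_law]
  rfl

theorem dl_cv_le_right (hx : IsP x) (hy : IsP y) (K : AddSubgroup G) : dl (cv x y) K ≤ dl y K := by
  unfold dl
  rw [CvL_H K]
  have h := H_le_add' (pp_isP hx hy) (fun u => (QuotientAddGroup.mk u.1 : G ⧸ K))
    (fun u => (QuotientAddGroup.mk u.2 : G ⧸ K)) (indep_pp hx hy _ _)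
  rw [H_pp_snd hx (fun g => (QuotientAddGroup.mk g : G ⧸ K))] at h
  linarith

theorem dl_cv_le_left (hx : IsP x) (hy : IsP y) (K : AddSubgroup G) : dl (cv x y) K ≤ dl x K := by
  unfold dl
  rw [CvL_H K]
  have h := H_le_add (pp_isP hx hy) (fun u => (QuotientAddGroup.mk u.1 : G ⧸ K))
    (fun u => (QuotientAddGroup.mk u.2 : G ⧸ K)) (indep_pp hx hy _ _)
  rw [H_pp_fst hy (fun g => (QuotientAddGroup.mk g : G ⧸ K))] at h
  linarith

private theorem CvL_mk_iff (K : AddSubgroup G) (a b : G) :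
    (QuotientAddGroup.mk a : G ⧸ K) = QuotientAddGroup.mk b ↔ -a + b ∈ K := QuotientAddGroup.eq

theorem dl_cv_inc (hx : IsP x) (hy : IsP y) {V M : AddSubgroup G} (h : V ≤ M) :
    dl (cv x y) V - dl (cv x y) M ≤ dl x V - dl x M := by
  have hP := pp_isP hx hy
  -- the quotient map `G ⧸ V → G ⧸ M`
  let φ : (G ⧸ V) → (G ⧸ M) := QuotientAddGroup.map V M (AddMonoidHom.id G) h
  have hφ : ∀ g : G, φ (QuotientAddGroup.mk g) = QuotientAddGroup.mk g := fun g => rfl
  have e0 := H_cond_anti hP (fun u : G × G => (QuotientAddGroup.mk (u.1 + u.2) : G ⧸ V))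
    (fun u : G × G => ((QuotientAddGroup.mk (u.1 + u.2) : G ⧸ M), u.2)) Prod.fst
  -- left side of e0: H(X+Y mod V, X+Y mod M, Y) - H(X+Y mod M, Y)
  have a1 : H (pp x y) (fun u : G × G => ((QuotientAddGroup.mk (u.1 + u.2) : G ⧸ V),
      ((QuotientAddGroup.mk (u.1 + u.2) : G ⧸ M), u.2)))
      = H (pp x y) (fun u : G × G => ((QuotientAddGroup.mk u.1 : G ⧸ V), u.2)) := by
    refine CvL_H_ker _ _ _ fun u v => ?_
    simp only [Prod.ext_iff, CvL_mk_iff]
    constructor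
    · rintro ⟨b1, b2, b3⟩
      refine ⟨?_, b3⟩
      rw [b3] at b1
      have : -(u.1 + v.2) + (v.1 + v.2) = -u.1 + v.1 := by abel
      rwa [this] at b1
    · rintro ⟨b1, b3⟩
      have b4 : -(u.1 + u.2) + (v.1 + v.2) ∈ V := by
        rw [b3]
        have : -(u.1 + v.2) + (v.1 + v.2) = -u.1 + v.1 := by abel
        rwa [this]
      exact ⟨b4, h b4, b3⟩
  have a2 : H (pp x y) (fun u : G × G => ((QuotientAddGroup.mk (u.1 + u.2) : G ⧸ M), u.2))
      = H (pp x y) (fun u : G × G => ((QuotientAddGroup.mk u.1 : G ⧸ M), u.2)) := by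
    refine CvL_H_ker _ _ _ fun u v => ?_
    simp only [Prod.ext_iff, CvL_mk_iff]
    constructor
    · rintro ⟨b1, b3⟩
      refine ⟨?_, b3⟩
      rw [b3] at b1
      have : -(u.1 + v.2) + (v.1 + v.2) = -u.1 + v.1 := by abel
      rwa [this] at b1
    · rintro ⟨b1, b3⟩
      refine ⟨?_, b3⟩
      rw [b3]
      have : -(u.1 + v.2) + (v.1 + v.2) = -u.1 + v.1 := by abel
      rwa [this]
  have a3 : H (pp x y) (fun u : G × G => ((QuotientAddGroup.mk (u.1 + u.2) : G ⧸ V),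
      (QuotientAddGroup.mk (u.1 + u.2) : G ⧸ M)))
      = H (cv x y) (fun g => (QuotientAddGroup.mk g : G ⧸ V)) := by
    unfold cv
    rw [H_law]
    refine CvL_H_ker _ _ _ fun u v => ?_
    simp only [Prod.ext_iff, CvL_mk_iff]
    exact ⟨fun hh => hh.1, fun hh => ⟨hh, h hh⟩⟩
  have a4 : H (pp x y) (fun u : G × G => (QuotientAddGroup.mk (u.1 + u.2) : G ⧸ M))
      = H (cv x y) (fun g => (QuotientAddGroup.mk g : G ⧸ M)) := by
    unfold cv
    rw [H_law]
  have a5 : H (pp x y) (fun u : G × G => ((QuotientAddGroup.mk u.1 : G ⧸ V), u.2))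
      = H x (fun g => (QuotientAddGroup.mk g : G ⧸ V)) + H y (fun g => g) := by
    rw [H_indep hP (fun u : G × G => (QuotientAddGroup.mk u.1 : G ⧸ V)) (fun u => u.2)
      (indep_pp hx hy (fun g => (QuotientAddGroup.mk g : G ⧸ V)) (fun g => g)),
      H_pp_fst hy (fun g => (QuotientAddGroup.mk g : G ⧸ V)), H_pp_snd hx (fun g => g)]
  have a6 : H (pp x y) (fun u : G × G => ((QuotientAddGroup.mk u.1 : G ⧸ M), u.2))
      = H x (fun g => (QuotientAddGroup.mk g : G ⧸ M)) + H y (fun g => g) := by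
    rw [H_indep hP (fun u : G × G => (QuotientAddGroup.mk u.1 : G ⧸ M)) (fun u => u.2)
      (indep_pp hx hy (fun g => (QuotientAddGroup.mk g : G ⧸ M)) (fun g => g)),
      H_pp_fst hy (fun g => (QuotientAddGroup.mk g : G ⧸ M)), H_pp_snd hx (fun g => g)]
  simp only at e0
  rw [a1, a2, a3, a4, a5, a6] at e0
  unfold dl
  linarith

theorem df_cv_le (hx : IsP x) (hy : IsP y) : df (cv x y) ≤ df x := by
  unfold df
  have h := H_le_add (pp_isP hx hy) (fun u : G × G => u.1) (fun u => u.2)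
    (indep_pp hx hy (fun g => g) (fun g => g))
  rw [H_pp_fst hy (fun g => g), ← ent_eq_H] at h
  have h2 : ent (cv x y) = H (pp x y) (fun u => u.1 + u.2) := by
    rw [ent_eq_H]
    unfold cv
    rw [H_law]
  rw [h2]
  linarith

end Pool.Agent.H65.SPD
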