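import Pool.Agent.H65.SPD.Dl
import Pool.Agent.H65.SPD.CvL
import Pool.Agent.H65.SPD.FamA
import Pool.Agent.H65.SPD.FamB
import Pool.Agent.H65.SPD.Tls
set_option autoImplicit false

/-!
# FamC (size 2).  Elementary facts on families.

`fU_isP`, `fW_isP`, `fR_isP`: `pp_isP`, `pr_isP`.
`dK_nonneg`, `dK_le_ci`, `dK_mono`, `dK_le_Lf`, `Lf_nonneg`: averages (`dK_avg`, `Lf_avg`) of `dl_nonneg`, `dl_le_ci`, `dl_mono`,
`dl_le_df`, `df_nonneg` (terms with `wb r b = 0` vanish, otherwise `xb_isP`).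
`D2_nonneg`, `D2_le_Lf`: `D2_avg`, `df_nonneg`, `df_cv_le`.  `dK_top`: `dl_top`.
`fK_top`: `G ⧸ ⊤` has one element, so the variables `mk u.1.1` etc. can be dropped (`H_congr`); `|⊤| = |G|`.
-/
namespace Pool.Agent.H65.SPD
open Finset Pool.Agent.Ldc
variable {G β : Type} [AddCommGroup G] [Fintype G] [Fintype β] {r : G × β → ℝ}

theorem fU_isP (hr : IsP r) : IsP (fU r) := pr_isP (pp_isP hr hr) _

theorem fW_isP (hr : IsP r) : IsP (fW r) := pr_isP (pp_isP hr hr) _

theorem fR_isP (hr : IsP r) (K : AddSubgroup G) : IsP (fR r K) := pr_isP hr _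

private theorem FamC_le (hr : IsP r) (u v : β → ℝ) (h : ∀ b, 0 < wb r b → u b ≤ v b) :
    ∑ b, wb r b * u b ≤ ∑ b, wb r b * v b := by
  apply Finset.sum_le_sum
  intro b _
  rcases (wb_nonneg hr b).lt_or_eq with h0 | h0
  · exact mul_le_mul_of_nonneg_left (h b h0) h0.le
  · rw [← h0, zero_mul, zero_mul]

private theorem FamC_const (hr : IsP r) (c : ℝ) : ∑ b, wb r b * c = c := by
  rw [← Finset.sum_mul, wb_sum hr, one_mul]

theorem dK_nonneg (hr : IsP r) (K : AddSubgroup G) : 0 ≤ dK r K := by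
  rw [dK_avg hr K, ← FamC_const hr 0]
  exact FamC_le hr _ _ fun b hb => dl_nonneg (xb_isP hr b hb) K

theorem dK_le_ci (hr : IsP r) (K : AddSubgroup G) : dK r K ≤ ci K := by
  rw [dK_avg hr K, ← FamC_const hr (ci K)]
  exact FamC_le hr _ _ fun b hb => dl_le_ci (xb_isP hr b hb) K

theorem dK_mono (hr : IsP r) {K K' : AddSubgroup G} (h : K' ≤ K) : dK r K ≤ dK r K' := by
  rw [dK_avg hr K, dK_avg hr K']
  exact FamC_le hr _ _ fun b hb => dl_mono (xb_isP hr b hb) h

theorem dK_le_Lf (hr : IsP r) (K : AddSubgroup G) : dK r K ≤ Lf r := by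
  rw [dK_avg hr K, Lf_avg hr]
  exact FamC_le hr _ _ fun b hb => dl_le_df (xb_isP hr b hb) K

theorem Lf_nonneg (hr : IsP r) : 0 ≤ Lf r := by
  rw [Lf_avg hr, ← FamC_const hr 0]
  exact FamC_le hr _ _ fun b hb => df_nonneg (xb_isP hr b hb)

theorem D2_nonneg (hr : IsP r) : 0 ≤ D2 r := by
  rw [D2_avg hr]
  apply Finset.sum_nonneg
  intro b _
  apply Finset.sum_nonneg
  intro b' _
  rcases (wb_nonneg hr b).lt_or_eq with h0 | h0
  · rcases (wb_nonneg hr b').lt_or_eq with h1 | h1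
    · exact mul_nonneg (mul_nonneg h0.le h1.le) (df_nonneg (cv_isP (xb_isP hr b h0) (xb_isP hr b' h1)))
    · rw [← h1, mul_zero, zero_mul]
  · rw [← h0, zero_mul, zero_mul]

theorem D2_le_Lf (hr : IsP r) : D2 r ≤ Lf r := by
  rw [D2_avg hr, Lf_avg hr]
  apply Finset.sum_le_sum
  intro b _
  have h1 : ∑ b', wb r b * wb r b' * df (cv (xb r b) (xb r b'))
      = wb r b * ∑ b', wb r b' * df (cv (xb r b) (xb r b')) := by
    rw [Finset.mul_sum]
    refine Finset.sum_congr rfl fun b' _ => ?_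
    ring
  rw [h1]
  rcases (wb_nonneg hr b).lt_or_eq with h0 | h0
  · apply mul_le_mul_of_nonneg_left _ h0.le
    have h2 := FamC_le hr (fun b' => df (cv (xb r b) (xb r b'))) (fun _ => df (xb r b))
      (fun b' hb' => df_cv_le (xb_isP hr b h0) (xb_isP hr b' hb'))
    rw [FamC_const hr] at h2
    exact h2
  · rw [← h0, zero_mul, zero_mul]

theorem dK_top (hr : IsP r) : dK r (⊤ : AddSubgroup G) = 0 := by
  rw [dK_avg hr]
  apply Finset.sum_eq_zero
  intro b _
  rcases (wb_nonneg hr b).lt_or_eq with h0 | h0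
  · rw [dl_top (xb_isP hr b h0), mul_zero]
  · rw [← h0, zero_mul]

theorem fK_top (hr : IsP r) : fK r (⊤ : AddSubgroup G) = D2 r := by
  have _ := hr
  have _ : Subsingleton (G ⧸ (⊤ : AddSubgroup G)) := QuotientAddGroup.subsingleton_quotient_top
  unfold fK D2
  have e0 : (Nat.card (⊤ : AddSubgroup G) : ℝ) = (Fintype.card G : ℝ) := by
    rw [AddSubgroup.card_top, Nat.card_eq_fintype_card]
  have e1 : H (pp r r) (fun u => (u.1.1 + u.2.1, (u.1.2, (QuotientAddGroup.mk u.1.1 : G ⧸ (⊤ : AddSubgroup G))),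
          (u.2.2, (QuotientAddGroup.mk u.2.1 : G ⧸ (⊤ : AddSubgroup G)))))
      = H (pp r r) (fun u => (u.1.1 + u.2.1, u.1.2, u.2.2)) := by
    apply H_ker
    intro u v
    constructor
    · intro h
      simp only [Prod.mk.injEq] at h ⊢
      exact ⟨h.1, h.2.1.1, h.2.2.1⟩
    · intro h
      simp only [Prod.mk.injEq] at h ⊢
      exact ⟨h.1, ⟨h.2.1, Subsingleton.elim _ _⟩, ⟨h.2.2, Subsingleton.elim _ _⟩⟩
  have e2 : H r (fun u => (u.2, (QuotientAddGroup.mk u.1 : G ⧸ (⊤ : AddSubgroup G)))) = H r (fun u => u.2) := by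
    apply H_ker
    intro u v
    constructor
    · intro h
      simp only [Prod.mk.injEq] at h
      exact h.1
    · intro h
      simp only [Prod.mk.injEq]
      exact ⟨h, Subsingleton.elim _ _⟩
  rw [e0, e1, e2]

end Pool.Agent.H65.SPD
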