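import Pool.Agent.H65.SPD.Ci
import Pool.Agent.H65.SPD.FamC
import Pool.Agent.H65.SPD.FKm
import Pool.Agent.H65.SPD.FRa
import Pool.Agent.H65.SPD.FRb
set_option autoImplicit false

/-!
# C1 (size 2).  Inequality (4):  `f(K) ≤ 2 q c_K + θ L`.

`Bd_mono`: `Spread q r → Spread q' r` for `q ≤ q'` (`ci_nonneg`).
`fK_bound`: `K' ≤ K` maximises `dK r K' - 2 q ci K'` among the subgroups of `K` (finite; e.g. `Finite.exists_max` on
`{K' : AddSubgroup G // K' ≤ K}`).  `F^{K'}` is `2q`-spread: for `M ≤ K'` (`M : AddSubgroup K'`), `M' = M.map K'.subtype ≤ K' ≤ K`: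
`dK (fR r K') M = dK r M' - dK r K' ≤ 2q (ci M' - ci K') = 2q ci M` (`dK_fR`, maximality, `ci_map`).
So `fK r K' = D2 (fR r K') ≤ θ Lf (fR r K') = θ (Lf r - dK r K') ≤ θ Lf r` (`D2_fR`, `hB` for the group `K'`, `fR_isP`, `Lf_fR`,
`dK_nonneg`).
Against `K` itself: `dK r K' - 2q ci K' ≥ dK r K - 2q ci K ≥ -2q ci K` and `dK r K' ≤ q ci K'`, so `q ci K' ≤ 2q ci K` and
`dK r K' ≤ 2q ci K`.  `fK_le`: `fK r K ≤ dK r K' - dK r K + fK r K' ≤ 2q ci K + θ Lf r`.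
-/
namespace Pool.Agent.H65.SPD
open Finset Pool.Agent.Ldc

theorem Bd_mono {q q' θ : ℝ} (h : q ≤ q') (hB : Bd q' θ) : Bd q θ := by
  intro G β _ _ _ h2 r hr hs
  exact hB G β h2 r hr (fun K => (hs K).trans (mul_le_mul_of_nonneg_right h (ci_nonneg K)))

variable {G β : Type} [AddCommGroup G] [Fintype G] [Fintype β] {r : G × β → ℝ}

theorem fK_bound {q θ : ℝ} (hq : 0 ≤ q) (hθ : 0 ≤ θ) (hB : Bd (2 * q) θ) (h2 : ∀ g : G, g + g = 0)
    (hr : IsP r) (hs : Spread q r) (K : AddSubgroup G) :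
    fK r K ≤ 2 * q * ci K + θ * Lf r := by
  have : Nonempty {K' : AddSubgroup G // K' ≤ K} := ⟨⟨K, le_rfl⟩⟩
  obtain ⟨⟨K', hK'⟩, hmax⟩ := Finite.exists_max
    (fun K' : {K' : AddSubgroup G // K' ≤ K} => dK r K'.1 - 2 * q * ci K'.1)
  have hsp : Spread (2 * q) (fR r K') := by
    intro M
    rw [dK_fR hr K' M, ci_map]
    have h1 := hmax ⟨M.map K'.subtype, (AddSubgroup.map_subtype_le M).trans hK'⟩
    simp only at h1
    linarith
  have h3 := hB K' (β × (G ⧸ K')) (fun g => Subtype.ext (h2 g)) (fR r K') (fR_isP hr K') hsp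
  rw [D2_fR hr, Lf_fR hr] at h3
  have h4 : 0 ≤ dK r K' := dK_nonneg hr K'
  have h5 : 0 ≤ dK r K := dK_nonneg hr K
  have h6 := hmax ⟨K, le_rfl⟩
  simp only at h6
  have h7 := hs K'
  have h8 := fK_le hr hK'
  have h9 : 0 ≤ θ * dK r K' := mul_nonneg hθ h4
  nlinarith

end Pool.Agent.H65.SPD
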