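import Pool.Agent.H65.SPD.Defs
import Pool.Agent.H65.SPD.Tls
set_option autoImplicit false

/-!
# FU (size 2).  The family `U = (X₁ + X₂ ; Y₁, Y₂)`.

`H (fU r) φ = H (pp r r) (fun u => φ (u.1.1 + u.2.1, u.1.2, u.2.2))` (`H_law`).
`Lf_fU`: `H(Y₁, Y₂) = 2 H(Y)` (`indep_pp`, `Indep.comp`, `H_indep`, `H_pp_fst`, `H_pp_snd`); the rest is the definition.
`dK_fU_le`: the claim is `H(X mod K, Y) - H(Y) ≤ H(X₁+X₂ mod K, Y₁, Y₂) - 2 H(Y)`.  `H_cond_anti` (condition also on `X₂`):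
`H(S mod K, Y₁, Y₂) - H(Y₁,Y₂) ≥ H(S mod K, Y₁, (X₂, Y₂)) - H(Y₁, (X₂, Y₂))`
`= H(X₁ mod K, Y₁, (X₂, Y₂)) - H(Y₁, (X₂,Y₂))` (`H_congr`) `= H(X₁ mod K, Y₁) - H(Y₁)` (`H_indep` twice).
-/
namespace Pool.Agent.H65.SPD
open Finset Pool.Agent.Ldc
variable {G β : Type} [AddCommGroup G] [Fintype G] [Fintype β] {r : G × β → ℝ}

private theorem FU_snd (hr : IsP r) :
    H (fU r) (fun v => v.2) = 2 * H r (fun u => u.2) := by
  have h1 : H (fU r) (fun v => v.2) = H (pp r r) (fun u => (u.1.2, u.2.2)) := by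
    unfold fU
    rw [H_law]
  have h2 := H_indep (pp_isP hr hr) (fun u : (G × β) × (G × β) => u.1.2) (fun u => u.2.2)
    (indep_pp hr hr (fun w : G × β => w.2) (fun w : G × β => w.2))
  have h3 : H (pp r r) (fun u : (G × β) × (G × β) => u.1.2) = H r (fun u => u.2) :=
    H_pp_fst hr (fun w : G × β => w.2)
  have h4 : H (pp r r) (fun u : (G × β) × (G × β) => u.2.2) = H r (fun u => u.2) :=
    H_pp_snd hr (fun w : G × β => w.2)
  rw [h1, h2, h3, h4]
  ring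

theorem Lf_fU (hr : IsP r) : Lf (fU r) = D2 r := by
  unfold Lf D2
  rw [FU_snd hr]
  have h1 : H (fU r) (fun u => (u.1, u.2))
      = H (pp r r) (fun u => (u.1.1 + u.2.1, u.1.2, u.2.2)) := by
    unfold fU
    rw [H_law]
  rw [h1]

theorem dK_fU_le (hr : IsP r) (K : AddSubgroup G) : dK (fU r) K ≤ dK r K := by
  unfold dK
  have e1 : H (fU r) (fun u => ((QuotientAddGroup.mk u.1 : G ⧸ K), u.2))
      = H (pp r r) (fun u => ((QuotientAddGroup.mk (u.1.1 + u.2.1) : G ⧸ K), u.1.2, u.2.2)) := by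
    unfold fU
    rw [H_law]
  have e2 : H (fU r) (fun v => v.2) = H (pp r r) (fun u => (u.1.2, u.2.2)) := by
    unfold fU
    rw [H_law]
  have hp := pp_isP hr hr
  have k := H_cond_anti hp
    (fun u : (G × β) × (G × β) => (QuotientAddGroup.mk (u.1.1 + u.2.1) : G ⧸ K))
    (fun u : (G × β) × (G × β) => (u.1.2, u.2)) (fun w : β × (G × β) => (w.1, w.2.2))
  have k1 : H (pp r r) (fun u : (G × β) × (G × β) =>
        ((QuotientAddGroup.mk (u.1.1 + u.2.1) : G ⧸ K), (u.1.2, u.2)))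
      = H (pp r r) (fun u : (G × β) × (G × β) =>
        (((QuotientAddGroup.mk u.1.1 : G ⧸ K), u.1.2), u.2)) := by
    refine H_ker _ _ _ fun ω ω' => ?_
    simp only [Prod.mk.injEq, QuotientAddGroup.mk_add]
    constructor
    · rintro ⟨a, b, c⟩
      refine ⟨⟨?_, b⟩, c⟩
      rw [c] at a
      exact add_right_cancel a
    · rintro ⟨⟨a, b⟩, c⟩
      exact ⟨by rw [a, c], b, c⟩
  have k2 := H_indep hp
    (fun u : (G × β) × (G × β) => ((QuotientAddGroup.mk u.1.1 : G ⧸ K), u.1.2)) (fun u => u.2)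
    (indep_pp hr hr (fun w : G × β => ((QuotientAddGroup.mk w.1 : G ⧸ K), w.2))
      (fun w : G × β => w))
  have k3 : H (pp r r) (fun u : (G × β) × (G × β) => ((QuotientAddGroup.mk u.1.1 : G ⧸ K), u.1.2))
      = H r (fun u => ((QuotientAddGroup.mk u.1 : G ⧸ K), u.2)) :=
    H_pp_fst hr (fun w : G × β => ((QuotientAddGroup.mk w.1 : G ⧸ K), w.2))
  have k4 := H_indep hp
    (fun u : (G × β) × (G × β) => u.1.2) (fun u => u.2)
    (indep_pp hr hr (fun w : G × β => w.2) (fun w : G × β => w))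
  have k5 : H (pp r r) (fun u : (G × β) × (G × β) => u.1.2) = H r (fun u => u.2) :=
    H_pp_fst hr (fun w : G × β => w.2)
  rw [e1, e2]
  simp only at k
  rw [k1, k2, k3, k4, k5] at k
  linarith

end Pool.Agent.H65.SPD
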