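import Pool.Agent.H65.SPD.Defs
import Pool.Agent.H65.SPD.Tls
set_option autoImplicit false

/-!
# FW (size 2).  The family `W = (X₁ ; X₁ + X₂, Y₁, Y₂)`.

`H_law` as in FU; write `P = pp r r`, `S = u.1.1 + u.2.1`, `HS = H(S, Y₁, Y₂) = log|G| - D2 + 2 H(Y)`.
`Lf_fW`: `H(X₁, S, Y₁, Y₂) = H((X₁,Y₁),(X₂,Y₂))` (`H_congr`: `X₂ = S - X₁`) `= 2 H(X,Y)` (`H_indep`).  So
`L(W) = log|G| - 2 H(X,Y) + HS = 2 L - D2`, as `H(X,Y) = log|G| - L + H(Y)`.
`dK_fW`: `H(X₁ mod K, S, Y₁, Y₂) = H(S, (Y₁, X₁ mod K), (Y₂, X₂ mod K))` (`H_congr`: `X₂ mod K = S mod K - X₁ mod K`)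
`= log|K| - fK r K + 2 H(Y, X mod K)` (definition of `fK`), `H(Y, X mod K) = H(X mod K, Y)` (`H_congr`) `= c_K - d_K + H(Y)`.
So `d_K(W) = c_K - (log|K| - fK + 2 c_K - 2 d_K + 2H(Y)) + (log|G| - D2 + 2H(Y)) = 2 d_K + fK - D2`
(`log|G| - log|K| = c_K`).
-/
namespace Pool.Agent.H65.SPD
open Finset Pool.Agent.Ldc
variable {G β : Type} [AddCommGroup G] [Fintype G] [Fintype β] {r : G × β → ℝ}

theorem Lf_fW (hr : IsP r) : Lf (fW r) = 2 * Lf r - D2 r := by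
  have h1 : H (pp r r) (fun u => (u.1.1, (u.1.1 + u.2.1, u.1.2, u.2.2)))
      = H (pp r r) (fun u => ((u.1.1, u.1.2), (u.2.1, u.2.2))) := by
    apply H_ker
    intro ω ω'
    simp only [Prod.mk.injEq]
    constructor
    · rintro ⟨a, b, c, d⟩
      refine ⟨⟨a, c⟩, ?_, d⟩
      rw [a] at b
      exact add_left_cancel b
    · rintro ⟨⟨a, c⟩, b, d⟩
      exact ⟨a, by rw [a, b], c, d⟩
  have h2 : H (pp r r) (fun u => ((u.1.1, u.1.2), (u.2.1, u.2.2)))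
      = 2 * H r (fun u => (u.1, u.2)) := by
    have h3 := H_indep (pp_isP hr hr) (fun u : (G × β) × (G × β) => (u.1.1, u.1.2))
      (fun u => (u.2.1, u.2.2)) (indep_pp hr hr (fun v => (v.1, v.2)) (fun v => (v.1, v.2)))
    rw [h3, H_pp_fst (p := r) (q := r) hr (fun v => (v.1, v.2)),
      H_pp_snd (p := r) (q := r) hr (fun v => (v.1, v.2))]
    ring
  unfold Lf D2 fW
  rw [H_law, H_law]
  simp only []
  rw [h1, h2]
  ring

theorem dK_fW (hr : IsP r) (K : AddSubgroup G) : dK (fW r) K = 2 * dK r K + fK r K - D2 r := by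
  have h1 : H (pp r r) (fun u => ((QuotientAddGroup.mk u.1.1 : G ⧸ K),
        (u.1.1 + u.2.1, u.1.2, u.2.2)))
      = H (pp r r) (fun u => (u.1.1 + u.2.1, (u.1.2, (QuotientAddGroup.mk u.1.1 : G ⧸ K)),
          (u.2.2, (QuotientAddGroup.mk u.2.1 : G ⧸ K)))) := by
    apply H_ker
    intro ω ω'
    simp only [Prod.mk.injEq]
    constructor
    · rintro ⟨a, b, c, d⟩
      refine ⟨b, ⟨c, a⟩, d, ?_⟩
      have e1 := congrArg (QuotientAddGroup.mk : G → G ⧸ K) b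
      rw [QuotientAddGroup.mk_add, QuotientAddGroup.mk_add, a] at e1
      exact add_left_cancel e1
    · rintro ⟨b, ⟨c, a⟩, d, _⟩
      exact ⟨a, b, c, d⟩
  have h2 : H r (fun u => ((QuotientAddGroup.mk u.1 : G ⧸ K), u.2))
      = H r (fun u => (u.2, (QuotientAddGroup.mk u.1 : G ⧸ K))) := by
    apply H_ker
    intro ω ω'
    simp only [Prod.mk.injEq]
    exact and_comm
  unfold dK fK D2 fW ci
  rw [H_law, H_law]
  simp only []
  rw [h1, h2]
  ring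

end Pool.Agent.H65.SPD
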