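import Pool.Agent.H65.SPD.Ci
import Pool.Agent.H65.SPD.FamC
import Pool.Agent.H65.SPD.FU
import Pool.Agent.H65.SPD.FW
import Pool.Agent.H65.SPD.FKm
import Pool.Agent.H65.SPD.FRa
import Pool.Agent.H65.SPD.FRb
import Pool.Agent.H65.SPD.C1
set_option autoImplicit false

/-!
# C2 (size 2).  Inequalities (5) and (6).

`dW_bound`: `dK_fW`, `fK_bound` (with `Bd_mono`), `dK r K ≤ q ci K`.
`I_bound`: `K` maximises `dK (fW r) K - 8 q ci K` over `AddSubgroup G`; `g := dK (fW r) K`.  Against `⊤` (`dK_top`, `ci_top`,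
`fW_isP`): `g ≥ 8 q ci K`; with `dW_bound`: `g ≤ g/2 + (θ L - D2)`, so `g ≤ 2 (θ L - D2)`.
`W^K` is `8q`-spread (as in C1: `dK (fR (fW r) K) M = dK (fW r) M' - g ≤ 8q (ci M' - ci K) = 8q ci M`), so
`fK (fW r) K = D2 (fR (fW r) K) ≤ θ (Lf (fW r) - g) ≤ θ Lf (fW r)`.
`fK_le` with `(K, K') := (⊤, K)` (`dK_top`, `fK_top`): `D2 (fW r) ≤ g + fK (fW r) K ≤ 2(θ L - D2) + θ Lf (fW r)`, `Lf (fW r) = 2 L - D2`.
`fU r` is `q`-spread (`dK_fU_le`), so `D2 (fU r) ≤ θ Lf (fU r) = θ D2 r` (`Lf_fU`).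
Sum: `D2(U) + D2(W) - 2 D2 ≤ θ D2 + 2(θ L - D2) + θ(2L - D2) - 2 D2 = 4 (θ L - D2)`.
-/
namespace Pool.Agent.H65.SPD
open Finset Pool.Agent.Ldc
variable {G β : Type} [AddCommGroup G] [Fintype G] [Fintype β] {r : G × β → ℝ}

theorem dW_bound {q θ : ℝ} (hq : 0 ≤ q) (hθ : 0 ≤ θ) (hB : Bd (8 * q) θ) (h2 : ∀ g : G, g + g = 0)
    (hr : IsP r) (hs : Spread q r) (K : AddSubgroup G) :
    dK (fW r) K ≤ 4 * q * ci K + (θ * Lf r - D2 r) := by
  have h1 := dK_fW hr K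
  have h3 : Bd (2 * q) θ := Bd_mono (by linarith) hB
  have h4 := fK_bound hq hθ h3 h2 hr hs K
  have h5 := hs K
  rw [h1]
  linarith

theorem I_bound {q θ : ℝ} (hq : 0 ≤ q) (hθ : 0 ≤ θ) (hB : Bd (8 * q) θ) (h2 : ∀ g : G, g + g = 0)
    (hr : IsP r) (hs : Spread q r) :
    D2 (fU r) + D2 (fW r) - 2 * D2 r ≤ 4 * (θ * Lf r - D2 r) := by
  have : Finite (AddSubgroup G) := inferInstance
  obtain ⟨K, hK⟩ := Finite.exists_max (fun K : AddSubgroup G => dK (fW r) K - 8 * q * ci K)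
  have hW : IsP (fW r) := fW_isP hr
  have hU : IsP (fU r) := fU_isP hr
  have htop := hK ⊤
  rw [dK_top hW, ci_top] at htop
  have hb := dW_bound hq hθ hB h2 hr hs K
  have hg : dK (fW r) K ≤ 2 * (θ * Lf r - D2 r) := by linarith
  have hg0 := dK_nonneg hW K
  have hsp : Spread (8 * q) (fR (fW r) K) := by
    intro M
    rw [dK_fR hW K M, ci_map K M]
    have := hK (M.map K.subtype)
    linarith
  have h2K : ∀ g : K, g + g = 0 := fun g => Subtype.ext (by simpa using h2 g)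
  have hD := hB K (( G × β × β) × (G ⧸ K)) h2K (fR (fW r) K) (fR_isP hW K) hsp
  rw [D2_fR hW K, Lf_fR hW K] at hD
  have hle := fK_le hW (le_top : K ≤ ⊤)
  rw [fK_top hW, dK_top hW] at hle
  have hUs : Spread q (fU r) := fun M => (dK_fU_le hr M).trans (hs M)
  have hBq : Bd q θ := Bd_mono (by linarith) hB
  have hDU := hBq G (β × β) h2 (fU r) hU hUs
  rw [Lf_fU hr] at hDU
  have hLW := Lf_fW hr
  rw [hLW] at hD
  have h9 : 0 ≤ θ * dK (fW r) K := mul_nonneg hθ hg0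
  have h10 : θ * (2 * Lf r - D2 r - dK (fW r) K) = θ * (2 * Lf r - D2 r) - θ * dK (fW r) K := by ring
  rw [h10] at hD
  nlinarith

end Pool.Agent.H65.SPD
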