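import Pool.Agent.H65.SPD.Defs
import Pool.Agent.H65.SPD.Ci
import Pool.Agent.H65.SPD.Tls
set_option autoImplicit false

/-!
# Dl (size 2).  The deficits `dl x K = c_K - H(x mod K)` of a law.

`dl_nonneg`: `H ≤ log |G/K|` (`H_le_log_card` with `univ`), `ci_eq`.  `dl_le_ci`: `H_nonneg`.
`dl_top`: `G ⧸ ⊤` has one element, `H_const`, `ci_top`.  `dl_bot`: `g ↦ g mod ⊥` is injective (`H_congr`), `ent_eq_H`, `ci_bot`.
`dl_eq_sub`: `H_sub_uS`: `H(x - U_K) = log |K| + H(x mod K)`.
`dl_mono` (`K' ≤ K`): `H(x mod K') ≤ H(x mod K) + log [K:K']`: `H_le_fiber` for the law `x`, `f = mod K'`,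
`π : G/K' → G/K` (`QuotientAddGroup.map` or `Quotient.map'`), `s = univ`; the fibres have `[K:K']` elements (each fibre is
the image of a coset `g + K`, on which `mod K'` takes `|K|/|K'|` values).  OR: `dl_eq_sub` and
`H(x - U_{K'}) ≤ H(x - U_{K'} - U_K) = H(x - U_K)`.
`dl_le_df`: `dl_mono` with `⊥` and `dl_bot`.
-/
namespace Pool.Agent.H65.SPD
open Finset Pool.Agent.Ldc
variable {G : Type} [AddCommGroup G] [Fintype G] {x : G → ℝ}

theorem dl_nonneg (hx : IsP x) (K : AddSubgroup G) : 0 ≤ dl x K := by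
  unfold dl
  rw [ci_eq]
  have h := H_le_log_card hx (fun g => (QuotientAddGroup.mk g : G ⧸ K)) Finset.univ
    (fun ω _ => Finset.mem_univ _)
  rw [Finset.card_univ] at h
  linarith

theorem dl_le_ci (hx : IsP x) (K : AddSubgroup G) : dl x K ≤ ci K := by
  unfold dl
  have h := H_nonneg hx (fun g => (QuotientAddGroup.mk g : G ⧸ K))
  linarith

theorem dl_top (hx : IsP x) : dl x (⊤ : AddSubgroup G) = 0 := by
  unfold dl
  rw [ci_top, H_const hx (fun g => (QuotientAddGroup.mk g : G ⧸ (⊤ : AddSubgroup G)))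
    (fun a b => QuotientAddGroup.eq.mpr (AddSubgroup.mem_top _)), sub_zero]

theorem dl_bot (hx : IsP x) : dl x (⊥ : AddSubgroup G) = df x := by
  unfold dl df
  rw [ci_bot, ent_eq_H, H_ker x (fun g => (QuotientAddGroup.mk g : G ⧸ (⊥ : AddSubgroup G)))
    (fun a => a)]
  intro a b
  rw [QuotientAddGroup.eq, AddSubgroup.mem_bot, neg_add_eq_zero]

theorem dl_eq_sub (hx : IsP x) (K : AddSubgroup G) :
    dl x K = Real.log (Fintype.card G : ℝ) - H (pp x (uS K)) (fun u => u.1 - u.2) := by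
  rw [H_sub_uS x hx K]
  unfold dl ci
  ring

private theorem Dl_card {K K' : AddSubgroup G} (h : K' ≤ K) (π : G ⧸ K' → G ⧸ K)
    (hπ : ∀ g : G, π (QuotientAddGroup.mk g) = QuotientAddGroup.mk g) (w : G)
    (u : Finset (G ⧸ K')) (hu : ∀ a ∈ u, π a = QuotientAddGroup.mk w) :
    u.card * Nat.card K' ≤ Nat.card K := by
  have hm : ∀ a ∈ u, ∀ k : K', a.out - w + (k : G) ∈ K := by
    intro a ha k
    have h1 := hu a ha
    have h2 : (QuotientAddGroup.mk a.out : G ⧸ K') = a := Quotient.out_eq' a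
    rw [← h2, hπ] at h1
    have h3 := QuotientAddGroup.eq.mp h1
    have h4 : a.out - w + (k : G) = -(-a.out + w) + (k : G) := by abel
    rw [h4]
    exact K.add_mem (K.neg_mem h3) (h k.2)
  let φ : u × K' → K := fun t => ⟨(t.1 : G ⧸ K').out - w + (t.2 : G), hm _ t.1.2 t.2⟩
  have hφ : Function.Injective φ := by
    rintro ⟨⟨a, ha⟩, ⟨k, hk⟩⟩ ⟨⟨b, hb⟩, ⟨l, hl⟩⟩ hab
    have e : a.out - w + k = b.out - w + l := congrArg (fun t : K => (t : G)) hab
    have e1 : -a.out + b.out = k - l := by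
      have e2 : a.out - w + k - (b.out - w + l) = 0 := sub_eq_zero.mpr e
      have e3 : -a.out + b.out - (k - l) = -(a.out - w + k - (b.out - w + l)) := by abel
      rw [e2, neg_zero] at e3
      exact sub_eq_zero.mp e3
    have e4 : (QuotientAddGroup.mk a.out : G ⧸ K') = QuotientAddGroup.mk b.out := by
      rw [QuotientAddGroup.eq, e1]
      exact K'.sub_mem hk hl
    have h2 : (QuotientAddGroup.mk a.out : G ⧸ K') = a := Quotient.out_eq' a
    have h3 : (QuotientAddGroup.mk b.out : G ⧸ K') = b := Quotient.out_eq' b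
    rw [h2, h3] at e4
    subst e4
    have e5 : k = l := add_left_cancel e
    subst e5
    rfl
  have := Nat.card_le_card_of_injective φ hφ
  rw [Nat.card_prod] at this
  have h5 : Nat.card u = u.card := by
    rw [Nat.card_eq_fintype_card, Fintype.card_coe]
  rwa [h5] at this

theorem dl_mono (hx : IsP x) {K K' : AddSubgroup G} (h : K' ≤ K) : dl x K ≤ dl x K' := by
  let π : G ⧸ K' → G ⧸ K := fun a => QuotientAddGroup.mk a.out
  have hπ : ∀ g : G, π (QuotientAddGroup.mk g) = QuotientAddGroup.mk g := by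
    intro g
    have h2 : (QuotientAddGroup.mk ((QuotientAddGroup.mk g : G ⧸ K').out) : G ⧸ K')
        = QuotientAddGroup.mk g := Quotient.out_eq' _
    exact QuotientAddGroup.eq.mpr (h (QuotientAddGroup.eq.mp h2))
  have hK : (0 : ℝ) < (Nat.card K : ℝ) := by exact_mod_cast Nat.card_pos
  have hK' : (0 : ℝ) < (Nat.card K' : ℝ) := by exact_mod_cast Nat.card_pos
  have key := H_le_fiber hx (fun g => (QuotientAddGroup.mk g : G ⧸ K')) π Finset.univ
    (fun ω _ => Finset.mem_univ _) (ci K' - ci K) (by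
      intro w _ u _ hu
      rcases Nat.eq_zero_or_pos u.card with h0 | h0
      · rw [h0, Nat.cast_zero, Real.log_zero]
        have := ci_anti h
        linarith
      · have h0' : (0 : ℝ) < (u.card : ℝ) := by exact_mod_cast h0
        have hc := Dl_card h π hπ w u (fun a ha => (hu a ha).trans (hπ w))
        have hc' : (u.card : ℝ) * (Nat.card K' : ℝ) ≤ (Nat.card K : ℝ) := by exact_mod_cast hc
        have hl := Real.log_le_log (mul_pos h0' hK') hc'
        rw [Real.log_mul h0'.ne' hK'.ne'] at hl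
        unfold ci
        linarith)
  have e : (fun ω => π (QuotientAddGroup.mk ω : G ⧸ K')) = fun g => (QuotientAddGroup.mk g : G ⧸ K) :=
    funext hπ
  rw [e] at key
  unfold dl
  linarith

theorem dl_le_df (hx : IsP x) (K : AddSubgroup G) : dl x K ≤ df x := by
  rw [← dl_bot hx]
  exact dl_mono hx bot_le

theorem df_nonneg (hx : IsP x) : 0 ≤ df x := by
  rw [← dl_bot hx]
  exact dl_nonneg hx _

end Pool.Agent.H65.SPD
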