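import Pool.Agent.H65.SPD.Defs
import Pool.Agent.H65.SPD.Tls
import Pool.Agent.H65.SPD.Ci
set_option autoImplicit false

/-!
# Sup (size 1).  Supermodularity of the deficits.

By `ci_modular` the claim is `H(x mod K⊓V) + H(x mod K⊔V) ≤ H(x mod K) + H(x mod V)`.  `H_submod` with
`f = mod K`, `g = mod V`, `h = mod (K ⊔ V)`: `h` is a function of `f` and of `g` (so `H(f,h) = H(f)`, `H(g,h) = H(g)`, by
`H_congr`) and `(f, g, h)` is equivalent to `mod (K ⊓ V)` (`H_congr`; the two maps between `G/(K⊓V)` and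
`G/K × G/V × G/(K⊔V)` exist because the kernels agree: it suffices that `f, g, h` all agree at `ω, ω'` iff `ω - ω' ∈ K ⊓ V`;
a kernel version of `H_congr` is easy: `H` only depends on the relation `f ω = f ω'`, `H_ker` in `Tls.lean`).
-/
namespace Pool.Agent.H65.SPD
open Finset Pool.Agent.Ldc
variable {G : Type} [AddCommGroup G] [Fintype G] {x : G → ℝ}

theorem dl_super (hx : IsP x) (K V : AddSubgroup G) :
    dl x V + dl x K ≤ dl x (K ⊓ V) + dl x (K ⊔ V) := by
  have hsub := H_submod hx (fun g => (QuotientAddGroup.mk g : G ⧸ K))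
    (fun g => (QuotientAddGroup.mk g : G ⧸ V)) (fun g => (QuotientAddGroup.mk g : G ⧸ (K ⊔ V)))
  have h1 : H x (fun g => ((QuotientAddGroup.mk g : G ⧸ K), (QuotientAddGroup.mk g : G ⧸ V),
      (QuotientAddGroup.mk g : G ⧸ (K ⊔ V))))
      = H x (fun g => (QuotientAddGroup.mk g : G ⧸ (K ⊓ V))) := by
    refine H_ker x _ _ fun a b => ?_
    simp only [Prod.mk.injEq, QuotientAddGroup.eq, AddSubgroup.mem_inf]
    exact ⟨fun h => ⟨h.1, h.2.1⟩, fun h => ⟨h.1, h.2, AddSubgroup.mem_sup_left h.1⟩⟩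
  have h2 : H x (fun g => ((QuotientAddGroup.mk g : G ⧸ K), (QuotientAddGroup.mk g : G ⧸ (K ⊔ V))))
      = H x (fun g => (QuotientAddGroup.mk g : G ⧸ K)) := by
    refine H_ker x _ _ fun a b => ?_
    simp only [Prod.mk.injEq, QuotientAddGroup.eq]
    exact ⟨fun h => h.1, fun h => ⟨h, AddSubgroup.mem_sup_left h⟩⟩
  have h3 : H x (fun g => ((QuotientAddGroup.mk g : G ⧸ V), (QuotientAddGroup.mk g : G ⧸ (K ⊔ V))))
      = H x (fun g => (QuotientAddGroup.mk g : G ⧸ V)) := by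
    refine H_ker x _ _ fun a b => ?_
    simp only [Prod.mk.injEq, QuotientAddGroup.eq]
    exact ⟨fun h => h.1, fun h => ⟨h, AddSubgroup.mem_sup_right h⟩⟩
  rw [h1, h2, h3] at hsub
  have h4 := ci_modular K V
  unfold dl
  linarith

end Pool.Agent.H65.SPD
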