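import Pool.Agent.H65.SPD.Ci
import Pool.Agent.H65.SPD.Dl
import Pool.Agent.H65.SPD.CvL
import Pool.Agent.H65.SPD.Sup
set_option autoImplicit false

/-!
# Key (size 1).  Key inequality and extremal subgroup.

`key`: with `M = K ⊔ V`:  `dl (cv x y) V ≤ dl (cv x y) M + dl x V - dl x M` (`dl_cv_inc`),
`dl x V - dl x M ≤ dl x (K ⊓ V) - dl x K` (`dl_super`), `dl (cv x y) M ≤ dl y M ≤ dl y K` (`dl_cv_le_right`, `dl_mono`).
`extremal`: `K` maximises `dl x K - ci K / 2` over the finite type `AddSubgroup G` (`Finite.exists_max`).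
Against `⊤`: `0 ≤ dl x K - ci K / 2` and `dl x K ≤ df x`, so `ci K ≤ 2 df x`.
Against `K ⊓ V`: `dl x (K ⊓ V) - dl x K ≤ (ci (K ⊓ V) - ci K)/2 ≤ ci V / 2` (`ci_inf_le`); conclude by `key`.
-/
namespace Pool.Agent.H65.SPD
open Finset Pool.Agent.Ldc
variable {G : Type} [AddCommGroup G] [Fintype G] {x y : G → ℝ}

theorem key (hx : IsP x) (hy : IsP y) (K V : AddSubgroup G) :
    dl (cv x y) V ≤ dl y K + dl x (K ⊓ V) - dl x K := by
  have h1 := dl_cv_inc hx hy (le_sup_right : V ≤ K ⊔ V)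
  have h2 := dl_super hx K V
  have h3 := dl_cv_le_right hx hy (K ⊔ V)
  have h4 := dl_mono hy (le_sup_left : K ≤ K ⊔ V)
  linarith

theorem extremal (hx : IsP x) : ∃ K : AddSubgroup G, ci K ≤ 2 * df x ∧
    ∀ y : G → ℝ, IsP y → ∀ V : AddSubgroup G, dl (cv x y) V ≤ dl y K + ci V / 2 := by
  obtain ⟨K, hK⟩ := Finite.exists_max (fun K : AddSubgroup G => dl x K - ci K / 2)
  refine ⟨K, ?_, fun y hy V => ?_⟩
  · have h1 := hK ⊤
    simp only [dl_top hx, ci_top] at h1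
    have h2 := dl_le_df hx K
    linarith
  · have h1 := hK (K ⊓ V)
    have h2 := key hx hy K V
    have h3 := ci_inf_le K V
    linarith

end Pool.Agent.H65.SPD
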