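import Pool.Agent.H65.SPD.Dl
import Pool.Agent.H65.SPD.Key
set_option autoImplicit false

/-!
# Ten (size 2).  Entropic PFR in terms of deficits.
-/
namespace Pool.Agent.H65.SPD
open Finset Pool.Agent.Ldc
variable {G : Type} [AddCommGroup G] [Fintype G] {x : G → ℝ}

theorem pfr_law (h2 : ∀ g : G, g + g = 0) (hx : IsP x) :
    ∃ V : AddSubgroup G, df x - 2 * (CP * rd x x) ≤ dl x V ∧ ci V ≤ df x + 2 * (CP * rd x x) := by
  have h6 : ∀ g : G, 6 • g = 0 := by
    intro g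
    have e : (6 : ℕ) • g = 3 • (g + g) := by
      rw [← two_nsmul, ← mul_nsmul']
    rw [e, h2, nsmul_zero]
  letI : Module (ZMod 6) G := AddCommGroup.zmodModule (n := 6) h6
  obtain ⟨V, hV⟩ := ent_pfr (m := 6) (by norm_num) x hx
  have hVe : rd x (uS V) ≤ CP * rd x x := by
    refine hV.trans (le_of_eq ?_)
    unfold CP
    norm_num
  have ha := abs_le.mp (abs_ent_sub_le hx (uS_isP V))
  rw [ent_uS] at ha
  have hr : rd x (uS V) = Real.log (Nat.card V)
      + H x (fun g => (QuotientAddGroup.mk g : G ⧸ V)) - ent x / 2 - Real.log (Nat.card V) / 2 := by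
    unfold rd
    rw [ent_uS, H_sub_uS x hx V]
  refine ⟨V, ?_, ?_⟩
  · unfold dl df ci
    linarith [ha.1, ha.2]
  · unfold ci df
    linarith [ha.1, ha.2]

theorem ten (h2 : ∀ g : G, g + g = 0) (hx : IsP x) : ∃ K : AddSubgroup G, ci K ≤ 2 * df x ∧
    ∀ y : G → ℝ, IsP y →
      df (cv x y) / 2 ≤ dl y K + 3 * (CP * rd (cv x y) (cv x y)) := by
  obtain ⟨K, hK, hk⟩ := extremal hx
  refine ⟨K, hK, fun y hy => ?_⟩
  obtain ⟨V, hV1, hV2⟩ := pfr_law h2 (cv_isP hx hy)
  have := hk y hy V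
  linarith

end Pool.Agent.H65.SPD
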