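import Pool.Agent.H65.SPD.FamA
import Pool.Agent.H65.SPD.FamB
import Pool.Agent.H65.SPD.FamC
import Pool.Agent.H65.SPD.Ten
import Pool.Agent.H65.SPD.BsgC
import Pool.Agent.H65.SPD.C2
set_option autoImplicit false

/-!
# C3 (size 3).  Inequality (8).

Let `W = fW r`, `I = D2(U) + D2(W) - 2 D2`, `E = θ L - D2`.  For `w` with `wb W w > 0` take `K_w` from `ten` for the law
`xb W w` (`xb_isP`):  for every `w'` with `wb W w' > 0`, `t = cv (xb W w) (xb W w')`:
`df t / 2 ≤ dl (xb W w') K_w + 3 (CP rd t t)`.  Multiply by `wb W w * wb W w'`, sum over `w'` then `w`: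
`D2(W) / 2 ≤ Σ_w wb W w * dK W K_w + 3 CP * Σ Σ wb wb rd(t,t)`      (`D2_avg`, `dK_avg`; `fW_isP`)
`≤ Σ_w wb W w * (4 q ci K_w + E) + 3 CP * 3 I`                      (`dW_bound`, `bsg_W`, `CP ≥ 0`)
`≤ Σ_w wb W w * (8 q df (xb W w)) + E + 9 CP I = 8 q L(W) + E + 9 CP I`   (`ci K_w ≤ 2 df`, `Lf_avg`, `wb_sum`).
-/
namespace Pool.Agent.H65.SPD
open Finset Pool.Agent.Ldc
variable {G β : Type} [AddCommGroup G] [Fintype G] [Fintype β] {r : G × β → ℝ}

theorem avg_bound {q θ : ℝ} (hq : 0 ≤ q) (hθ : 0 ≤ θ) (hB : Bd (8 * q) θ) (h2 : ∀ g : G, g + g = 0)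
    (hr : IsP r) (hs : Spread q r) :
    D2 (fW r) / 2 ≤ 8 * q * Lf (fW r) + (θ * Lf r - D2 r)
      + 9 * CP * (D2 (fU r) + D2 (fW r) - 2 * D2 r) := by
  set W := fW r with hW
  have hWP : IsP W := fW_isP hr
  have hCP : (0 : ℝ) ≤ CP := by unfold CP; positivity
  have hch : ∀ w : G × β × β, ∃ K : AddSubgroup G, 0 < wb W w → (ci K ≤ 2 * df (xb W w) ∧
      ∀ y : G → ℝ, IsP y → df (cv (xb W w) y) / 2 ≤ dl y K +
        3 * (CP * rd (cv (xb W w) y) (cv (xb W w) y))) := by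
    intro w
    by_cases hw : 0 < wb W w
    · obtain ⟨K, hK1, hK2⟩ := ten h2 (xb_isP hWP w hw)
      exact ⟨K, fun _ => ⟨hK1, hK2⟩⟩
    · exact ⟨⊥, fun h => absurd h hw⟩
  choose K hK using hch
  set I := D2 (fU r) + D2 (fW r) - 2 * D2 r with hI
  set E := θ * Lf r - D2 r with hE
  -- the sum over `w'`
  have h1 : ∀ w, ∑ w', wb W w * wb W w' * df (cv (xb W w) (xb W w')) / 2 ≤
      wb W w * dK W (K w) + 3 * CP * ∑ w', wb W w * wb W w' *
        rd (cv (xb W w) (xb W w')) (cv (xb W w) (xb W w')) := by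
    intro w
    rcases (wb_nonneg hWP w).eq_or_lt with hw | hw
    · rw [← hw]
      simp
    · rw [dK_avg hWP (K w), Finset.mul_sum, Finset.mul_sum, ← Finset.sum_add_distrib]
      refine Finset.sum_le_sum fun w' _ => ?_
      rcases (wb_nonneg hWP w').eq_or_lt with hw' | hw'
      · rw [← hw']
        simp
      · have h3 := (hK w hw).2 (xb W w') (xb_isP hWP w' hw')
        have h4 := mul_le_mul_of_nonneg_left h3 (mul_nonneg hw.le hw'.le)
        calc wb W w * wb W w' * df (cv (xb W w) (xb W w')) / 2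
            = wb W w * wb W w' * (df (cv (xb W w) (xb W w')) / 2) := by ring
          _ ≤ _ := h4
          _ = _ := by ring
  -- the bound for `dK W (K w)`
  have h2' : ∀ w, wb W w * dK W (K w) ≤ wb W w * (8 * q * df (xb W w) + E) := by
    intro w
    rcases (wb_nonneg hWP w).eq_or_lt with hw | hw
    · rw [← hw]
      simp
    · refine mul_le_mul_of_nonneg_left ?_ hw.le
      have h3 := dW_bound hq hθ hB h2 hr hs (K w)
      have h4 := mul_le_mul_of_nonneg_left (hK w hw).1 (by positivity : (0 : ℝ) ≤ 4 * q)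
      linarith
  have h5 := bsg_W h2 hr
  have h6 : D2 W / 2 ≤ ∑ w, wb W w * dK W (K w) + 3 * CP * ∑ w, ∑ w', wb W w * wb W w' *
        rd (cv (xb W w) (xb W w')) (cv (xb W w) (xb W w')) := by
    rw [D2_avg hWP, Finset.sum_div, Finset.mul_sum, ← Finset.sum_add_distrib]
    refine Finset.sum_le_sum fun w _ => ?_
    rw [Finset.sum_div]
    exact h1 w
  have h7 : ∑ w, wb W w * dK W (K w) ≤ 8 * q * Lf W + E := by
    refine (Finset.sum_le_sum fun w _ => h2' w).trans (le_of_eq ?_)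
    calc ∑ w, wb W w * (8 * q * df (xb W w) + E)
        = ∑ w, (8 * q * (wb W w * df (xb W w)) + wb W w * E) :=
          Finset.sum_congr rfl fun w _ => by ring
      _ = 8 * q * Lf W + E := by
          rw [Finset.sum_add_distrib, ← Finset.mul_sum, ← Lf_avg hWP, ← Finset.sum_mul,
            wb_sum hWP, one_mul]
  have h8 := mul_le_mul_of_nonneg_left h5 (by positivity : (0 : ℝ) ≤ 3 * CP)
  linarith

end Pool.Agent.H65.SPD
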