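import Pool.Agent.H65.SPD.FamC
import Pool.Agent.H65.SPD.FU
import Pool.Agent.H65.SPD.FW
import Pool.Agent.H65.SPD.BsgB
import Pool.Agent.H65.SPD.C2
import Pool.Agent.H65.SPD.C3
set_option autoImplicit false

/-!
# C4 (size 2).  The step, and Theorem A for `8^{-j}`-spread families.

`step`: let `E = θ L - D2`, `I = D2(U) + D2(W) - 2 D2`.  `I ≥ 0` (`bsg_cmi`, `cmi_nonneg`) and `D2(U) ≤ Lf (fU r) = D2 r`
(`D2_le_Lf`, `Lf_fU`), so `D2(W) ≥ D2 r`.  `Lf (fW r) = 2 L - D2 ≤ 2 L`.  With `avg_bound`, `I_bound`: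
`D2/2 ≤ 16 q L + E + 36 CP E`.
If `θ L ≥ (1 + dlt) D2` then `D2 ≤ θ/(1+dlt) L`.  Otherwise `E < dlt D2` and `(1 + 36 CP) dlt ≤ 37 CP/(148 CP) = 1/4`, so
`D2/4 ≤ 16 q L`, `D2 ≤ 64 q L`.  (`Lf_nonneg`; the `max` is monotone.)
`thmA`: induction on `j`.  `j = 0`: `D2 ≤ L ≤ 64 L`.  Step: `8 * (8⁻¹)^(j+1) = (8⁻¹)^j`, `θ/(1+dlt)` is the next term and
`64 * (8⁻¹)^(j+1) ≤ 64 * ((1+dlt)⁻¹)^(j+1)` as `1 + dlt ≤ 8`; use `Bd` monotone in `θ` (`Lf_nonneg`).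
-/
namespace Pool.Agent.H65.SPD
open Finset Pool.Agent.Ldc

private theorem C4_CP : (1 : ℝ) ≤ CP := by
  unfold CP
  norm_num

private theorem C4_dlt_pos : 0 < dlt := by
  have := C4_CP
  unfold dlt
  positivity

private theorem C4_dlt_le : (1 + 36 * CP) * dlt ≤ 1 / 4 := by
  have h := C4_CP
  have h0 : 0 < 148 * CP := by linarith
  unfold dlt
  rw [mul_one_div, div_le_iff₀ h0]
  linarith

private theorem C4_dlt_le7 : dlt ≤ 7 := by
  have h := C4_CP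
  have h1 := C4_dlt_le
  have h2 := C4_dlt_pos
  nlinarith [mul_nonneg (by linarith : (0 : ℝ) ≤ CP) h2.le]

theorem step {q θ : ℝ} (hq : 0 ≤ q) (hθ : 0 ≤ θ) (hB : Bd (8 * q) θ) :
    Bd q (max (θ / (1 + dlt)) (64 * q)) := by
  intro G β _ _ _ h2 r hr hs
  have hL := Lf_nonneg hr
  have hU : D2 (fU r) ≤ D2 r := by
    have := D2_le_Lf (fU_isP hr)
    rwa [Lf_fU hr] at this
  have hI0 : 0 ≤ D2 (fU r) + D2 (fW r) - 2 * D2 r := by
    rw [← bsg_cmi h2 hr]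
    exact cmi_nonneg (pp_isP (fW_isP hr) (fW_isP hr)) _ _ _
  have hI := I_bound hq hθ hB h2 hr hs
  have hA := avg_bound hq hθ hB h2 hr hs
  have hD0 := D2_nonneg hr
  rw [Lf_fW hr] at hA
  have hd := C4_dlt_pos
  have hCP := C4_CP
  have hd1 : 0 < 1 + dlt := by linarith
  by_cases hc : (1 + dlt) * D2 r ≤ θ * Lf r
  · have h3 : D2 r ≤ θ / (1 + dlt) * Lf r := by
      rw [div_mul_eq_mul_div, le_div_iff₀ hd1]
      linarith
    exact h3.trans (mul_le_mul_of_nonneg_right (le_max_left _ _) hL)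
  · push Not at hc
    have hE : θ * Lf r - D2 r ≤ dlt * D2 r := by linarith
    have hE0 : 0 ≤ θ * Lf r - D2 r := by linarith
    have h5 : 9 * CP * (D2 (fU r) + D2 (fW r) - 2 * D2 r) ≤ 9 * CP * (4 * (θ * Lf r - D2 r)) :=
      mul_le_mul_of_nonneg_left hI (by linarith)
    have h6 : (1 + 36 * CP) * (θ * Lf r - D2 r) ≤ (1 + 36 * CP) * (dlt * D2 r) :=
      mul_le_mul_of_nonneg_left hE (by linarith)
    have h7 : (1 + 36 * CP) * dlt * D2 r ≤ 1 / 4 * D2 r :=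
      mul_le_mul_of_nonneg_right C4_dlt_le hD0
    have h8 : 8 * q * (2 * Lf r - D2 r) ≤ 16 * q * Lf r := by
      have : 0 ≤ q * D2 r := mul_nonneg hq hD0
      nlinarith
    have h9 : D2 r ≤ 64 * q * Lf r := by linarith
    exact h9.trans (mul_le_mul_of_nonneg_right (le_max_right _ _) hL)

theorem thmA (j : ℕ) : Bd ((8⁻¹ : ℝ) ^ j) (64 * ((1 + dlt)⁻¹) ^ j) := by
  have hd := C4_dlt_pos
  have hd7 := C4_dlt_le7
  induction j with
  | zero =>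
    intro G β _ _ _ h2 r hr hs
    have h1 := D2_le_Lf hr
    have h3 := Lf_nonneg hr
    rw [pow_zero, mul_one]
    linarith
  | succ j ih =>
    have e : 8 * (8⁻¹ : ℝ) ^ (j + 1) = (8⁻¹ : ℝ) ^ j := by
      rw [pow_succ]
      ring
    have hstep := step (q := (8⁻¹ : ℝ) ^ (j + 1)) (θ := 64 * ((1 + dlt)⁻¹) ^ j) (by positivity)
      (by positivity) (by rw [e]; exact ih)
    have hmax : max (64 * ((1 + dlt)⁻¹) ^ j / (1 + dlt)) (64 * (8⁻¹ : ℝ) ^ (j + 1))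
        ≤ 64 * ((1 + dlt)⁻¹) ^ (j + 1) := by
      apply max_le
      · rw [pow_succ, div_eq_mul_inv, mul_assoc]
      · have h8 : (8⁻¹ : ℝ) ≤ (1 + dlt)⁻¹ :=
          inv_anti₀ (by linarith) (by linarith)
        exact mul_le_mul_of_nonneg_left (pow_le_pow_left₀ (by norm_num) h8 _) (by norm_num)
    intro G β _ _ _ h2 r hr hs
    have h1 := hstep G β h2 r hr hs
    exact h1.trans (mul_le_mul_of_nonneg_right hmax (Lf_nonneg hr))

end Pool.Agent.H65.SPD
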