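import Pool.Agent.H65.SPD.FamC
import Pool.Agent.H65.SPD.C1
import Pool.Agent.H65.SPD.C4
set_option autoImplicit false

/-!
# C5 (size 2).  Theorem A for real `q`.

`kap_pos`: `dlt > 0`.  `kap_le`: `log (1 + dlt) ≤ dlt ≤ 1 ≤ 2 log 8`.  `q0_kap`: `Real.rpow_mul`; `q0_pos`, `q0_lt`.
`thmA_real`: let `j = ⌊log(1/q)/log 8⌋₊`.  Then `q ≤ (8⁻¹)^j`, so `Bd_mono` and `thmA j` give `D2 ≤ 64 (1+dlt)^(-j) L`, and
`j ≥ log(1/q)/log 8 - 1`, so `(1+dlt)^(-j) ≤ (1 + dlt) exp(-log(1+dlt) log(1/q)/log 8) = (1+dlt) q^(2 kap) ≤ 2 q^(2 kap)`.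
Finally `128 q^(2 kap) ≤ q^kap` because `q^kap ≤ q0^kap = 1/128`.
-/
namespace Pool.Agent.H65.SPD
open Finset Pool.Agent.Ldc

private theorem c5_CP_pos : 0 < CP := by unfold CP; norm_num

private theorem c5_dlt_pos : 0 < dlt := by
  unfold dlt
  have := c5_CP_pos
  positivity

private theorem c5_dlt_le : dlt ≤ 1 := by
  unfold dlt CP
  norm_num

private theorem c5_log8 : (1 : ℝ) ≤ Real.log 8 := by
  have h : Real.exp 1 ≤ 8 := by
    have := Real.exp_one_lt_d9
    linarith
  calc (1 : ℝ) = Real.log (Real.exp 1) := by rw [Real.log_exp]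
    _ ≤ Real.log 8 := Real.log_le_log (Real.exp_pos 1) h

theorem kap_pos : 0 < kap := by
  have h1 := c5_dlt_pos
  have h2 := c5_log8
  unfold kap
  apply div_pos
  · exact Real.log_pos (by linarith)
  · linarith

theorem kap_le : kap ≤ 1 := by
  have h1 := c5_dlt_pos
  have h2 := c5_log8
  have h3 := c5_dlt_le
  have h4 : Real.log (1 + dlt) ≤ (1 + dlt) - 1 := Real.log_le_sub_one_of_pos (by linarith)
  unfold kap
  rw [div_le_one (by linarith)]
  linarith

theorem q0_pos : 0 < q0 := by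
  unfold q0
  exact Real.rpow_pos_of_pos (by norm_num) _

theorem q0_kap : q0 ^ kap = 1 / 128 := by
  have h := kap_pos
  unfold q0
  rw [← Real.rpow_mul (by norm_num), one_div_mul_cancel h.ne', Real.rpow_one]

theorem q0_lt : q0 < 1 := by
  have h := kap_pos
  unfold q0
  exact Real.rpow_lt_one (by norm_num) (by norm_num) (by positivity)

private theorem c5_key {q : ℝ} (hq : 0 < q) (hq1 : q ≤ q0) :
    64 * ((1 + dlt)⁻¹) ^ ⌊-Real.log q / Real.log 8⌋₊ ≤ q ^ kap := by
  have hd := c5_dlt_pos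
  have hd1 := c5_dlt_le
  have h8 := c5_log8
  have hk := kap_pos
  have hL : 0 < Real.log (1 + dlt) := Real.log_pos (by linarith)
  set j := ⌊-Real.log q / Real.log 8⌋₊ with hj
  have hj1 : -Real.log q / Real.log 8 < (j : ℝ) + 1 := Nat.lt_floor_add_one _
  have e1 : ((1 + dlt)⁻¹) ^ j = Real.exp (-((j : ℝ) * Real.log (1 + dlt))) := by
    rw [Real.exp_neg, inv_pow]
    congr 1
    rw [mul_comm, Real.exp_mul, Real.exp_log (by linarith), Real.rpow_natCast]
  have e2 : q ^ (2 * kap) = Real.exp (Real.log q / Real.log 8 * Real.log (1 + dlt)) := by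
    rw [Real.rpow_def_of_pos hq]
    congr 1
    unfold kap
    field_simp
  have e3 : ((1 + dlt)⁻¹) ^ j ≤ (1 + dlt) * q ^ (2 * kap) := by
    have e4 : (1 + dlt) * q ^ (2 * kap)
        = Real.exp (Real.log (1 + dlt) + Real.log q / Real.log 8 * Real.log (1 + dlt)) := by
      rw [Real.exp_add, Real.exp_log (by linarith), e2]
    rw [e1, e4]
    apply Real.exp_le_exp.mpr
    have h5 : -Real.log q / Real.log 8 * Real.log (1 + dlt)
        ≤ ((j : ℝ) + 1) * Real.log (1 + dlt) := mul_le_mul_of_nonneg_right hj1.le hL.le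
    have h6 : -Real.log q / Real.log 8 * Real.log (1 + dlt)
        = -(Real.log q / Real.log 8 * Real.log (1 + dlt)) := by ring
    rw [h6] at h5
    linarith
  have e5 : q ^ kap ≤ 1 / 128 := by
    rw [← q0_kap]
    exact Real.rpow_le_rpow hq.le hq1 hk.le
  have e6 : q ^ (2 * kap) = q ^ kap * q ^ kap := by
    rw [two_mul, Real.rpow_add hq]
  have h0 : 0 < q ^ kap := Real.rpow_pos_of_pos hq _
  calc 64 * ((1 + dlt)⁻¹) ^ j ≤ 64 * ((1 + dlt) * (q ^ kap * q ^ kap)) := by
        rw [← e6]; linarith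
    _ ≤ 64 * (2 * (q ^ kap * (1 / 128))) := by
        have h7 : q ^ kap * q ^ kap ≤ q ^ kap * (1 / 128) := mul_le_mul_of_nonneg_left e5 h0.le
        have h8 : (1 + dlt) * (q ^ kap * q ^ kap) ≤ 2 * (q ^ kap * (1 / 128)) :=
          mul_le_mul (by linarith) h7 (by positivity) (by norm_num)
        linarith
    _ = q ^ kap := by ring

theorem thmA_real {q : ℝ} (hq : 0 < q) (hq1 : q ≤ q0) : Bd q (q ^ kap) := by
  have h8 := c5_log8
  have hlq : 0 ≤ -Real.log q := by
    have := Real.log_nonpos hq.le (hq1.trans q0_lt.le)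
    linarith
  set j := ⌊-Real.log q / Real.log 8⌋₊ with hj
  have hj0 : (j : ℝ) ≤ -Real.log q / Real.log 8 :=
    Nat.floor_le (div_nonneg hlq (by linarith))
  have hle : q ≤ (8⁻¹ : ℝ) ^ j := by
    have e1 : (8⁻¹ : ℝ) ^ j = Real.exp (-((j : ℝ) * Real.log 8)) := by
      rw [Real.exp_neg, inv_pow]
      congr 1
      rw [mul_comm, Real.exp_mul, Real.exp_log (by norm_num), Real.rpow_natCast]
    rw [e1]
    calc q = Real.exp (Real.log q) := (Real.exp_log hq).symm
      _ ≤ Real.exp (-((j : ℝ) * Real.log 8)) := by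
        apply Real.exp_le_exp.mpr
        rw [le_div_iff₀ (by linarith)] at hj0
        linarith
  have hB := Bd_mono hle (thmA j)
  have hkey := c5_key hq hq1
  rw [← hj] at hkey
  intro G β _ _ _ h2 r hr hs
  refine (hB G β h2 r hr hs).trans ?_
  exact mul_le_mul_of_nonneg_right hkey (Lf_nonneg hr)

end Pool.Agent.H65.SPD
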