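import Pool.Agent.H65.SPD.NDefs
import Pool.Agent.H65.SPD.Tls
set_option autoImplicit false

/-!
# Pw (size 2).  Independent copies of one law.

`pw n p = pf (fun _ : Fin n => p)` (`Ldc/Defs`).  Library: `pf_isP` (E1), `indepFam_pf`, `H_indepFam`, `H_fun_of_indepFam`,
`pr_pf_coord`, `H_pf_coord` (E3b).
`pw_isP`: `pf_isP`.  `H_pw_coord`: `H_pf_coord`.
`H_pw_pr`: the family `F i ω = f (ω i)` on `pw n p` is independent (`indepFam_pf` with `A i = {i}`), so
`H (pw n p) (fun u => φ (fun i => f (u i))) = H (pf (fun i => pr (pw n p) (fun u => f (u i)))) φ` (`H_fun_of_indepFam`), and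
`pr (pw n p) (fun u => f (u i)) = pr p f` (`pr_pf_coord`).
`H_pw_fun`: `H_indepFam` for the same family and `H_pf_coord`; `Σ_{i : Fin n} c = n c`.
`H_pw_snoc`: `H_equiv` (Tls) with the equivalence `v ↦ Fin.snoc v.1 v.2`, inverse `u ↦ (fun i => u i.castSucc, u (Fin.last n))`;
`pf (..) (Fin.snoc v.1 v.2) = pf (..) v.1 * p v.2` by `Fin.prod_univ_castSucc`, `Fin.snoc_castSucc`, `Fin.snoc_last`.
-/
namespace Pool.Agent.H65.SPD
open Finset Pool.Agent.Ldc
variable {Ω α δ : Type} [Fintype Ω] [Fintype α] {p : Ω → ℝ}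

theorem pw_isP (hp : IsP p) (n : ℕ) : IsP (pw n p) :=
  pf_isP (fun _ : Fin n => p) (fun _ => hp)

theorem H_pw_coord (hp : IsP p) (n : ℕ) (i : Fin n) (φ : Ω → δ) :
    H (pw n p) (fun u => φ (u i)) = H p φ :=
  H_pf_coord (fun _ : Fin n => p) (fun _ => hp) i φ

private theorem Pw_ind (hp : IsP p) (n : ℕ) (f : Ω → δ) :
    IndepFam (pw n p) (fun (i : Fin n) (u : Fin n → Ω) => f (u i)) := by
  classical
  refine indepFam_pf (fun _ : Fin n => p) (fun _ => hp) (fun i => {i}) ?_ _ ?_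
  · intro i j hij
    rwa [Finset.disjoint_singleton]
  · intro i ω ω' h
    exact congrArg f (h i (Finset.mem_singleton_self i))

theorem H_pw_pr (hp : IsP p) (n : ℕ) (f : Ω → α) (φ : (Fin n → α) → δ) :
    H (pw n (pr p f)) φ = H (pw n p) (fun u => φ (fun i => f (u i))) := by
  have h := H_fun_of_indepFam (pw_isP hp n) _ (Pw_ind hp n f) φ
  have h2 : (fun i : Fin n => pr (pw n p) (fun u => f (u i))) = fun _ : Fin n => pr p f := by
    funext i
    exact pr_pf_coord (fun _ : Fin n => p) (fun _ => hp) i f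
  rw [h2] at h
  exact h.symm

theorem H_pw_fun (hp : IsP p) (n : ℕ) (f : Ω → δ) :
    H (pw n p) (fun u => (fun i => f (u i))) = (n : ℝ) * H p f := by
  have h := H_indepFam (pw_isP hp n) _ (Pw_ind hp n f)
  rw [h]
  have h2 : ∀ i : Fin n, H (pw n p) (fun u => f (u i)) = H p f := fun i => H_pw_coord hp n i f
  rw [Finset.sum_congr rfl (fun i _ => h2 i)]
  simp

theorem H_pw_snoc (p : Ω → ℝ) (n : ℕ) (φ : (Fin (n + 1) → Ω) → δ) :
    H (pw (n + 1) p) φ
      = H (pp (pw n p) p) (fun v => φ (Fin.snoc (α := fun _ => Ω) v.1 v.2)) := by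
  let e : (Fin n → Ω) × Ω ≃ (Fin (n + 1) → Ω) :=
    { toFun := fun v => Fin.snoc (α := fun _ => Ω) v.1 v.2
      invFun := fun u => (fun i => u i.castSucc, u (Fin.last n))
      left_inv := fun v => by
        refine Prod.ext ?_ ?_
        · funext i
          simp [Fin.snoc_castSucc]
        · simp [Fin.snoc_last]
      right_inv := fun u => by
        funext i
        refine Fin.lastCases ?_ (fun j => ?_) i
        · simp [Fin.snoc_last]
        · simp [Fin.snoc_castSucc] }
  rw [H_equiv e]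
  congr 1
  funext v
  show pf (fun _ : Fin (n + 1) => p) (Fin.snoc (α := fun _ => Ω) v.1 v.2)
    = pf (fun _ : Fin n => p) v.1 * p v.2
  unfold pf
  rw [Fin.prod_univ_castSucc]
  simp only [Fin.snoc_castSucc, Fin.snoc_last]

end Pool.Agent.H65.SPD
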