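import Pool.Agent.H65.SPD.NDefs
import Pool.Agent.H65.SPD.Tls
import Pool.Agent.H65.SPD.Pw
import Pool.Agent.H65.SPD.FamA
import Pool.Agent.Ldc.E7a
set_option autoImplicit false

/-!
# Kcp (size 4).  Conditionally independent copies.

`κ = kcp n P` on `τ × (Fin (n+1) → G)`, `κ(d, v) = wb P d * Π_i xb P d (v i)`.  If `wb P d > 0` then `xb P d` is a law (`xb_isP`); if
`wb P d = 0` the whole term is `0`.
`kcp_isP`: for fixed `d`, `Σ_v Π_i xb P d (v i) = 1` if `wb P d > 0` (`(pw_isP ..).2`, or `Finset.prod_univ_sum`); `wb_sum`, `wb_nonneg`.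
`kcp_coord`: the pair `(v i, d)` has the law `P`: `wb P d * xb P d g = P (g, d)` (`xb P d g = P(g,d)/wb P d`; if `wb P d = 0` then `P (g,d) = 0`),
and for fixed `d` with positive weight the coordinate `v i` has the law `xb P d` under `pw (n+1) (xb P d)` (`pr_pf_coord`).  So
`pr κ (fun u => (u.2 i, u.1)) = P`, and `H κ (ψ ∘ ..) = H P ψ` by `H_law`.
`kcp_sum`: `H_cond_sum` for `κ`, `g = (fun u => u.1)`, `f = F ∘ Prod.snd`: `pr κ (·.1) d = wb P d`; `H κ (·.1) = H P (·.2)` (`kcp_coord`, `i = 0`, or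
`H_eq_ent`); and if `wb P d > 0` then the law of `u.2` under `cnd κ (·.1) d` is `pw (n+1) (xb P d)` (pointwise), so the conditional
entropy is `H (pw (n+1) (xb P d)) F` (`H_law`).
`kcp_all`: `kcp_sum` with `F = id`, `H (pw (n+1) x) (fun v => v) = (n+1) H x id` (`H_pw_fun`), and `H_cond_sum` for `P`
(`H P (u.1, u.2) = H P (·.2) + Σ_d wb P d * H (cnd P (·.2) d) (·.1)`, the last entropy is `H (xb P d) id`).
-/
namespace Pool.Agent.H65.SPD
open Finset Pool.Agent.Ldc
variable {G τ δ : Type} [AddCommGroup G] [Fintype G] [Fintype τ] {P : G × τ → ℝ}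

private theorem Kcp_xb (P : G × τ → ℝ) (d : τ) (g : G) : xb P d g = P (g, d) / wb P d := by
  unfold xb
  rw [E7a_pr_cnd]
  have h : pr P (fun u : G × τ => (u.1, u.2)) = P := pr_id P
  rw [h]
  rfl

private theorem Kcp_zero (hP : IsP P) {d : τ} (h : wb P d = 0) (g : G) : P (g, d) = 0 := by
  by_contra hne
  have h1 : 0 < P (g, d) := lt_of_le_of_ne (hP.1 _) (Ne.symm hne)
  have h2 := pr_pos hP (fun u : G × τ => u.2) h1
  unfold wb at h
  simp only at h2
  rw [h] at h2
  exact lt_irrefl _ h2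

private theorem Kcp_wx (hP : IsP P) (d : τ) (g : G) : wb P d * xb P d g = P (g, d) := by
  rw [Kcp_xb]
  by_cases h : wb P d = 0
  · rw [h, zero_mul, Kcp_zero hP h]
  · rw [mul_div_cancel₀ _ h]

private theorem Kcp_apply (P : G × τ → ℝ) (n : ℕ) (d : τ) (v : Fin (n + 1) → G) :
    kcp n P (d, v) = wb P d * pw (n + 1) (xb P d) v := rfl

private theorem Kcp_pos_or (hP : IsP P) (d : τ) : wb P d = 0 ∨ 0 < wb P d := by
  rcases (wb_nonneg hP d).lt_or_eq with h | h
  · exact Or.inr h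
  · exact Or.inl h.symm

theorem kcp_isP (hP : IsP P) (n : ℕ) : IsP (kcp n P) := by
  constructor
  · rintro ⟨d, v⟩
    rw [Kcp_apply]
    rcases Kcp_pos_or hP d with h | h
    · rw [h, zero_mul]
    · exact mul_nonneg h.le ((pw_isP (xb_isP hP d h) (n + 1)).1 v)
  · rw [Fintype.sum_prod_type]
    have h1 : ∀ d, ∑ v, kcp n P (d, v) = wb P d := by
      intro d
      simp only [Kcp_apply]
      rw [← Finset.mul_sum]
      rcases Kcp_pos_or hP d with h | h
      · rw [h, zero_mul]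
      · rw [(pw_isP (xb_isP hP d h) (n + 1)).2, mul_one]
    rw [Finset.sum_congr rfl fun d _ => h1 d]
    exact wb_sum hP

private theorem Kcp_pr_coord (hP : IsP P) (n : ℕ) (i : Fin (n + 1)) :
    pr (kcp n P) (fun u => (u.2 i, u.1)) = P := by
  classical
  funext x
  obtain ⟨g, d⟩ := x
  have h5 : wb P d * pr (pw (n + 1) (xb P d)) (fun v => v i) g = P (g, d) := by
    rcases Kcp_pos_or hP d with h | h
    · rw [h, zero_mul, Kcp_zero hP h]
    · have hx := xb_isP hP d h
      have h2 : pr (pw (n + 1) (xb P d)) (fun v => v i) = xb P d :=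
        (pr_pf_coord (fun _ : Fin (n + 1) => xb P d) (fun _ => hx) i (fun a : G => a)).trans
          (pr_id _)
      rw [h2, Kcp_wx hP]
  rw [← h5]
  unfold pr pe
  rw [Fintype.sum_prod_type]
  beta_reduce
  rw [Finset.sum_eq_single d]
  · rw [Finset.mul_sum]
    refine Finset.sum_congr rfl fun v _ => ?_
    by_cases h : v i = g
    · have h' : ((v i, d) : G × τ) = (g, d) := by rw [h]
      rw [if_pos h', if_pos h, Kcp_apply]
    · have h' : ¬ ((v i, d) : G × τ) = (g, d) := fun h' => h (congrArg Prod.fst h')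
      rw [if_neg h', if_neg h, mul_zero]
  · intro d' _ hd
    refine Finset.sum_eq_zero fun v _ => ?_
    have h' : ¬ ((v i, d') : G × τ) = (g, d) := fun h => hd (congrArg Prod.snd h)
    rw [if_neg h']
  · intro h
    exact absurd (Finset.mem_univ d) h

theorem kcp_coord (hP : IsP P) (n : ℕ) (i : Fin (n + 1)) (ψ : G × τ → δ) :
    H (kcp n P) (fun u => ψ (u.2 i, u.1)) = H P ψ := by
  rw [← H_law (kcp n P) (fun u => (u.2 i, u.1)) ψ, Kcp_pr_coord hP]

theorem kcp_data (hP : IsP P) (n : ℕ) (ψ : τ → δ) :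
    H (kcp n P) (fun u => ψ u.1) = H P (fun u => ψ u.2) :=
  kcp_coord hP n 0 (fun z => ψ z.2)

private theorem Kcp_pr_fst (hP : IsP P) (n : ℕ) (d : τ) :
    pr (kcp n P) (fun u => u.1) d = wb P d := by
  have h := pr_pr (kcp n P) (fun u => (u.2 0, u.1)) (fun z : G × τ => z.2)
  rw [Kcp_pr_coord hP] at h
  exact (congrFun h d).symm

private theorem Kcp_pr_snd (hP : IsP P) (n : ℕ) {d : τ} (h : 0 < wb P d) :
    pr (cnd (kcp n P) (fun u => u.1) d) (fun u => u.2) = pw (n + 1) (xb P d) := by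
  funext v
  rw [E7a_pr_cnd, Kcp_pr_fst hP]
  have h1 : pr (kcp n P) (fun u => (u.2, u.1)) (v, d) = kcp n P (d, v) := by
    classical
    unfold pr pe
    rw [Finset.sum_eq_single (d, v)]
    · rw [if_pos rfl]
    · rintro ⟨d', v'⟩ _ hne
      rw [if_neg]
      intro h'
      apply hne
      rw [Prod.mk.injEq] at h' ⊢
      exact ⟨h'.2, h'.1⟩
    · intro h'
      exact absurd (Finset.mem_univ _) h'
  rw [h1, Kcp_apply, mul_div_cancel_left₀ _ h.ne']

theorem kcp_sum (hP : IsP P) (n : ℕ) (F : (Fin (n + 1) → G) → δ) :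
    H (kcp n P) (fun u => (F u.2, u.1))
      = H P (fun u => u.2) + ∑ d, wb P d * H (pw (n + 1) (xb P d)) F := by
  have h1 := H_cond_sum (kcp_isP hP n) (fun u => F u.2) (fun u => u.1)
  rw [h1, kcp_data hP n (fun t => t)]
  congr 1
  refine Finset.sum_congr rfl fun d _ => ?_
  rw [Kcp_pr_fst hP]
  rcases Kcp_pos_or hP d with h | h
  · rw [h, zero_mul, zero_mul]
  · rw [← H_law _ (fun u : τ × (Fin (n + 1) → G) => u.2) F, Kcp_pr_snd hP n h]

theorem kcp_all (hP : IsP P) (n : ℕ) :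
    H (kcp n P) (fun u => (u.2, u.1))
      = ((n : ℝ) + 1) * (H P (fun u => (u.1, u.2)) - H P (fun u => u.2))
        + H P (fun u => u.2) := by
  have h1 := kcp_sum hP n (fun v => v)
  have h2 := H_cond_sum hP (fun u => u.1) (fun u => u.2)
  have h3 : ∀ d, wb P d * H (pw (n + 1) (xb P d)) (fun v => v)
      = ((n : ℝ) + 1) * (pr P (fun u => u.2) d * H (cnd P (fun u => u.2) d) (fun u => u.1)) := by
    intro d
    rcases Kcp_pos_or hP d with h | h
    · have h' : pr P (fun u => u.2) d = 0 := h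
      rw [h, h', zero_mul, zero_mul, mul_zero]
    · have e1 : H (pw (n + 1) (xb P d)) (fun v => v) = ((n + 1 : ℕ) : ℝ) * H (xb P d) (fun g => g) :=
        H_pw_fun (xb_isP hP d h) (n + 1) (fun g => g)
      have e2 : H (xb P d) (fun g => g) = H (cnd P (fun u => u.2) d) (fun u => u.1) := by
        unfold xb
        rw [H_law]
      rw [e1, e2]
      push_cast
      unfold wb
      ring
  rw [h1, Finset.sum_congr rfl fun d _ => h3 d, ← Finset.mul_sum, h2]
  ring

end Pool.Agent.H65.SPD
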