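import Pool.Agent.H65.SPD.NDefs
import Pool.Agent.H65.SPD.Tls
set_option autoImplicit false

/-!
# Sub (size 2).  Conditional subadditivity of entropy for finitely many variables.

Induction on `n`.  `n = 0`: `(fun i : Fin 1 => g i ω, s ω)` is equivalent to `(g 0 ω, s ω)` (`H_ker`, `Fin.forall_fin_one`).
Step: `(fun i : Fin (n+2) => g i ω, s ω)` is equivalent to `(g (last) ω, (fun i : Fin (n+1) => g i.castSucc ω), s ω)` (`H_ker`, `Fin.lastCases`).
`H_submod` with `f = g (last)`, the middle variable and `h = s`: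
`H(g_last, rest, s) ≤ H(g_last, s) + H(rest, s) - H(s)`; induction hypothesis for `rest`; `Fin.sum_univ_castSucc`.
-/
namespace Pool.Agent.H65.SPD
open Finset Pool.Agent.Ldc
variable {Ω α δ : Type} [Fintype Ω] {p : Ω → ℝ}

theorem H_sub_fin (hp : IsP p) (n : ℕ) (g : Fin (n + 1) → Ω → α) (s : Ω → δ) :
    H p (fun ω => ((fun i => g i ω), s ω))
      ≤ ∑ i, H p (fun ω => (g i ω, s ω)) - (n : ℝ) * H p s := by
  induction n with
  | zero =>
    have h1 : H p (fun ω => ((fun i : Fin (0 + 1) => g i ω), s ω)) = H p (fun ω => (g 0 ω, s ω)) := by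
      refine H_ker _ _ _ fun ω ω' => ?_
      simp only [Prod.mk.injEq]
      constructor
      · rintro ⟨a, b⟩
        exact ⟨congrFun a 0, b⟩
      · rintro ⟨a, b⟩
        refine ⟨?_, b⟩
        funext i
        have : i = 0 := Fin.fin_one_eq_zero i
        rw [this]
        exact a
    rw [h1]
    simp
  | succ n ih =>
    have h1 : H p (fun ω => ((fun i : Fin (n + 1 + 1) => g i ω), s ω))
        = H p (fun ω => (g (Fin.last (n + 1)) ω, (fun i : Fin (n + 1) => g i.castSucc ω), s ω)) := by
      refine H_ker _ _ _ fun ω ω' => ?_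
      simp only [Prod.mk.injEq]
      constructor
      · rintro ⟨a, b⟩
        exact ⟨congrFun a _, funext fun i => congrFun a i.castSucc, b⟩
      · rintro ⟨a, b, c⟩
        refine ⟨?_, c⟩
        funext i
        refine Fin.lastCases a (fun j => ?_) i
        exact congrFun b j
    have h2 := H_submod hp (g (Fin.last (n + 1))) (fun ω => (fun i : Fin (n + 1) => g i.castSucc ω)) s
    have h3 := ih (fun i => g i.castSucc)
    rw [h1, Fin.sum_univ_castSucc]
    push_cast
    linarith

end Pool.Agent.H65.SPD
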