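import Pool.Agent.H65.SPD.NDefs
import Pool.Agent.H65.SPD.Tls
import Pool.Agent.H65.SPD.FamA
import Pool.Agent.H65.SPD.Pw
import Pool.Agent.H65.SPD.Kcp
import Pool.Agent.H65.SPD.Sub
set_option autoImplicit false

/-!
# Clq (size 3).  The clique inequality.

`A = u.1`, data `d = u.2`, `C = C d`, `s = s d`, `B = A + C`; `(C, s)` determines `d` (`hinj`).
On `κ = kcp n P`, point `u = (d, v)`: `f = v`, `g = (fun i => v i + C d)`, `h = (Z, s d)`, `Z = (fun i : Fin n => v i.succ + v 0)`.
`H_submod`: `H(f,g,h) + H(h) ≤ H(f,h) + H(g,h)`.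
(1) `H(f,g,h) = H(v, d)` (`H_ker`: from `v 0` and `v 0 + C d` one gets `C d`, with `s d` one gets `d`)
    `= (n+1)(H P (A,d) - H P d) + H P d` (`kcp_all`).
(2) `H(f,h) = H(v, s d)` (`H_ker`) `≤ Σ_i H(v i, s d) - n H(s d) = (n+1) H P (A,s) - n H P s` (`H_sub_fin`, `kcp_coord`, `kcp_data`).
(3) `H(g,h) = H(g, s d)` (`H_ker`: `Z i = g i.succ + g 0` because `g + g = 0` in `G`) `≤ (n+1) H P (A + C, s) - n H P s` (same).
(4) `H(h) ≥ H(Z, d) - H(d) + H(s d)` (`H_cond_anti` with `g = d`, `φ = s`), `H(Z, d) = H P d + Σ_d wb P d * H (pw (n+1) (xb P d)) Z` (`kcp_sum`)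
    `= H P d + n log|G| - Σ_d wb P d * Dc n (xb P d)` (definition of `Dc`, `wb_sum`); `H(d) = H P d` (`kcp_data`).
So `(n+1)(H P(A,d) - H P d) + H P d + n log|G| - Σ wb Dc + H P s ≤ (n+1) H P(A,s) + (n+1) H P(A+C,s) - 2 n H P s`.
With `Lf P = log|G| - (H P (A,d) - H P d)` and `H P d = H P (C, s)` (`H_ker`, `hinj`) this is the claim.
-/
namespace Pool.Agent.H65.SPD
open Finset Pool.Agent.Ldc
variable {G τ σ : Type} [AddCommGroup G] [Fintype G] [Fintype τ] {P : G × τ → ℝ}

theorem clique (h2 : ∀ g : G, g + g = 0) (hP : IsP P) (n : ℕ) (C : τ → G) (s : τ → σ)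
    (hinj : ∀ d d', C d = C d' → s d = s d' → d = d') :
    ((n : ℝ) + 1) * (2 * Real.log (Fintype.card G : ℝ)
        - (H P (fun u => (u.1, s u.2)) - H P (fun u => s u.2))
        - (H P (fun u => (u.1 + C u.2, s u.2)) - H P (fun u => s u.2)))
      ≤ (Real.log (Fintype.card G : ℝ) - (H P (fun u => (C u.2, s u.2)) - H P (fun u => s u.2)))
        + ((n : ℝ) + 1) * Lf P + ∑ d, wb P d * Dc n (xb P d) := by
  have hK := kcp_isP hP n
  -- the variables
  have hsm := H_submod hK (fun u : τ × (Fin (n + 1) → G) => u.2)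
    (fun u : τ × (Fin (n + 1) → G) => (fun i => u.2 i + C u.1))
    (fun u : τ × (Fin (n + 1) → G) => ((fun i : Fin n => u.2 i.succ + u.2 0), s u.1))
  -- (1)
  have e1 : H (kcp n P) (fun u : τ × (Fin (n + 1) → G) =>
        (u.2, (fun i => u.2 i + C u.1), ((fun i : Fin n => u.2 i.succ + u.2 0), s u.1)))
      = ((n : ℝ) + 1) * (H P (fun u => (u.1, u.2)) - H P (fun u => u.2))
        + H P (fun u => u.2) := by
    rw [← kcp_all hP n]
    refine H_ker _ _ _ fun ω ω' => ?_
    simp only [Prod.mk.injEq]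
    constructor
    · rintro ⟨h1, h3, _, h5⟩
      refine ⟨h1, hinj _ _ ?_ h5⟩
      have h6 := congrFun h3 0
      simp only [h1] at h6
      exact add_left_cancel h6
    · rintro ⟨h1, h3⟩
      rw [h1, h3]
      exact ⟨rfl, rfl, rfl, rfl⟩
  -- (2)
  have e2 : H (kcp n P) (fun u : τ × (Fin (n + 1) → G) =>
        (u.2, ((fun i : Fin n => u.2 i.succ + u.2 0), s u.1)))
      ≤ ((n : ℝ) + 1) * H P (fun u => (u.1, s u.2)) - (n : ℝ) * H P (fun u => s u.2) := by
    have a1 : H (kcp n P) (fun u : τ × (Fin (n + 1) → G) =>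
          (u.2, ((fun i : Fin n => u.2 i.succ + u.2 0), s u.1)))
        = H (kcp n P) (fun u : τ × (Fin (n + 1) → G) => ((fun i => u.2 i), s u.1)) := by
      refine H_ker _ _ _ fun ω ω' => ?_
      simp only [Prod.mk.injEq]
      constructor
      · rintro ⟨h1, _, h5⟩
        exact ⟨h1, h5⟩
      · rintro ⟨h1, h3⟩
        have h1' : ω.2 = ω'.2 := h1
        rw [h1', h3]
        exact ⟨rfl, rfl, rfl⟩
    rw [a1]
    have a2 := H_sub_fin hK n (fun i (u : τ × (Fin (n + 1) → G)) => u.2 i) (fun u => s u.1)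
    have a3 : ∀ i : Fin (n + 1), H (kcp n P) (fun u : τ × (Fin (n + 1) → G) => (u.2 i, s u.1))
        = H P (fun u => (u.1, s u.2)) := fun i =>
      kcp_coord hP n i (fun u => (u.1, s u.2))
    have a4 : H (kcp n P) (fun u : τ × (Fin (n + 1) → G) => s u.1) = H P (fun u => s u.2) :=
      kcp_data hP n s
    simp only [a3, a4, Finset.sum_const, Finset.card_univ, Fintype.card_fin, nsmul_eq_mul] at a2
    push_cast at a2
    exact a2
  -- (3)
  have e3 : H (kcp n P) (fun u : τ × (Fin (n + 1) → G) =>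
        ((fun i => u.2 i + C u.1), ((fun i : Fin n => u.2 i.succ + u.2 0), s u.1)))
      ≤ ((n : ℝ) + 1) * H P (fun u => (u.1 + C u.2, s u.2)) - (n : ℝ) * H P (fun u => s u.2) := by
    have a1 : H (kcp n P) (fun u : τ × (Fin (n + 1) → G) =>
          ((fun i => u.2 i + C u.1), ((fun i : Fin n => u.2 i.succ + u.2 0), s u.1)))
        = H (kcp n P) (fun u : τ × (Fin (n + 1) → G) => ((fun i => u.2 i + C u.1), s u.1)) := by
      refine H_ker _ _ _ fun ω ω' => ?_
      simp only [Prod.mk.injEq]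
      constructor
      · rintro ⟨h1, _, h5⟩
        exact ⟨h1, h5⟩
      · rintro ⟨h1, h3⟩
        refine ⟨h1, ?_, h3⟩
        funext i
        have key : ∀ (w : τ × (Fin (n + 1) → G)),
            w.2 i.succ + w.2 0 = (w.2 i.succ + C w.1) + (w.2 0 + C w.1) := by
          intro w
          have := h2 (C w.1)
          calc w.2 i.succ + w.2 0 = w.2 i.succ + w.2 0 + (C w.1 + C w.1) := by rw [this, add_zero]
            _ = _ := by abel
        rw [key ω, key ω']
        have k1 : ω.2 i.succ + C ω.1 = ω'.2 i.succ + C ω'.1 := congrFun h1 i.succ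
        have k2 : ω.2 0 + C ω.1 = ω'.2 0 + C ω'.1 := congrFun h1 0
        rw [k1, k2]
    rw [a1]
    have a2 := H_sub_fin hK n (fun i (u : τ × (Fin (n + 1) → G)) => u.2 i + C u.1)
      (fun u => s u.1)
    have a3 : ∀ i : Fin (n + 1),
        H (kcp n P) (fun u : τ × (Fin (n + 1) → G) => (u.2 i + C u.1, s u.1))
        = H P (fun u => (u.1 + C u.2, s u.2)) := fun i =>
      kcp_coord hP n i (fun u => (u.1 + C u.2, s u.2))
    have a4 : H (kcp n P) (fun u : τ × (Fin (n + 1) → G) => s u.1) = H P (fun u => s u.2) :=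
      kcp_data hP n s
    simp only [a3, a4, Finset.sum_const, Finset.card_univ, Fintype.card_fin, nsmul_eq_mul] at a2
    push_cast at a2
    exact a2
  -- (4)
  have e4 : (n : ℝ) * Real.log (Fintype.card G : ℝ) - ∑ d, wb P d * Dc n (xb P d)
        + H P (fun u => s u.2)
      ≤ H (kcp n P) (fun u : τ × (Fin (n + 1) → G) =>
        ((fun i : Fin n => u.2 i.succ + u.2 0), s u.1)) := by
    have a1 := H_cond_anti hK
      (fun u : τ × (Fin (n + 1) → G) => (fun i : Fin n => u.2 i.succ + u.2 0))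
      (fun u => u.1) s
    have a2 := kcp_sum hP n (fun v : Fin (n + 1) → G => (fun i : Fin n => v i.succ + v 0))
    have a3 : H (kcp n P) (fun u : τ × (Fin (n + 1) → G) => u.1) = H P (fun u => u.2) :=
      kcp_data hP n (fun d => d)
    have a4 : H (kcp n P) (fun u : τ × (Fin (n + 1) → G) => s u.1) = H P (fun u => s u.2) :=
      kcp_data hP n s
    have a5 : ∑ d, wb P d * H (pw (n + 1) (xb P d)) (fun v => (fun i : Fin n => v i.succ + v 0))
        = (n : ℝ) * Real.log (Fintype.card G : ℝ) - ∑ d, wb P d * Dc n (xb P d) := by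
      have b1 : ∀ d, wb P d * H (pw (n + 1) (xb P d))
            (fun v => (fun i : Fin n => v i.succ + v 0))
          = wb P d * ((n : ℝ) * Real.log (Fintype.card G : ℝ)) - wb P d * Dc n (xb P d) := by
        intro d
        unfold Dc
        ring
      rw [Finset.sum_congr rfl fun d _ => b1 d, Finset.sum_sub_distrib, ← Finset.sum_mul,
        wb_sum hP, one_mul]
    rw [a5] at a2
    linarith
  have e5 : H P (fun u => (C u.2, s u.2)) = H P (fun u => u.2) := by
    refine H_ker _ _ _ fun ω ω' => ?_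
    simp only [Prod.mk.injEq]
    constructor
    · rintro ⟨h1, h3⟩
      exact hinj _ _ h1 h3
    · intro h
      rw [h]
      exact ⟨rfl, rfl⟩
  have hL : Lf P = Real.log (Fintype.card G : ℝ)
      - (H P (fun u => (u.1, u.2)) - H P (fun u => u.2)) := rfl
  rw [e1] at hsm
  rw [e5, hL]
  nlinarith [hsm, e2, e3, e4]

end Pool.Agent.H65.SPD
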