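import Pool.Agent.H65.SPD.Defs
import Pool.Agent.H65.SPD.CvL
set_option autoImplicit false

/-!
# SetT.  Supports.
-/
namespace Pool.Agent.H65.SPD
open Finset Pool.Agent.Ldc
variable {G : Type} [AddCommGroup G] [Fintype G] {x y : G → ℝ}

theorem cv_support (hx : IsP x) (hy : IsP y) (g : G) (h : 0 < cv x y g) :
    ∃ a b, 0 < x a ∧ 0 < y b ∧ a + b = g := by
  unfold cv at h
  obtain ⟨u, hu1, hu2⟩ := exists_of_pr_pos (pp_isP hx hy) (fun u : G × G => u.1 + u.2) h
  have h1 : (0 < x u.1 ∧ 0 < y u.2) ∧ u.1 + u.2 = g := by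
    have hpos : 0 < pp x y u ∧ u.1 + u.2 = g := by
      first
        | exact ⟨hu1, hu2⟩
        | exact ⟨hu2, hu1⟩
    refine ⟨?_, hpos.2⟩
    have h2 : 0 < x u.1 * y u.2 := hpos.1
    have hx0 := hx.1 u.1
    have hy0 := hy.1 u.2
    refine ⟨lt_of_le_of_ne hx0 ?_, lt_of_le_of_ne hy0 ?_⟩
    · intro h0
      rw [← h0, zero_mul] at h2
      exact lt_irrefl _ h2
    · intro h0
      rw [← h0, mul_zero] at h2
      exact lt_irrefl _ h2
  exact ⟨u.1, u.2, h1.1.1, h1.1.2, h1.2⟩

private theorem SetT_isP (hx : IsP x) (s : ℕ) : IsP (cvi s x) := by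
  induction s with
  | zero => exact hx
  | succ s ih => exact cv_isP ih ih

theorem cvi_support (hx : IsP x) (s : ℕ) (g : G) (h : 0 < cvi s x g) :
    ∃ f : Fin (2 ^ s) → G, (∀ i, 0 < x (f i)) ∧ ∑ i, f i = g := by
  induction s generalizing g with
  | zero =>
    refine ⟨fun _ => g, fun _ => h, ?_⟩
    simp
  | succ s ih =>
    obtain ⟨a, b, ha, hb, hab⟩ := cv_support (SetT_isP hx s) (SetT_isP hx s) g h
    obtain ⟨f1, hf1, hs1⟩ := ih a ha
    obtain ⟨f2, hf2, hs2⟩ := ih b hb
    have key : ∀ n : ℕ, n = 2 ^ s + 2 ^ s →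
        ∃ f : Fin n → G, (∀ i, 0 < x (f i)) ∧ ∑ i, f i = g := by
      rintro n rfl
      refine ⟨Fin.append f1 f2, ?_, ?_⟩
      · intro i
        refine Fin.addCases (fun j => ?_) (fun j => ?_) i
        · rw [Fin.append_left]; exact hf1 j
        · rw [Fin.append_right]; exact hf2 j
      · rw [Fin.sum_univ_add]
        simp only [Fin.append_left, Fin.append_right]
        rw [hs1, hs2, hab]
    exact key _ (by rw [pow_succ]; ring)

theorem exists_sum_of_df_lt (hx : IsP x) (h : df x < Real.log 2) (g : G) :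
    ∃ a b, 0 < x a ∧ 0 < x b ∧ a + b = g := by
  classical
  obtain ⟨S, hS⟩ : ∃ S : Finset G, S = Finset.univ.filter (fun a => 0 < x a) := ⟨_, rfl⟩
  have hmem : ∀ a, a ∈ S ↔ 0 < x a := by
    intro a
    rw [hS, Finset.mem_filter]
    exact ⟨fun h => h.2, fun h => ⟨Finset.mem_univ a, h⟩⟩
  have hne : S.Nonempty := by
    by_contra hcon
    rw [Finset.not_nonempty_iff_eq_empty] at hcon
    have h0 : ∀ a, x a = 0 := by
      intro a
      have h1 : a ∉ S := by rw [hcon]; exact Finset.notMem_empty a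
      rw [hmem] at h1
      exact le_antisymm (not_lt.mp h1) (hx.1 a)
    have h1 := hx.2
    simp only [h0, Finset.sum_const_zero] at h1
    exact zero_ne_one h1
  have hent : ent x ≤ Real.log (S.card : ℝ) := by
    rw [ent_eq_H]
    exact H_le_log_card hx (fun a => a) S (fun a ha => (hmem a).mpr ha)
  have hSpos : (0 : ℝ) < (S.card : ℝ) := by exact_mod_cast Finset.card_pos.mpr hne
  have hGpos : (0 : ℝ) < (Fintype.card G : ℝ) := by
    exact_mod_cast Fintype.card_pos_iff.mpr ⟨g⟩
  have hcard : (Fintype.card G : ℝ) < 2 * (S.card : ℝ) := by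
    unfold df at h
    have h1 : Real.log (Fintype.card G : ℝ) < Real.log (2 * (S.card : ℝ)) := by
      rw [Real.log_mul (by norm_num) hSpos.ne']
      linarith
    exact (Real.log_lt_log_iff hGpos (by positivity)).mp h1
  have hcard' : (Finset.univ : Finset G).card < S.card + (S.image (fun b => g - b)).card := by
    have h1 : (S.image (fun b => g - b)).card = S.card := by
      apply Finset.card_image_of_injective
      intro b c hbc
      exact sub_right_injective hbc
    rw [h1, Finset.card_univ]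
    have h2 : Fintype.card G < 2 * S.card := by exact_mod_cast hcard
    omega
  obtain ⟨a, ha⟩ := Finset.inter_nonempty_of_card_lt_card_add_card (Finset.subset_univ S)
    (Finset.subset_univ (S.image (fun b => g - b))) hcard'
  rw [Finset.mem_inter, Finset.mem_image] at ha
  obtain ⟨ha1, b, hb, hab⟩ := ha
  refine ⟨a, b, (hmem a).mp ha1, (hmem b).mp hb, ?_⟩
  rw [← hab]
  exact sub_add_cancel g b

end Pool.Agent.H65.SPD
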