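import Pool.Agent.H65.SPD.NDefs
import Pool.Agent.H65.SPD.CvL
import Pool.Agent.H65.SPD.SetT
set_option autoImplicit false

/-!
# CvS (size 1).  Support of the law of the sum of `k + 1` copies; covering.

`cvk_support`: induction on `k`; `cvk (k+1) x = cv (cvk k x) x`, `cv_support` (`SetT.lean`), `Fin.snoc f b` (`Fin.sum_univ_castSucc`, `Fin.snoc_castSucc`,
`Fin.snoc_last`; cases on `i` with `Fin.lastCases`).
`cover_k`: `x = unif B`, `exists_sum_of_df_lt` for `cvk k x` (`h`), `cvk_support` for both summands, `Fin.append` and `2 * (k+1) = (k+1) + (k+1)`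
(see `grp_append` in `Grp.lean`, private, copy); `0 < unif B a → a ∈ B`.
`cover_s`: the same with `cvi s x` and `cvi_support`, `2^(s+1) = 2^s + 2^s`.
-/
namespace Pool.Agent.H65.SPD
open Finset Pool.Agent.Ldc
variable {G : Type} [AddCommGroup G] [Fintype G] {x : G → ℝ}

private theorem CvS_isP (hx : IsP x) (k : ℕ) : IsP (cvk k x) := by
  induction k with
  | zero => exact hx
  | succ k ih => exact cv_isP ih hx

private theorem CvS_isPi (hx : IsP x) (k : ℕ) : IsP (cvi k x) := by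
  induction k with
  | zero => exact hx
  | succ k ih => exact cv_isP ih ih

theorem cvk_support (hx : IsP x) (k : ℕ) (g : G) (h : 0 < cvk k x g) :
    ∃ f : Fin (k + 1) → G, (∀ i, 0 < x (f i)) ∧ ∑ i, f i = g := by
  induction k generalizing g with
  | zero =>
    refine ⟨fun _ => g, fun _ => h, ?_⟩
    simp
  | succ k ih =>
    obtain ⟨a, b, ha, hb, hab⟩ := cv_support (CvS_isP hx k) hx g h
    obtain ⟨f, hf, hs⟩ := ih a ha
    refine ⟨Fin.snoc f b, ?_, ?_⟩
    · intro i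
      refine Fin.lastCases ?_ (fun j => ?_) i
      · rw [Fin.snoc_last]; exact hb
      · rw [Fin.snoc_castSucc]; exact hf j
    · rw [Fin.sum_univ_castSucc]
      simp only [Fin.snoc_castSucc, Fin.snoc_last]
      rw [hs, hab]

private theorem CvS_append {m : ℕ} (B : Finset G) (fa fb : Fin m → G) (ha : ∀ i, fa i ∈ B)
    (hb : ∀ i, fb i ∈ B) {k : ℕ} (hk : k = m + m) :
    ∃ f : Fin k → G, (∀ i, f i ∈ B) ∧ ∑ i, f i = ∑ i, fa i + ∑ i, fb i := by
  subst hk
  refine ⟨Fin.append fa fb, ?_, ?_⟩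
  · intro j
    refine Fin.addCases (fun i => ?_) (fun i => ?_) j
    · rw [Fin.append_left]
      exact ha i
    · rw [Fin.append_right]
      exact hb i
  · rw [Fin.sum_univ_add]
    simp only [Fin.append_left, Fin.append_right]

private theorem CvS_mem {B : Finset G} {y : G} (hy : 0 < unif B y) : y ∈ B := by
  by_contra hn
  unfold unif at hy
  rw [if_neg hn] at hy
  exact lt_irrefl _ hy

theorem cover_k (B : Finset G) (hB : B.Nonempty) (k : ℕ)
    (h : df (cvk k (unif B)) < Real.log 2) (g : G) :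
    ∃ f : Fin (2 * (k + 1)) → G, (∀ i, f i ∈ B) ∧ ∑ i, f i = g := by
  have hP0 : IsP (unif B) := unif_isP B hB
  obtain ⟨a, b, ha, hb, hab⟩ := exists_sum_of_df_lt (CvS_isP hP0 k) h g
  obtain ⟨fa, hfa, hsa⟩ := cvk_support hP0 k a ha
  obtain ⟨fb, hfb, hsb⟩ := cvk_support hP0 k b hb
  obtain ⟨f, hf1, hf2⟩ := CvS_append B fa fb (fun i => CvS_mem (hfa i)) (fun i => CvS_mem (hfb i))
    (k := 2 * (k + 1)) (by ring)
  exact ⟨f, hf1, by rw [hf2, hsa, hsb, hab]⟩

theorem cover_s (B : Finset G) (hB : B.Nonempty) (s : ℕ)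
    (h : df (cvi s (unif B)) < Real.log 2) (g : G) :
    ∃ f : Fin (2 ^ (s + 1)) → G, (∀ i, f i ∈ B) ∧ ∑ i, f i = g := by
  have hP0 : IsP (unif B) := unif_isP B hB
  obtain ⟨a, b, ha, hb, hab⟩ := exists_sum_of_df_lt (CvS_isPi hP0 s) h g
  obtain ⟨fa, hfa, hsa⟩ := cvi_support hP0 s a ha
  obtain ⟨fb, hfb, hsb⟩ := cvi_support hP0 s b hb
  obtain ⟨f, hf1, hf2⟩ := CvS_append B fa fb (fun i => CvS_mem (hfa i)) (fun i => CvS_mem (hfb i))
    (k := 2 ^ (s + 1)) (by rw [pow_succ]; ring)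
  exact ⟨f, hf1, by rw [hf2, hsa, hsb, hab]⟩

end Pool.Agent.H65.SPD
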