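import Pool.Agent.H65.SPD.NDefs
import Pool.Agent.H65.SPD.Tls
import Pool.Agent.H65.SPD.Dl
import Pool.Agent.H65.SPD.CvL
import Pool.Agent.H65.SPD.FamA
import Pool.Agent.H65.SPD.FamB
import Pool.Agent.Ldc.E7a
set_option autoImplicit false

/-!
# DxA (size 2).  `Dx` as an average over pairs of data.

Copy of FamB (`D2_avg`) with two different families: on `P = pp p r`, `g u = (u.1.2, u.2.2)`, `f u = u.1.1 + u.2.1`;
`H_cond_sum`, `H(g) = H(Y) + H(Y')` (`H_indep`, `indep_pp`, `H_pp_fst`, `H_pp_snd`), `P(g = (b,c)) = wb p b * wb r c`,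
`cnd P g (b,c) = pp (cnd p Y b) (cnd r Y' c)`, so the law of `f` under it is `cv (xb p b) (xb r c)` (`pp_pr`, `pr_pr`).
`wb_pair`, `pr_cnd_pair` are these two facts (general versions of `FamB_w`, `pr_cnd_sum`).
`Dx_nonneg`: `df_nonneg`, `cv_isP`.  `df_cv_comm`: the law of `x + y` is the law of `y + x` (`H_equiv` with `Prod.swap`, or
`Equiv.prodComm` in the defining sum).  `Dx_self`: definitions.
-/
namespace Pool.Agent.H65.SPD
open Finset Pool.Agent.Ldc
variable {G β γ : Type} [AddCommGroup G] [Fintype G] [Fintype β] [Fintype γ]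
  {p : G × β → ℝ} {r : G × γ → ℝ}

theorem wb_pair (hp : IsP p) (hr : IsP r) (b : β) (c : γ) :
    pr (pp p r) (fun u => (u.1.2, u.2.2)) (b, c) = wb p b * wb r c := by
  have h := indep_pp hp hr (fun u : G × β => u.2) (fun u : G × γ => u.2) b c
  rw [pr_pp_fst hr, pr_pp_snd hp] at h
  exact h

private theorem DxA_cnd (hp : IsP p) (hr : IsP r) (b : β) (c : γ) :
    cnd (pp p r) (fun u => (u.1.2, u.2.2)) (b, c)
      = pp (cnd p (fun u => u.2) b) (cnd r (fun u => u.2) c) := by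
  classical
  funext u
  rw [E7a_cnd_apply, wb_pair hp hr]
  unfold pp
  rw [E7a_cnd_apply, E7a_cnd_apply]
  unfold wb
  by_cases h1 : u.1.2 = b
  · by_cases h2 : u.2.2 = c
    · rw [if_pos (by rw [h1, h2]), if_pos h1, if_pos h2, mul_div_mul_comm]
    · rw [if_neg (fun h => h2 (Prod.ext_iff.mp h).2), if_neg h2, mul_zero]
  · rw [if_neg (fun h => h1 (Prod.ext_iff.mp h).1), if_neg h1, zero_mul]

theorem pr_cnd_pair (hp : IsP p) (hr : IsP r) (b : β) (c : γ) (h : 0 < wb p b) (h' : 0 < wb r c) :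
    pr (cnd (pp p r) (fun u => (u.1.2, u.2.2)) (b, c)) (fun u => u.1.1 + u.2.1)
      = cv (xb p b) (xb r c) := by
  rw [DxA_cnd hp hr]
  unfold cv xb
  rw [pp_pr (cnd_isP hp _ _ h) (cnd_isP hr _ _ h'), pr_pr]

theorem Dx_avg (hp : IsP p) (hr : IsP r) :
    Dx p r = ∑ b, ∑ c, wb p b * wb r c * df (cv (xb p b) (xb r c)) := by
  have h1 := H_cond_sum (pp_isP hp hr) (fun u : (G × β) × (G × γ) => u.1.1 + u.2.1)
    (fun u => (u.1.2, u.2.2))
  have h2 : H (pp p r) (fun u : (G × β) × (G × γ) => (u.1.2, u.2.2))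
      = H p (fun u => u.2) + H r (fun u => u.2) := by
    have h := H_indep (pp_isP hp hr) _ _ (indep_pp hp hr (fun u : G × β => u.2) (fun u : G × γ => u.2))
    rw [H_pp_fst hr, H_pp_snd hp] at h
    exact h
  have h3 : ∑ b, pr (pp p r) (fun u => (u.1.2, u.2.2)) b *
      H (cnd (pp p r) (fun u => (u.1.2, u.2.2)) b) (fun u : (G × β) × (G × γ) => u.1.1 + u.2.1) =
      ∑ b, ∑ c, wb p b * wb r c * ent (cv (xb p b) (xb r c)) := by
    rw [Fintype.sum_prod_type]
    refine Finset.sum_congr rfl fun b _ => Finset.sum_congr rfl fun c _ => ?_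
    rw [wb_pair hp hr]
    rcases (wb_nonneg hp b).lt_or_eq with hb | hb
    · rcases (wb_nonneg hr c).lt_or_eq with hb' | hb'
      · rw [H_eq_ent, pr_cnd_pair hp hr b c hb hb']
      · rw [← hb']; ring
    · rw [← hb]; ring
  have h4 : ∑ b, ∑ c, wb p b * wb r c = 1 := by
    rw [← Finset.sum_mul_sum, wb_sum hp, wb_sum hr, one_mul]
  have h5 : ∑ b, ∑ c, wb p b * wb r c * df (cv (xb p b) (xb r c)) =
      (∑ b, ∑ c, wb p b * wb r c) * Real.log (Fintype.card G : ℝ)
        - ∑ b, ∑ c, wb p b * wb r c * ent (cv (xb p b) (xb r c)) := by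
    rw [Finset.sum_mul, ← Finset.sum_sub_distrib]
    refine Finset.sum_congr rfl fun b _ => ?_
    rw [Finset.sum_mul, ← Finset.sum_sub_distrib]
    refine Finset.sum_congr rfl fun c _ => ?_
    unfold df
    ring
  rw [h5, h4]
  unfold Dx
  rw [h1, h2, h3]
  ring

theorem Dx_nonneg (hp : IsP p) (hr : IsP r) : 0 ≤ Dx p r := by
  rw [Dx_avg hp hr]
  refine Finset.sum_nonneg fun b _ => Finset.sum_nonneg fun c _ => ?_
  rcases (wb_nonneg hp b).lt_or_eq with hb | hb
  · rcases (wb_nonneg hr c).lt_or_eq with hc | hc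
    · exact mul_nonneg (mul_nonneg hb.le hc.le) (df_nonneg (cv_isP (xb_isP hp b hb) (xb_isP hr c hc)))
    · rw [← hc]; simp
  · rw [← hb]; simp

theorem df_cv_comm (x y : G → ℝ) : df (cv x y) = df (cv y x) := by
  have h : ent (cv x y) = ent (cv y x) := by
    rw [ent_eq_H, ent_eq_H]
    unfold cv
    rw [H_law, H_law, H_equiv (Equiv.prodComm G G)]
    congr 1
    · funext u
      simp only [pp, Equiv.prodComm_apply, Prod.fst_swap, Prod.snd_swap]
      ring
    · funext u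
      simp only [Equiv.prodComm_apply, Prod.fst_swap, Prod.snd_swap]
      rw [add_comm]
  unfold df
  rw [h]

theorem Dx_self (r : G × β → ℝ) : Dx r r = D2 r := by
  unfold Dx D2
  ring

end Pool.Agent.H65.SPD
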