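import Pool.Agent.H65.SPD.NDefs
import Pool.Agent.H65.SPD.Tls
import Pool.Agent.H65.SPD.Pw
import Pool.Agent.H65.SPD.DxA
set_option autoImplicit false

/-!
# DMr (size 3).  Recursion for `DM`.

Write `h = H r (fun u => u.2)`, `HZ n = H (pw (n+1) r) (Z, Ys)` with `Z i = (u i.succ).1 + (u 0).1`, `Ys i = (u i).2`, so
`DM n r = n log|G| - (HZ n - (n+1) h)`.
`fV_isP`: `pr_isP`, `pw_isP`.
`DM_zero`: `Fin 0 → G` is a singleton: `HZ 0 = H (pw 1 r) (fun u i => (u i).2) = h` (`H_ker`, `H_pw_fun`).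
`DM_succ`: `H (fV n r) (fun u => u.2) = HZ n` (`H_law`).  `H_pw_snoc`: `HZ (n+1)` is the entropy on `pp (pw (n+1) r) r` of the variable
`φ (Fin.snoc v.1 v.2)`, and `H (pp (fV n r) r) (fun u => (u.1.1 + u.2.1, u.1.2, u.2.2))` is, by `H_pp_pr` (write the second `r` as
`pr r (fun u => u)`, `pr_id`), the entropy on the same space of `((v.1 0).1 + v.2.1, (Z(v.1), Ys(v.1)), v.2.2)`.  The two variables
determine each other (`H_ker`): `Fin.snoc v w 0 = v 0`, `Fin.snoc v w (i.castSucc.succ) = v i.succ`, `Fin.snoc v w (last) = w`; a function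
on `Fin (n+1)` is determined by its values at `castSucc i` and at `last n` (`Fin.lastCases`), `(Fin.last n).succ = Fin.last (n+1)`,
`i.castSucc.succ = i.succ.castSucc` (`Fin.succ_castSucc`).  So `HZ (n+1) =` that entropy `= log|G| - Dx + HZ n + h`, which is the claim.
`DM_nonneg`: induction with `DM_zero`, `DM_succ`, `Dx_nonneg`.
-/
namespace Pool.Agent.H65.SPD
open Finset Pool.Agent.Ldc
variable {G β : Type} [AddCommGroup G] [Fintype G] [Fintype β] {r : G × β → ℝ}

theorem fV_isP (hr : IsP r) (n : ℕ) : IsP (fV n r) := pr_isP (pw_isP hr _) _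

theorem DM_zero (hr : IsP r) : DM 0 r = 0 := by
  have h1 : H (pw (0 + 1) r)
      (fun u => ((fun i : Fin 0 => (u i.succ).1 + (u 0).1), (fun i => (u i).2)))
      = H (pw 1 r) (fun u => (fun i => (u i).2)) :=
    H_ker _ _ _ (fun ω ω' => by
      constructor
      · intro h
        exact (Prod.mk.inj h).2
      · intro h
        exact Prod.ext (Subsingleton.elim _ _) h)
  have h2 := H_pw_fun hr 1 (fun u : G × β => u.2)
  unfold DM
  rw [h1, h2]
  push_cast
  ring

private theorem DMr_ker (n : ℕ) (v v' : (Fin (n + 1) → G × β) × (G × β)) :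
    ((fun i : Fin (n + 1) => (Fin.snoc (α := fun _ => G × β) v.1 v.2 i.succ).1
          + (Fin.snoc (α := fun _ => G × β) v.1 v.2 0).1),
        (fun i => (Fin.snoc (α := fun _ => G × β) v.1 v.2 i).2))
      = ((fun i : Fin (n + 1) => (Fin.snoc (α := fun _ => G × β) v'.1 v'.2 i.succ).1
          + (Fin.snoc (α := fun _ => G × β) v'.1 v'.2 0).1),
        (fun i => (Fin.snoc (α := fun _ => G × β) v'.1 v'.2 i).2)) ↔
    ((v.1 0).1 + v.2.1, ((fun i : Fin n => (v.1 i.succ).1 + (v.1 0).1), (fun i => (v.1 i).2)), v.2.2)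
      = ((v'.1 0).1 + v'.2.1, ((fun i : Fin n => (v'.1 i.succ).1 + (v'.1 0).1),
          (fun i => (v'.1 i).2)), v'.2.2) := by
  have z : ∀ w : (Fin (n + 1) → G × β) × (G × β),
      Fin.snoc (α := fun _ => G × β) w.1 w.2 0 = w.1 0 := by
    intro w
    exact Fin.snoc_castSucc (α := fun _ => G × β) w.2 w.1 0
  have l : ∀ w : (Fin (n + 1) → G × β) × (G × β),
      Fin.snoc (α := fun _ => G × β) w.1 w.2 (Fin.last (n + 1)) = w.2 := by
    intro w
    exact Fin.snoc_last (α := fun _ => G × β) w.2 w.1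
  have c : ∀ (w : (Fin (n + 1) → G × β) × (G × β)) (i : Fin (n + 1)),
      Fin.snoc (α := fun _ => G × β) w.1 w.2 i.castSucc = w.1 i := by
    intro w i
    exact Fin.snoc_castSucc (α := fun _ => G × β) w.2 w.1 i
  constructor
  · intro h
    obtain ⟨h1, h2⟩ := Prod.mk.inj h
    have e1 := congrFun h1 (Fin.last n)
    simp only [Fin.succ_last, l, z] at e1
    have e2 := congrFun h2 (Fin.last (n + 1))
    simp only [l] at e2
    refine Prod.ext ?_ (Prod.ext (Prod.ext ?_ ?_) e2)
    · show (v.1 0).1 + v.2.1 = (v'.1 0).1 + v'.2.1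
      rw [add_comm, e1, add_comm]
    · funext i
      have e3 := congrFun h1 i.castSucc
      simp only [Fin.succ_castSucc, c, z] at e3
      exact e3
    · funext i
      have e4 := congrFun h2 i.castSucc
      simp only [c] at e4
      exact e4
  · intro h
    obtain ⟨h1, h2⟩ := Prod.mk.inj h
    obtain ⟨h3, h4⟩ := Prod.mk.inj h2
    obtain ⟨h5, h6⟩ := Prod.mk.inj h3
    refine Prod.ext ?_ ?_
    · funext i
      refine Fin.lastCases ?_ (fun j => ?_) i
      · simp only [Fin.succ_last, l, z]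
        rw [add_comm, h1, add_comm]
      · simp only [Fin.succ_castSucc, c, z]
        exact congrFun h5 j
    · funext i
      refine Fin.lastCases ?_ (fun j => ?_) i
      · simp only [l]
        exact h4
      · simp only [c]
        exact congrFun h6 j

theorem DM_succ (hr : IsP r) (n : ℕ) : DM (n + 1) r = DM n r + Dx (fV n r) r := by
  have hA := H_pw_snoc r (n + 1) (fun u : Fin (n + 1 + 1) → G × β =>
    ((fun i : Fin (n + 1) => (u i.succ).1 + (u 0).1), (fun i => (u i).2)))
  have hB := H_pp_pr (pw_isP hr (n + 1)) hr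
    (fun u : Fin (n + 1) → G × β =>
      ((u 0).1, ((fun i : Fin n => (u i.succ).1 + (u 0).1), (fun i => (u i).2))))
    (fun u : G × β => u) (fun u => (u.1.1 + u.2.1, u.1.2, u.2.2))
  rw [pr_id] at hB
  have hC := H_ker (pp (pw (n + 1) r) r) _ _ (DMr_ker (G := G) (β := β) n)
  have hD : H (fV n r) (fun u => u.2)
      = H (pw (n + 1) r)
        (fun u => ((fun i : Fin n => (u i.succ).1 + (u 0).1), (fun i => (u i).2))) :=
    H_law _ _ _
  have hE : H (pp (fV n r) r) (fun u => (u.1.1 + u.2.1, u.1.2, u.2.2))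
      = H (pw (n + 1 + 1) r) (fun u : Fin (n + 1 + 1) → G × β =>
        ((fun i : Fin (n + 1) => (u i.succ).1 + (u 0).1), (fun i => (u i).2))) := by
    rw [hA]
    refine Eq.trans ?_ hC.symm
    exact hB
  unfold DM Dx
  rw [hE, hD]
  push_cast
  ring

theorem DM_nonneg (hr : IsP r) (n : ℕ) : 0 ≤ DM n r := by
  induction n with
  | zero => exact (DM_zero hr).ge
  | succ n ih =>
    rw [DM_succ hr n]
    exact add_nonneg ih (Dx_nonneg (fV_isP hr n) hr)

end Pool.Agent.H65.SPD
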