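import Pool.Agent.H65.SPD.NDefs
import Pool.Agent.H65.SPD.Tls
import Pool.Agent.H65.SPD.Ci
import Pool.Agent.H65.SPD.Pw
set_option autoImplicit false

/-!
# DMs (size 4).  The family `V = (X_0 ; (X_i + X_0)_i, (Y_i)_i)` and restriction to a subgroup.

`h = H r (·.2)`, `HZ = H (pw (n+1) r) (Z, Ys)` (`Z i = (u i.succ).1 + (u 0).1`, `Ys i = (u i).2`), `DM n r = n log|G| - (HZ - (n+1) h)`.
By `H_law`: `H (fV n r) (·.2) = HZ`, `H (fV n r) (u.1, u.2) = H (pw (n+1) r) ((u 0).1, Z, Ys)`, etc.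
`Lf_fV`: `((u 0).1, Z, Ys)` determines all `X_i = Z_i - X_0`, so (`H_ker`) its entropy is that of `fun i => (u i).1, (u i).2`, i.e.
`(n+1) H(X,Y)` (`H_pw_fun`), and `H(X,Y) = log|G| - Lf r + h`.  So `Lf V = log|G| - (n+1)(log|G| - L + h) + HZ = (n+1) L - DM`.
`dK_fV`: let `E = H (pw (n+1) r) (mk (u 0).1, Z, Ys)`.  `fR r K = pr r (fun u => (shK K u.1, u.2, mk u.1))`; by `H_pw_pr`,
`DM n (fR r K) = n log|K| - (E' - (n+1) H(Y, X mod K))` (`Nat.card_eq_fintype_card`) where `E'` is the entropy on `pw (n+1) r` of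
`((shK X_i + shK X_0)_i, (Y_i, mk X_i)_i)`.  `E' = E` (`H_ker`): given the classes `mk X_i`, `shK K X_i + shK K X_0` and `X_i + X_0` differ by a
function of the classes (`shK K g = g - out (mk g)`), and `mk X_i = mk (Z_i) - mk X_0`.
(For `i : Fin (n+1)` the class of `X_i` is that of `X_0` for `i = 0` and from `Z` for `i = j.succ`: `Fin.cases`.)
`H(Y, X mod K) = ci K - dK r K + h`.  So `dK V = ci K - (E - HZ) = (n+1) dK r K + DM n (fR r K) - DM n r` by linear arithmetic
(`ci K = log|G| - log|K|`).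
`dK_le_fV`: `H_cond_anti` on `pw (n+1) r`: `H(mk X_0 | Z, Ys) ≤ H(mk X_0 | Y_0)` and `H (pw ..) (mk (u 0).1, (u 0).2) = H r (mk u.1, u.2)` (`H_pw_coord`).
`DM_le_fR`: the last two.
-/
namespace Pool.Agent.H65.SPD
open Finset Pool.Agent.Ldc
variable {G β : Type} [AddCommGroup G] [Fintype G] [Fintype β] {r : G × β → ℝ}

private theorem DMs_shK (K : AddSubgroup G) (g : G) :
    ((shK K g : K) : G) = g - (QuotientAddGroup.mk g : G ⧸ K).out := rfl

private theorem DMs_HZ (n : ℕ) : H (fV n r) (fun u => u.2)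
    = H (pw (n + 1) r) (fun u => ((fun i : Fin n => (u i.succ).1 + (u 0).1), (fun i => (u i).2))) := by
  unfold fV
  rw [H_law]

theorem Lf_fV (hr : IsP r) (n : ℕ) : Lf (fV n r) = ((n : ℝ) + 1) * Lf r - DM n r := by
  have h1 : H (fV n r) (fun u => (u.1, u.2)) = ((n : ℝ) + 1) * H r (fun u => (u.1, u.2)) := by
    have e1 : H (fV n r) (fun u => (u.1, u.2)) = H (pw (n + 1) r) (fun u =>
        ((u 0).1, ((fun i : Fin n => (u i.succ).1 + (u 0).1), (fun i => (u i).2)))) := by
      unfold fV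
      rw [H_law]
    have e2 : H (pw (n + 1) r) (fun u =>
        ((u 0).1, ((fun i : Fin n => (u i.succ).1 + (u 0).1), (fun i => (u i).2))))
        = H (pw (n + 1) r) (fun u => (fun i => ((u i).1, (u i).2))) := by
      refine H_ker _ _ _ fun u u' => ?_
      constructor
      · intro h
        have a1 : (u 0).1 = (u' 0).1 := congrArg (fun z => z.1) h
        have a2 : ∀ i : Fin n, (u i.succ).1 + (u 0).1 = (u' i.succ).1 + (u' 0).1 := fun i =>
          congrFun (congrArg (fun z => z.2.1) h) i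
        have a3 : ∀ i, (u i).2 = (u' i).2 := fun i => congrFun (congrArg (fun z => z.2.2) h) i
        funext i
        refine Prod.ext ?_ (a3 i)
        change (u i).1 = (u' i).1
        refine Fin.cases a1 (fun j => ?_) i
        have := a2 j
        rw [a1] at this
        exact add_right_cancel this
      · intro h
        have a : ∀ i, ((u i).1, (u i).2) = ((u' i).1, (u' i).2) := fun i => congrFun h i
        have a1 : ∀ i, (u i).1 = (u' i).1 := fun i => congrArg Prod.fst (a i)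
        have a2 : ∀ i, (u i).2 = (u' i).2 := fun i => congrArg Prod.snd (a i)
        refine Prod.ext (a1 0) (Prod.ext ?_ ?_)
        · funext i
          change (u i.succ).1 + (u 0).1 = (u' i.succ).1 + (u' 0).1
          rw [a1, a1]
        · funext i
          exact a2 i
    rw [e1, e2, H_pw_fun hr (n + 1) (fun u => (u.1, u.2))]
    push_cast
    ring
  unfold Lf DM
  rw [h1, DMs_HZ]
  ring

private theorem DMs_E (K : AddSubgroup G) (n : ℕ) :
    H (fV n r) (fun u => ((QuotientAddGroup.mk u.1 : G ⧸ K), u.2))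
    = H (pw (n + 1) r) (fun u => ((QuotientAddGroup.mk (u 0).1 : G ⧸ K),
        ((fun i : Fin n => (u i.succ).1 + (u 0).1), (fun i => (u i).2)))) := by
  unfold fV
  rw [H_law]

private theorem DMs_fR (hr : IsP r) (n : ℕ) (K : AddSubgroup G) :
    H (pw (n + 1) (fR r K)) (fun u =>
        ((fun i : Fin n => (u i.succ).1 + (u 0).1), (fun i => (u i).2)))
    = H (pw (n + 1) r) (fun u => ((fun i : Fin n => shK K (u i.succ).1 + shK K (u 0).1),
        (fun i => ((u i).2, (QuotientAddGroup.mk (u i).1 : G ⧸ K))))) := by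
  unfold fR
  rw [H_pw_pr hr]

private theorem DMs_eq (n : ℕ) (K : AddSubgroup G) :
    H (pw (n + 1) r) (fun u => ((fun i : Fin n => shK K (u i.succ).1 + shK K (u 0).1),
        (fun i => ((u i).2, (QuotientAddGroup.mk (u i).1 : G ⧸ K)))))
    = H (pw (n + 1) r) (fun u => ((QuotientAddGroup.mk (u 0).1 : G ⧸ K),
        ((fun i : Fin n => (u i.succ).1 + (u 0).1), (fun i => (u i).2)))) := by
  refine H_ker _ _ _ fun u u' => ?_
  constructor
  · intro h
    have a1 : ∀ i : Fin n, shK K (u i.succ).1 + shK K (u 0).1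
        = shK K (u' i.succ).1 + shK K (u' 0).1 := fun i => congrFun (congrArg Prod.fst h) i
    have a2 : ∀ i, ((u i).2, (QuotientAddGroup.mk (u i).1 : G ⧸ K))
        = ((u' i).2, (QuotientAddGroup.mk (u' i).1 : G ⧸ K)) := fun i =>
      congrFun (congrArg Prod.snd h) i
    have a3 : ∀ i, (u i).2 = (u' i).2 := fun i => congrArg Prod.fst (a2 i)
    have a4 : ∀ i, (QuotientAddGroup.mk (u i).1 : G ⧸ K) = QuotientAddGroup.mk (u' i).1 :=
      fun i => congrArg Prod.snd (a2 i)
    refine Prod.ext (a4 0) (Prod.ext ?_ ?_)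
    · funext i
      change (u i.succ).1 + (u 0).1 = (u' i.succ).1 + (u' 0).1
      have b1 := congrArg (fun z : K => (z : G)) (a1 i)
      simp only [AddSubgroup.coe_add, DMs_shK] at b1
      rw [a4 i.succ, a4 0] at b1
      have b2 : (u i.succ).1 + (u 0).1
          = ((u i.succ).1 - (QuotientAddGroup.mk (u' i.succ).1 : G ⧸ K).out
            + ((u 0).1 - (QuotientAddGroup.mk (u' 0).1 : G ⧸ K).out))
            + ((QuotientAddGroup.mk (u' i.succ).1 : G ⧸ K).out
              + (QuotientAddGroup.mk (u' 0).1 : G ⧸ K).out) := by abel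
      rw [b2, b1]
      abel
    · funext i
      exact a3 i
  · intro h
    have a1 : (QuotientAddGroup.mk (u 0).1 : G ⧸ K) = QuotientAddGroup.mk (u' 0).1 :=
      congrArg (fun z => z.1) h
    have a2 : ∀ i : Fin n, (u i.succ).1 + (u 0).1 = (u' i.succ).1 + (u' 0).1 := fun i =>
      congrFun (congrArg (fun z => z.2.1) h) i
    have a3 : ∀ i, (u i).2 = (u' i).2 := fun i => congrFun (congrArg (fun z => z.2.2) h) i
    have a4 : ∀ i, (QuotientAddGroup.mk (u i).1 : G ⧸ K) = QuotientAddGroup.mk (u' i).1 := by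
      intro i
      refine Fin.cases a1 (fun j => ?_) i
      have b := congrArg (fun g : G => (QuotientAddGroup.mk g : G ⧸ K)) (a2 j)
      simp only [QuotientAddGroup.mk_add] at b
      rw [a1] at b
      exact add_right_cancel b
    refine Prod.ext ?_ ?_
    · funext i
      change shK K (u i.succ).1 + shK K (u 0).1 = shK K (u' i.succ).1 + shK K (u' 0).1
      apply Subtype.ext
      simp only [AddSubgroup.coe_add, DMs_shK]
      rw [a4 i.succ, a4 0]
      have b1 : (u i.succ).1 - (QuotientAddGroup.mk (u' i.succ).1 : G ⧸ K).out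
            + ((u 0).1 - (QuotientAddGroup.mk (u' 0).1 : G ⧸ K).out)
          = ((u i.succ).1 + (u 0).1) - ((QuotientAddGroup.mk (u' i.succ).1 : G ⧸ K).out
              + (QuotientAddGroup.mk (u' 0).1 : G ⧸ K).out) := by abel
      rw [b1, a2 i]
      abel
    · funext i
      exact Prod.ext (a3 i) (a4 i)

theorem dK_fV (hr : IsP r) (n : ℕ) (K : AddSubgroup G) :
    dK (fV n r) K = ((n : ℝ) + 1) * dK r K + DM n (fR r K) - DM n r := by
  have h2 : H (fR r K) (fun u => u.2) = H r (fun u => ((QuotientAddGroup.mk u.1 : G ⧸ K), u.2)) := by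
    unfold fR
    rw [H_law]
    refine H_ker _ _ _ fun u u' => ?_
    change ((u.2, (QuotientAddGroup.mk u.1 : G ⧸ K)) = (u'.2, (QuotientAddGroup.mk u'.1 : G ⧸ K)))
      ↔ (((QuotientAddGroup.mk u.1 : G ⧸ K), u.2) = ((QuotientAddGroup.mk u'.1 : G ⧸ K), u'.2))
    rw [Prod.mk.injEq, Prod.mk.injEq]
    exact and_comm
  have hc : (Fintype.card K : ℝ) = (Nat.card K : ℝ) := by rw [Nat.card_eq_fintype_card]
  unfold dK DM
  rw [DMs_E, DMs_HZ, DMs_fR hr, DMs_eq, h2, hc]
  unfold ci
  ring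

theorem dK_le_fV (hr : IsP r) (n : ℕ) (K : AddSubgroup G) : dK r K ≤ dK (fV n r) K := by
  have h1 := H_cond_anti (pw_isP hr (n + 1)) (fun u => (QuotientAddGroup.mk (u 0).1 : G ⧸ K))
    (fun u => ((fun i : Fin n => (u i.succ).1 + (u 0).1), (fun i => (u i).2)))
    (fun z => z.2 0)
  have h2 := H_pw_coord hr (n + 1) 0 (fun u => ((QuotientAddGroup.mk u.1 : G ⧸ K), u.2))
  have h3 := H_pw_coord hr (n + 1) 0 (fun u => u.2)
  unfold dK
  rw [DMs_E, DMs_HZ]
  simp only at h1 h2 h3
  rw [h2, h3] at h1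
  linarith

theorem DM_le_fR (hr : IsP r) (n : ℕ) (K : AddSubgroup G) :
    DM n r ≤ (n : ℝ) * dK r K + DM n (fR r K) := by
  have h1 := dK_fV hr n K
  have h2 := dK_le_fV hr n K
  rw [h1] at h2
  linarith

end Pool.Agent.H65.SPD
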