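import Pool.Agent.H65.SPD.NDefs
import Pool.Agent.H65.SPD.Tls
import Pool.Agent.H65.SPD.Ci
set_option autoImplicit false

/-!
# FMo (size 3).  The family modulo a subgroup.

`H (fM r M) φ = H r (fun u => φ (mk u.1, u.2))` (`H_law`).
`ci_comap`: `(N.comap (mk' M)).index = N.index` (`AddSubgroup.index_comap_of_surjective`, `QuotientAddGroup.mk'_surjective`), so
`G ⧸ N.comap ..` and `(G ⧸ M) ⧸ N` have the same cardinality; `ci_eq`.  (See `LawQ_card` in `LawQ.lean`, private, copy it.)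
`dK_fM`: `H_law`, `H_ker` (`mk (mk a) = mk (mk b)` in `(G ⧸ M) ⧸ N` iff `-a + b ∈ N.comap (mk' M)`: `QuotientAddGroup.eq`,
`AddSubgroup.mem_comap`), `ci_comap`.  `Lf_fM`: `Fintype.card (G ⧸ M)`: `ci_eq`; `H_law`.
`two_quot`: `QuotientAddGroup.mk_surjective`.
`D2_le_fM`: with `S = X₁ + X₂`, `H(data) = 2 H(Y)`, `log |G/M| = c_M`, the definitions give
`D2 r - D2 (fM r M) = log|M| - (H(S, Y₁, Y₂) - H(S mod M, Y₁, Y₂))`   (`H_pp_pr` for `pp (fM r M) (fM r M)`; `mk a + mk b = mk (a+b)`;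
`ci M = log|G| - log|M|`), and `fK r M = log|M| - (H(S, Pt) - 2 H(Y, X mod M))`, `Pt = ((Y₁, X₁ mod M), (Y₂, X₂ mod M))`,
`H(Pt) = 2 H(Y, X mod M)` (independence).  `H_cond_anti` for `f = S`, `g = Pt`, `φ(Pt) = (sum of the classes, Y₁, Y₂)`:
`H(S, Pt) - H(Pt) ≤ H(S, (S mod M, Y₁, Y₂)) - H(S mod M, Y₁, Y₂)` and `H(S, (S mod M, Y₁, Y₂)) = H(S, Y₁, Y₂)` (`H_ker`).
-/
namespace Pool.Agent.H65.SPD
open Finset Pool.Agent.Ldc
variable {G β : Type} [AddCommGroup G] [Fintype G] [Fintype β] {r : G × β → ℝ}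

theorem two_quot (h2 : ∀ g : G, g + g = 0) (M : AddSubgroup G) : ∀ g : G ⧸ M, g + g = 0 := by
  intro g
  obtain ⟨a, rfl⟩ := QuotientAddGroup.mk_surjective g
  rw [← QuotientAddGroup.mk_add, h2]
  rfl

theorem two_sub (h2 : ∀ g : G, g + g = 0) (M : AddSubgroup G) : ∀ g : M, g + g = 0 := by
  intro g
  apply Subtype.ext
  exact h2 g

theorem ci_comap (M : AddSubgroup G) (N : AddSubgroup (G ⧸ M)) :
    ci N = ci (N.comap (QuotientAddGroup.mk' M)) := by
  have h3 : Nat.card (G ⧸ (N.comap (QuotientAddGroup.mk' M))) = Nat.card ((G ⧸ M) ⧸ N) := by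
    have h4 : (N.comap (QuotientAddGroup.mk' M)).index = N.index :=
      AddSubgroup.index_comap_of_surjective N (QuotientAddGroup.mk'_surjective M)
    exact h4
  rw [ci_eq, ci_eq, ← Nat.card_eq_fintype_card, ← Nat.card_eq_fintype_card, h3]

theorem fM_isP (hr : IsP r) (M : AddSubgroup G) : IsP (fM r M) := pr_isP hr _

private theorem FMo_snd (M : AddSubgroup G) :
    H (fM r M) (fun u => u.2) = H r (fun u => u.2) := by
  unfold fM
  rw [H_law]

theorem dK_fM (hr : IsP r) (M : AddSubgroup G) (N : AddSubgroup (G ⧸ M)) :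
    dK (fM r M) N = dK r (N.comap (QuotientAddGroup.mk' M)) := by
  have h1 : H (fM r M) (fun u => ((QuotientAddGroup.mk u.1 : (G ⧸ M) ⧸ N), u.2))
      = H r (fun u => ((QuotientAddGroup.mk u.1 : G ⧸ (N.comap (QuotientAddGroup.mk' M))), u.2)) := by
    unfold fM
    rw [H_law]
    refine H_ker _ _ _ fun ω ω' => ?_
    simp only [Prod.mk.injEq]
    rw [QuotientAddGroup.eq, QuotientAddGroup.eq, AddSubgroup.mem_comap]
    rfl
  unfold dK
  rw [h1, FMo_snd, ci_comap]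

theorem Lf_fM (hr : IsP r) (M : AddSubgroup G) : Lf (fM r M) = dK r M := by
  have h1 : H (fM r M) (fun u => (u.1, u.2))
      = H r (fun u => ((QuotientAddGroup.mk u.1 : G ⧸ M), u.2)) := by
    unfold fM
    rw [H_law]
  unfold Lf dK
  rw [h1, FMo_snd, ci_eq]

private theorem FMo_pair {A B : Type} (hr : IsP r) (f : G × β → A) (g : G × β → B) :
    H (pp r r) (fun u => (f u.1, g u.2)) = H r f + H r g := by
  rw [H_indep (pp_isP hr hr) (fun u => f u.1) (fun u => g u.2) (indep_pp hr hr f g),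
    H_pp_fst hr, H_pp_snd hr]

theorem D2_le_fM (hr : IsP r) (M : AddSubgroup G) : D2 r ≤ D2 (fM r M) + fK r M := by
  have hP : IsP (pp r r) := pp_isP hr hr
  have h1 : H (pp (fM r M) (fM r M)) (fun u => (u.1.1 + u.2.1, u.1.2, u.2.2))
      = H (pp r r) (fun u => ((QuotientAddGroup.mk u.1.1 : G ⧸ M) + QuotientAddGroup.mk u.2.1,
          u.1.2, u.2.2)) := by
    unfold fM
    rw [H_pp_pr hr hr (fun u : G × β => ((QuotientAddGroup.mk u.1 : G ⧸ M), u.2))
      (fun u : G × β => ((QuotientAddGroup.mk u.1 : G ⧸ M), u.2))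
      (fun u : ((G ⧸ M) × β) × ((G ⧸ M) × β) => (u.1.1 + u.2.1, u.1.2, u.2.2))]
  have h2 := H_cond_anti hP (fun u : (G × β) × (G × β) => u.1.1 + u.2.1)
    (fun u : (G × β) × (G × β) => ((u.1.2, (QuotientAddGroup.mk u.1.1 : G ⧸ M)),
      (u.2.2, (QuotientAddGroup.mk u.2.1 : G ⧸ M))))
    (fun z : (β × (G ⧸ M)) × (β × (G ⧸ M)) => (z.1.2 + z.2.2, z.1.1, z.2.1))
  have h3 : H (pp r r) (fun u : (G × β) × (G × β) => (u.1.1 + u.2.1,
      ((QuotientAddGroup.mk u.1.1 : G ⧸ M) + QuotientAddGroup.mk u.2.1, u.1.2, u.2.2)))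
      = H (pp r r) (fun u : (G × β) × (G × β) => (u.1.1 + u.2.1, u.1.2, u.2.2)) := by
    refine H_ker _ _ _ fun ω ω' => ?_
    simp only [Prod.mk.injEq]
    constructor
    · rintro ⟨a, -, b, c⟩
      exact ⟨a, b, c⟩
    · rintro ⟨a, b, c⟩
      refine ⟨a, ?_, b, c⟩
      rw [← QuotientAddGroup.mk_add, ← QuotientAddGroup.mk_add, a]
  have h4 : H (pp r r) (fun u : (G × β) × (G × β) =>
      ((u.1.2, (QuotientAddGroup.mk u.1.1 : G ⧸ M)), (u.2.2, (QuotientAddGroup.mk u.2.1 : G ⧸ M))))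
      = 2 * H r (fun u => (u.2, (QuotientAddGroup.mk u.1 : G ⧸ M))) := by
    rw [FMo_pair hr (fun u : G × β => (u.2, (QuotientAddGroup.mk u.1 : G ⧸ M)))
      (fun u : G × β => (u.2, (QuotientAddGroup.mk u.1 : G ⧸ M)))]
    ring
  have h5 := ci_eq M
  unfold ci at h5
  simp only at h2
  rw [h3, h4] at h2
  unfold D2 fK
  rw [h1, FMo_snd]
  linarith

end Pool.Agent.H65.SPD
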