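import Pool.Agent.H65.SPD.NDefs
import Pool.Agent.H65.SPD.Ci
import Pool.Agent.H65.SPD.FamC
import Pool.Agent.H65.SPD.FKm
import Pool.Agent.H65.SPD.FRa
import Pool.Agent.H65.SPD.FRb
import Pool.Agent.H65.SPD.FMo
set_option autoImplicit false

/-!
# Sft1 (size 2).  Soft spread families, cutting, first bound.

`Bd_theta`: `Lf_nonneg`.  `soft_of_spread`: trivial.  `soft_nonneg`: `K = ⊤`: `dK_top`, `ci_top`.
`soft_fR`: for `M ≤ K`, `M' = M.map K.subtype`: `dK (fR r K) M = dK r M' - dK r K` (`dK_fR`), `dK r M' ≤ q ci M' + u`,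
`ci M = ci M' - ci K` (`ci_map`).
`cut`: `K` maximises `dK r K - p ci K` (`Finite.exists_max` over `AddSubgroup G`).  Against `M'` (`M : AddSubgroup K`): the family
`F^K` is `p`-spread (`dK_fR`, `ci_map`).  Against `⊤`: `p ci K ≤ dK r K`.  With `dK r K ≤ q ci K + u` and `0 ≤ q`:
`p dK ≤ q (p ci K) + p u ≤ q dK + p u`.
`D2_cut`: `fK_le` with `(⊤, K)`, `dK_top`, `fK_top`, `D2_fR`.
`soft0`: `cut` with `p = 2q`: `q dK ≤ 2 q u`, so `dK ≤ 2u`; `D2 r ≤ dK r K + D2 (fR r K) ≤ 2u + θ Lf (fR r K) ≤ 2 u + θ Lf r`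
(`hB` in the group `K`, `two_sub`, `fR_isP`, `Lf_fR`, `dK_nonneg`).
-/
namespace Pool.Agent.H65.SPD
open Finset Pool.Agent.Ldc

theorem Bd_theta {q θ θ' : ℝ} (h : θ ≤ θ') (hB : Bd q θ) : Bd q θ' := by
  intro G β _ _ _ h2 r hr hs
  exact (hB G β h2 r hr hs).trans (mul_le_mul_of_nonneg_right h (Lf_nonneg hr))

variable {G β : Type} [AddCommGroup G] [Fintype G] [Fintype β] {r : G × β → ℝ}

theorem soft_of_spread {q : ℝ} (h : Spread q r) : Soft q 0 r := by
  intro K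
  have := h K
  linarith

theorem soft_mono {q u u' : ℝ} (h : Soft q u r) (hu : u ≤ u') : Soft q u' r := by
  intro K
  have := h K
  linarith

theorem soft_nonneg {q u : ℝ} (hr : IsP r) (h : Soft q u r) : 0 ≤ u := by
  have h1 := h ⊤
  rw [dK_top hr, ci_top] at h1
  linarith

theorem soft_fR {q u : ℝ} (hr : IsP r) (h : Soft q u r) (K : AddSubgroup G) :
    Soft q (q * ci K + u - dK r K) (fR r K) := by
  intro M
  have h1 := h (M.map K.subtype)
  rw [dK_fR hr, ci_map]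
  have h2 : q * (ci (M.map K.subtype) - ci K) = q * ci (M.map K.subtype) - q * ci K := by ring
  rw [h2]
  linarith

theorem cut {q u p : ℝ} (hq : 0 ≤ q) (hp : 0 ≤ p) (hr : IsP r) (h : Soft q u r) :
    ∃ K : AddSubgroup G, Spread p (fR r K) ∧ p * ci K ≤ dK r K ∧
      (p - q) * dK r K ≤ p * u := by
  obtain ⟨K, hK⟩ := Finite.exists_max (fun K : AddSubgroup G => dK r K - p * ci K)
  refine ⟨K, ?_, ?_, ?_⟩
  · intro M
    have h1 := hK (M.map K.subtype)
    rw [dK_fR hr, ci_map]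
    have h2 : p * (ci (M.map K.subtype) - ci K) = p * ci (M.map K.subtype) - p * ci K := by ring
    rw [h2]
    linarith
  · have h1 := hK ⊤
    rw [dK_top hr, ci_top] at h1
    linarith
  · have h1 := hK ⊤
    rw [dK_top hr, ci_top] at h1
    have h2 := h K
    have h3 : p * dK r K ≤ p * (q * ci K + u) := mul_le_mul_of_nonneg_left h2 hp
    have h4 : q * (p * ci K) ≤ q * dK r K := mul_le_mul_of_nonneg_left (by linarith) hq
    nlinarith

theorem D2_cut (hr : IsP r) (K : AddSubgroup G) : D2 r ≤ dK r K + D2 (fR r K) := by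
  have h := fK_le hr (le_top : K ≤ ⊤)
  rw [fK_top hr, dK_top hr] at h
  rw [D2_fR hr]
  linarith

theorem soft0 {q u θ : ℝ} (hq : 0 < q) (hθ : 0 ≤ θ) (hB : Bd (2 * q) θ) (h2 : ∀ g : G, g + g = 0)
    (hr : IsP r) (h : Soft q u r) : D2 r ≤ 2 * u + θ * Lf r := by
  obtain ⟨K, hs, -, hk⟩ := cut hq.le (by linarith : (0 : ℝ) ≤ 2 * q) hr h
  have h1 : dK r K ≤ 2 * u := by
    have h3 : q * dK r K ≤ q * (2 * u) := by
      have e1 : (2 * q - q) * dK r K = q * dK r K := by ring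
      have e2 : 2 * q * u = q * (2 * u) := by ring
      rw [e1, e2] at hk
      exact hk
    exact le_of_mul_le_mul_left h3 hq
  have h4 := hB K (β × (G ⧸ K)) (two_sub h2 K) (fR r K) (fR_isP hr K) hs
  rw [Lf_fR hr] at h4
  have h5 := D2_cut hr K
  have h6 : 0 ≤ dK r K := dK_nonneg hr K
  have h7 : θ * (Lf r - dK r K) ≤ θ * Lf r := mul_le_mul_of_nonneg_left (by linarith) hθ
  linarith

end Pool.Agent.H65.SPD
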