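import Pool.Agent.H65.SPD.NDefs
import Pool.Agent.H65.SPD.FamC
import Pool.Agent.H65.SPD.FRa
import Pool.Agent.H65.SPD.FMo
import Pool.Agent.H65.SPD.Sft1
import Pool.Agent.H65.SPD.DMr
import Pool.Agent.H65.SPD.DMs
set_option autoImplicit false

/-!
# DMc1 (size 1).  `DM` of soft spread families.

`BdM_mono`: as `Bd_mono`.  `BdM_zero`: `DM_zero`, `Lf_nonneg`.
`soft0m`: `cut` with `p = 2q`: `K` with `dK r K ≤ 2u`, `fR r K` is `2q`-spread.  `DM n r ≤ n dK r K + DM n (fR r K)` (`DM_le_fR`)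
`≤ 2 n u + θ Lf (fR r K) ≤ 2 n u + θ Lf r` (`hB` in the group `K`, `two_sub`, `fR_isP`, `Lf_fR`, `dK_nonneg`).
-/

namespace Pool.Agent.H65.SPD
open Finset Pool.Agent.Ldc

theorem BdM_mono {n : ℕ} {q q' θ : ℝ} (h : q ≤ q') (hB : BdM n q' θ) : BdM n q θ := by
  intro G β _ _ _ h2 r hr hs
  exact hB G β h2 r hr (fun K => (hs K).trans (mul_le_mul_of_nonneg_right h (ci_nonneg K)))

theorem BdM_zero {q θ : ℝ} (hθ : 0 ≤ θ) : BdM 0 q θ := by
  intro G β _ _ _ h2 r hr hs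
  rw [DM_zero hr]
  exact mul_nonneg hθ (Lf_nonneg hr)

variable {G β : Type} [AddCommGroup G] [Fintype G] [Fintype β] {r : G × β → ℝ}

theorem soft0m {n : ℕ} {q u θ : ℝ} (hq : 0 < q) (hθ : 0 ≤ θ) (hB : BdM n (2 * q) θ)
    (h2 : ∀ g : G, g + g = 0) (hr : IsP r) (h : Soft q u r) :
    DM n r ≤ 2 * (n : ℝ) * u + θ * Lf r := by
  obtain ⟨K, hK1, _, hK3⟩ := cut (p := 2 * q) hq.le (by linarith) hr h
  have h1 := DM_le_fR hr n K
  have h3 := hB K (β × (G ⧸ K)) (two_sub h2 K) (fR r K) (fR_isP hr K) hK1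
  rw [Lf_fR hr K] at h3
  have h4 := dK_nonneg hr K
  have h5 : dK r K ≤ 2 * u := by
    have : q * dK r K ≤ q * (2 * u) := by linarith
    exact le_of_mul_le_mul_left this hq
  have h6 : (n : ℝ) * dK r K ≤ (n : ℝ) * (2 * u) := mul_le_mul_of_nonneg_left h5 (Nat.cast_nonneg n)
  have h7 : 0 ≤ θ * dK r K := mul_nonneg hθ h4
  nlinarith

end Pool.Agent.H65.SPD
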