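import Pool.Agent.H65.SPD.NDefs
import Pool.Agent.H65.SPD.Tls
import Pool.Agent.H65.SPD.Dl
import Pool.Agent.H65.SPD.CvL
import Pool.Agent.H65.SPD.FamA
import Pool.Agent.H65.SPD.FamB
import Pool.Agent.H65.SPD.DxA
import Pool.Agent.Ldc.E7a
set_option autoImplicit false

/-!
# Mix (size 3).  Mixtures of two families.

`m = fX t p r` on `G × (β ⊕ γ)`, `0 < t < 1`.  Sums over `β ⊕ γ`: `Fintype.sum_sum_type`.
`fX_isP`: nonnegative; the sum over `G × (β ⊕ γ)` is `t Σ p + (1-t) Σ r = 1` (`Fintype.sum_prod_type`).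
`wb m (inl b) = t wb p b`, `wb m (inr c) = (1-t) wb r c` (sums of `m` over `G × {inl b}`), and
`xb m (inl b) = xb p b`, `xb m (inr c) = xb r c` (`cnd m Y (inl b) (g, inl b) = t p(g,b) / (t wb p b) = p(g,b)/wb p b`; the law of the
first coordinate; `E7a_cnd_apply`).  [If you prefer prove the last two only when the weight is positive.]
`Lf_fX`, `dK_fX`: `Lf_avg`, `dK_avg`.
`Dx_le_fX`: `D2_avg` for `m`: the four blocks are `t² D2 p`, `t(1-t) Dx p r`, `(1-t) t Dx r p`, `(1-t)² D2 r`, all `≥ 0`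
(`Dx_avg`, `df_nonneg`), and `Dx r p = Dx p r` (`df_cv_comm`, `Finset.sum_comm`).
-/
namespace Pool.Agent.H65.SPD
open Finset Pool.Agent.Ldc
variable {G β γ : Type} [AddCommGroup G] [Fintype G] [Fintype β] [Fintype γ]
  {p : G × β → ℝ} {r : G × γ → ℝ} {t : ℝ}

private theorem Mix_wl (b : β) : wb (fX t p r) (Sum.inl b) = t * wb p b := by
  classical
  unfold wb pr pe fX
  rw [Fintype.sum_prod_type, Fintype.sum_prod_type, Finset.mul_sum]
  refine Finset.sum_congr rfl fun g _ => ?_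
  rw [Fintype.sum_sum_type, Finset.mul_sum]
  simp

private theorem Mix_wr (c : γ) : wb (fX t p r) (Sum.inr c) = (1 - t) * wb r c := by
  classical
  unfold wb pr pe fX
  rw [Fintype.sum_prod_type, Fintype.sum_prod_type, Finset.mul_sum]
  refine Finset.sum_congr rfl fun g _ => ?_
  rw [Fintype.sum_sum_type, Finset.mul_sum]
  simp

private theorem Mix_pr {δ : Type} [Fintype δ] (m : G × δ → ℝ) (g : G) (a : δ) :
    pr m (fun ω => (ω.1, ω.2)) (g, a) = m (g, a) := by
  have h := pr_id m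
  exact congrFun h (g, a)

private theorem Mix_xl (ht : 0 < t) (b : β) : xb (fX t p r) (Sum.inl b) = xb p b := by
  classical
  funext g
  have hw := Mix_wl (p := p) (r := r) (t := t) b
  unfold xb
  unfold wb at hw
  rw [E7a_pr_cnd, E7a_pr_cnd, hw, Mix_pr, Mix_pr]
  show t * p (g, b) / (t * _) = _
  rw [mul_div_mul_left _ _ ht.ne']

private theorem Mix_xr (ht : t < 1) (c : γ) : xb (fX t p r) (Sum.inr c) = xb r c := by
  classical
  funext g
  have hw := Mix_wr (p := p) (r := r) (t := t) c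
  unfold xb
  unfold wb at hw
  rw [E7a_pr_cnd, E7a_pr_cnd, hw, Mix_pr, Mix_pr]
  show (1 - t) * r (g, c) / ((1 - t) * _) = _
  rw [mul_div_mul_left _ _ (by linarith : (1 - t) ≠ 0)]

theorem fX_isP (ht : 0 < t) (ht1 : t < 1) (hp : IsP p) (hr : IsP r) : IsP (fX t p r) := by
  constructor
  · rintro ⟨g, b | c⟩
    · exact mul_nonneg ht.le (hp.1 _)
    · exact mul_nonneg (by linarith) (hr.1 _)
  · have h1 : ∑ ω, fX t p r ω = t * ∑ u, p u + (1 - t) * ∑ u, r u := by
      rw [Fintype.sum_prod_type, Fintype.sum_prod_type, Fintype.sum_prod_type, Finset.mul_sum,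
        Finset.mul_sum, ← Finset.sum_add_distrib]
      refine Finset.sum_congr rfl fun g _ => ?_
      rw [Fintype.sum_sum_type, Finset.mul_sum, Finset.mul_sum]
      rfl
    rw [h1, hp.2, hr.2]
    ring

theorem Lf_fX (ht : 0 < t) (ht1 : t < 1) (hp : IsP p) (hr : IsP r) :
    Lf (fX t p r) = t * Lf p + (1 - t) * Lf r := by
  rw [Lf_avg (fX_isP ht ht1 hp hr), Lf_avg hp, Lf_avg hr, Fintype.sum_sum_type, Finset.mul_sum,
    Finset.mul_sum]
  congr 1
  · refine Finset.sum_congr rfl fun b _ => ?_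
    rw [Mix_wl, Mix_xl ht]
    ring
  · refine Finset.sum_congr rfl fun c _ => ?_
    rw [Mix_wr, Mix_xr ht1]
    ring

theorem dK_fX (ht : 0 < t) (ht1 : t < 1) (hp : IsP p) (hr : IsP r) (K : AddSubgroup G) :
    dK (fX t p r) K = t * dK p K + (1 - t) * dK r K := by
  rw [dK_avg (fX_isP ht ht1 hp hr), dK_avg hp, dK_avg hr, Fintype.sum_sum_type, Finset.mul_sum,
    Finset.mul_sum]
  congr 1
  · refine Finset.sum_congr rfl fun b _ => ?_
    rw [Mix_wl, Mix_xl ht]
    ring
  · refine Finset.sum_congr rfl fun c _ => ?_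
    rw [Mix_wr, Mix_xr ht1]
    ring

theorem Dx_le_fX (ht : 0 < t) (ht1 : t < 1) (hp : IsP p) (hr : IsP r) :
    2 * t * (1 - t) * Dx p r ≤ D2 (fX t p r) := by
  have h1 : D2 (fX t p r) = t ^ 2 * D2 p + t * (1 - t) * Dx p r + t * (1 - t) * Dx p r
      + (1 - t) ^ 2 * D2 r := by
    have e1 : t ^ 2 * D2 p = ∑ b, ∑ b', (t * wb p b) * (t * wb p b') * df (cv (xb p b) (xb p b')) := by
      rw [D2_avg hp, Finset.mul_sum]
      refine Finset.sum_congr rfl fun b _ => ?_
      rw [Finset.mul_sum]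
      exact Finset.sum_congr rfl fun b' _ => by ring
    have e2 : t * (1 - t) * Dx p r = ∑ b, ∑ c, (t * wb p b) * ((1 - t) * wb r c)
        * df (cv (xb p b) (xb r c)) := by
      rw [Dx_avg hp hr, Finset.mul_sum]
      refine Finset.sum_congr rfl fun b _ => ?_
      rw [Finset.mul_sum]
      exact Finset.sum_congr rfl fun b' _ => by ring
    have e3 : t * (1 - t) * Dx p r = ∑ c, ∑ b, ((1 - t) * wb r c) * (t * wb p b)
        * df (cv (xb r c) (xb p b)) := by
      rw [e2, Finset.sum_comm]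
      refine Finset.sum_congr rfl fun c _ => Finset.sum_congr rfl fun b _ => ?_
      rw [df_cv_comm (xb p b) (xb r c)]
      ring
    have e4 : (1 - t) ^ 2 * D2 r = ∑ b, ∑ b', ((1 - t) * wb r b) * ((1 - t) * wb r b')
        * df (cv (xb r b) (xb r b')) := by
      rw [D2_avg hr, Finset.mul_sum]
      refine Finset.sum_congr rfl fun b _ => ?_
      rw [Finset.mul_sum]
      exact Finset.sum_congr rfl fun b' _ => by ring
    have e0 : D2 (fX t p r) =
        (∑ b, ∑ b', (t * wb p b) * (t * wb p b') * df (cv (xb p b) (xb p b')))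
        + (∑ b, ∑ c, (t * wb p b) * ((1 - t) * wb r c) * df (cv (xb p b) (xb r c)))
        + (∑ c, ∑ b, ((1 - t) * wb r c) * (t * wb p b) * df (cv (xb r c) (xb p b)))
        + (∑ b, ∑ b', ((1 - t) * wb r b) * ((1 - t) * wb r b') * df (cv (xb r b) (xb r b'))) := by
      rw [D2_avg (fX_isP ht ht1 hp hr), Fintype.sum_sum_type]
      simp only [Fintype.sum_sum_type, Mix_wl, Mix_wr, Mix_xl ht, Mix_xr ht1,
        Finset.sum_add_distrib]
      ring
    rw [e0, ← e1, ← e2, ← e3, ← e4]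
  have h2 : 0 ≤ D2 p := by rw [← Dx_self]; exact Dx_nonneg hp hp
  have h3 : 0 ≤ D2 r := by rw [← Dx_self]; exact Dx_nonneg hr hr
  have h4 : 0 ≤ t ^ 2 * D2 p := mul_nonneg (sq_nonneg t) h2
  have h5 : 0 ≤ (1 - t) ^ 2 * D2 r := mul_nonneg (sq_nonneg _) h3
  rw [h1]
  linarith

end Pool.Agent.H65.SPD
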