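import Pool.Agent.H65.SPD.NDefs
import Pool.Agent.H65.SPD.Ci
import Pool.Agent.H65.SPD.FamC
import Pool.Agent.H65.SPD.FRa
import Pool.Agent.H65.SPD.Sft1
import Pool.Agent.H65.SPD.Mix
import Pool.Agent.H65.SPD.DMr
import Pool.Agent.H65.SPD.DMs
import Pool.Agent.H65.SPD.DMc1
set_option autoImplicit false

/-!
# DMc2 (size 3).  The induction step for `BdM`.

Let `r` be `l`-spread, `L = Lf r`, `V = fV n r`, `m = fX (1/2) V r`.
1. `DM (n+1) r = DM n r + Dx V r` (`DM_succ`), `DM n r ≤ ε L` (`hB1`), `Dx V r ≤ 2 D2 m` (`Dx_le_fX` with `t = 1/2`).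
2. For `K`: `fR r K` is `Soft l (l ci K - dK r K)` (`soft_fR` with `u = 0`, `soft_of_spread`), so by `soft0m`
   `DM n (fR r K) ≤ 2 n (l ci K - dK r K) + ε Lf (fR r K) ≤ 2 n (l ci K - dK r K) + ε L`.
   `dK V K = (n+1) dK r K + DM n (fR r K) - DM n r ≤ (1 - n) dK r K + 2 n l ci K + ε L ≤ (2n+1) l ci K + ε L`
   (`DM_nonneg`; `0 ≤ dK r K ≤ l ci K`: for `n = 0` the first term is `dK r K`, for `n ≥ 1` it is `≤ 0`).
   `dK m K = (dK V K + dK r K)/2 ≤ (n+1) l ci K + ε L / 2` (`dK_fX`): `m` is `Soft ((n+1) l) (ε L / 2)`.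
3. `soft0` for `m`: `D2 m ≤ ε L + θ Lf m`, `Lf m = (Lf V + L)/2 ≤ (n+2) L / 2` (`Lf_fX`, `Lf_fV`, `DM_nonneg`).
4. Sum: `DM (n+1) r ≤ ε L + 2 ε L + θ (n+2) L`.
-/
namespace Pool.Agent.H65.SPD
open Finset Pool.Agent.Ldc

theorem BdM_step {n : ℕ} {l ε θ : ℝ} (hl : 0 < l) (hε : 0 ≤ ε) (hθ : 0 ≤ θ) (hB1 : BdM n l ε)
    (hB2 : BdM n (2 * l) ε) (hB : Bd (2 * (((n : ℝ) + 1) * l)) θ) :
    BdM (n + 1) l (3 * ε + ((n : ℝ) + 2) * θ) := by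
  intro G β _ _ _ h2 r hr hs
  have hn : (0 : ℝ) ≤ (n : ℝ) := Nat.cast_nonneg n
  have hL : 0 ≤ Lf r := Lf_nonneg hr
  have h1 : DM n r ≤ ε * Lf r := hB1 G β h2 r hr hs
  have hV : IsP (fV n r) := fV_isP hr n
  have ht : (0 : ℝ) < 1 / 2 := by norm_num
  have ht1 : (1 / 2 : ℝ) < 1 := by norm_num
  have hm : IsP (fX (1 / 2) (fV n r) r) := fX_isP ht ht1 hV hr
  have hDx := Dx_le_fX ht ht1 hV hr
  have hnn : 0 ≤ DM n r := DM_nonneg hr n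
  have hsoft : Soft (((n : ℝ) + 1) * l) (ε * Lf r / 2) (fX (1 / 2) (fV n r) r) := by
    intro K
    rw [dK_fX ht ht1 hV hr K, dK_fV hr n K]
    have hs1 : Soft l (l * ci K + 0 - dK r K) (fR r K) := soft_fR hr (soft_of_spread hs) K
    have hs2 := soft0m hl hε hB2 (fun g : K => Subtype.ext (h2 g)) (fR_isP hr K) hs1
    rw [Lf_fR hr K] at hs2
    have hd0 : 0 ≤ dK r K := dK_nonneg hr K
    have hd1 : dK r K ≤ l * ci K := hs K
    have e1 : 0 ≤ (n : ℝ) * dK r K := mul_nonneg hn hd0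
    have e2 : 0 ≤ ε * dK r K := mul_nonneg hε hd0
    nlinarith
  have hq : 0 < ((n : ℝ) + 1) * l := by positivity
  have hD := soft0 hq hθ hB h2 hm hsoft
  rw [Lf_fX ht ht1 hV hr, Lf_fV hr n] at hD
  rw [DM_succ hr n]
  have e3 : θ * (1 / 2 * (((n : ℝ) + 1) * Lf r - DM n r) + (1 - 1 / 2) * Lf r)
      ≤ θ * (((n : ℝ) + 2) * Lf r / 2) := by
    apply mul_le_mul_of_nonneg_left _ hθ
    linarith
  nlinarith

end Pool.Agent.H65.SPD
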