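import Pool.Agent.H65.SPD.NDefs
import Pool.Agent.H65.SPD.FamC
import Pool.Agent.H65.SPD.C1
import Pool.Agent.H65.SPD.C5
import Pool.Agent.H65.SPD.Sft1
import Pool.Agent.H65.SPD.DMc1
import Pool.Agent.H65.SPD.DMc2
set_option autoImplicit false

/-!
# DMc3 (size 2).  The Claim: `BdM n ((ε / 64^(n+1))^(1/kap)) ε`.

`c = 1/kap ≥ 1` (`kap_pos`, `kap_le`).  Induction on `n` (for all `ε`).  `n = 0`: `BdM_zero`.
Step: let `l = (ε/64^(n+2))^c`.  Use `BdM_step` with `ε/6` and `θ = ε/(2(n+2))`: the result is `BdM (n+1) l (ε/2 + ε/2)`.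
(a) `2 l ≤ (ε/6/64^(n+1))^c`: `2 ≤ (64/6)^c` as `c ≥ 1` and `64/6 ≥ 2`; so `BdM n (2 l) (ε/6)` and `BdM n l (ε/6)` by the induction
    hypothesis and `BdM_mono`.
(b) `q := 2 (n+1) l` satisfies `q ≤ (ε/(128(n+2)))^c`: `(2(n+1)) ≤ (2(n+1))^c`, `2(n+1) * 128 (n+2) ≤ 64^(n+2)` (induction on `n`).
    So `q ≤ (1/128)^c = q0` and `q^kap ≤ ε/(128(n+2)) ≤ θ`; `thmA_real` gives `Bd q (q^kap)`, then `Bd_theta`.
-/
namespace Pool.Agent.H65.SPD
open Finset Pool.Agent.Ldc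

theorem claim (n : ℕ) {ε : ℝ} (h0 : 0 < ε) (h1 : ε ≤ 1) :
    BdM n ((ε / 64 ^ (n + 1)) ^ (1 / kap)) ε := by
  have hk := kap_pos
  have hk1 := kap_le
  have hc : 1 ≤ 1 / kap := by
    rw [le_div_iff₀ hk]
    linarith
  have hc0 : 0 < 1 / kap := by positivity
  induction n generalizing ε with
  | zero => exact BdM_zero h0.le
  | succ n ih =>
    have hn : (0 : ℝ) ≤ (n : ℝ) := Nat.cast_nonneg n
    have h64 : (0 : ℝ) < 64 ^ (n + 1) := by positivity
    have h64' : (0 : ℝ) < 64 ^ (n + 1 + 1) := by positivity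
    have hl : 0 < (ε / 64 ^ (n + 1 + 1)) ^ (1 / kap) := Real.rpow_pos_of_pos (by positivity) _
    have ih6 := ih (ε := ε / 6) (by positivity) (by linarith)
    have ha : 2 * (ε / 64 ^ (n + 1 + 1)) ^ (1 / kap) ≤ (ε / 6 / 64 ^ (n + 1)) ^ (1 / kap) := by
      have e1 : (2 : ℝ) ≤ 2 ^ (1 / kap) := by
        calc (2 : ℝ) = 2 ^ (1 : ℝ) := (Real.rpow_one 2).symm
          _ ≤ 2 ^ (1 / kap) := Real.rpow_le_rpow_of_exponent_le (by norm_num) hc
      calc 2 * (ε / 64 ^ (n + 1 + 1)) ^ (1 / kap)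
          ≤ 2 ^ (1 / kap) * (ε / 64 ^ (n + 1 + 1)) ^ (1 / kap) :=
            mul_le_mul_of_nonneg_right e1 hl.le
        _ = (2 * (ε / 64 ^ (n + 1 + 1))) ^ (1 / kap) :=
            (Real.mul_rpow (by norm_num) (by positivity)).symm
        _ ≤ (ε / 6 / 64 ^ (n + 1)) ^ (1 / kap) := by
            apply Real.rpow_le_rpow (by positivity) _ hc0.le
            have e2 : 2 * (ε / 64 ^ (n + 1 + 1)) = ε / 64 ^ (n + 1) / 32 := by
              rw [pow_succ (64 : ℝ) (n + 1)]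
              field_simp
              norm_num
            have e3 : ε / 6 / 64 ^ (n + 1) = ε / 64 ^ (n + 1) / 6 := by ring
            rw [e2, e3]
            have e4 : 0 < ε / 64 ^ (n + 1) := by positivity
            linarith
    have hB2 : BdM n (2 * (ε / 64 ^ (n + 1 + 1)) ^ (1 / kap)) (ε / 6) := BdM_mono ha ih6
    have hB1 : BdM n ((ε / 64 ^ (n + 1 + 1)) ^ (1 / kap)) (ε / 6) :=
      BdM_mono (by linarith) hB2
    have hpow : ∀ k : ℕ, 2 * ((k : ℝ) + 1) * (128 * ((k : ℝ) + 2)) ≤ 64 ^ (k + 1 + 1) := by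
      intro k
      induction k with
      | zero => norm_num
      | succ k ihk =>
        have hk0 : (0 : ℝ) ≤ (k : ℝ) := Nat.cast_nonneg k
        rw [pow_succ]
        push_cast
        nlinarith
    have hq : 2 * (((n : ℝ) + 1) * (ε / 64 ^ (n + 1 + 1)) ^ (1 / kap))
        ≤ (ε / (128 * ((n : ℝ) + 2))) ^ (1 / kap) := by
      have e1 : 2 * ((n : ℝ) + 1) ≤ (2 * ((n : ℝ) + 1)) ^ (1 / kap) := by
        calc 2 * ((n : ℝ) + 1) = (2 * ((n : ℝ) + 1)) ^ (1 : ℝ) := (Real.rpow_one _).symm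
          _ ≤ (2 * ((n : ℝ) + 1)) ^ (1 / kap) :=
            Real.rpow_le_rpow_of_exponent_le (by linarith) hc
      calc 2 * (((n : ℝ) + 1) * (ε / 64 ^ (n + 1 + 1)) ^ (1 / kap))
          = 2 * ((n : ℝ) + 1) * (ε / 64 ^ (n + 1 + 1)) ^ (1 / kap) := by ring
        _ ≤ (2 * ((n : ℝ) + 1)) ^ (1 / kap) * (ε / 64 ^ (n + 1 + 1)) ^ (1 / kap) :=
            mul_le_mul_of_nonneg_right e1 hl.le
        _ = (2 * ((n : ℝ) + 1) * (ε / 64 ^ (n + 1 + 1))) ^ (1 / kap) :=
            (Real.mul_rpow (by positivity) (by positivity)).symm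
        _ ≤ (ε / (128 * ((n : ℝ) + 2))) ^ (1 / kap) := by
            apply Real.rpow_le_rpow (by positivity) _ hc0.le
            have e2 : 2 * ((n : ℝ) + 1) * (ε / 64 ^ (n + 1 + 1))
                = (2 * ((n : ℝ) + 1) * ε) / 64 ^ (n + 1 + 1) := by ring
            rw [e2, div_le_div_iff₀ h64' (by positivity)]
            have := hpow n
            nlinarith
    have hq0 : 2 * (((n : ℝ) + 1) * (ε / 64 ^ (n + 1 + 1)) ^ (1 / kap)) ≤ q0 := by
      refine hq.trans ?_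
      unfold q0
      apply Real.rpow_le_rpow (by positivity) _ hc0.le
      rw [div_le_div_iff₀ (by positivity) (by norm_num)]
      nlinarith
    have hqp : 0 < 2 * (((n : ℝ) + 1) * (ε / 64 ^ (n + 1 + 1)) ^ (1 / kap)) := by positivity
    have hθ : (2 * (((n : ℝ) + 1) * (ε / 64 ^ (n + 1 + 1)) ^ (1 / kap))) ^ kap
        ≤ ε / (2 * ((n : ℝ) + 2)) := by
      calc (2 * (((n : ℝ) + 1) * (ε / 64 ^ (n + 1 + 1)) ^ (1 / kap))) ^ kap
          ≤ ((ε / (128 * ((n : ℝ) + 2))) ^ (1 / kap)) ^ kap :=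
            Real.rpow_le_rpow hqp.le hq hk.le
        _ = ε / (128 * ((n : ℝ) + 2)) := by
            rw [← Real.rpow_mul (by positivity), one_div_mul_cancel hk.ne', Real.rpow_one]
        _ ≤ ε / (2 * ((n : ℝ) + 2)) := by
            apply div_le_div_of_nonneg_left h0.le (by positivity)
            linarith
    have hB := Bd_theta hθ (thmA_real hqp hq0)
    have hfin := BdM_step (n := n) hl (by positivity) (by positivity) hB1 hB2 hB
    have e5 : 3 * (ε / 6) + ((n : ℝ) + 2) * (ε / (2 * ((n : ℝ) + 2))) = ε := by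
      field_simp
      norm_num
    rw [e5] at hfin
    exact hfin

end Pool.Agent.H65.SPD
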