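import Pool.Agent.Ldc.P7
import Pool.Agent.Ldc.S1b
set_option autoImplicit false

/-!
# Squad SPD (MP_9c415a_co), owner helper65.  Definitions.

Natural logarithms.  `G` is a finite abelian group (of exponent 2 where needed).  A FAMILY is a law
`r : G × β → ℝ` (`IsP r`) of a pair `(X, Y)`; `Y` is the data.  A LAW is `x : G → ℝ`.
-/
namespace Pool.Agent.H65.SPD
open Finset Pool.Agent.Ldc

/-- the only `Fintype` instances on `K` and `G ⧸ K` which are used -/
noncomputable instance instFK {G : Type} [AddCommGroup G] [Fintype G] (K : AddSubgroup G) :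
    Fintype K := Fintype.ofFinite _

noncomputable instance instFQ {G : Type} [AddCommGroup G] [Fintype G] (K : AddSubgroup G) :
    Fintype (G ⧸ K) := Fintype.ofFinite _

section laws
variable {G : Type} [AddCommGroup G] [Fintype G]

/-- `c_K = log [G : K]` -/
noncomputable def ci (K : AddSubgroup G) : ℝ :=
  Real.log (Fintype.card G : ℝ) - Real.log (Nat.card K : ℝ)

/-- deficit of the law `x` modulo `K`:  `c_K - H(x mod K)` -/
noncomputable def dl (x : G → ℝ) (K : AddSubgroup G) : ℝ :=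
  ci K - H x (fun g => (QuotientAddGroup.mk g : G ⧸ K))

/-- deficit of the law `x`:  `log |G| - H(x)` -/
noncomputable def df (x : G → ℝ) : ℝ := Real.log (Fintype.card G : ℝ) - ent x

/-- law of the sum of two independent variables -/
noncomputable def cv (x y : G → ℝ) : G → ℝ := pr (pp x y) (fun u => u.1 + u.2)

/-- law of the sum of `2 ^ s` independent copies -/
noncomputable def cvi : ℕ → (G → ℝ) → (G → ℝ)
  | 0, x => x
  | s + 1, x => cv (cvi s x) (cvi s x)

open Classical in
/-- `B` is spread: a coset of `K` contains at most a proportion `[G:K]^(-(1-q))` of `B` -/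
def MinSpread (q : ℝ) (B : Finset G) : Prop :=
  ∀ (K : AddSubgroup G) (c : G),
    ((B.filter (fun b => b - c ∈ K)).card : ℝ) ≤ (B.card : ℝ) * Real.exp (-((1 - q) * ci K))

end laws

section fam
variable {G β : Type} [AddCommGroup G] [Fintype G] [Fintype β]

/-- law of the data -/
noncomputable def wb (r : G × β → ℝ) (b : β) : ℝ := pr r (fun u => u.2) b

/-- law of `X` given `Y = b` -/
noncomputable def xb (r : G × β → ℝ) (b : β) : G → ℝ := pr (cnd r (fun u => u.2) b) (fun u => u.1)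

/-- `L(F) = log |G| - H(X | Y)` -/
noncomputable def Lf (r : G × β → ℝ) : ℝ :=
  Real.log (Fintype.card G : ℝ) - (H r (fun u => (u.1, u.2)) - H r (fun u => u.2))

/-- `d_K(F) = c_K - H(X mod K | Y)` -/
noncomputable def dK (r : G × β → ℝ) (K : AddSubgroup G) : ℝ :=
  ci K - (H r (fun u => ((QuotientAddGroup.mk u.1 : G ⧸ K), u.2)) - H r (fun u => u.2))

/-- `D2(F) = log |G| - H(X₁ + X₂ | Y₁, Y₂)` -/
noncomputable def D2 (r : G × β → ℝ) : ℝ :=
  Real.log (Fintype.card G : ℝ)
    - (H (pp r r) (fun u => (u.1.1 + u.2.1, u.1.2, u.2.2)) - 2 * H r (fun u => u.2))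

/-- the family is `q`-spread -/
def Spread (q : ℝ) (r : G × β → ℝ) : Prop := ∀ K : AddSubgroup G, dK r K ≤ q * ci K

/-- `U = (X₁ + X₂ ; Y₁, Y₂)` -/
noncomputable def fU (r : G × β → ℝ) : G × (β × β) → ℝ :=
  pr (pp r r) (fun u => (u.1.1 + u.2.1, u.1.2, u.2.2))

/-- `W = (X₁ ; X₁ + X₂, Y₁, Y₂)` -/
noncomputable def fW (r : G × β → ℝ) : G × (G × β × β) → ℝ :=
  pr (pp r r) (fun u => (u.1.1, u.1.1 + u.2.1, u.1.2, u.2.2))

/-- `f(K) = D2(F^K) = log |K| - H(X₁ + X₂ | Y₁, X₁ mod K, Y₂, X₂ mod K)` -/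
noncomputable def fK (r : G × β → ℝ) (K : AddSubgroup G) : ℝ :=
  Real.log (Nat.card K : ℝ)
    - (H (pp r r) (fun u => (u.1.1 + u.2.1, (u.1.2, (QuotientAddGroup.mk u.1.1 : G ⧸ K)),
          (u.2.2, (QuotientAddGroup.mk u.2.1 : G ⧸ K))))
      - 2 * H r (fun u => (u.2, (QuotientAddGroup.mk u.1 : G ⧸ K))))

/-- shift `g` into `K` by the representative of its class -/
noncomputable def shK (K : AddSubgroup G) (g : G) : K :=
  ⟨g - (QuotientAddGroup.mk g : G ⧸ K).out, by
    have h : (QuotientAddGroup.mk ((QuotientAddGroup.mk g : G ⧸ K).out) : G ⧸ K)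
        = QuotientAddGroup.mk g := Quotient.out_eq' _
    have h1 := QuotientAddGroup.eq.mp h
    rwa [neg_add_eq_sub] at h1⟩

/-- `F^K = (X shifted into K ; Y, X mod K)`, a family on the group `K` -/
noncomputable def fR (r : G × β → ℝ) (K : AddSubgroup G) : K × (β × (G ⧸ K)) → ℝ :=
  pr r (fun u => (shK K u.1, u.2, (QuotientAddGroup.mk u.1 : G ⧸ K)))

end fam

/-- every `q`-spread family on a group of exponent 2 has `D2 ≤ θ L` -/
def Bd (q θ : ℝ) : Prop :=
  ∀ (G β : Type) [AddCommGroup G] [Fintype G] [Fintype β], (∀ g : G, g + g = 0) →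
    ∀ r : G × β → ℝ, IsP r → Spread q r → D2 r ≤ θ * Lf r

/-- constant of entropic PFR -/
noncomputable def CP : ℝ := 1201 * 6 ^ 8

noncomputable def dlt : ℝ := 1 / (148 * CP)

/-- half of the exponent of Theorem A -/
noncomputable def kap : ℝ := Real.log (1 + dlt) / (2 * Real.log 8)

noncomputable def q0 : ℝ := (1 / 128 : ℝ) ^ (1 / kap)

end Pool.Agent.H65.SPD
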