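import Pool.Agent.H65.SPD.Ci
import Pool.Agent.H65.SPD.Dl
import Pool.Agent.H65.SPD.CvL
import Pool.Agent.H65.SPD.Key
set_option autoImplicit false

/-!
# Ext2 (size 1).  Extremal subgroup with an arbitrary parameter.

Exactly as `extremal` in `Key.lean`, with `l ci K` instead of `ci K / 2`: `K` maximises `dl x K - l ci K`.
Against `⊤`: `l ci K ≤ dl x K ≤ df x` (`dl_le_df`, `dl_top`, `ci_top`).  Against `K ⊓ V`: `dl x (K ⊓ V) - dl x K ≤ l (ci (K ⊓ V) - ci K) ≤ l ci V`
(`ci_inf_le`), and `key`.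
-/
namespace Pool.Agent.H65.SPD
open Finset Pool.Agent.Ldc
variable {G : Type} [AddCommGroup G] [Fintype G] {x : G → ℝ}

theorem extremal2 {l : ℝ} (hl : 0 < l) (hx : IsP x) : ∃ K : AddSubgroup G, l * ci K ≤ df x ∧
    ∀ y : G → ℝ, IsP y → ∀ V : AddSubgroup G, dl (cv x y) V ≤ dl y K + l * ci V := by
  obtain ⟨K, hK⟩ := Finite.exists_max (fun K : AddSubgroup G => dl x K - l * ci K)
  refine ⟨K, ?_, fun y hy V => ?_⟩
  · have h1 := hK ⊤
    simp only [dl_top hx, ci_top] at h1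
    have h2 := dl_le_df hx K
    linarith
  · have h1 := hK (K ⊓ V)
    have h2 := key hx hy K V
    have h3 := mul_le_mul_of_nonneg_left (ci_inf_le K V) hl.le
    linarith

end Pool.Agent.H65.SPD
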