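import Pool.Agent.H65.SPD.GrpD
set_option autoImplicit false

/-!
# FinB.  Theorem B in `F_2^n` (owner).
-/
namespace Pool.Agent.H65.SPD
open Finset

/-- transfer of a subgroup of `F_2^n` to a submodule -/
theorem finB_sub {n : ℕ} (H : AddSubgroup (Fin n → ZMod 2)) :
    ∃ V : Submodule (ZMod 2) (Fin n → ZMod 2), (∀ v, v ∈ V ↔ v ∈ H) ∧
      Real.log (Nat.card H : ℝ) = (Module.finrank (ZMod 2) V : ℝ) * Real.log 2 := by
  refine ⟨AddSubgroup.toZModSubmodule 2 H, fun v => Iff.rfl, ?_⟩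
  have h1 : Nat.card H = Nat.card (AddSubgroup.toZModSubmodule 2 H) := rfl
  rw [h1, Module.natCard_eq_pow_finrank (K := ZMod 2), Nat.card_zmod]
  push_cast
  rw [Real.log_pow]

theorem finB_card {n : ℕ} (A : Finset (Fin n → ZMod 2)) (hA : A.Nonempty) :
    Real.log (A.card : ℝ) = ((n : ℝ) - Real.logb 2 ((2 : ℝ) ^ n / (A.card : ℝ))) * Real.log 2 := by
  have hA0 : (0 : ℝ) < A.card := by exact_mod_cast hA.card_pos
  have h2 : Real.log 2 ≠ 0 := (Real.log_pos one_lt_two).ne'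
  rw [Real.logb, Real.log_div (by positivity) hA0.ne', Real.log_pow]
  field_simp
  ring

theorem finB_dbl {n : ℕ} (A : Finset (Fin n → ZMod 2)) (hA : A.Nonempty) :
    0 ≤ Real.logb 2 ((((A ×ˢ A).image (fun u => u.1 + u.2)).card : ℝ) / (A.card : ℝ)) ∧
    Real.logb 2 ((((A ×ˢ A).image (fun u => u.1 + u.2)).card : ℝ) / (A.card : ℝ))
      ≤ Real.logb 2 ((2 : ℝ) ^ n / (A.card : ℝ)) ∧
    Real.log (((A ×ˢ A).image (fun u => u.1 + u.2)).card : ℝ) - Real.log (A.card : ℝ)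
      = Real.logb 2 ((((A ×ˢ A).image (fun u => u.1 + u.2)).card : ℝ) / (A.card : ℝ))
        * Real.log 2 := by
  have hA0 : (0 : ℝ) < A.card := by exact_mod_cast hA.card_pos
  have h2 : Real.log 2 ≠ 0 := (Real.log_pos one_lt_two).ne'
  obtain ⟨z, hz⟩ := hA
  have hle : A.card ≤ ((A ×ˢ A).image (fun u => u.1 + u.2)).card := by
    refine Finset.card_le_card_of_injOn (fun a => a + z) ?_ ?_
    · intro a ha
      simp only [Finset.coe_image, Set.mem_image]
      exact ⟨(a, z), by simpa using ⟨ha, hz⟩, rfl⟩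
    · intro a _ b _ hab
      exact add_right_cancel hab
  have hle' : (A.card : ℝ) ≤ (((A ×ˢ A).image (fun u => u.1 + u.2)).card : ℝ) := by
    exact_mod_cast hle
  have hS0 : (0 : ℝ) < (((A ×ˢ A).image (fun u => u.1 + u.2)).card : ℝ) := by linarith
  have hup : (((A ×ˢ A).image (fun u => u.1 + u.2)).card : ℝ) ≤ (2 : ℝ) ^ n := by
    have h := Finset.card_le_univ ((A ×ˢ A).image (fun u => u.1 + u.2))
    have hc : Fintype.card (Fin n → ZMod 2) = 2 ^ n := by
      rw [Fintype.card_fun, ZMod.card, Fintype.card_fin]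
    rw [hc] at h
    exact_mod_cast h
  refine ⟨Real.logb_nonneg one_lt_two (by rw [one_le_div hA0]; exact hle'), ?_, ?_⟩
  · exact Real.logb_le_logb_of_le one_lt_two (div_pos hS0 hA0)
      (div_le_div_of_nonneg_right hup hA0.le)
  · rw [Real.logb, Real.log_div hS0.ne' hA0.ne']
    field_simp

theorem finB : ∃ C : ℝ, 1 ≤ C ∧ ∀ (n : ℕ) (A : Finset (Fin n → ZMod 2)), A.Nonempty →
    ∀ a g : ℝ, a = Real.logb 2 ((2 : ℝ) ^ n / (A.card : ℝ)) →
      g = Real.logb 2 ((((A ×ˢ A).image (fun u => u.1 + u.2)).card : ℝ) / (A.card : ℝ)) →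
      (∀ B : ℝ, 2 ≤ B → ∀ k : ℕ,
        C * (1 + Real.logb 2 (1 + g) / Real.logb 2 B) ^ C ≤ (k : ℝ) →
        ∃ (V : Submodule (ZMod 2) (Fin n → ZMod 2)) (v : Fin n → ZMod 2),
          (n : ℝ) - a - C * B * g ≤ (Module.finrank (ZMod 2) V : ℝ) ∧
          ∀ w ∈ V, ∃ s : Fin k → (Fin n → ZMod 2), (∀ i, s i ∈ A) ∧ ∑ i, s i = v + w) ∧
      (∀ k : ℕ, C * (1 + Real.logb 2 (1 + a)) ^ C ≤ (k : ℝ) →
        ∃ (V : Submodule (ZMod 2) (Fin n → ZMod 2)) (v : Fin n → ZMod 2),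
          (n : ℝ) - C * a ≤ (Module.finrank (ZMod 2) V : ℝ) ∧
          ∀ w ∈ V, ∃ s : Fin k → (Fin n → ZMod 2), (∀ i, s i ∈ A) ∧ ∑ i, s i = v + w) ∧
      (∀ ε : ℝ, 0 < ε → ∀ k : ℕ, C * (1 + 1 / ε) ^ C ≤ (k : ℝ) →
        ∃ (V : Submodule (ZMod 2) (Fin n → ZMod 2)) (v : Fin n → ZMod 2),
          (n : ℝ) - a - C * (1 + g) ^ (1 + ε) ≤ (Module.finrank (ZMod 2) V : ℝ) ∧
          ∀ w ∈ V, ∃ s : Fin k → (Fin n → ZMod 2), (∀ i, s i ∈ A) ∧ ∑ i, s i = v + w) := by
  obtain ⟨C, hC, hmain⟩ := group_dbl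
  have l2 : 0 < Real.log 2 := Real.log_pos one_lt_two
  have l21 : Real.log 2 ≤ 1 := by have := Real.log_two_lt_d9; linarith
  -- the first part with the constant `C`
  have key : ∀ (n : ℕ) (A : Finset (Fin n → ZMod 2)), A.Nonempty → ∀ a g : ℝ,
      a = Real.logb 2 ((2 : ℝ) ^ n / (A.card : ℝ)) →
      g = Real.logb 2 ((((A ×ˢ A).image (fun u => u.1 + u.2)).card : ℝ) / (A.card : ℝ)) →
      (0 ≤ g ∧ g ≤ a) ∧ ∀ B : ℝ, 2 ≤ B → ∀ k : ℕ,
        C * (1 + Real.logb 2 (1 + g) / Real.logb 2 B) ^ C ≤ (k : ℝ) →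
        ∃ (V : Submodule (ZMod 2) (Fin n → ZMod 2)) (v : Fin n → ZMod 2),
          (n : ℝ) - a - C * B * g ≤ (Module.finrank (ZMod 2) V : ℝ) ∧
          ∀ w ∈ V, ∃ s : Fin k → (Fin n → ZMod 2), (∀ i, s i ∈ A) ∧ ∑ i, s i = v + w := by
    intro n A hA a g ha hg
    obtain ⟨hg0, hga, hgl⟩ := finB_dbl A hA
    rw [← hg] at hg0 hga hgl
    rw [← ha] at hga
    refine ⟨⟨hg0, hga⟩, fun B hB k hk => ?_⟩
    have lB : 0 < Real.log B := Real.log_pos (by linarith)
    have hcard := finB_card A hA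
    rw [← ha] at hcard
    obtain ⟨H, c, hH, hsum⟩ := hmain (Fin n → ZMod 2)
      (fun x => by funext i; exact CharTwo.add_self_eq_zero (x i)) A
      ((A ×ˢ A).image (fun u => u.1 + u.2)) hA
      (fun x hx y hy => Finset.mem_image.mpr ⟨(x, y), Finset.mem_product.mpr ⟨hx, hy⟩, rfl⟩)
      B hB k (by
        refine le_trans ?_ hk
        refine mul_le_mul_of_nonneg_left ?_ (by linarith)
        have e1 : Real.logb 2 (1 + g) / Real.logb 2 B = Real.log (1 + g) / Real.log B := by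
          unfold Real.logb
          field_simp
        rw [e1, hgl]
        have e2 : 0 ≤ Real.log (1 + g * Real.log 2) := Real.log_nonneg (by nlinarith)
        refine Real.rpow_le_rpow (by positivity) ?_ (by linarith)
        have e3 : Real.log (1 + g * Real.log 2) ≤ Real.log (1 + g) :=
          Real.log_le_log (by nlinarith) (by nlinarith)
        have e4 : Real.log (1 + g * Real.log 2) / Real.log B ≤ Real.log (1 + g) / Real.log B :=
          div_le_div_of_nonneg_right e3 lB.le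
        linarith)
    obtain ⟨V, hV1, hV2⟩ := finB_sub H
    refine ⟨V, c, ?_, fun w hw => hsum w ((hV1 w).mp hw)⟩
    rw [hV2, hgl, hcard] at hH
    have h : ((n : ℝ) - a - C * B * g) * Real.log 2
        ≤ (Module.finrank (ZMod 2) V : ℝ) * Real.log 2 := by
      calc _ = ((n : ℝ) - a) * Real.log 2 - C * B * (g * Real.log 2) := by ring
        _ ≤ _ := hH
    exact le_of_mul_le_mul_right h l2
  refine ⟨3 * C, by linarith, fun n A hA a g ha hg => ?_⟩
  obtain ⟨⟨hg0, hga⟩, hk0⟩ := key n A hA a g ha hg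
  have hmono : ∀ y : ℝ, 0 ≤ y → C * (1 + y) ^ C ≤ 3 * C * (1 + y) ^ (3 * C) := by
    intro y hy
    have h1 : (1 + y) ^ C ≤ (1 + y) ^ (3 * C) :=
      Real.rpow_le_rpow_of_exponent_le (by linarith) (by linarith)
    have h2 : 0 ≤ (1 + y) ^ C := by positivity
    nlinarith
  have hlg : 0 ≤ Real.logb 2 (1 + g) := Real.logb_nonneg one_lt_two (by linarith)
  refine ⟨fun B hB k hk => ?_, fun k hk => ?_, fun ε hε k hk => ?_⟩
  · have hlB : 0 < Real.logb 2 B := Real.logb_pos one_lt_two (by linarith)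
    obtain ⟨V, v, h1, h2⟩ := hk0 B hB k ((hmono _ (div_nonneg hlg hlB.le)).trans hk)
    refine ⟨V, v, le_trans ?_ h1, h2⟩
    have : 0 ≤ C * B * g := by positivity
    nlinarith
  · have hla : Real.logb 2 (1 + g) ≤ Real.logb 2 (1 + a) :=
      Real.logb_le_logb_of_le one_lt_two (by linarith) (by linarith)
    obtain ⟨V, v, h1, h2⟩ := hk0 2 le_rfl k (by
      rw [Real.logb_self_eq_one one_lt_two, div_one]
      refine le_trans ?_ ((hmono (Real.logb 2 (1 + a)) (hlg.trans hla)).trans hk)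
      refine mul_le_mul_of_nonneg_left ?_ (by linarith)
      exact Real.rpow_le_rpow (by linarith) (by linarith) (by linarith))
    refine ⟨V, v, le_trans ?_ h1, h2⟩
    have ha0 : 0 ≤ a := hg0.trans hga
    nlinarith [mul_le_mul_of_nonneg_left hga (by linarith : (0 : ℝ) ≤ C)]
  · have hpow : 1 ≤ (1 + g) ^ ε := Real.one_le_rpow (by linarith) hε.le
    have hB : (2 : ℝ) ≤ 2 * (1 + g) ^ ε := by linarith
    have hlB : 1 ≤ Real.logb 2 (2 * (1 + g) ^ ε) := by
      rw [Real.logb_mul (by norm_num) (by positivity), Real.logb_self_eq_one one_lt_two,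
        Real.logb_rpow_eq_mul_logb_of_pos (by linarith)]
      nlinarith
    obtain ⟨V, v, h1, h2⟩ := hk0 (2 * (1 + g) ^ ε) hB k (by
      refine le_trans ?_ ((hmono (1 / ε) (by positivity)).trans hk)
      refine mul_le_mul_of_nonneg_left ?_ (by linarith)
      refine Real.rpow_le_rpow ?_ ?_ (by linarith)
      · have : 0 ≤ Real.logb 2 (1 + g) / Real.logb 2 (2 * (1 + g) ^ ε) :=
          div_nonneg hlg (by linarith)
        linarith
      · have h3 : Real.logb 2 (2 * (1 + g) ^ ε) = 1 + ε * Real.logb 2 (1 + g) := by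
          rw [Real.logb_mul (by norm_num) (by positivity), Real.logb_self_eq_one one_lt_two,
            Real.logb_rpow_eq_mul_logb_of_pos (by linarith)]
        have h4 : Real.logb 2 (1 + g) / Real.logb 2 (2 * (1 + g) ^ ε) ≤ 1 / ε := by
          rw [div_le_div_iff₀ (by linarith) hε, h3]
          nlinarith
        linarith)
    refine ⟨V, v, le_trans ?_ h1, h2⟩
    have h5 : (1 + g) ^ (1 + ε) = (1 + g) * (1 + g) ^ ε := by
      rw [Real.rpow_add (by linarith), Real.rpow_one]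
    rw [h5]
    have h6 : C * (2 * (1 + g) ^ ε) * g ≤ 3 * C * ((1 + g) * (1 + g) ^ ε) := by
      have h7 : 0 ≤ C * (1 + g) ^ ε := by positivity
      nlinarith
    linarith

end Pool.Agent.H65.SPD
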