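import Pool.Agent.H65.SPD.Defs
import Pool.Agent.Ldc.S1
set_option autoImplicit false

/-!
# Pass.  PFR: passing to a dense piece inside a subgroup.
-/
namespace Pool.Agent.H65.SPD
open Finset Pool.Agent.Ldc

theorem pass : ∃ C : ℝ, 1 ≤ C ∧ ∀ (G : Type) [AddCommGroup G] [Fintype G],
    (∀ g : G, g + g = 0) → ∀ A AA : Finset G, A.Nonempty → (∀ a ∈ A, ∀ b ∈ A, a + b ∈ AA) →
    ∃ (V : AddSubgroup G) (a : G) (B : Finset V), B.Nonempty ∧ (∀ v ∈ B, (v : G) + a ∈ A) ∧
      Real.log (Nat.card V : ℝ) - Real.log (B.card : ℝ)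
        ≤ C * (Real.log (AA.card : ℝ) - Real.log (A.card : ℝ)) ∧
      Real.log (A.card : ℝ) - C * (Real.log (AA.card : ℝ) - Real.log (A.card : ℝ))
        ≤ Real.log (Nat.card V : ℝ) := by
  classical
  obtain ⟨C, hC, h⟩ := pfr_energy 2 (by norm_num)
  refine ⟨2 * C, by linarith, ?_⟩
  intro G _ _ h2 A AA hA hAA
  have hneg : ∀ g : G, -g = g := fun g => neg_eq_of_add_eq_zero_left (h2 g)
  have hApos : (0 : ℝ) < (A.card : ℝ) := by exact_mod_cast Finset.card_pos.mpr hA
  have hle : A.card ≤ AA.card := by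
    obtain ⟨a0, ha0⟩ := hA
    refine Finset.card_le_card_of_injOn (fun b => a0 + b) (fun b hb => hAA a0 ha0 b hb) ?_
    intro b _ c _ hbc
    exact add_left_cancel hbc
  have hle' : (A.card : ℝ) ≤ (AA.card : ℝ) := by exact_mod_cast hle
  have hAApos : (0 : ℝ) < (AA.card : ℝ) := lt_of_lt_of_le hApos hle'
  obtain ⟨K, hK⟩ : ∃ K : ℝ, K = (AA.card : ℝ) / (A.card : ℝ) := ⟨_, rfl⟩
  have hK1 : 1 ≤ K := by rw [hK, le_div_iff₀ hApos, one_mul]; exact hle'
  have hK0 : 0 < K := by linarith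
  have hfil : ((A ×ˢ A).filter (fun u : G × G => u.1 - u.2 ∈ AA)) = A ×ˢ A := by
    apply Finset.filter_true_of_mem
    intro u hu
    rw [Finset.mem_product] at hu
    rw [sub_eq_add_neg, hneg]
    exact hAA _ hu.1 _ hu.2
  obtain ⟨V, a, T, hTA, hTV, hT1, hV1, hV2⟩ := h G (fun g => by rw [two_nsmul]; exact h2 g) A AA hA
    1 K one_pos le_rfl hK1
    (by
      rw [hfil, Finset.card_product]
      push_cast
      rw [one_mul, pow_two])
    (by rw [hK, div_mul_cancel₀ _ hApos.ne'])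
  have hlogK : Real.log K = Real.log (AA.card : ℝ) - Real.log (A.card : ℝ) := by
    rw [hK, Real.log_div hAApos.ne' hApos.ne']
  have hlogK0 : 0 ≤ Real.log K := Real.log_nonneg hK1
  have hlow : Real.log ((1 / K) ^ C * (A.card : ℝ)) = Real.log (A.card : ℝ) - C * Real.log K := by
    rw [Real.log_mul (by positivity) hApos.ne', Real.log_rpow (by positivity), one_div,
      Real.log_inv]
    ring
  have hup : Real.log ((K / 1) ^ C * (A.card : ℝ)) = Real.log (A.card : ℝ) + C * Real.log K := by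
    rw [div_one, Real.log_mul (by positivity) hApos.ne', Real.log_rpow hK0]
    ring
  have hlpos : (0 : ℝ) < (1 / K) ^ C * (A.card : ℝ) := by positivity
  have hTpos : (0 : ℝ) < (T.card : ℝ) := lt_of_lt_of_le hlpos hT1
  have hVpos : (0 : ℝ) < (Nat.card V : ℝ) := lt_of_lt_of_le hlpos hV1
  obtain ⟨B, hB⟩ : ∃ B : Finset V, B = Finset.univ.filter (fun v : V => (v : G) + a ∈ T) :=
    ⟨_, rfl⟩
  have hBm : ∀ v : V, v ∈ B ↔ (v : G) + a ∈ T := by
    intro v
    rw [hB, Finset.mem_filter]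
    exact ⟨fun h => h.2, fun h => ⟨Finset.mem_univ v, h⟩⟩
  have hBT : B.card = T.card := by
    refine Finset.card_bij (fun v _ => (v : G) + a) (fun v hv => (hBm v).mp hv) ?_ ?_
    · intro v _ w _ hvw
      exact Subtype.ext (add_right_cancel hvw)
    · intro t ht
      exact ⟨⟨t - a, hTV t ht⟩, (hBm _).mpr (by
        show t - a + a ∈ T
        rw [sub_add_cancel]; exact ht), sub_add_cancel t a⟩
  have hl1 := Real.log_le_log hlpos hT1
  have hl2 := Real.log_le_log hlpos hV1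
  have hl3 := Real.log_le_log hVpos hV2
  rw [hlow] at hl1 hl2
  rw [hup] at hl3
  have hCK : 0 ≤ C * Real.log K := by positivity
  refine ⟨V, a, B, ?_, fun v hv => hTA ((hBm v).mp hv), ?_, ?_⟩
  · rw [← Finset.card_pos, hBT]
    exact_mod_cast hTpos
  · rw [hBT, ← hlogK]
    linarith
  · rw [← hlogK]
    linarith

end Pool.Agent.H65.SPD
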