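import Pool.Agent.H65.SPD.GrB
import Pool.Agent.H65.SPD.Pass
set_option autoImplicit false

/-!
# GrC (size 2).  Many summands in terms of the doubling, linear number.

As `GrpD.lean` (theorem `group_dbl`), with `group_lin` in place of `group_k` (exponent 1 instead of `C`).  `pass`: `V, a, B`, `l_B ≤ C₂ g`, `log|V| ≥ log|A| - C₂ g`.
`1 + l_B ≤ C₂ (1+g)`, so `log(1+l_B)/log b ≤ log C₂/log 2 + log(1+g)/log b`.  `C = C₁ (2 + log C₂/log 2) + C₂ + C₁ C₂` is enough:
`C₁ (1 + log(1+l_B)/log b) ≤ C (1 + log(1+g)/log b) ≤ k`; codimension: `log|A| - C₂ g - C₁ b C₂ g ≥ log|A| - C b g` (`b ≥ 2`).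
-/
namespace Pool.Agent.H65.SPD
open Finset Pool.Agent.Ldc

theorem group_lin_dbl : ∃ C : ℝ, 1 ≤ C ∧ ∀ (G : Type) [AddCommGroup G] [Fintype G],
    (∀ g : G, g + g = 0) → ∀ A AA : Finset G, A.Nonempty → (∀ a ∈ A, ∀ b ∈ A, a + b ∈ AA) →
    ∀ b : ℝ, 2 ≤ b → ∀ k : ℕ,
    C * (1 + Real.log (1 + (Real.log (AA.card : ℝ) - Real.log (A.card : ℝ)))
      / Real.log b) ≤ (k : ℝ) →
    ∃ (H : AddSubgroup G) (c : G),
      Real.log (A.card : ℝ) - C * b * (Real.log (AA.card : ℝ) - Real.log (A.card : ℝ))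
        ≤ Real.log (Nat.card H : ℝ) ∧
      ∀ h ∈ H, ∃ f : Fin k → G, (∀ i, f i ∈ A) ∧ ∑ i, f i = c + h := by
  obtain ⟨C₂, hC₂, hpass⟩ := pass
  obtain ⟨C₁, hC₁, hgk⟩ := group_lin
  have hl2 : 0 < Real.log 2 := Real.log_pos (by norm_num)
  set D : ℝ := 1 + Real.log C₂ / Real.log 2 with hD
  have hlC₂ : 0 ≤ Real.log C₂ := Real.log_nonneg hC₂
  have hD1 : 1 ≤ D := by
    rw [hD]
    have : 0 ≤ Real.log C₂ / Real.log 2 := div_nonneg hlC₂ hl2.le
    linarith
  have hC₁0 : 0 ≤ C₁ := by linarith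
  have hC₂0 : 0 ≤ C₂ := by linarith
  have hprod : 0 ≤ C₁ * D := mul_nonneg hC₁0 (by linarith)
  have hprod2 : 0 ≤ C₁ * C₂ := mul_nonneg hC₁0 hC₂0
  refine ⟨C₁ * D + C₁ + C₂ + C₁ * C₂, by linarith, ?_⟩
  set C : ℝ := C₁ * D + C₁ + C₂ + C₁ * C₂ with hC
  intro G _ _ h2 A AA hA hAA b hb k hk
  classical
  obtain ⟨a₀, ha₀⟩ := hA
  have hA' : A.Nonempty := ⟨a₀, ha₀⟩
  have hcard : A.card ≤ AA.card := by
    rw [← Finset.card_image_of_injective A (add_right_injective a₀)]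
    refine Finset.card_le_card ?_
    intro x hx
    obtain ⟨y, hy, rfl⟩ := Finset.mem_image.1 hx
    exact hAA _ ha₀ _ hy
  have hApos : (0 : ℝ) < (A.card : ℝ) := by exact_mod_cast hA'.card_pos
  set g : ℝ := Real.log (AA.card : ℝ) - Real.log (A.card : ℝ) with hg
  have hg0 : 0 ≤ g := by
    have := Real.log_le_log hApos (by exact_mod_cast hcard : (A.card : ℝ) ≤ (AA.card : ℝ))
    rw [hg]; linarith
  obtain ⟨V, a, B, hB, hBA, hVB, hV⟩ := hpass G h2 A AA hA' hAA
  have : Fintype V := Fintype.ofFinite V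
  have hcV : (Nat.card V : ℝ) = (Fintype.card V : ℝ) := by rw [Nat.card_eq_fintype_card]
  rw [hcV] at hVB hV
  rw [← hg] at hVB hV
  have hBpos : (0 : ℝ) < (B.card : ℝ) := by exact_mod_cast hB.card_pos
  set lB : ℝ := Real.log (Fintype.card V : ℝ) - Real.log (B.card : ℝ) with hlB
  have hlB0 : 0 ≤ lB := by
    have := Real.log_le_log hBpos
      (by exact_mod_cast Finset.card_le_univ B : (B.card : ℝ) ≤ (Fintype.card V : ℝ))
    rw [hlB]; linarith
  have hlb : Real.log 2 ≤ Real.log b := Real.log_le_log (by norm_num) hb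
  have hlb0 : 0 < Real.log b := lt_of_lt_of_le hl2 hlb
  have hlg : 0 ≤ Real.log (1 + g) := Real.log_nonneg (by linarith)
  set y : ℝ := Real.log (1 + g) / Real.log b with hy
  have hy0 : 0 ≤ y := div_nonneg hlg hlb0.le
  have h3 : Real.log (1 + lB) ≤ Real.log C₂ + Real.log (1 + g) := by
    rw [← Real.log_mul (by linarith) (by linarith)]
    refine Real.log_le_log (by linarith) ?_
    nlinarith
  have h4 : Real.log (1 + lB) / Real.log b ≤ Real.log C₂ / Real.log 2 + y := by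
    have h5 : Real.log (1 + lB) / Real.log b ≤ (Real.log C₂ + Real.log (1 + g)) / Real.log b :=
      div_le_div_of_nonneg_right h3 hlb0.le
    have h6 : Real.log C₂ / Real.log b ≤ Real.log C₂ / Real.log 2 :=
      div_le_div_of_nonneg_left hlC₂ hl2 hlb
    rw [add_div] at h5
    rw [hy]
    linarith
  have h7 : 1 + Real.log (1 + lB) / Real.log b ≤ D * (1 + y) := by
    have : D * (1 + y) = D + y + (D - 1) * y := by ring
    rw [this]
    have h8 : 0 ≤ (D - 1) * y := mul_nonneg (by linarith) hy0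
    linarith
  have h8 : C₁ * (1 + Real.log (1 + lB) / Real.log b) ≤ (k : ℝ) := by
    refine le_trans ?_ hk
    calc C₁ * (1 + Real.log (1 + lB) / Real.log b) ≤ C₁ * (D * (1 + y)) :=
          mul_le_mul_of_nonneg_left h7 hC₁0
      _ = C₁ * D * (1 + y) := by ring
      _ ≤ C * (1 + y) :=
          mul_le_mul_of_nonneg_right (by rw [hC]; linarith) (by linarith)
  have h2V : ∀ v : V, v + v = 0 := fun v => Subtype.ext (h2 v)
  obtain ⟨H', c', hH', hf⟩ := hgk V h2V B hB b hb k h8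
  rw [← hlB] at hH'
  refine ⟨H'.map V.subtype, (c' : G) + k • a, ?_, ?_⟩
  · have hcH : Nat.card (H'.map V.subtype) = Nat.card H' :=
      (Nat.card_congr (H'.equivMapOfInjective V.subtype V.subtype_injective).toEquiv).symm
    rw [hcH]
    refine le_trans ?_ hH'
    have hb0 : (0 : ℝ) ≤ b := by linarith
    have e1 : C₁ * b * lB ≤ C₁ * b * (C₂ * g) :=
      mul_le_mul_of_nonneg_left hVB (mul_nonneg hC₁0 hb0)
    have e2 : C₂ * g ≤ C₂ * g * b := le_mul_of_one_le_right (mul_nonneg hC₂0 hg0) (by linarith)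
    have e3 : C * b * g = (C₁ * D + C₁) * (b * g) + C₂ * g * b + C₁ * b * (C₂ * g) := by
      rw [hC]; ring
    have e4 : 0 ≤ (C₁ * D + C₁) * (b * g) :=
      mul_nonneg (by linarith) (mul_nonneg hb0 hg0)
    rw [e3]
    linarith
  · intro h hh
    obtain ⟨h', hh', rfl⟩ := AddSubgroup.mem_map.1 hh
    obtain ⟨f, hfB, hfs⟩ := hf h' hh'
    refine ⟨fun i => (f i : G) + a, fun i => hBA _ (hfB i), ?_⟩
    have h9 : ((∑ i, f i : V) : G) = (c' : G) + (h' : G) := by rw [hfs]; rfl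
    rw [AddSubgroup.val_finsetSum] at h9
    rw [Finset.sum_add_distrib, h9, Finset.sum_const, Finset.card_univ, Fintype.card_fin]
    simp only [AddSubgroup.coe_subtype]
    abel

end Pool.Agent.H65.SPD
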