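import Pool.Agent.H65.SPD.GrE
import Pool.Agent.H65.SPD.Pass
set_option autoImplicit false

/-!
# GrF (size 2).  `2k + 2` summands in terms of the doubling.

Same as `EightD.lean` (`group_eight_dbl`), with the exponent `E = 1 + 1/k + ε ≥ 1` in place of `2 - kap/2` and `2(k+1)` in place of 8.
`g = log|AA| - log|A| ≥ 0`.  `pass`: `V, a, B`, `l_B = log|V| - log|B| ≤ C₂ g` (and `0 ≤ l_B`), `log|V| ≥ log|A| - C₂ g`.
`group_even` for the group `V` and the set `B`: `H' ≤ V`, `log|H'| ≥ log|V| - C₁ (1+l_B)^E`, `1 + l_B ≤ C₂ (1+g)`, so `(1+l_B)^E ≤ C₂^E (1+g)^E` and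
`g ≤ (1+g)^E`.  Every `h ∈ H'` is `Σ_{i < 2(k+1)} b_i`, `b_i ∈ B`, hence `Σ (b_i + a)` (`(2(k+1)) • a = 0`).  Map to `G` by `V.subtype`.
-/
namespace Pool.Agent.H65.SPD
open Finset Pool.Agent.Ldc

theorem group_even_dbl (k : ℕ) (hk : 1 ≤ k) {ε : ℝ} (hε : 0 < ε) :
    ∃ C : ℝ, 1 ≤ C ∧ ∀ (G : Type) [AddCommGroup G] [Fintype G],
    (∀ g : G, g + g = 0) → ∀ A AA : Finset G, A.Nonempty → (∀ a ∈ A, ∀ b ∈ A, a + b ∈ AA) →
    ∃ H : AddSubgroup G,
      Real.log (A.card : ℝ)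
          - C * (1 + (Real.log (AA.card : ℝ) - Real.log (A.card : ℝ))) ^ (1 + 1 / (k : ℝ) + ε)
        ≤ Real.log (Nat.card H : ℝ) ∧
      ∀ h ∈ H, ∃ f : Fin (2 * (k + 1)) → G, (∀ i, f i ∈ A) ∧ ∑ i, f i = h := by
  obtain ⟨C₁, hC₁, h8⟩ := group_even k hk hε
  obtain ⟨C₂, hC₂, hpass⟩ := pass
  have hk0 : 0 ≤ 1 / (k : ℝ) := by positivity
  set E : ℝ := 1 + 1 / (k : ℝ) + ε with hE
  have hE1 : 1 ≤ E := by rw [hE]; linarith
  refine ⟨C₂ + C₁ * C₂ ^ E, ?_, ?_⟩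
  · have h1 : 0 < C₂ ^ E := Real.rpow_pos_of_pos (by linarith) _
    have h2 : 0 < C₁ * C₂ ^ E := mul_pos (by linarith) h1
    linarith
  intro G _ _ hG A AA hA hAA
  obtain ⟨V, a, B, hB, hBA, hlB, hlV⟩ := hpass G hG A AA hA hAA
  set g := Real.log (AA.card : ℝ) - Real.log (A.card : ℝ) with hgdef
  have hBpos : (0 : ℝ) < (B.card : ℝ) := by exact_mod_cast hB.card_pos
  have hcard : (Nat.card V : ℝ) = (Fintype.card V : ℝ) := by rw [Nat.card_eq_fintype_card]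
  have hBle : Real.log (B.card : ℝ) ≤ Real.log (Nat.card V : ℝ) := by
    rw [hcard]
    exact Real.log_le_log hBpos (by exact_mod_cast Finset.card_le_univ B)
  have hg0 : 0 ≤ g := by
    have h1 : 0 ≤ C₂ * g := by linarith
    exact nonneg_of_mul_nonneg_right h1 (by linarith)
  have h2V : ∀ v : V, v + v = 0 := by
    intro v
    apply Subtype.ext
    exact hG v
  obtain ⟨H', hH1, hH2⟩ := h8 V h2V B hB
  refine ⟨H'.map V.subtype, ?_, ?_⟩
  · have hcV : Nat.card (H'.map V.subtype) = Nat.card H' :=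
      Nat.card_congr (AddSubgroup.equivMapOfInjective H' V.subtype V.subtype_injective).symm.toEquiv
    rw [hcV]
    set lB := Real.log (Fintype.card V : ℝ) - Real.log (B.card : ℝ) with hlBdef
    have hlB' : lB ≤ C₂ * g := by
      rw [hlBdef, ← hcard]
      exact hlB
    have hlB0 : 0 ≤ lB := by
      rw [hlBdef, ← hcard]
      linarith
    have hexp : 0 ≤ E := by linarith
    have h1 : (1 + lB) ^ E ≤ (C₂ * (1 + g)) ^ E := by
      apply Real.rpow_le_rpow (by linarith) _ hexp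
      nlinarith
    have h2 : (C₂ * (1 + g)) ^ E = C₂ ^ E * (1 + g) ^ E :=
      Real.mul_rpow (by linarith) (by linarith)
    have h3 : g ≤ (1 + g) ^ E := by
      have h4 : (1 + g) ^ (1 : ℝ) ≤ (1 + g) ^ E :=
        Real.rpow_le_rpow_of_exponent_le (by linarith) hE1
      rw [Real.rpow_one] at h4
      linarith
    have h5 : C₁ * (1 + lB) ^ E ≤ C₁ * C₂ ^ E * (1 + g) ^ E := by
      calc C₁ * (1 + lB) ^ E ≤ C₁ * (C₂ ^ E * (1 + g) ^ E) := by
            apply mul_le_mul_of_nonneg_left _ (by linarith)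
            rw [← h2]
            exact h1
        _ = _ := by ring
    have h6 : C₂ * g ≤ C₂ * (1 + g) ^ E := mul_le_mul_of_nonneg_left h3 (by linarith)
    have h7 : (C₂ + C₁ * C₂ ^ E) * (1 + g) ^ E
        = C₂ * (1 + g) ^ E + C₁ * C₂ ^ E * (1 + g) ^ E := by ring
    have h8' : Real.log (Fintype.card V : ℝ) = Real.log (Nat.card V : ℝ) := by rw [hcard]
    rw [h7]
    linarith
  · intro h hh
    obtain ⟨v, hv, rfl⟩ := AddSubgroup.mem_map.1 hh
    obtain ⟨f, hf, hsum⟩ := hH2 v hv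
    refine ⟨fun i => (f i : G) + a, fun i => hBA (f i) (hf i), ?_⟩
    have h1 : ∑ i, ((f i : G) + a) = ∑ i, (f i : G) + (2 * (k + 1)) • a := by
      rw [Finset.sum_add_distrib]
      simp
    have h2 : (2 * (k + 1)) • a = 0 := by
      rw [mul_comm, mul_nsmul, two_nsmul]
      exact hG _
    rw [h1, h2, add_zero, ← hsum]
    simp

end Pool.Agent.H65.SPD
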