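import Pool.Agent.H65.SPD.FinB
import Pool.Agent.H65.SPD.GrF
set_option autoImplicit false

/-!
# FinE (size 2).  `2k + 2` summands in `F_2^n`.

As in `FinC.lean` (theorem `finC`), with `group_even_dbl` in place of `group_eight_dbl` (`C` from it, exponent `E = 1 + 1/k + ε ≥ 1`), `finB_dbl`, `finB_card`,
`finB_sub`.  The same subspace `V` satisfies both bounds: `a ≥ g`, `(1+g)^E ≤ (1+a)^E`, `a ≤ (1+a)^E`.
The final constant is e.g. `3 C` (see `finC`).
-/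
namespace Pool.Agent.H65.SPD
open Finset

theorem finE (k : ℕ) (hk : 1 ≤ k) (ε : ℝ) (hε : 0 < ε) :
    ∃ C : ℝ, 1 ≤ C ∧ ∀ (n : ℕ) (A : Finset (Fin n → ZMod 2)), A.Nonempty →
    ∀ a g : ℝ, a = Real.logb 2 ((2 : ℝ) ^ n / (A.card : ℝ)) →
      g = Real.logb 2 ((((A ×ˢ A).image (fun u => u.1 + u.2)).card : ℝ) / (A.card : ℝ)) →
      ∃ V : Submodule (ZMod 2) (Fin n → ZMod 2),
        (n : ℝ) - a - C * (1 + g) ^ (1 + 1 / (k : ℝ) + ε) ≤ (Module.finrank (ZMod 2) V : ℝ) ∧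
        (n : ℝ) - C * (1 + a) ^ (1 + 1 / (k : ℝ) + ε) ≤ (Module.finrank (ZMod 2) V : ℝ) ∧
        ∀ v ∈ V, ∃ s : Fin (2 * (k + 1)) → (Fin n → ZMod 2), (∀ i, s i ∈ A) ∧ ∑ i, s i = v := by
  obtain ⟨C, hC, hmain⟩ := group_even_dbl k hk hε
  have l2 : 0 < Real.log 2 := Real.log_pos one_lt_two
  have l21 : Real.log 2 ≤ 1 := by have := Real.log_two_lt_d9; linarith
  have hE1 : 1 ≤ 1 + 1 / (k : ℝ) + ε := by
    have : 0 ≤ 1 / (k : ℝ) := by positivity
    linarith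
  set E : ℝ := 1 + 1 / (k : ℝ) + ε with hE
  refine ⟨3 * C, by linarith, fun n A hA a g ha hg => ?_⟩
  obtain ⟨hg0, hga, hgl⟩ := finB_dbl A hA
  rw [← hg] at hg0 hga hgl
  rw [← ha] at hga
  have hcard := finB_card A hA
  rw [← ha] at hcard
  obtain ⟨H, hH, hsum⟩ := hmain (Fin n → ZMod 2)
    (fun x => by funext i; exact CharTwo.add_self_eq_zero (x i)) A
    ((A ×ˢ A).image (fun u => u.1 + u.2)) hA
    (fun x hx y hy => Finset.mem_image.mpr ⟨(x, y), Finset.mem_product.mpr ⟨hx, hy⟩, rfl⟩)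
  obtain ⟨V, hV1, hV2⟩ := finB_sub H
  have hgp : 0 ≤ (1 + g) ^ E := Real.rpow_nonneg (by linarith) _
  have hV3 : (n : ℝ) - a - 2 * C * (1 + g) ^ E ≤ (Module.finrank (ZMod 2) V : ℝ) := by
    rw [hV2, hgl, hcard] at hH
    have h1 : (1 + g * Real.log 2) ^ E ≤ (1 + g) ^ E :=
      Real.rpow_le_rpow (by positivity) (by nlinarith) (by linarith)
    have h2 : (1 : ℝ) / 2 ≤ Real.log 2 := by have := Real.log_two_gt_d9; linarith
    have h : ((n : ℝ) - a - 2 * C * (1 + g) ^ E) * Real.log 2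
        ≤ (Module.finrank (ZMod 2) V : ℝ) * Real.log 2 := by
      have h4 : C * (1 + g * Real.log 2) ^ E ≤ C * (1 + g) ^ E :=
        mul_le_mul_of_nonneg_left h1 (by linarith)
      have h5 : C * (1 + g) ^ E ≤ 2 * C * (1 + g) ^ E * Real.log 2 := by
        have h6 : 0 ≤ C * (1 + g) ^ E := mul_nonneg (by linarith) hgp
        nlinarith
      have h7 : ((n : ℝ) - a - 2 * C * (1 + g) ^ E) * Real.log 2
          = ((n : ℝ) - a) * Real.log 2 - 2 * C * (1 + g) ^ E * Real.log 2 := by ring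
      rw [h7]
      linarith
    exact le_of_mul_le_mul_right h l2
  refine ⟨V, ?_, ?_, fun w hw => hsum w ((hV1 w).mp hw)⟩
  · nlinarith [mul_nonneg (by linarith : (0 : ℝ) ≤ C) hgp]
  · have ha0 : 0 ≤ a := hg0.trans hga
    have h1 : (1 + g) ^ E ≤ (1 + a) ^ E :=
      Real.rpow_le_rpow (by linarith) (by linarith) (by linarith)
    have h2 : a ≤ (1 + a) ^ E := by
      have h3 : (1 + a) ^ (1 : ℝ) ≤ (1 + a) ^ E :=
        Real.rpow_le_rpow_of_exponent_le (by linarith) hE1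
      rw [Real.rpow_one] at h3
      linarith
    have h4 : 2 * C * (1 + g) ^ E ≤ 2 * C * (1 + a) ^ E :=
      mul_le_mul_of_nonneg_left h1 (by linarith)
    have h5 : (1 + a) ^ E ≤ C * (1 + a) ^ E := by
      have : 0 ≤ (1 + a) ^ E := Real.rpow_nonneg (by linarith) _
      nlinarith
    linarith

end Pool.Agent.H65.SPD
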