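import Pool.Agent.H65.SPD.NDefs
import Pool.Agent.H65.SPD.Tls
import Pool.Agent.H65.SPD.Pw
import Pool.Agent.H65.SPD.FMo
set_option autoImplicit false

/-!
# Trv (size 2).  Laws as families; laws modulo a subgroup.

`trv x = pr x (fun g => (g, ()))`: `H (trv x) φ = H x (fun g => φ (g, ()))` (`H_law`), `H (trv x) (·.2) = 0` (`H_const`).
(See the private lemmas of `LawQ.lean`, copy them.)
`Dx_trv`: `H_pp_pr`, `H_ker`, and `ent (cv x y) = H (pp x y) (u.1 + u.2)` (`H_eq_ent`).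
`DM_trv`: `H_pw_pr`, `H_ker` (data in `Fin (n+1) → Unit` are constant).
`quo x K = pr x mk` is the law modulo `K`: `df (quo x K) = dl x K` (`ci_eq`), `dl (quo x K) M = dl x (M.comap (mk' K))` (`ci_comap`, `H_law`,
`H_ker`), `df (cv (quo x K) (quo y K)) = dl (cv x y) K` (`H_pp_pr`; `mk (a + b) = mk a + mk b`).
-/
namespace Pool.Agent.H65.SPD
open Finset Pool.Agent.Ldc
variable {G : Type} [AddCommGroup G] [Fintype G] {x y : G → ℝ}

/-- the law modulo `K` -/
noncomputable def quo (x : G → ℝ) (K : AddSubgroup G) : G ⧸ K → ℝ :=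
  pr x (fun g => (QuotientAddGroup.mk g : G ⧸ K))

theorem trv_isP (hx : IsP x) : IsP (trv x) := by
  exact pr_isP hx _

private theorem Trv_H2 (hx : IsP x) : H (trv x) (fun u => u.2) = 0 := by
  unfold trv
  rw [H_law]
  exact H_const hx _ (fun _ _ => rfl)

theorem Lf_trv (hx : IsP x) : Lf (trv x) = df x := by
  unfold Lf df
  rw [Trv_H2 hx, sub_zero, ent_eq_H]
  congr 1
  unfold trv
  rw [H_law]
  refine H_ker _ _ _ fun ω ω' => ?_
  simp

theorem dK_trv (hx : IsP x) (K : AddSubgroup G) : dK (trv x) K = dl x K := by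
  unfold dK dl
  rw [Trv_H2 hx, sub_zero]
  congr 1
  unfold trv
  rw [H_law]
  refine H_ker _ _ _ fun ω ω' => ?_
  simp

private theorem Trv_cv (x y : G → ℝ) : ent (cv x y) = H (pp x y) (fun u => u.1 + u.2) := by
  unfold cv
  rw [← H_eq_ent]

theorem D2_trv (hx : IsP x) : D2 (trv x) = df (cv x x) := by
  unfold D2 df
  rw [Trv_H2 hx, mul_zero, sub_zero, Trv_cv]
  congr 1
  unfold trv
  rw [H_pp_pr hx hx (fun g => (g, ())) (fun g => (g, ()))
    (fun u : (G × Unit) × (G × Unit) => (u.1.1 + u.2.1, u.1.2, u.2.2))]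
  refine H_ker _ _ _ fun ω ω' => ?_
  simp

theorem Dx_trv (hx : IsP x) (hy : IsP y) : Dx (trv x) (trv y) = df (cv x y) := by
  unfold Dx df
  rw [Trv_H2 hx, Trv_H2 hy, sub_zero, sub_zero, Trv_cv]
  congr 1
  unfold trv
  rw [H_pp_pr hx hy (fun g => (g, ())) (fun g => (g, ()))
    (fun u : (G × Unit) × (G × Unit) => (u.1.1 + u.2.1, u.1.2, u.2.2))]
  refine H_ker _ _ _ fun ω ω' => ?_
  simp

theorem DM_trv (hx : IsP x) (n : ℕ) : DM n (trv x) = Dc n x := by
  unfold DM Dc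
  rw [Trv_H2 hx, mul_zero, sub_zero]
  congr 1
  unfold trv
  rw [H_pw_pr hx (n + 1) (fun g => (g, ()))]
  refine H_ker _ _ _ fun ω ω' => ?_
  simp

theorem quo_isP (hx : IsP x) (K : AddSubgroup G) : IsP (quo x K) := by
  exact pr_isP hx _

theorem df_quo (hx : IsP x) (K : AddSubgroup G) : df (quo x K) = dl x K := by
  unfold df dl
  rw [ci_eq]
  congr 1
  unfold quo
  rw [← H_eq_ent]

theorem dl_quo (hx : IsP x) (K : AddSubgroup G) (M : AddSubgroup (G ⧸ K)) :
    dl (quo x K) M = dl x (M.comap (QuotientAddGroup.mk' K)) := by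
  unfold dl
  rw [← ci_comap]
  congr 1
  unfold quo
  rw [H_law]
  refine H_ker _ _ _ fun ω ω' => ?_
  rw [QuotientAddGroup.eq, QuotientAddGroup.eq, AddSubgroup.mem_comap]
  rfl

theorem df_cv_quo (hx : IsP x) (hy : IsP y) (K : AddSubgroup G) :
    df (cv (quo x K) (quo y K)) = dl (cv x y) K := by
  unfold df dl
  rw [ci_eq]
  congr 1
  unfold cv
  rw [← H_eq_ent, H_law]
  unfold quo
  rw [H_pp_pr hx hy (fun g => (QuotientAddGroup.mk g : G ⧸ K))
    (fun g => (QuotientAddGroup.mk g : G ⧸ K)) (fun u : (G ⧸ K) × (G ⧸ K) => u.1 + u.2)]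
  rfl

end Pool.Agent.H65.SPD
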