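import Pool.Agent.H65.SPD.NDefs
import Pool.Agent.H65.SPD.Dl
import Pool.Agent.H65.SPD.CvL
import Pool.Agent.H65.SPD.FMo
import Pool.Agent.H65.SPD.C1
import Pool.Agent.H65.SPD.Sft1
import Pool.Agent.H65.SPD.Mix
import Pool.Agent.H65.SPD.Trv
set_option autoImplicit false

/-!
# LwQ (size 2).  Spread laws: sum of two copies, and sum of two different laws, modulo every subgroup.

`lw_df`: the hypothesis `Bd q θ` for the family `trv x` (`trv_isP`, `dK_trv`, `D2_trv`, `Lf_trv`).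
`lw_dl`: `lw_df` for the law `quo x K` on `G ⧸ K` (`two_quot`, `quo_isP`, `dl_quo`, `ci_comap`, `df_quo`, `df_cv_quo`).
`lw_mix`: `0 < p ≤ q`, `t = q/(p+q)`, `1 - t = p/(p+q)`, `m = fX t (trv x) (trv y)`.  `dK m K = (q dl x K + p dl y K)/(p+q) ≤ 2pq/(p+q) ci K ≤ 2 p ci K`
(`dK_fX`, `dK_trv`), so `D2 m ≤ θ Lf m = θ (q df x + p df y)/(p+q)` (`hB`, `Lf_fX`).  `Dx_le_fX`, `Dx_trv`: `2pq/(p+q)² df (cv x y) ≤ D2 m`, so
`df (cv x y) ≤ θ (q df x + p df y)(p+q)/(2pq) ≤ θ (q df x + p df y)/p` (`p + q ≤ 2q`).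
`lw_mixK`: `lw_mix` for `quo x K`, `quo y K`.
-/
namespace Pool.Agent.H65.SPD
open Finset Pool.Agent.Ldc
variable {G : Type} [AddCommGroup G] [Fintype G] {x y : G → ℝ}

theorem lw_df {q θ : ℝ} (hB : Bd q θ) (h2 : ∀ g : G, g + g = 0) (hx : IsP x)
    (hs : ∀ K : AddSubgroup G, dl x K ≤ q * ci K) : df (cv x x) ≤ θ * df x := by
  have h := hB G Unit h2 (trv x) (trv_isP hx) (fun K => by rw [dK_trv hx K]; exact hs K)
  rwa [D2_trv hx, Lf_trv hx] at h

private theorem lwq_quo {q : ℝ} (hx : IsP x) (hs : ∀ K : AddSubgroup G, dl x K ≤ q * ci K)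
    (K : AddSubgroup G) (M : AddSubgroup (G ⧸ K)) : dl (quo x K) M ≤ q * ci M := by
  rw [dl_quo hx K M, ci_comap K M]
  exact hs _

theorem lw_dl {q θ : ℝ} (hB : Bd q θ) (h2 : ∀ g : G, g + g = 0) (hx : IsP x)
    (hs : ∀ K : AddSubgroup G, dl x K ≤ q * ci K) (K : AddSubgroup G) :
    dl (cv x x) K ≤ θ * dl x K := by
  have h := lw_df hB (two_quot h2 K) (quo_isP hx K) (lwq_quo hx hs K)
  rwa [df_cv_quo hx hx K, df_quo hx K] at h

theorem lw_mix {p q θ : ℝ} (hp : 0 < p) (hpq : p ≤ q) (hθ : 0 ≤ θ) (hB : Bd (2 * p) θ)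
    (h2 : ∀ g : G, g + g = 0) (hx : IsP x) (hy : IsP y)
    (hsx : ∀ K : AddSubgroup G, dl x K ≤ p * ci K) (hsy : ∀ K : AddSubgroup G, dl y K ≤ q * ci K) :
    df (cv x y) ≤ θ * (q / p * df x + df y) := by
  have hq : 0 < q := lt_of_lt_of_le hp hpq
  have hpq0 : 0 < p + q := by linarith
  obtain ⟨t, ht⟩ : ∃ t : ℝ, t = q / (p + q) := ⟨_, rfl⟩
  have ht0 : 0 < t := by rw [ht]; positivity
  have h1t : 1 - t = p / (p + q) := by rw [ht]; field_simp; ring
  have h1t0 : 0 < 1 - t := by rw [h1t]; positivity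
  have ht1 : t < 1 := by linarith
  have hdx : 0 ≤ df x := by rw [← dl_bot hx]; exact dl_nonneg hx _
  have hdy : 0 ≤ df y := by rw [← dl_bot hy]; exact dl_nonneg hy _
  have hsp : Spread (2 * p) (fX t (trv x) (trv y)) := by
    intro K
    rw [dK_fX ht0 ht1 (trv_isP hx) (trv_isP hy) K, dK_trv hx K, dK_trv hy K]
    have e1 : t * dl x K ≤ t * (p * ci K) := mul_le_mul_of_nonneg_left (hsx K) ht0.le
    have e2 : (1 - t) * dl y K ≤ (1 - t) * (q * ci K) := mul_le_mul_of_nonneg_left (hsy K) h1t0.le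
    have e3 : t * p + (1 - t) * q ≤ 2 * p := by
      have h3 : t * p + (1 - t) * q = 2 * (t * p) := by
        rw [h1t, ht]; field_simp; ring
      rw [h3]
      have h4 : t * p ≤ 1 * p := mul_le_mul_of_nonneg_right ht1.le hp.le
      linarith
    have e4 : (t * p + (1 - t) * q) * ci K ≤ 2 * p * ci K :=
      mul_le_mul_of_nonneg_right e3 (ci_nonneg K)
    have e5 : (t * p + (1 - t) * q) * ci K = t * (p * ci K) + (1 - t) * (q * ci K) := by ring
    linarith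
  have h5 := hB G (Unit ⊕ Unit) h2 (fX t (trv x) (trv y)) (fX_isP ht0 ht1 (trv_isP hx) (trv_isP hy))
    hsp
  rw [Lf_fX ht0 ht1 (trv_isP hx) (trv_isP hy), Lf_trv hx, Lf_trv hy] at h5
  have h6 := Dx_le_fX ht0 ht1 (trv_isP hx) (trv_isP hy)
  rw [Dx_trv hx hy] at h6
  have h7 : 2 * t * (1 - t) * df (cv x y) ≤ θ * (t * df x + (1 - t) * df y) := le_trans h6 h5
  have h8 : 0 < 2 * t * (1 - t) := by positivity
  have h9 : t * df x + (1 - t) * df y ≤ 2 * t * (1 - t) * (q / p * df x + df y) := by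
    have k1 : 2 * (1 - t) * (q / p) = 2 * t := by
      rw [h1t, ht]; field_simp
    have k2 : 1 ≤ 2 * t := by
      rw [ht]
      rw [← mul_div_assoc, le_div_iff₀ hpq0]
      linarith
    have k3 : 2 * t * (1 - t) * (q / p * df x + df y)
        = t * (2 * (1 - t) * (q / p)) * df x + (2 * t) * ((1 - t) * df y) := by ring
    rw [k3, k1]
    have k4 : t * df x ≤ t * (2 * t) * df x := by
      have : t * df x * 1 ≤ t * df x * (2 * t) :=
        mul_le_mul_of_nonneg_left k2 (mul_nonneg ht0.le hdx)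
      linarith
    have k5 : (1 - t) * df y ≤ (2 * t) * ((1 - t) * df y) := by
      have : 1 * ((1 - t) * df y) ≤ (2 * t) * ((1 - t) * df y) :=
        mul_le_mul_of_nonneg_right k2 (mul_nonneg h1t0.le hdy)
      linarith
    linarith
  have h10 : 2 * t * (1 - t) * df (cv x y) ≤ 2 * t * (1 - t) * (θ * (q / p * df x + df y)) := by
    refine le_trans h7 (le_trans (mul_le_mul_of_nonneg_left h9 hθ) (le_of_eq ?_))
    ring
  exact le_of_mul_le_mul_left h10 h8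

theorem lw_mixK {p q θ : ℝ} (hp : 0 < p) (hpq : p ≤ q) (hθ : 0 ≤ θ) (hB : Bd (2 * p) θ)
    (h2 : ∀ g : G, g + g = 0) (hx : IsP x) (hy : IsP y)
    (hsx : ∀ K : AddSubgroup G, dl x K ≤ p * ci K) (hsy : ∀ K : AddSubgroup G, dl y K ≤ q * ci K)
    (K : AddSubgroup G) :
    dl (cv x y) K ≤ θ * (q / p * dl x K + dl y K) := by
  have h := lw_mix hp hpq hθ hB (two_quot h2 K) (quo_isP hx K) (quo_isP hy K) (lwq_quo hx hsx K)
    (lwq_quo hy hsy K)
  rwa [df_cv_quo hx hy K, df_quo hx K, df_quo hy K] at h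

end Pool.Agent.H65.SPD
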