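import Pool.Agent.H65.SPD.NDefs
import Pool.Agent.H65.SPD.Tls
import Pool.Agent.H65.SPD.FamA
import Pool.Agent.H65.SPD.FamB
import Pool.Agent.H65.SPD.FamC
import Pool.Agent.H65.SPD.FU
import Pool.Agent.H65.SPD.BsgA
import Pool.Agent.H65.SPD.DxA
import Pool.Agent.H65.SPD.Clq
set_option autoImplicit false

/-!
# Low (size 3).  Lower bound for `D2(W)`.

`W = fW r`, `P = fU W` on `G × (τ)`, `τ = (G × β × β) × (G × β × β)`: `P` is the law of `(X₁ + X₃ ; w, w')` with `w = (s, Y₁, Y₂)`,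
`w' = (s', Y₃, Y₄)`, `s = X₁ + X₂`, `s' = X₃ + X₄`.  Apply `clique` to `P` with `C d = d.1.1` and
`s d = (d.1.1 + d.2.1, d.1.2, d.2.2)` (`hinj`: `d.2.1 = (d.1.1 + d.2.1) - d.1.1`).
By `H_law` entropies on `P` are entropies on `pp W W` (`H (fU W) φ = H (pp W W) (fun u => φ (u.1.1 + u.2.1, u.1.2, u.2.2))`):
`H P (A, s) = 2 HS r` (`HS_A`), `H P (A + C, s) = 2 HS r` (`HS_B`; `u.1.1 + u.2.1 + u.1.2.1 = u.1.2.1 - u.1.1 + u.2.1` as `g + g = 0`),
`H P (C, s) = 2 HS r` (`HS_s`), `H P s = H (pp W W) (u.1.2.1 + u.2.2.1, u.1.2.2, u.2.2.2) = log|G| - D2 (fU r) + 4 H(Y)` (as in `BsgB.lean`, `u2`, `u1`).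
`HS r = log|G| - D2 r + 2 H(Y)` (definitions), so `2 HS - H P s = log|G| - 2 D2 r + D2 (fU r)`.  `Lf P = Lf (fU W) = D2 W` (`Lf_fU`, `fW_isP`).
`wb P (w,w') = wb W w * wb W w'` (`H_law`-like: `pr_pr`, `wb_pair`), and `xb P (w,w') = cv (xb W w) (xb W w')` if both weights are positive
(`pr_cnd_pair`: `xb P d = pr (cnd P (·.2) d) (·.1)`, `P = pr (pp W W) (..)`; lemma: for `P = pr Q (fun u => (f u, g u))`, `xb P d = pr (cnd Q g d) f`);
otherwise the term vanishes on both sides.  `Fintype.sum_prod_type` for the sum over `τ`.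
Clique: `(n+1) * 2 (2 D2 r - D2 (fU r)) ≤ (2 D2 r - D2 (fU r)) + (n+1) D2 W + Σ`.
-/
namespace Pool.Agent.H65.SPD
open Finset Pool.Agent.Ldc
variable {G β : Type} [AddCommGroup G] [Fintype G] [Fintype β] {r : G × β → ℝ}

/-- if `P` is the law of `(f, g)` on `Q`, then `xb P d` is the law of `f` on `Q` conditioned on `g = d` -/
private theorem Low_xb {A Ω τ : Type} [AddCommGroup A] [Fintype A] [Fintype Ω] [Fintype τ] (Q : Ω → ℝ) (f : Ω → A)
    (g : Ω → τ) (d : τ) :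
    xb (pr Q (fun u => (f u, g u))) d = pr (cnd Q g d) f := by
  classical
  unfold xb
  have h1 : pr (pr Q (fun u => (f u, g u))) (fun u => u.2) d = pr Q g d := by
    rw [pr_pr]
  funext a
  have hL : pr (cnd (pr Q (fun u => (f u, g u))) (fun u => u.2) d) (fun u => u.1) a
      = pr Q (fun u => (f u, g u)) (a, d) / pr Q g d := by
    rw [E7a_pr_cnd, h1]
    congr 1
    rw [pr_pr]
  have hR : pr (cnd Q g d) f a = pr Q (fun u => (f u, g u)) (a, d) / pr Q g d := by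
    rw [E7a_pr_cnd]
  rw [hL, hR]

private theorem Low_wb {γ : Type} [Fintype γ] {p : G × γ → ℝ} (hp : IsP p) (w w' : γ) :
    wb (fU p) (w, w') = wb p w * wb p w' := by
  have h := wb_pair hp hp w w'
  unfold wb at h ⊢
  unfold fU
  rw [pr_pr]
  exact h

private theorem Low_xb2 {γ : Type} [Fintype γ] {p : G × γ → ℝ} (hp : IsP p) (w w' : γ)
    (h : 0 < wb p w) (h' : 0 < wb p w') :
    xb (fU p) (w, w') = cv (xb p w) (xb p w') := by
  have h1 := pr_cnd_pair hp hp w w' h h'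
  rw [← h1]
  unfold fU
  exact Low_xb (pp p p) (fun u => u.1.1 + u.2.1) (fun u => (u.1.2, u.2.2)) (w, w')

private theorem Low_sum {γ : Type} [Fintype γ] {p : G × γ → ℝ} (hp : IsP p) (n : ℕ) :
    ∑ d, wb (fU p) d * Dc n (xb (fU p) d)
      = ∑ w, ∑ w', wb p w * wb p w' * Dc n (cv (xb p w) (xb p w')) := by
  rw [Fintype.sum_prod_type]
  refine Finset.sum_congr rfl fun w _ => Finset.sum_congr rfl fun w' _ => ?_
  rw [Low_wb hp]
  rcases (wb_nonneg hp w).lt_or_eq with hb | hb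
  · rcases (wb_nonneg hp w').lt_or_eq with hb' | hb'
    · rw [Low_xb2 hp w w' hb hb']
    · rw [← hb']; ring
  · rw [← hb]; ring

private theorem Low_s (hr : IsP r) :
    H (pp (fW r) (fW r)) (fun u => (u.1.2.1 + u.2.2.1, u.1.2.2, u.2.2.2))
      = Real.log (Fintype.card G : ℝ) - D2 (fU r) + 4 * H r (fun u => u.2) := by
  have hpp := pp_isP hr hr
  have u1 : H (fU r) (fun u => u.2) = 2 * H r (fun u => u.2) := by
    unfold fU
    rw [H_law]
    have hI := indep_pp hr hr (fun v : G × β => v.2) (fun v : G × β => v.2)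
    have h := H_indep hpp _ _ hI
    rw [H_pp_fst hr (fun v : G × β => v.2), H_pp_snd hr (fun v : G × β => v.2)] at h
    rw [two_mul]
    exact h
  have u2 : H (pp (fU r) (fU r)) (fun u => (u.1.1 + u.2.1, u.1.2, u.2.2))
      = H (pp (fW r) (fW r)) (fun u => (u.1.2.1 + u.2.2.1, u.1.2.2, u.2.2.2)) := by
    unfold fU fW
    rw [H_pp_pr hpp hpp, H_pp_pr hpp hpp]
  have d1 : D2 (fU r) = Real.log (Fintype.card G : ℝ)
      - (H (pp (fU r) (fU r)) (fun u => (u.1.1 + u.2.1, u.1.2, u.2.2))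
        - 2 * H (fU r) (fun u => u.2)) := rfl
  rw [d1, u1, u2]
  ring

theorem low (h2 : ∀ g : G, g + g = 0) (hr : IsP r) (n : ℕ) :
    (2 * (n : ℝ) + 1) * (2 * D2 r - D2 (fU r)) ≤ ((n : ℝ) + 1) * D2 (fW r)
      + ∑ w, ∑ w', wb (fW r) w * wb (fW r) w' * Dc n (cv (xb (fW r) w) (xb (fW r) w')) := by
  have hW := fW_isP hr
  have hP := fU_isP hW
  have hneg : ∀ g : G, -g = g := fun g => neg_eq_of_add_eq_zero_left (h2 g)
  have e1 : ∀ s a b : G, s - a + b = a + b + s := fun s a b => by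
    rw [sub_eq_add_neg, hneg]; abel
  have key := clique h2 hP n (fun d : (G × β × β) × (G × β × β) => d.1.1)
    (fun d => (d.1.1 + d.2.1, d.1.2, d.2.2)) (by
      rintro ⟨⟨a, b⟩, ⟨c, d⟩⟩ ⟨⟨a', b'⟩, ⟨c', d'⟩⟩ h h'
      simp only [Prod.mk.injEq] at h h' ⊢
      obtain ⟨h3, h4, h5⟩ := h'
      subst h
      exact ⟨⟨rfl, h4⟩, add_left_cancel h3, h5⟩)
  rw [Low_sum hW, Lf_fU hW] at key
  -- entropies
  have a1 : H (fU (fW r)) (fun u => (u.1, (u.2.1.1 + u.2.2.1, u.2.1.2, u.2.2.2))) = 2 * HS r := by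
    have h : H (fU (fW r)) (fun u => (u.1, (u.2.1.1 + u.2.2.1, u.2.1.2, u.2.2.2)))
        = H (pp (fW r) (fW r)) (fun u => (u.1.1 + u.2.1, (u.1.2.1 + u.2.2.1, u.1.2.2, u.2.2.2))) := by
      unfold fU
      rw [H_law]
    rw [h, HS_A hr]
  have a2 : H (fU (fW r)) (fun u => (u.1 + u.2.1.1, (u.2.1.1 + u.2.2.1, u.2.1.2, u.2.2.2)))
      = 2 * HS r := by
    have h : H (fU (fW r)) (fun u => (u.1 + u.2.1.1, (u.2.1.1 + u.2.2.1, u.2.1.2, u.2.2.2)))
        = H (pp (fW r) (fW r)) (fun u => (u.1.2.1 - u.1.1 + u.2.1,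
            (u.1.2.1 + u.2.2.1, u.1.2.2, u.2.2.2))) := by
      unfold fU
      rw [H_law]
      congr 1
      funext u
      rw [e1]
    rw [h, HS_B hr]
  have a3 : H (fU (fW r)) (fun u => (u.2.1.1, (u.2.1.1 + u.2.2.1, u.2.1.2, u.2.2.2)))
      = 2 * HS r := by
    have h : H (fU (fW r)) (fun u => (u.2.1.1, (u.2.1.1 + u.2.2.1, u.2.1.2, u.2.2.2)))
        = H (pp (fW r) (fW r)) (fun u => (u.1.2.1, (u.1.2.1 + u.2.2.1, u.1.2.2, u.2.2.2))) := by
      unfold fU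
      rw [H_law]
    rw [h, HS_s hr]
  have a4 : H (fU (fW r)) (fun u => (u.2.1.1 + u.2.2.1, u.2.1.2, u.2.2.2))
      = Real.log (Fintype.card G : ℝ) - D2 (fU r) + 4 * H r (fun u => u.2) := by
    have h : H (fU (fW r)) (fun u => (u.2.1.1 + u.2.2.1, u.2.1.2, u.2.2.2))
        = H (pp (fW r) (fW r)) (fun u => (u.1.2.1 + u.2.2.1, u.1.2.2, u.2.2.2)) := by
      unfold fU
      rw [H_law]
    rw [h, Low_s hr]
  have d3 : HS r = Real.log (Fintype.card G : ℝ) - D2 r + 2 * H r (fun u => u.2) := by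
    have d3' : D2 r = Real.log (Fintype.card G : ℝ) - (HS r - 2 * H r (fun u => u.2)) := rfl
    rw [d3']
    ring
  rw [a1, a2, a3, a4, d3] at key
  linarith

end Pool.Agent.H65.SPD
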