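import Pool.Agent.H65.SPD.NDefs
import Pool.Agent.H65.SPD.FMo
import Pool.Agent.H65.SPD.Sft1
set_option autoImplicit false

/-!
# Sft2 (size 3).  Lemma S: the bound for soft spread families with two cuts.

1. `cut` with `p = λ`: `K₁`, `F₁ = fR r K₁` is `λ`-spread, `λ ci K₁ ≤ dK r K₁ =: d₁`, `(λ-q) d₁ ≤ λ u`, so `d₁ ≤ λ/(λ-q) u`.
   `D2 r ≤ d₁ + D2 F₁` (`D2_cut`), `Lf F₁ = Lf r - d₁ ≤ Lf r` (`Lf_fR`).
   `F₁` is `Soft q u`: `soft_fR` gives `Soft q (q ci K₁ + u - d₁)` and `q ci K₁ ≤ λ ci K₁ ≤ d₁` (`soft_mono`).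
2. `cut` for `F₁` with `p = a q`: `K₂ ≤ K₁`, `F₁^{K₂}` is `a q`-spread, `d₂ = dK F₁ K₂`, `(a q - q) d₂ ≤ a q u`, so `d₂ ≤ a/(a-1) u`.
3. `D2 F₁ ≤ D2 (fM F₁ K₂) + fK F₁ K₂` (`D2_le_fM`).  `fM F₁ K₂` is `λ`-spread (`dK_fM`, `ci_comap`), so
   `D2 (fM F₁ K₂) ≤ θl Lf (fM F₁ K₂) = θl d₂` (`hBl` in the group `K₁ ⧸ K₂`, `two_quot`, `two_sub`, `fM_isP`, `Lf_fM`).
   `fK F₁ K₂ = D2 (fR F₁ K₂) ≤ θa Lf (fR F₁ K₂) = θa (Lf F₁ - d₂) ≤ θa Lf r` (`D2_fR`, `hBa`, `Lf_fR`, `dK_nonneg`).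
Sum: `D2 r ≤ u λ/(λ-q) + θl a/(a-1) u + θa Lf r`  (`0 ≤ u`: `soft_nonneg`).
-/
namespace Pool.Agent.H65.SPD
open Finset Pool.Agent.Ldc
variable {G β : Type} [AddCommGroup G] [Fintype G] [Fintype β] {r : G × β → ℝ}

theorem softS {q u l a θl θa : ℝ} (hq : 0 < q) (hql : q < l) (ha : 1 < a) (hθl : 0 ≤ θl)
    (hθa : 0 ≤ θa) (hBl : Bd l θl) (hBa : Bd (a * q) θa) (h2 : ∀ g : G, g + g = 0)
    (hr : IsP r) (h : Soft q u r) :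
    D2 r ≤ u * (l / (l - q) + θl * (a / (a - 1))) + θa * Lf r := by
  have hl : 0 < l := hq.trans hql
  have ha0 : 0 < a := one_pos.trans ha
  have haq : 0 < a * q := mul_pos ha0 hq
  obtain ⟨K₁, hsp1, hb1, hc1⟩ := cut hq.le hl.le hr h
  have hF1 : IsP (fR r K₁) := fR_isP hr K₁
  have hci : 0 ≤ ci K₁ := ci_nonneg K₁
  have hqc : q * ci K₁ ≤ l * ci K₁ := mul_le_mul_of_nonneg_right hql.le hci
  have hs1 : Soft q u (fR r K₁) := soft_mono (soft_fR hr h K₁) (by linarith)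
  have h2K : ∀ g : K₁, g + g = 0 := two_sub h2 K₁
  obtain ⟨K₂, hsp2, hb2, hc2⟩ := cut hq.le haq.le hF1 hs1
  have hM : IsP (fM (fR r K₁) K₂) := fM_isP hF1 K₂
  have hspM : Spread l (fM (fR r K₁) K₂) := by
    intro N
    rw [dK_fM hF1 K₂ N, ci_comap]
    exact hsp1 _
  have e1 := hBl (K₁ ⧸ K₂) (β × (G ⧸ K₁)) (two_quot h2K K₂) (fM (fR r K₁) K₂) hM hspM
  rw [Lf_fM hF1] at e1
  have e2 := hBa K₂ ((β × (G ⧸ K₁)) × (K₁ ⧸ K₂)) (two_sub h2K K₂) (fR (fR r K₁) K₂)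
    (fR_isP hF1 K₂) hsp2
  rw [D2_fR hF1, Lf_fR hF1, Lf_fR hr] at e2
  have e3 := D2_le_fM hF1 K₂
  have e4 := D2_cut hr K₁
  have n1 : 0 ≤ dK r K₁ := dK_nonneg hr K₁
  have n2 : 0 ≤ dK (fR r K₁) K₂ := dK_nonneg hF1 K₂
  have e5 : θa * (Lf r - dK r K₁ - dK (fR r K₁) K₂) ≤ θa * Lf r :=
    mul_le_mul_of_nonneg_left (by linarith) hθa
  have e6 : dK r K₁ ≤ u * (l / (l - q)) := by
    have h0 : 0 < l - q := sub_pos.2 hql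
    rw [← mul_div_assoc, le_div_iff₀ h0]
    linarith
  have e7 : dK (fR r K₁) K₂ ≤ u * (a / (a - 1)) := by
    have h0 : 0 < a - 1 := sub_pos.2 ha
    rw [← mul_div_assoc, le_div_iff₀ h0]
    have h1 : q * (dK (fR r K₁) K₂ * (a - 1)) ≤ q * (u * a) := by
      calc q * (dK (fR r K₁) K₂ * (a - 1)) = (a * q - q) * dK (fR r K₁) K₂ := by ring
        _ ≤ a * q * u := hc2
        _ = q * (u * a) := by ring
    exact le_of_mul_le_mul_left h1 hq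
  have e8 : θl * dK (fR r K₁) K₂ ≤ θl * (u * (a / (a - 1))) := mul_le_mul_of_nonneg_left e7 hθl
  have e9 : u * (l / (l - q) + θl * (a / (a - 1)))
      = u * (l / (l - q)) + θl * (u * (a / (a - 1))) := by ring
  rw [e9]
  linarith

end Pool.Agent.H65.SPD
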