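import Pool.Agent.H65.SPD.NDefs
import Pool.Agent.H65.SPD.Ci
import Pool.Agent.H65.SPD.FamC
import Pool.Agent.H65.SPD.FW
import Pool.Agent.H65.SPD.FRa
import Pool.Agent.H65.SPD.FRb
import Pool.Agent.H65.SPD.FMo
import Pool.Agent.H65.SPD.Sft1
import Pool.Agent.H65.SPD.Sft2
set_option autoImplicit false

/-!
# StA (size 2).  The family `W` is soft spread, upper bound for `D2(W)`.

`W_soft`: `dK W K = 2 dK r K + fK r K - D2 r` (`dK_fW`).  `fR r K` is `Soft q (q ci K - dK r K)` (`soft_fR`, `soft_of_spread`), so `softS` in the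
group `K` gives `fK r K = D2 (fR r K) ≤ (q ci K - dK r K) R + θa Lf (fR r K)` with `R = l/(l-q) + θl a/(a-1) ≤ 2`, `Lf (fR r K) ≤ Lf r`
(`D2_fR`, `Lf_fR`, `dK_nonneg`); `q ci K - dK r K ≥ 0`.  So `dK W K ≤ 2 q ci K + θa Lf r - D2 r ≤ 2 q ci K + u`.
`W_upper`: `softS` for `W` with `2q` in place of `q` (`a * (2q)`), `Lf W = 2 Lf r - D2 r ≤ 2 Lf r` (`Lf_fW`, `D2_nonneg`).
-/
namespace Pool.Agent.H65.SPD
open Finset Pool.Agent.Ldc
variable {G β : Type} [AddCommGroup G] [Fintype G] [Fintype β] {r : G × β → ℝ}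

theorem W_soft {q u l a θl θa : ℝ} (hq : 0 < q) (hql : q < l) (ha : 1 < a) (hθl : 0 ≤ θl)
    (hθa : 0 ≤ θa) (hBl : Bd l θl) (hBa : Bd (a * q) θa)
    (hR : l / (l - q) + θl * (a / (a - 1)) ≤ 2) (h2 : ∀ g : G, g + g = 0)
    (hr : IsP r) (hs : Spread q r) (hu : θa * Lf r - D2 r ≤ u) : Soft (2 * q) u (fW r) := by
  intro K
  rw [dK_fW hr K]
  have h1 : Soft q (q * ci K + 0 - dK r K) (fR r K) := soft_fR hr (soft_of_spread hs) K
  have h3 := softS hq hql ha hθl hθa hBl hBa (two_sub h2 K) (fR_isP hr K) h1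
  rw [D2_fR hr K, Lf_fR hr K] at h3
  have h4 := dK_nonneg hr K
  have h5 := hs K
  have h6 : (q * ci K + 0 - dK r K) * (l / (l - q) + θl * (a / (a - 1)))
      ≤ (q * ci K + 0 - dK r K) * 2 := mul_le_mul_of_nonneg_left hR (by linarith)
  have h7 : θa * (Lf r - dK r K) ≤ θa * Lf r := mul_le_mul_of_nonneg_left (by linarith) hθa
  linarith

theorem W_upper {q u l a θl θ2 : ℝ} (hq : 0 < q) (hql : 2 * q < l) (ha : 1 < a) (hθl : 0 ≤ θl)
    (hθ2 : 0 ≤ θ2) (hBl : Bd l θl) (hB2 : Bd (a * (2 * q)) θ2) (h2 : ∀ g : G, g + g = 0)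
    (hr : IsP r) (h : Soft (2 * q) u (fW r)) :
    D2 (fW r) ≤ u * (l / (l - 2 * q) + θl * (a / (a - 1))) + θ2 * (2 * Lf r) := by
  have h3 := softS (by linarith : 0 < 2 * q) hql ha hθl hθ2 hBl hB2 h2 (fW_isP hr) h
  have h4 : Lf (fW r) ≤ 2 * Lf r := by
    rw [Lf_fW hr]
    have := D2_nonneg hr
    linarith
  have h5 : θ2 * Lf (fW r) ≤ θ2 * (2 * Lf r) := mul_le_mul_of_nonneg_left h4 hθ2
  linarith

end Pool.Agent.H65.SPD
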