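import Pool.Agent.H65.SPD.NDefs
import Pool.Agent.H65.SPD.DMc1
import Pool.Agent.H65.SPD.Trv
set_option autoImplicit false

/-!
# SpT (size 1).  `Dc n` of a law which is almost spread.

`soft0m` for the family `trv x` (`trv_isP`, `Lf_trv`, `dK_trv`, `DM_trv`): it is `Soft l e`.
-/
namespace Pool.Agent.H65.SPD
open Finset Pool.Agent.Ldc
variable {G : Type} [AddCommGroup G] [Fintype G] {x : G → ℝ}

theorem law_Dc {n : ℕ} {l e θ : ℝ} (hl : 0 < l) (hθ : 0 ≤ θ) (hB : BdM n (2 * l) θ)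
    (h2 : ∀ g : G, g + g = 0) (hx : IsP x) (h : ∀ V : AddSubgroup G, dl x V ≤ l * ci V + e) :
    Dc n x ≤ 2 * (n : ℝ) * e + θ * df x := by
  have h1 := soft0m (n := n) (q := l) (u := e) (θ := θ) (r := trv x) hl hθ hB h2 (trv_isP hx)
    (fun K => by rw [dK_trv hx]; exact h K)
  rwa [DM_trv hx, Lf_trv hx] at h1

end Pool.Agent.H65.SPD
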