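import Pool.Agent.H65.SPD.NDefs
import Pool.Agent.H65.SPD.FamA
import Pool.Agent.H65.SPD.FamB
import Pool.Agent.H65.SPD.FamC
import Pool.Agent.H65.SPD.CvL
import Pool.Agent.H65.SPD.Ext2
import Pool.Agent.H65.SPD.SpT
set_option autoImplicit false

/-!
# TSm (size 3).  The sum over pairs of fibres.

As in `C3.lean`.  For `w` with `wb W w > 0` take `K_w` from `extremal2` for the law `xb W w` (`xb_isP`) and the parameter `l`:
`l ci K_w ≤ df (xb W w)`.  For `w'` with `wb W w' > 0` let `t = cv (xb W w) (xb W w')` (`cv_isP`): for all `V`,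
`dl t V ≤ dl (xb W w') K_w + l ci V`, so `law_Dc` gives `Dc n t ≤ 2 n dl (xb W w') K_w + θ df t`.
Multiply by `wb W w * wb W w'` and sum over `w'` (`dK_avg`): `≤ wb W w (2 n dK W K_w) + θ Σ_{w'} wb wb df t`; `dK W K_w ≤ q ci K_w + u`
`≤ (q/l) df (xb W w) + u`.  Sum over `w` (`Lf_avg`, `wb_sum`, `D2_avg`): `≤ 2 n ((q/l) Lf W + u) + θ D2 W`.
(Terms with weight `0` vanish.)
-/
namespace Pool.Agent.H65.SPD
open Finset Pool.Agent.Ldc
variable {G β : Type} [AddCommGroup G] [Fintype G] [Fintype β] {W : G × β → ℝ}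

theorem sum_Dc {n : ℕ} {q u l θ : ℝ} (hq : 0 ≤ q) (hl : 0 < l) (hθ : 0 ≤ θ)
    (hB : BdM n (2 * l) θ) (h2 : ∀ g : G, g + g = 0) (hW : IsP W) (h : Soft q u W) :
    ∑ w, ∑ w', wb W w * wb W w' * Dc n (cv (xb W w) (xb W w'))
      ≤ 2 * (n : ℝ) * (q / l * Lf W + u) + θ * D2 W := by
  have hch : ∀ w : β, ∃ K : AddSubgroup G, 0 < wb W w → (l * ci K ≤ df (xb W w) ∧
      ∀ y : G → ℝ, IsP y → ∀ V : AddSubgroup G, dl (cv (xb W w) y) V ≤ dl y K + l * ci V) := by
    intro w
    by_cases hw : 0 < wb W w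
    · obtain ⟨K, hK1, hK2⟩ := extremal2 hl (xb_isP hW w hw)
      exact ⟨K, fun _ => ⟨hK1, hK2⟩⟩
    · exact ⟨⊥, fun h => absurd h hw⟩
  choose K hK using hch
  have h1 : ∀ w, ∑ w', wb W w * wb W w' * Dc n (cv (xb W w) (xb W w')) ≤
      wb W w * (2 * (n : ℝ) * dK W (K w)) +
        θ * ∑ w', wb W w * wb W w' * df (cv (xb W w) (xb W w')) := by
    intro w
    rcases (wb_nonneg hW w).eq_or_lt with hw | hw
    · rw [← hw]
      simp
    · rw [dK_avg hW (K w), Finset.mul_sum, Finset.mul_sum, Finset.mul_sum, ← Finset.sum_add_distrib]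
      refine Finset.sum_le_sum fun w' _ => ?_
      rcases (wb_nonneg hW w').eq_or_lt with hw' | hw'
      · rw [← hw']
        simp
      · have hx := xb_isP hW w hw
        have hy := xb_isP hW w' hw'
        have h3 : Dc n (cv (xb W w) (xb W w')) ≤ 2 * (n : ℝ) * dl (xb W w') (K w)
            + θ * df (cv (xb W w) (xb W w')) := by
          refine law_Dc hl hθ hB h2 (cv_isP hx hy) ?_
          intro V
          have := (hK w hw).2 (xb W w') hy V
          linarith
        have h4 := mul_le_mul_of_nonneg_left h3 (mul_nonneg hw.le hw'.le)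
        calc wb W w * wb W w' * Dc n (cv (xb W w) (xb W w'))
            ≤ wb W w * wb W w' * (2 * (n : ℝ) * dl (xb W w') (K w)
              + θ * df (cv (xb W w) (xb W w'))) := h4
          _ = _ := by ring
  have h2' : ∀ w, wb W w * (2 * (n : ℝ) * dK W (K w)) ≤
      wb W w * (2 * (n : ℝ) * (q / l * df (xb W w) + u)) := by
    intro w
    rcases (wb_nonneg hW w).eq_or_lt with hw | hw
    · rw [← hw]
      simp
    · refine mul_le_mul_of_nonneg_left ?_ hw.le
      refine mul_le_mul_of_nonneg_left ?_ (by positivity)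
      have h3 := h (K w)
      have h4 := (hK w hw).1
      have h5 : q * ci (K w) ≤ q / l * df (xb W w) := by
        calc q * ci (K w) = q / l * (l * ci (K w)) := by field_simp
          _ ≤ q / l * df (xb W w) := mul_le_mul_of_nonneg_left h4 (by positivity)
      linarith
  have h6 : ∑ w, ∑ w', wb W w * wb W w' * Dc n (cv (xb W w) (xb W w')) ≤
      ∑ w, wb W w * (2 * (n : ℝ) * dK W (K w)) + θ * D2 W := by
    rw [D2_avg hW, Finset.mul_sum, ← Finset.sum_add_distrib]
    exact Finset.sum_le_sum fun w _ => h1 w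
  have h7 : ∑ w, wb W w * (2 * (n : ℝ) * dK W (K w)) ≤ 2 * (n : ℝ) * (q / l * Lf W + u) := by
    refine (Finset.sum_le_sum fun w _ => h2' w).trans (le_of_eq ?_)
    calc ∑ w, wb W w * (2 * (n : ℝ) * (q / l * df (xb W w) + u))
        = ∑ w, (2 * (n : ℝ) * (q / l) * (wb W w * df (xb W w)) + wb W w * (2 * (n : ℝ) * u)) :=
          Finset.sum_congr rfl fun w _ => by ring
      _ = 2 * (n : ℝ) * (q / l * Lf W + u) := by
          rw [Finset.sum_add_distrib, ← Finset.mul_sum, ← Lf_avg hW, ← Finset.sum_mul,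
            wb_sum hW, one_mul]
          ring
  linarith

end Pool.Agent.H65.SPD
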