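import Pool.Agent.H65.SPD.NDefs
import Pool.Agent.H65.SPD.Ci
import Pool.Agent.H65.SPD.FamC
import Pool.Agent.H65.SPD.FU
import Pool.Agent.H65.SPD.FW
import Pool.Agent.H65.SPD.C1
import Pool.Agent.H65.SPD.C5
import Pool.Agent.H65.SPD.Sft1
import Pool.Agent.H65.SPD.Low
import Pool.Agent.H65.SPD.TSm
import Pool.Agent.H65.SPD.StA
set_option autoImplicit false

/-!
# StB (size 3).  The step.

Let `r` be `q`-spread, `L = Lf r ≥ 0`, `D = D2 r`, `T = Θ q^κ`, and suppose `T L < D` (so `D > 0`).  `a = 1 + ν`, `u = ν D`, `θl = l^kap`.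
0. `a^κ ≤ a = 1 + ν` (`0 ≤ κ ≤ 1`), `2^κ ≤ 2`, `2^(κ+1) = 2 * 2^κ ≤ 4`.  `a/(a-1) = (1+ν)/ν ≤ 2/ν` (`ν ≤ 1`), so `θl a/(a-1) ≤ ν/2` by `hl2`.
   `l/(l-2q) ≤ 1 + ν/2` and `l/(l-q) ≤ l/(l-2q)`: `q ≤ l ν/8` (so `2q < l`).  So both `R ≤ 1 + ν ≤ 2`.
   `Bd l (l^kap)`: `thmA_real`.  `q ≤ l ≤ q0 < 1`; `a q ≤ 2 q ≤ 1`, `2 a q ≤ 4 q ≤ 1` (`q ≤ l ν / 8 ≤ 1/8`).
1. `hyp` at `a q`: `Bd (a q) (Θ (a q)^κ)`, `Θ (a q)^κ = a^κ T ≤ (1+ν) T`; so with `θa = Θ (a q)^κ`: `θa L - D ≤ (1+ν) T L - D ≤ ν D = u`.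
   `W_soft`: `Soft (2q) u W`.
2. `hyp` at `2 a q` (`a * (2 * q)`): `θ2 = Θ (2 a q)^κ = 2^κ a^κ T ≤ 2^κ (1+ν) T`; `W_upper`: `D2 W ≤ ν D (1+ν) + 2 * 2^κ (1+ν) T L`
   `≤ ν D (1 + ν) + 2^(κ+1) (1+ν) D ≤ (2^(κ+1) + 6 ν) D ≤ 10 D`.
3. `fU r` is `q`-spread (`dK_fU_le`), `Lf (fU r) = D` (`Lf_fU`), `Bd q (q^kap)` (`thmA_real`, `q ≤ l ≤ q0`), `q^kap ≤ l^kap ≤ ν` (from `hl2`:
   `l^kap * (2/ν) ≤ ν/2`, so `l^kap ≤ ν²/4 ≤ ν`): `D2 (fU r) ≤ ν D`.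
4. `sum_Dc` for `W` with `q := 2q`, `l := l'`, `θ := ν`: `Σ ≤ 2n ((2q/l') Lf W + ν D) + ν D2 W`, `Lf W ≤ 2 L` (`Lf_fW`), and
   `q L ≤ q^κ L` (`κ ≤ 1`, `q ≤ 1`) `= T L/Θ < D/Θ`, so `(2q/l') * 2 L ≤ 4 D/(l' Θ) ≤ ν D` by `hΘ`.  So `Σ ≤ 2n (2 ν D) + 10 ν D = (4n + 10) ν D`.
5. `low`: `(2n+1)(2 - ν) D ≤ (n+1)(2^(κ+1) + 6ν) D + (4n+10) ν D`, i.e. `4n + 2 - (n+1) 2^(κ+1) ≤ ν (12 n + 17)` (divide by `D > 0`),
   contradiction to `hγ`.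
-/
namespace Pool.Agent.H65.SPD
open Finset Pool.Agent.Ldc

theorem stepK {n : ℕ} {κ ν l l' q Θ : ℝ} (hκ0 : 0 ≤ κ) (hκ1 : κ ≤ 1) (hν0 : 0 < ν) (hν1 : ν ≤ 1)
    (hγ : ν * (12 * (n : ℝ) + 17) < 4 * (n : ℝ) + 2 - ((n : ℝ) + 1) * 2 ^ (κ + 1))
    (hl0 : 0 < l) (hl1 : l ≤ q0) (hl2 : l ^ kap * (2 / ν) ≤ ν / 2)
    (hl' : 0 < l') (hBM : BdM n (2 * l') ν)
    (hq0 : 0 < q) (hq1 : q ≤ l * ν / 8) (hΘ : 4 / (l' * ν) ≤ Θ)
    (hyp : ∀ q' : ℝ, (1 + ν) * q ≤ q' → q' ≤ 1 → Bd q' (Θ * q' ^ κ)) :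
    Bd q (Θ * q ^ κ) := by
  intro G β _ _ _ h2 r hr hs
  by_contra hcon
  have hcon' : Θ * q ^ κ * Lf r < D2 r := not_le.mp hcon
  have hL : 0 ≤ Lf r := Lf_nonneg hr
  have hΘ0 : 0 < Θ := lt_of_lt_of_le (div_pos (by norm_num) (mul_pos hl' hν0)) hΘ
  have hqk : 0 < q ^ κ := Real.rpow_pos_of_pos hq0 κ
  set L : ℝ := Lf r with hLdef
  set D : ℝ := D2 r with hDdef
  set T : ℝ := Θ * q ^ κ with hTdef
  have hT : 0 < T := mul_pos hΘ0 hqk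
  have hTL : 0 ≤ T * L := mul_nonneg hT.le hL
  have hD : 0 < D := lt_of_le_of_lt hTL hcon'
  have hl1' : l < 1 := lt_of_le_of_lt hl1 q0_lt
  have hlν : l * ν ≤ l := by nlinarith
  have hqle : q ≤ 1 / 8 := by linarith
  have hql : 2 * q < l := by linarith
  have hql' : q < l := by linarith
  have hkl : 0 ≤ l ^ kap := (Real.rpow_pos_of_pos hl0 kap).le
  have hν' : (0 : ℝ) ≤ ν := hν0.le
  -- the two factors R
  have hfr : l ^ kap * ((1 + ν) / ((1 + ν) - 1)) ≤ ν / 2 := by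
    refine (mul_le_mul_of_nonneg_left ?_ hkl).trans hl2
    rw [show (1 + ν) - 1 = ν by ring]
    exact div_le_div_of_nonneg_right (by linarith) hν'
  have hR0 : l / (l - q) ≤ 1 + ν / 2 := by
    rw [div_le_iff₀ (by linarith)]
    have h1 : q * (1 + ν / 2) ≤ l * ν / 8 * (1 + ν / 2) :=
      mul_le_mul_of_nonneg_right hq1 (by linarith)
    have h3 : 0 < l * ν := mul_pos hl0 hν0
    have h4 : l * ν * ν ≤ l * ν * 1 := mul_le_mul_of_nonneg_left hν1 h3.le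
    nlinarith
  have hR00 : l / (l - 2 * q) ≤ 1 + ν / 2 := by
    rw [div_le_iff₀ (by linarith)]
    have h1 : q * (1 + ν / 2) ≤ l * ν / 8 * (1 + ν / 2) :=
      mul_le_mul_of_nonneg_right hq1 (by linarith)
    have h3 : 0 < l * ν := mul_pos hl0 hν0
    have h4 : l * ν * ν ≤ l * ν * 1 := mul_le_mul_of_nonneg_left hν1 h3.le
    nlinarith
  have hR1 : l / (l - q) + l ^ kap * ((1 + ν) / ((1 + ν) - 1)) ≤ 1 + ν := by linarith
  have hR2 : l / (l - 2 * q) + l ^ kap * ((1 + ν) / ((1 + ν) - 1)) ≤ 1 + ν := by linarith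
  have hBl : Bd l (l ^ kap) := thmA_real hl0 hl1
  have ha : (1 : ℝ) < 1 + ν := by linarith
  have haq0 : 0 < (1 + ν) * q := mul_pos (by linarith) hq0
  have hνq : ν * q ≤ 1 * q := mul_le_mul_of_nonneg_right hν1 hq0.le
  have haq1 : (1 + ν) * q ≤ 1 := by linarith
  have haq2 : (1 + ν) * (2 * q) ≤ 1 := by linarith
  have hak : (1 + ν) ^ κ ≤ 1 + ν := by
    have := Real.rpow_le_rpow_of_exponent_le ha.le hκ1
    rwa [Real.rpow_one] at this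
  have hak0 : 0 ≤ (1 + ν) ^ κ := (Real.rpow_pos_of_pos (by linarith) κ).le
  have hBa : Bd ((1 + ν) * q) (Θ * ((1 + ν) * q) ^ κ) := hyp _ le_rfl haq1
  have hB2 : Bd ((1 + ν) * (2 * q)) (Θ * ((1 + ν) * (2 * q)) ^ κ) :=
    hyp _ (mul_le_mul_of_nonneg_left (by linarith) (by linarith)) haq2
  have hθa0 : 0 ≤ Θ * ((1 + ν) * q) ^ κ :=
    mul_nonneg hΘ0.le (Real.rpow_nonneg haq0.le κ)
  have hθ20 : 0 ≤ Θ * ((1 + ν) * (2 * q)) ^ κ :=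
    mul_nonneg hΘ0.le (Real.rpow_nonneg (mul_nonneg (by linarith) (by linarith)) κ)
  have hθa : Θ * ((1 + ν) * q) ^ κ = (1 + ν) ^ κ * T := by
    rw [Real.mul_rpow (by linarith) hq0.le, hTdef]; ring
  have hθ2 : Θ * ((1 + ν) * (2 * q)) ^ κ = 2 ^ κ * ((1 + ν) ^ κ * T) := by
    rw [Real.mul_rpow (by linarith) (by linarith), Real.mul_rpow (by norm_num) hq0.le, hTdef]; ring
  set p : ℝ := 2 ^ (κ + 1) with hp
  have hp2 : p = 2 * 2 ^ κ := by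
    rw [hp, Real.rpow_add (by norm_num), Real.rpow_one]; ring
  have h2k : (0 : ℝ) ≤ 2 ^ κ := (Real.rpow_pos_of_pos (by norm_num) κ).le
  have h2k2 : (2 : ℝ) ^ κ ≤ 2 := by
    have := Real.rpow_le_rpow_of_exponent_le (by norm_num : (1 : ℝ) ≤ 2) hκ1
    rwa [Real.rpow_one] at this
  have hp4 : p ≤ 4 := by rw [hp2]; linarith
  have hp0 : 0 ≤ p := by rw [hp2]; linarith
  have haTL : (1 + ν) ^ κ * T * L ≤ (1 + ν) * D := by
    have h1 : (1 + ν) ^ κ * (T * L) ≤ (1 + ν) * (T * L) := mul_le_mul_of_nonneg_right hak hTL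
    have h2 : (1 + ν) * (T * L) ≤ (1 + ν) * D := mul_le_mul_of_nonneg_left hcon'.le (by linarith)
    calc (1 + ν) ^ κ * T * L = (1 + ν) ^ κ * (T * L) := by ring
      _ ≤ _ := h1.trans h2
  -- step 1
  have hsoft : Soft (2 * q) (ν * D) (fW r) := by
    refine W_soft hq0 hql' ha hkl hθa0 hBl hBa (by linarith) h2 hr hs ?_
    rw [← hLdef, ← hDdef, hθa]
    linarith
  -- step 2
  have hup : D2 (fW r) ≤ (p + 6 * ν) * D := by
    have h1 := W_upper hq0 hql ha hkl hθ20 hBl hB2 h2 hr hsoft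
    rw [← hLdef, hθ2] at h1
    have h3 : ν * D * (l / (l - 2 * q) + l ^ kap * ((1 + ν) / ((1 + ν) - 1)))
        ≤ ν * D * (1 + ν) := mul_le_mul_of_nonneg_left hR2 (mul_nonneg hν' hD.le)
    have h4 : 2 ^ κ * ((1 + ν) ^ κ * T) * (2 * L) ≤ p * ((1 + ν) * D) := by
      have h5 : 2 ^ κ * ((1 + ν) ^ κ * T) * (2 * L) = p * ((1 + ν) ^ κ * T * L) := by
        rw [hp2]; ring
      rw [h5]
      exact mul_le_mul_of_nonneg_left haTL hp0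
    have h6 : ν * D * (1 + ν) ≤ ν * D * 2 :=
      mul_le_mul_of_nonneg_left (by linarith) (mul_nonneg hν' hD.le)
    have h7 : p * (ν * D) ≤ 4 * (ν * D) :=
      mul_le_mul_of_nonneg_right hp4 (mul_nonneg hν' hD.le)
    have h8 : p * ((1 + ν) * D) = p * D + p * (ν * D) := by ring
    have h9 : (p + 6 * ν) * D = p * D + 4 * (ν * D) + ν * D * 2 := by ring
    rw [h9]
    linarith
  -- step 3
  have hlk : l ^ kap ≤ ν := by
    have h1 : l ^ kap * (2 / ν) * (ν / 2) ≤ ν / 2 * (ν / 2) :=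
      mul_le_mul_of_nonneg_right hl2 (by linarith)
    have h3 : l ^ kap * (2 / ν) * (ν / 2) = l ^ kap := by field_simp
    rw [h3] at h1
    nlinarith
  have hqk2 : q ^ kap ≤ ν :=
    (Real.rpow_le_rpow hq0.le hql'.le kap_pos.le).trans hlk
  have hU : D2 (fU r) ≤ ν * D := by
    have h1 := thmA_real hq0 (hql'.le.trans hl1) G (β × β) h2 (fU r) (fU_isP hr)
      (fun K => (dK_fU_le hr K).trans (hs K))
    rw [Lf_fU hr] at h1
    exact h1.trans (mul_le_mul_of_nonneg_right hqk2 hD.le)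
  -- step 4
  have hsum := sum_Dc (W := fW r) (by linarith : (0 : ℝ) ≤ 2 * q) hl' hν' hBM h2 (fW_isP hr) hsoft
  have hLW : 2 * q / l' * Lf (fW r) ≤ ν * D := by
    have h1 : Lf (fW r) ≤ 2 * L := by
      rw [Lf_fW hr, ← hLdef, ← hDdef]; linarith
    have h3 : 2 * q / l' * Lf (fW r) ≤ 2 * q / l' * (2 * L) :=
      mul_le_mul_of_nonneg_left h1 (div_nonneg (by linarith) hl'.le)
    have h4 : q ≤ q ^ κ := by
      have := Real.rpow_le_rpow_of_exponent_ge hq0 (by linarith : q ≤ 1) hκ1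
      rwa [Real.rpow_one] at this
    have h5 : 4 / l' ≤ ν * Θ := by
      have h6 : 4 / (l' * ν) * ν ≤ Θ * ν := mul_le_mul_of_nonneg_right hΘ hν'
      have h7 : 4 / (l' * ν) * ν = 4 / l' := by field_simp
      rw [h7] at h6
      linarith
    have h8 : 4 / l' * (q * L) ≤ ν * Θ * (q ^ κ * L) :=
      mul_le_mul h5 (mul_le_mul_of_nonneg_right h4 hL) (mul_nonneg hq0.le hL)
        (mul_nonneg hν' hΘ0.le)
    have h9 : 2 * q / l' * (2 * L) = 4 / l' * (q * L) := by ring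
    have h10 : ν * Θ * (q ^ κ * L) = ν * (T * L) := by rw [hTdef]; ring
    have h11 : ν * (T * L) ≤ ν * D := mul_le_mul_of_nonneg_left hcon'.le hν'
    linarith
  have hn : (0 : ℝ) ≤ n := Nat.cast_nonneg n
  have hνD : 0 ≤ ν * D := mul_nonneg hν' hD.le
  have hsum2 : ∑ w, ∑ w', wb (fW r) w * wb (fW r) w' * Dc n (cv (xb (fW r) w) (xb (fW r) w'))
      ≤ (4 * (n : ℝ) + 10) * (ν * D) := by
    refine hsum.trans ?_
    have h1 : 2 * (n : ℝ) * (2 * q / l' * Lf (fW r) + ν * D) ≤ 2 * (n : ℝ) * (2 * (ν * D)) :=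
      mul_le_mul_of_nonneg_left (by linarith) (by linarith)
    have h3 : ν * D2 (fW r) ≤ ν * ((p + 6 * ν) * D) := mul_le_mul_of_nonneg_left hup hν'
    have h4 : (p + 6 * ν) * (ν * D) ≤ 10 * (ν * D) := mul_le_mul_of_nonneg_right (by linarith) hνD
    have h5 : ν * ((p + 6 * ν) * D) = (p + 6 * ν) * (ν * D) := by ring
    have h6 : (4 * (n : ℝ) + 10) * (ν * D) = 2 * (n : ℝ) * (2 * (ν * D)) + 10 * (ν * D) := by ring
    rw [h6]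
    linarith
  -- step 5
  have hlow := low h2 hr n
  rw [← hDdef] at hlow
  have h1 : (2 * (n : ℝ) + 1) * (2 * D - ν * D) ≤ (2 * (n : ℝ) + 1) * (2 * D - D2 (fU r)) :=
    mul_le_mul_of_nonneg_left (by linarith) (by linarith)
  have h3 : ((n : ℝ) + 1) * D2 (fW r) ≤ ((n : ℝ) + 1) * ((p + 6 * ν) * D) :=
    mul_le_mul_of_nonneg_left hup (by linarith)
  have h4 : (2 * (n : ℝ) + 1) * (2 * D - ν * D)
      ≤ ((n : ℝ) + 1) * ((p + 6 * ν) * D) + (4 * (n : ℝ) + 10) * (ν * D) := by linarith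
  have h5 : (4 * (n : ℝ) + 2 - ((n : ℝ) + 1) * p - ν * (12 * (n : ℝ) + 17)) * D ≤ 0 := by
    have : (4 * (n : ℝ) + 2 - ((n : ℝ) + 1) * p - ν * (12 * (n : ℝ) + 17)) * D
        = (2 * (n : ℝ) + 1) * (2 * D - ν * D)
          - (((n : ℝ) + 1) * ((p + 6 * ν) * D) + (4 * (n : ℝ) + 10) * (ν * D)) := by ring
    rw [this]
    linarith
  have h6 : 0 < (4 * (n : ℝ) + 2 - ((n : ℝ) + 1) * p - ν * (12 * (n : ℝ) + 17)) * D :=
    mul_pos (by linarith) hD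
  linarith

end Pool.Agent.H65.SPD
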