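import Pool.Agent.H65.SPD.NDefs
import Pool.Agent.H65.SPD.FamC
import Pool.Agent.H65.SPD.C1
import Pool.Agent.H65.SPD.Sft1
set_option autoImplicit false

/-!
# StC (size 2).  Numbers for the step; induction on scales.

`gam`: with `L = log 2 ∈ (0.69, 0.7)`: `2^(2 - 1/n) = 4 exp(-L/n)` and `exp(-x) ≤ 1 - x + x²/2` for `x ≥ 0` (e.g. `Real.exp_bound'`, or from
`Real.add_one_le_exp`/`Real.quadratic_le_exp_of_nonneg`: `exp x ≥ 1 + x + x²/2`, so `exp(-x) ≤ 1/(1 + x + x²/2) ≤ 1 - x + x²/2`).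
So `(n+1) 4 exp(-L/n) ≤ 4(n+1)(1 - L/n + L²/(2n²)) ≤ 4n + 4 - 4L - 4L(1-L)/n ≤ 4n + 4 - 4L` (`(n+1)/n² ≤ 2/n`), so the right side of the
claim is at least `4L - 2 ≥ 0.76`; the left side is `(12 n + 17)/(50 n) ≤ 29/50`.
`scale`: let `a = 1 + ν`.  Claim for all `j`: for all `q` with `q1 / a^j ≤ q ≤ 1`: `Bd q (Θ q^κ)`.  `j = 0`: `q ≥ q1`, `Θ q^κ ≥ Θ q1^κ ≥ 1`
(`0 ≤ κ`), and `D2 ≤ Lf` (`D2_le_Lf`, `Lf_nonneg`).  `j → j+1`: if `q < q1 / a^j` then `q ≤ q1` and for `q' ≥ a q ≥ q1 / a^j` the claim `j` holds,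
so `hstep`.  Finally for `q > 0` there is `j` with `q1 / a^j ≤ q` (`a > 1`: `pow_unbounded_of_one_lt`).
-/
namespace Pool.Agent.H65.SPD
open Finset Pool.Agent.Ldc

private theorem stc_exp_neg {x : ℝ} (hx : 0 ≤ x) : Real.exp (-x) ≤ 1 - x + x ^ 2 / 2 := by
  have h1 := Real.quadratic_le_exp_of_nonneg hx
  have hpos : 0 < 1 + x + x ^ 2 / 2 := by positivity
  have h2 : Real.exp (-x) ≤ 1 / (1 + x + x ^ 2 / 2) := by
    rw [Real.exp_neg, ← one_div]
    exact one_div_le_one_div_of_le hpos h1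
  refine h2.trans ?_
  rw [div_le_iff₀ hpos]
  nlinarith [sq_nonneg (x ^ 2), pow_nonneg hx 4]

theorem gam (n : ℕ) (hn : 1 ≤ n) :
    1 / (50 * (n : ℝ)) * (12 * (n : ℝ) + 17)
      < 4 * (n : ℝ) + 2 - ((n : ℝ) + 1) * 2 ^ ((1 - 1 / (n : ℝ)) + 1) := by
  have hm : (1 : ℝ) ≤ (n : ℝ) := by exact_mod_cast hn
  generalize (n : ℝ) = m at hm
  have hm0 : 0 < m := by linarith
  have hL1 := Real.log_two_gt_d9
  have hL2 := Real.log_two_lt_d9
  set L := Real.log 2 with hL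
  have hpow : (2 : ℝ) ^ ((1 - 1 / m) + 1) = 4 * Real.exp (-(L / m)) := by
    rw [Real.rpow_def_of_pos (by norm_num : (0 : ℝ) < 2), ← hL]
    have e1 : L * (1 - 1 / m + 1) = L + L + -(L / m) := by field_simp; ring
    rw [e1, Real.exp_add, Real.exp_add, hL, Real.exp_log (by norm_num)]
    norm_num
  rw [hpow]
  have hx : 0 ≤ L / m := by positivity
  have h1 := stc_exp_neg hx
  have h2 : (m + 1) * Real.exp (-(L / m)) ≤ m + 1 - L := by
    have h3 : (m + 1) * Real.exp (-(L / m)) ≤ (m + 1) * (1 - L / m + (L / m) ^ 2 / 2) :=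
      mul_le_mul_of_nonneg_left h1 (by linarith)
    refine h3.trans ?_
    have h4 : (m + 1) * (1 - L / m + (L / m) ^ 2 / 2)
        = m + 1 - L - (L / m) * (1 - L * ((m + 1) / (2 * m))) := by
      field_simp
      ring
    rw [h4]
    have h5 : (m + 1) / (2 * m) ≤ 1 := by
      rw [div_le_one (by positivity)]
      linarith
    have h5' : 0 ≤ (m + 1) / (2 * m) := by positivity
    have h6 : L * ((m + 1) / (2 * m)) ≤ 1 := by
      calc L * ((m + 1) / (2 * m)) ≤ 1 * 1 :=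
            mul_le_mul (by linarith) h5 h5' (by norm_num)
        _ = 1 := by norm_num
    have h7 : 0 ≤ (L / m) * (1 - L * ((m + 1) / (2 * m))) :=
      mul_nonneg hx (by linarith)
    linarith
  have h8 : 1 / (50 * m) * (12 * m + 17) ≤ 29 / 50 := by
    rw [one_div, inv_mul_le_iff₀ (by positivity)]
    nlinarith
  nlinarith [h2, h8]

theorem scale {κ ν Θ q1 : ℝ} (hκ0 : 0 ≤ κ) (hν : 0 < ν) (hq1 : 0 < q1)
    (hΘ : 1 ≤ Θ * q1 ^ κ) (hΘ0 : 0 ≤ Θ)
    (hstep : ∀ q : ℝ, 0 < q → q ≤ q1 →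
      (∀ q' : ℝ, (1 + ν) * q ≤ q' → q' ≤ 1 → Bd q' (Θ * q' ^ κ)) → Bd q (Θ * q ^ κ)) :
    ∀ q : ℝ, 0 < q → q ≤ 1 → Bd q (Θ * q ^ κ) := by
  have ha : 1 < 1 + ν := by linarith
  have ha0 : 0 < 1 + ν := by linarith
  have base : ∀ q : ℝ, q1 ≤ q → Bd q (Θ * q ^ κ) := by
    intro q hq
    intro G β _ _ _ h2 r hr _
    have h3 : 1 ≤ Θ * q ^ κ :=
      hΘ.trans (mul_le_mul_of_nonneg_left (Real.rpow_le_rpow hq1.le hq hκ0) hΘ0)
    have h4 := D2_le_Lf hr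
    have h5 := Lf_nonneg hr
    nlinarith
  have key : ∀ j : ℕ, ∀ q : ℝ, q1 / (1 + ν) ^ j ≤ q → q ≤ 1 → Bd q (Θ * q ^ κ) := by
    intro j
    induction j with
    | zero =>
      intro q hq _
      exact base q (by simpa using hq)
    | succ j ih =>
      intro q hq hq'
      by_cases h : q1 ≤ q
      · exact base q h
      · push Not at h
        have hq0 : 0 < q := lt_of_lt_of_le (by positivity) hq
        refine hstep q hq0 h.le ?_
        intro q' h1 h2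
        refine ih q' ?_ h2
        refine le_trans ?_ h1
        rw [div_le_iff₀ (by positivity)] at hq ⊢
        rw [pow_succ] at hq
        calc q1 ≤ q * ((1 + ν) ^ j * (1 + ν)) := hq
          _ = (1 + ν) * q * (1 + ν) ^ j := by ring
  intro q hq hq'
  obtain ⟨j, hj⟩ := pow_unbounded_of_one_lt (q1 / q) ha
  refine key j q ?_ hq'
  rw [div_le_iff₀ (by positivity)]
  rw [div_lt_iff₀ hq] at hj
  linarith

end Pool.Agent.H65.SPD
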