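import Pool.Agent.H65.SPD.NDefs
import Pool.Agent.H65.SPD.C5
import Pool.Agent.H65.SPD.DMc1
import Pool.Agent.H65.SPD.DMc3
import Pool.Agent.H65.SPD.StB
import Pool.Agent.H65.SPD.StC
set_option autoImplicit false

/-!
# ThK (size 3).  Theorem A++.

`c = 1/kap ≥ 1`, `C = 800 * 409600^c`, `κ = 1 - 1/n ∈ [0,1]`, `ν = 1/(50 n)`, `l = (ν²/4)^c = (1/(10000 n²))^c`, `q1 = l ν/8 = l/(400 n)`,
`l' = (ν/64^(n+1))^c / 2`, `Θ = C^n`.  Hypotheses of `stepK` for `0 < q ≤ q1`: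
`hγ`: `gam`.  `hl1`: `q0 = (1/128)^c`, `ν²/4 ≤ 1/10000`.  `hl2`: `l^kap = ν²/4`, so equality.  `hBM`: `claim n` with `ε = ν` (`2 l' = (ν/64^(n+1))^c`).
`hΘ`: `4/(l' ν) = 8 * 50 n * (50 n 64^(n+1))^c`; `n ≤ 2^n`, so `400 n ≤ 800^n` and `50 n 64^(n+1) ≤ 3200 * 128^n ≤ 409600^n` (`n ≥ 1`), so
`≤ 800^n (409600^c)^n = C^n`.
`scale`: `Θ q1^κ ≥ Θ q1 ≥ 1` (`κ ≤ 1`, `q1 ≤ 1`): `1/q1 = 400 n (10000 n²)^c ≤ 800^n (40000^c)^n ≤ C^n` (`10000 n² ≤ 10000 * 4^n ≤ 40000^n`).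
(`(x^n)^c = (x^c)^n`: `Real.rpow_natCast`, `Real.rpow_mul`.)
-/
namespace Pool.Agent.H65.SPD
open Finset Pool.Agent.Ldc

private theorem ThK_n (n : ℕ) : (n : ℝ) ≤ 2 ^ n := by
  have h : n ≤ 2 ^ n := Nat.lt_two_pow_self.le
  exact_mod_cast h

private theorem ThK_num {c : ℝ} (hc : 0 ≤ c) {n : ℕ} (hn : 1 ≤ n) {y : ℝ} (hy0 : 0 ≤ y)
    (hy : y ≤ 409600 ^ n) : 400 * (n : ℝ) * y ^ c ≤ (800 * 409600 ^ c) ^ n := by
  have h1 : ((409600 : ℝ) ^ c) ^ n = ((409600 : ℝ) ^ n) ^ c := by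
    rw [← Real.rpow_natCast ((409600 : ℝ) ^ c) n, ← Real.rpow_mul (by norm_num),
      ← Real.rpow_natCast (409600 : ℝ) n, ← Real.rpow_mul (by norm_num), mul_comm]
  have h2 : y ^ c ≤ ((409600 : ℝ) ^ n) ^ c := Real.rpow_le_rpow hy0 hy hc
  have h3 : 400 * (n : ℝ) ≤ 800 ^ n := by
    have a : (400 : ℝ) ≤ 400 ^ n := le_self_pow₀ (by norm_num) (by omega)
    have b := ThK_n n
    have e : (800 : ℝ) ^ n = 400 ^ n * 2 ^ n := by rw [← mul_pow]; norm_num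
    rw [e]
    exact mul_le_mul a b (by positivity) (by positivity)
  rw [mul_pow, h1]
  exact mul_le_mul h3 h2 (Real.rpow_nonneg hy0 _) (by positivity)

theorem thmK : ∃ C : ℝ, 1 ≤ C ∧ ∀ n : ℕ, 1 ≤ n → ∀ q : ℝ, 0 < q → q ≤ 1 →
    Bd q (C ^ n * q ^ (1 - 1 / (n : ℝ))) := by
  have hk := kap_pos
  have hc0 : 0 < 1 / kap := by positivity
  refine ⟨800 * 409600 ^ (1 / kap), ?_, ?_⟩
  · have : (1 : ℝ) ≤ (409600 : ℝ) ^ (1 / kap) := Real.one_le_rpow (by norm_num) hc0.le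
    linarith
  intro n hn
  have hn0 : (1 : ℝ) ≤ (n : ℝ) := by exact_mod_cast hn
  have hnp : (0 : ℝ) < (n : ℝ) := by linarith
  have hκ0 : 0 ≤ 1 - 1 / (n : ℝ) := by
    rw [sub_nonneg, div_le_one hnp]; exact hn0
  have hκ1 : 1 - 1 / (n : ℝ) ≤ 1 := by
    have : 0 < 1 / (n : ℝ) := by positivity
    linarith
  set ν : ℝ := 1 / (50 * (n : ℝ)) with hν
  have hν0 : 0 < ν := by rw [hν]; positivity
  have hν50 : ν ≤ 1 / 50 := by
    rw [hν]
    apply one_div_le_one_div_of_le (by norm_num)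
    linarith
  have hν1 : ν ≤ 1 := by linarith
  set l : ℝ := (ν ^ 2 / 4) ^ (1 / kap) with hl
  have hl0 : 0 < l := Real.rpow_pos_of_pos (by positivity) _
  have hν2 : ν ^ 2 / 4 ≤ 1 / 128 := by nlinarith
  have hl1 : l ≤ q0 := by
    rw [hl]; unfold q0
    exact Real.rpow_le_rpow (by positivity) hν2 hc0.le
  have hlk : l ^ kap = ν ^ 2 / 4 := by
    rw [hl, ← Real.rpow_mul (by positivity), one_div_mul_cancel hk.ne', Real.rpow_one]
  have hl2 : l ^ kap * (2 / ν) ≤ ν / 2 := by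
    rw [hlk]
    apply le_of_eq
    field_simp
    ring
  have hl11 : l ≤ 1 := hl1.trans q0_lt.le
  set w : ℝ := ν / 64 ^ (n + 1) with hw
  have hw0 : 0 < w := by rw [hw]; positivity
  have hwc : 0 < w ^ (1 / kap) := Real.rpow_pos_of_pos hw0 _
  have hBM : BdM n (2 * (w ^ (1 / kap) / 2)) ν := by
    have h := claim n hν0 hν1
    rw [mul_div_cancel₀ _ (two_ne_zero)]
    exact h
  have hΘ : 4 / (w ^ (1 / kap) / 2 * ν) ≤ (800 * 409600 ^ (1 / kap)) ^ n := by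
    have h1 : 4 / (w ^ (1 / kap) / 2 * ν) = 400 * (n : ℝ) * (w⁻¹) ^ (1 / kap) := by
      rw [Real.inv_rpow hw0.le, hν]
      field_simp
      ring
    rw [h1]
    refine ThK_num hc0.le hn (by positivity) ?_
    have h2 : w⁻¹ = 3200 * (n : ℝ) * 64 ^ n := by
      rw [hw, hν, pow_succ]
      field_simp
      ring
    have e : (409600 : ℝ) ^ n = 3200 ^ n * 2 ^ n * 64 ^ n := by
      rw [← mul_pow, ← mul_pow]; norm_num
    have a : (3200 : ℝ) ≤ 3200 ^ n := le_self_pow₀ (by norm_num) (by omega)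
    rw [h2, e]
    apply mul_le_mul_of_nonneg_right _ (by positivity)
    exact mul_le_mul a (ThK_n n) (by positivity) (by positivity)
  have hC0 : (0 : ℝ) ≤ (800 * 409600 ^ (1 / kap)) ^ n := by positivity
  have hq1 : 0 < l * ν / 8 := by positivity
  have hq11 : l * ν / 8 ≤ 1 := by nlinarith
  have hone : 1 ≤ (800 * 409600 ^ (1 / kap)) ^ n * (l * ν / 8) ^ (1 - 1 / (n : ℝ)) := by
    have h1 : l * ν / 8 ≤ (l * ν / 8) ^ (1 - 1 / (n : ℝ)) := by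
      calc l * ν / 8 = (l * ν / 8) ^ (1 : ℝ) := (Real.rpow_one _).symm
        _ ≤ _ := Real.rpow_le_rpow_of_exponent_ge hq1 hq11 hκ1
    have h2 : (l * ν / 8)⁻¹ ≤ (800 * 409600 ^ (1 / kap)) ^ n := by
      have h3 : (l * ν / 8)⁻¹ = 400 * (n : ℝ) * ((ν ^ 2 / 4)⁻¹) ^ (1 / kap) := by
        rw [Real.inv_rpow (by positivity), ← hl]
        have e8 : ν⁻¹ = 50 * (n : ℝ) := by rw [hν, one_div, inv_inv]
        rw [inv_div, ← div_div, div_eq_mul_inv, e8, div_eq_mul_inv]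
        ring
      rw [h3]
      refine ThK_num hc0.le hn (by positivity) ?_
      have h4 : (ν ^ 2 / 4)⁻¹ = 10000 * (n : ℝ) ^ 2 := by
        rw [hν]
        field_simp
        ring
      have a : (10000 : ℝ) ≤ 10000 ^ n := le_self_pow₀ (by norm_num) (by omega)
      have b : (n : ℝ) ^ 2 ≤ 4 ^ n := by
        have e4 : (4 : ℝ) ^ n = (2 ^ n) ^ 2 := by
          rw [← pow_mul, mul_comm, pow_mul]; norm_num
        rw [e4]
        exact pow_le_pow_left₀ hnp.le (ThK_n n) 2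
      rw [h4]
      calc 10000 * (n : ℝ) ^ 2 ≤ 10000 ^ n * 4 ^ n := mul_le_mul a b (by positivity) (by positivity)
        _ = 40000 ^ n := by rw [← mul_pow]; norm_num
        _ ≤ 409600 ^ n := pow_le_pow_left₀ (by norm_num) (by norm_num) n
    calc (1 : ℝ) = (l * ν / 8)⁻¹ * (l * ν / 8) := (inv_mul_cancel₀ hq1.ne').symm
      _ ≤ _ := mul_le_mul h2 h1 hq1.le hC0
  refine scale hκ0 hν0 hq1 hone hC0 ?_
  intro q hq hqq hyp
  exact stepK hκ0 hκ1 hν0 hν1 (gam n hn) hl0 hl1 hl2 (by positivity) hBM hq hqq hΘ hyp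

end Pool.Agent.H65.SPD
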