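import Pool.Agent.H65.SPD.NDefs
import Pool.Agent.H65.SPD.Ci
import Pool.Agent.H65.SPD.Dl
import Pool.Agent.H65.SPD.CvL
import Pool.Agent.H65.SPD.ThK
import Pool.Agent.H65.SPD.LwQ
set_option autoImplicit false

/-!
# LwI (size 4).  Iterated doubling with an absolute constant.

`pw81`: `(s+2)^4 ≤ 81 * 2^s`: `s ≤ 4` by computation, then induction (`(s+3)^4 ≤ 2 (s+2)^4` for `s ≥ 4`).
`C` from `thmK`, `Q = (C^324)⁻¹ / 2` (so `Q ≤ 1/2`, and `q ≤ Q` implies `324 log C ≤ log (1/q)`).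
Induction on `s`: there is `ρ > 0` with `ρ ≤ q^(2^s m_s)`, `m_s = 1/2 + 1/(2(s+1))`, `dl (cvi s x) K ≤ ρ ci K` for all `K` and
`df (cvi s x) ≤ (ρ/q) df x`.  `s = 0`: `ρ = q`, `m_0 = 1`.
Step: `N = 2(s+2)^2 ≥ 1`, `θ = C^N ρ^(1-1/N)` (`thmK N`, `0 < ρ ≤ 1`), `ρ' = θ ρ = C^N ρ^(2-1/N)`: `dl (cvi (s+1) x) K ≤ θ dl (cvi s x) K ≤ ρ' ci K` (`lw_dl`),
`df (cvi (s+1) x) ≤ θ df (cvi s x) ≤ (ρ'/q) df x` (`lw_df`).
`ρ' ≤ C^N q^(2^s m_s (2-1/N)) ≤ q^(2^(s+1) m_(s+1))`: with `Λ = log(1/q) ≥ 324 log C` this is `N log C ≤ Λ 2^s (2 (m_s - m_(s+1)) - m_s/N)`, and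
`m_s - m_(s+1) = 1/(2(s+1)(s+2))`, `m_s ≤ 1`, so the bracket is at least `1/((s+1)(s+2)) - 1/(2(s+2)^2) ≥ 1/(2(s+2)^2)`; so it suffices that
`4 (s+2)^4 log C ≤ 2^s Λ`: `pw81`.
End: `ρ ≤ q^(2^s m_s) ≤ q^(2^s/2)` (`q ≤ 1`).
-/
namespace Pool.Agent.H65.SPD
open Finset Pool.Agent.Ldc

theorem pw81 (s : ℕ) : ((s : ℝ) + 2) ^ 4 ≤ 81 * 2 ^ s := by
  rcases Nat.lt_or_ge s 4 with h | h
  · interval_cases s <;> norm_num
  · induction s, h using Nat.le_induction with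
    | base => norm_num
    | succ n hn ih =>
      have h4 : (4 : ℝ) ≤ (n : ℝ) := by exact_mod_cast hn
      have h1 : ((n : ℝ) + 1 + 2) ≤ 7 / 6 * ((n : ℝ) + 2) := by linarith
      have h2 : ((n : ℝ) + 1 + 2) ^ 4 ≤ (7 / 6 * ((n : ℝ) + 2)) ^ 4 :=
        pow_le_pow_left₀ (by linarith) h1 4
      have h3 : (7 / 6 * ((n : ℝ) + 2)) ^ 4 ≤ 2 * ((n : ℝ) + 2) ^ 4 := by
        rw [mul_pow]
        apply mul_le_mul_of_nonneg_right _ (by positivity)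
        norm_num
      have h5 : (81 : ℝ) * 2 ^ (n + 1) = 2 * (81 * 2 ^ n) := by ring
      push_cast
      rw [h5]
      linarith

private theorem LwI_step {C q ρ : ℝ} (hC : 1 ≤ C) (hq : 0 < q)
    (hqC : 324 * Real.log C ≤ -Real.log q) (s : ℕ) (hρ : 0 < ρ)
    (h : ρ ≤ q ^ ((2 : ℝ) ^ s * (1 / 2 + 1 / (2 * ((s : ℝ) + 1))))) :
    C ^ (2 * (s + 2) ^ 2) * ρ ^ (1 - 1 / ((2 * (s + 2) ^ 2 : ℕ) : ℝ)) * ρ
      ≤ q ^ ((2 : ℝ) ^ (s + 1) * (1 / 2 + 1 / (2 * (((s + 1 : ℕ) : ℝ) + 1)))) := by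
  have hlρ : Real.log ρ ≤ (2 : ℝ) ^ s * (1 / 2 + 1 / (2 * ((s : ℝ) + 1))) * Real.log q := by
    have h1 := Real.log_le_log hρ h
    rwa [Real.log_rpow hq] at h1
  have hCpos : 0 < C := by linarith
  have hA : 0 < C ^ (2 * (s + 2) ^ 2) := pow_pos hCpos _
  have hB : 0 < ρ ^ (1 - 1 / ((2 * (s + 2) ^ 2 : ℕ) : ℝ)) := Real.rpow_pos_of_pos hρ _
  have hD : 0 < q ^ ((2 : ℝ) ^ (s + 1) * (1 / 2 + 1 / (2 * (((s + 1 : ℕ) : ℝ) + 1)))) :=
    Real.rpow_pos_of_pos hq _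
  rw [← Real.log_le_log_iff (mul_pos (mul_pos hA hB) hρ) hD, Real.log_rpow hq,
    Real.log_mul (mul_pos hA hB).ne' hρ.ne', Real.log_mul hA.ne' hB.ne', Real.log_pow,
    Real.log_rpow hρ]
  set c := Real.log C with hc
  have hc0 : 0 ≤ c := Real.log_nonneg hC
  set lr := Real.log ρ with hlr
  set lq := Real.log q with hlq
  set t : ℝ := (s : ℝ) with ht
  have ht0 : 0 ≤ t := Nat.cast_nonneg s
  have hN : ((2 * (s + 2) ^ 2 : ℕ) : ℝ) = 2 * (t + 2) ^ 2 := by push_cast; ring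
  have hs1 : (((s + 1 : ℕ) : ℝ) + 1) = t + 2 := by push_cast; ring
  rw [hN, hs1]
  have ha : 0 < (t + 2) ^ 2 := by positivity
  set N : ℝ := 2 * (t + 2) ^ 2 with hNd
  have hNpos : 0 < N := by positivity
  have hN1 : 1 ≤ N := by nlinarith
  set m : ℝ := 1 / 2 + 1 / (2 * (t + 1)) with hm
  set m' : ℝ := 1 / 2 + 1 / (2 * (t + 2)) with hm'
  have e1 : 2 * m - 2 * m' = 1 / ((t + 1) * (t + 2)) := by
    rw [hm, hm']
    field_simp
    ring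
  have e2 : 1 / (t + 2) ^ 2 ≤ 1 / ((t + 1) * (t + 2)) :=
    one_div_le_one_div_of_le (by positivity) (by nlinarith)
  have hm1 : m ≤ 1 := by
    rw [hm]
    have : 1 / (2 * (t + 1)) ≤ 1 / 2 := one_div_le_one_div_of_le (by norm_num) (by linarith)
    linarith
  have hm0 : 0 ≤ m := by rw [hm]; positivity
  have e3 : 1 / N * m ≤ 1 / N := by
    have h1 : 0 ≤ 1 / N := by positivity
    nlinarith
  have e4 : 1 / (t + 2) ^ 2 = 2 * (1 / N) := by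
    rw [hNd]
    field_simp
  have hbr : 1 / N ≤ (2 - 1 / N) * m - 2 * m' := by
    have : (2 - 1 / N) * m - 2 * m' = (2 * m - 2 * m') - 1 / N * m := by ring
    rw [this, e1]
    linarith
  have hN2 : 0 ≤ 2 - 1 / N := by
    have : 1 / N ≤ 1 := by
      rw [div_le_one hNpos]
      exact hN1
    linarith
  have h2s : (0 : ℝ) < 2 ^ s := by positivity
  -- main inequality
  have hlq0 : 0 ≤ -lq := by
    have : 0 ≤ 324 * c := by linarith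
    linarith
  have hmain : N * c ≤ 2 ^ s * (-lq) * (1 / N) := by
    rw [mul_one_div, le_div_iff₀ hNpos]
    have h81 := pw81 s
    rw [← ht] at h81
    have h1 : N * c * N = 4 * (t + 2) ^ 4 * c := by rw [hNd]; ring
    rw [h1]
    calc 4 * (t + 2) ^ 4 * c ≤ 4 * (81 * 2 ^ s) * c :=
          mul_le_mul_of_nonneg_right (by linarith) hc0
      _ = 2 ^ s * (324 * c) := by ring
      _ ≤ 2 ^ s * (-lq) := mul_le_mul_of_nonneg_left hqC h2s.le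
  have h5 : 2 ^ s * (-lq) * (1 / N) ≤ 2 ^ s * (-lq) * ((2 - 1 / N) * m - 2 * m') :=
    mul_le_mul_of_nonneg_left hbr (mul_nonneg h2s.le hlq0)
  have h6 : (2 - 1 / N) * lr ≤ (2 - 1 / N) * (2 ^ s * m * lq) :=
    mul_le_mul_of_nonneg_left hlρ hN2
  have h7 : (2 : ℝ) ^ (s + 1) = 2 * 2 ^ s := by ring
  rw [h7]
  nlinarith [h5, h6, hmain]

theorem law_iter3 : ∃ Q : ℝ, 0 < Q ∧ Q < 1 ∧ ∀ q : ℝ, 0 < q → q ≤ Q →
    ∀ (G : Type) [AddCommGroup G] [Fintype G], (∀ g : G, g + g = 0) → ∀ x : G → ℝ, IsP x →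
    (∀ K : AddSubgroup G, dl x K ≤ q * ci K) → ∀ s : ℕ,
      df (cvi s x) ≤ q ^ ((2 : ℝ) ^ s / 2 - 1) * df x := by
  obtain ⟨C, hC, hK⟩ := thmK
  have hCpos : 0 < C := by linarith
  have hC324 : 1 ≤ C ^ 324 := one_le_pow₀ hC
  have hCi : (C ^ 324)⁻¹ ≤ 1 := inv_le_one_of_one_le₀ hC324
  have hCi0 : 0 < (C ^ 324)⁻¹ := by positivity
  refine ⟨(C ^ 324)⁻¹ / 2, by positivity, by linarith, ?_⟩
  intro q hq hqQ G _ _ h2 x hx hs s
  have hq1 : q ≤ 1 := by linarith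
  have hqC : 324 * Real.log C ≤ -Real.log q := by
    have h1 : Real.log q ≤ Real.log ((C ^ 324)⁻¹) := Real.log_le_log hq (by linarith)
    rw [Real.log_inv, Real.log_pow] at h1
    push_cast at h1
    linarith
  have hdf0 : 0 ≤ df x := df_nonneg hx
  have key : ∀ s : ℕ, IsP (cvi s x) ∧ ∃ ρ : ℝ, 0 < ρ ∧
      ρ ≤ q ^ ((2 : ℝ) ^ s * (1 / 2 + 1 / (2 * ((s : ℝ) + 1)))) ∧
      (∀ K : AddSubgroup G, dl (cvi s x) K ≤ ρ * ci K) ∧ df (cvi s x) ≤ ρ / q * df x := by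
    intro s
    induction s with
    | zero =>
      refine ⟨hx, q, hq, ?_, ?_, ?_⟩
      · have : (2 : ℝ) ^ 0 * (1 / 2 + 1 / (2 * (((0 : ℕ) : ℝ) + 1))) = 1 := by norm_num
        rw [this, Real.rpow_one]
      · intro K
        exact hs K
      · rw [div_self hq.ne', one_mul]
        exact le_rfl
    | succ s ih =>
      obtain ⟨hP, ρ, hρ, hρq, hdl, hdf⟩ := ih
      have hρ1 : ρ ≤ 1 := by
        refine hρq.trans (Real.rpow_le_one hq.le hq1 ?_)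
        positivity
      have hN : 1 ≤ 2 * (s + 2) ^ 2 := Nat.one_le_iff_ne_zero.mpr (by positivity)
      have hB := hK (2 * (s + 2) ^ 2) hN ρ hρ hρ1
      set θ : ℝ := C ^ (2 * (s + 2) ^ 2) * ρ ^ (1 - 1 / ((2 * (s + 2) ^ 2 : ℕ) : ℝ)) with hθ
      have hθ0 : 0 < θ := mul_pos (pow_pos hCpos _) (Real.rpow_pos_of_pos hρ _)
      refine ⟨cv_isP hP hP, θ * ρ, mul_pos hθ0 hρ, ?_, ?_, ?_⟩
      · exact LwI_step hC hq hqC s hρ hρq
      · intro K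
        have h1 := lw_dl hB h2 hP hdl K
        have h3 : θ * dl (cvi s x) K ≤ θ * (ρ * ci K) :=
          mul_le_mul_of_nonneg_left (hdl K) hθ0.le
        have e3 : dl (cvi (s + 1) x) K = dl (cv (cvi s x) (cvi s x)) K := rfl
        rw [e3, mul_assoc]
        exact h1.trans h3
      · have h1 := lw_df hB h2 hP hdl
        have h3 : θ * df (cvi s x) ≤ θ * (ρ / q * df x) := mul_le_mul_of_nonneg_left hdf hθ0.le
        have e3 : df (cvi (s + 1) x) = df (cv (cvi s x) (cvi s x)) := rfl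
        have e4 : θ * ρ / q * df x = θ * (ρ / q * df x) := by ring
        rw [e3, e4]
        exact h1.trans h3
  obtain ⟨-, ρ, hρ, hρq, -, hdf⟩ := key s
  have h1 : ρ ≤ q ^ ((2 : ℝ) ^ s / 2) := by
    refine hρq.trans (Real.rpow_le_rpow_of_exponent_ge hq hq1 ?_)
    have h2s : (0 : ℝ) < 2 ^ s := by positivity
    have h3 : 0 ≤ 1 / (2 * ((s : ℝ) + 1)) := by positivity
    nlinarith
  have h4 : ρ / q ≤ q ^ ((2 : ℝ) ^ s / 2 - 1) := by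
    rw [Real.rpow_sub hq, Real.rpow_one]
    exact div_le_div_of_nonneg_right h1 hq.le
  exact hdf.trans (mul_le_mul_of_nonneg_right h4 hdf0)

end Pool.Agent.H65.SPD
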