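import Mathlib
set_option autoImplicit false

/-!
# NmB (size 2).  Choice of the number of doublings.

`y = log(1+l)/log b ≥ 0`.  Let `s` be the least natural number with `4 + 2y ≤ 2^s` (`Nat.find`, `pow_unbounded_of_one_lt`); `s ≥ 1`, so by minimality
`2^(s-1) < 4 + 2y`, `2^(s+1) = 4 * 2^(s-1) < 16 + 8y ≤ 16 (1+y)`.
`2^s/2 - 1 ≥ 1 + y`, `0 < Q/b ≤ 1/b ≤ 1/2`, so `(Q/b)^(2^s/2 - 1) ≤ (1/b)^(1+y) = 1/(b (1+l))` (as in `Num.lean`), and `l/(b(1+l)) < 1/b ≤ 1/2 < log 2`.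
-/
namespace Pool.Agent.H65.SPD

theorem num3 {Q : ℝ} (hQ : 0 < Q) (hQ1 : Q ≤ 1) (b l : ℝ) (hb : 2 ≤ b) (hl : 0 ≤ l) :
    ∃ s : ℕ, (Q / b) ^ ((2 : ℝ) ^ s / 2 - 1) * l < Real.log 2 ∧
      (2 : ℝ) ^ (s + 1) ≤ 16 * (1 + Real.log (1 + l) / Real.log b) := by
  classical
  have hb0 : 0 < b := by linarith
  have hlb : 0 < Real.log b := Real.log_pos (by linarith)
  have hll : 0 ≤ Real.log (1 + l) := Real.log_nonneg (by linarith)
  set y := Real.log (1 + l) / Real.log b with hy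
  have hy0 : 0 ≤ y := div_nonneg hll hlb.le
  have hyl : y * Real.log b = Real.log (1 + l) := by rw [hy]; field_simp
  have hex : ∃ s : ℕ, 4 + 2 * y ≤ (2 : ℝ) ^ s := by
    obtain ⟨n, hn⟩ := pow_unbounded_of_one_lt (4 + 2 * y) (one_lt_two : (1 : ℝ) < 2)
    exact ⟨n, hn.le⟩
  have hs := Nat.find_spec hex
  have hmin := fun m (hm : m < Nat.find hex) => Nat.find_min hex hm
  set s := Nat.find hex with hsdef
  have hs1 : 1 ≤ s := by
    by_contra h
    have h0 : s = 0 := by omega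
    rw [h0, pow_zero] at hs
    linarith
  obtain ⟨m, hsm⟩ : ∃ m, s = m + 1 := ⟨s - 1, by omega⟩
  have hm := hmin m (by omega)
  rw [hsm] at hs
  rw [not_le] at hm
  refine ⟨m + 1, ?_, ?_⟩
  · have hE : 1 + y ≤ (2 : ℝ) ^ (m + 1) / 2 - 1 := by linarith
    have hq0 : 0 < Q / b := div_pos hQ hb0
    have hq1 : Q / b ≤ 1 / b := div_le_div_of_nonneg_right hQ1 hb0.le
    have hb1 : 1 / b ≤ 1 / 2 := one_div_le_one_div_of_le (by norm_num) hb
    have h1 : (Q / b) ^ ((2 : ℝ) ^ (m + 1) / 2 - 1) ≤ (Q / b) ^ (1 + y) :=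
      Real.rpow_le_rpow_of_exponent_ge hq0 (by linarith) hE
    have h2 : (Q / b) ^ (1 + y) ≤ (1 / b) ^ (1 + y) :=
      Real.rpow_le_rpow hq0.le hq1 (by linarith)
    have h3 : (1 / b) ^ (1 + y) = 1 / (b * (1 + l)) := by
      rw [Real.rpow_def_of_pos (by positivity), one_div, Real.log_inv]
      have : -Real.log b * (1 + y) = -(Real.log b + Real.log (1 + l)) := by
        rw [← hyl]; ring
      rw [this, ← Real.log_mul (by linarith) (by linarith), Real.exp_neg,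
        Real.exp_log (by positivity), one_div]
    have h4 : (Q / b) ^ ((2 : ℝ) ^ (m + 1) / 2 - 1) * l ≤ 1 / (b * (1 + l)) * l :=
      mul_le_mul_of_nonneg_right ((h1.trans h2).trans h3.le) hl
    have h5 : 1 / (b * (1 + l)) * l ≤ 1 / b := by
      rw [div_mul_eq_mul_div, one_mul, div_le_div_iff₀ (by positivity) hb0]
      nlinarith
    have h6 : (1 : ℝ) / 2 < Real.log 2 := by
      have := Real.log_two_gt_d9
      linarith
    linarith
  · have : (2 : ℝ) ^ (m + 1 + 1) = 4 * 2 ^ m := by ring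
    rw [this]
    linarith

end Pool.Agent.H65.SPD
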