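import Pool.Agent.H65.SPD.Defs
import Pool.Agent.H65.SPD.Ci
set_option autoImplicit false

/-!
# SetM (size 3).  Passing to a coset on which the set is spread.

Minimise `Φ(K, c) = log |K| - log |{a ∈ A : a - c ∈ K}| + q * ci K` over the (finitely many) pairs `(K, c)` for which the set is
nonempty.  Let `(H, c)` be a minimiser and `B = univ.filter (fun h : H => (h : G) + c ∈ A)`, so `|B| = |{a ∈ A : a - c ∈ H}|`.
`Φ(H, c) ≤ Φ(⊤, c) = log|G| - log|A|` is the last claim.
`MinSpread q B`: for `M : AddSubgroup H`, `c' : H`, `M' = M.map H.subtype`, the set `{b ∈ B : b - c' ∈ M}` has the cardinality of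
`{a ∈ A : a - (c' + c) ∈ M'}`.  If it is empty there is nothing to prove; otherwise `Φ(H,c) ≤ Φ(M', c' + c)` and
`ci M = ci M' - ci H` (`ci_map`) give `log |{..}| ≤ log |B| - (log|H| - log|M|) + q ci M = log |B| - (1 - q) ci M`
(`ci M = log |H| - log |M|`); take exponentials.
-/
namespace Pool.Agent.H65.SPD
open Finset Pool.Agent.Ldc
variable {G : Type} [AddCommGroup G] [Fintype G]

private theorem SetM_ci (H : AddSubgroup G) (M : AddSubgroup H) :
    ci M = Real.log (Nat.card H : ℝ) - Real.log (Nat.card M : ℝ) := by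
  unfold ci
  rw [Nat.card_eq_fintype_card (α := H)]

theorem exists_spread (A : Finset G) (hA : A.Nonempty) (q : ℝ) :
    ∃ (H : AddSubgroup G) (c : G) (B : Finset H), B.Nonempty ∧ (∀ b ∈ B, (b : G) + c ∈ A) ∧
      MinSpread q B ∧
      Real.log (Nat.card H : ℝ) - Real.log (B.card : ℝ) + q * ci H
        ≤ Real.log (Fintype.card G : ℝ) - Real.log (A.card : ℝ) := by
  classical
  -- the functional
  let cnt : AddSubgroup G → G → ℕ := fun K c => (A.filter (fun a => a - c ∈ K)).card
  let Φ : AddSubgroup G × G → ℝ := fun u =>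
    Real.log (Nat.card u.1 : ℝ) - Real.log (cnt u.1 u.2 : ℝ) + q * ci u.1
  have : Finite (AddSubgroup G) := inferInstance
  have : Finite {u : AddSubgroup G × G // 0 < cnt u.1 u.2} := inferInstance
  have htop : 0 < cnt ⊤ 0 := by
    refine Finset.card_pos.mpr ?_
    obtain ⟨a, ha⟩ := hA
    exact ⟨a, Finset.mem_filter.mpr ⟨ha, AddSubgroup.mem_top _⟩⟩
  have : Nonempty {u : AddSubgroup G × G // 0 < cnt u.1 u.2} := ⟨⟨(⊤, 0), htop⟩⟩
  obtain ⟨⟨⟨H, c⟩, hpos⟩, hmin⟩ := Finite.exists_min
    (fun u : {u : AddSubgroup G × G // 0 < cnt u.1 u.2} => Φ u.1)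
  simp only at hpos
  set B : Finset H := Finset.univ.filter (fun h : H => (h : G) + c ∈ A) with hB
  -- cardinalities
  have hcard : ∀ (M : AddSubgroup H) (c' : H), (B.filter (fun b => b - c' ∈ M)).card =
      cnt (M.map H.subtype) ((c' : G) + c) := by
    intro M c'
    refine Finset.card_bij (fun b _ => (b : G) + c) ?_ ?_ ?_
    · intro b hb
      rw [Finset.mem_filter, hB, Finset.mem_filter] at hb
      rw [Finset.mem_filter]
      refine ⟨hb.1.2, ?_⟩
      rw [AddSubgroup.mem_map]
      refine ⟨b - c', hb.2, ?_⟩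
      simp only [AddSubgroup.coe_subtype, AddSubgroup.coe_sub]
      abel
    · intro b _ b' _ h
      exact Subtype.ext (add_right_cancel h)
    · intro a ha
      rw [Finset.mem_filter, AddSubgroup.mem_map] at ha
      obtain ⟨haA, m, hm, hmm⟩ := ha
      refine ⟨m + c', ?_, ?_⟩
      · rw [Finset.mem_filter, hB, Finset.mem_filter]
        refine ⟨⟨Finset.mem_univ _, ?_⟩, ?_⟩
        · have h1 : ((m + c' : H) : G) + c = a := by
            simp only [AddSubgroup.coe_add]
            have h2 : (m : G) = a - (c' + c) := hmm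
            rw [h2]
            abel
          rw [h1]
          exact haA
        · rw [add_sub_cancel_right]
          exact hm
      · simp only [AddSubgroup.coe_add]
        have h2 : (m : G) = a - (c' + c) := hmm
        rw [h2]
        abel
  have hBc : B.card = cnt H c := by
    have h1 := hcard ⊤ 0
    have h2 : B.filter (fun b => b - (0 : H) ∈ (⊤ : AddSubgroup H)) = B :=
      Finset.filter_true_of_mem (fun b _ => AddSubgroup.mem_top _)
    rw [h2] at h1
    rw [h1]
    have h3 : (⊤ : AddSubgroup H).map H.subtype = H := by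
      rw [← AddMonoidHom.range_eq_map, AddSubgroup.range_subtype]
    rw [h3]
    simp
  have hBpos : 0 < B.card := by rw [hBc]; exact hpos
  refine ⟨H, c, B, Finset.card_pos.mp hBpos, fun b hb => ?_, ?_, ?_⟩
  · rw [hB, Finset.mem_filter] at hb
    exact hb.2
  · intro M c'
    have h0 := hcard M c'
    have h0' : ((B.filter (fun b => b - c' ∈ M)).card : ℝ) =
        (cnt (M.map H.subtype) ((c' : G) + c) : ℝ) := by exact_mod_cast h0
    refine le_trans (le_of_eq ?_) (?_ : (cnt (M.map H.subtype) ((c' : G) + c) : ℝ) ≤ _)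
    · rw [← h0']
    by_cases hz : 0 < cnt (M.map H.subtype) ((c' : G) + c)
    · have h1 := hmin ⟨(M.map H.subtype, (c' : G) + c), hz⟩
      simp only [Φ] at h1
      have h2 := ci_map H M
      have h3 : Nat.card (M.map H.subtype) = Nat.card M :=
        (Nat.card_congr (M.equivMapOfInjective H.subtype Subtype.val_injective).toEquiv).symm
      have h4 := SetM_ci H M
      rw [h3, ← hBc] at h1
      have hcpos : (0 : ℝ) < (cnt (M.map H.subtype) ((c' : G) + c) : ℝ) := by exact_mod_cast hz
      have hBR : (0 : ℝ) < (B.card : ℝ) := by exact_mod_cast hBpos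
      have h5 : Real.log (cnt (M.map H.subtype) ((c' : G) + c) : ℝ) ≤
          Real.log (B.card : ℝ) + (-((1 - q) * ci M)) := by
        have h6 : q * ci M = q * ci (M.map H.subtype) - q * ci H := by rw [h2]; ring
        linarith
      calc (cnt (M.map H.subtype) ((c' : G) + c) : ℝ)
          = Real.exp (Real.log (cnt (M.map H.subtype) ((c' : G) + c) : ℝ)) :=
            (Real.exp_log hcpos).symm
        _ ≤ Real.exp (Real.log (B.card : ℝ) + (-((1 - q) * ci M))) := Real.exp_le_exp.mpr h5
        _ = (B.card : ℝ) * Real.exp (-((1 - q) * ci M)) := by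
            rw [Real.exp_add, Real.exp_log hBR]
    · have h1 : cnt (M.map H.subtype) ((c' : G) + c) = 0 := by omega
      rw [h1, Nat.cast_zero]
      positivity
  · have h1 := hmin ⟨(⊤, 0), htop⟩
    simp only [Φ] at h1
    have h2 : cnt ⊤ 0 = A.card := by
      have h3 : A.filter (fun a => a - 0 ∈ (⊤ : AddSubgroup G)) = A :=
        Finset.filter_true_of_mem (fun b _ => AddSubgroup.mem_top _)
      show (A.filter (fun a => a - 0 ∈ (⊤ : AddSubgroup G))).card = A.card
      rw [h3]
    rw [h2, ci_top, ← hBc, mul_zero, add_zero] at h1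
    have h3 : (Nat.card (⊤ : AddSubgroup G)) = Fintype.card G := by
      rw [AddSubgroup.card_top, Nat.card_eq_fintype_card]
    rw [h3] at h1
    exact h1

end Pool.Agent.H65.SPD
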