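import Pool.Agent.H65.SPD.Defs
set_option autoImplicit false

/-!
# SetS (size 2).  The uniform law of a spread set.

`df_unif`: `H_unif` (with `ent_eq_H`).
`dl_unif`: `H (unif B) mk = -Σ_ω unif B ω * log P(mk = mk ω)`; for `ω ∈ B`, `P(mk = mk ω) = |{b ∈ B : b - ω ∈ K}| / |B|` is positive and
at most `exp(-((1-q) ci K))` (`MinSpread`), so `-log P ≥ (1-q) ci K` and `H ≥ (1-q) ci K` (`unif_isP`).  So `dl ≤ q ci K`.
-/
namespace Pool.Agent.H65.SPD
open Finset Pool.Agent.Ldc
variable {G : Type} [AddCommGroup G] [Fintype G]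

theorem df_unif (B : Finset G) (hB : B.Nonempty) :
    df (unif B) = Real.log (Fintype.card G : ℝ) - Real.log (B.card : ℝ) := by
  unfold df
  rw [ent_eq_H, H_unif B hB (fun a => a) (fun _ _ _ _ h => h)]

theorem dl_unif {q : ℝ} (B : Finset G) (hB : B.Nonempty) (hs : MinSpread q B) (K : AddSubgroup G) :
    dl (unif B) K ≤ q * ci K := by
  classical
  have hN : (0 : ℝ) < (B.card : ℝ) := by exact_mod_cast Finset.card_pos.mpr hB
  have hp : IsP (unif B) := unif_isP B hB
  have h1 : ∀ ω ∈ B, Real.log (pr (unif B) (fun g => (QuotientAddGroup.mk g : G ⧸ K))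
      (QuotientAddGroup.mk ω)) ≤ -((1 - q) * ci K) := by
    intro ω hω
    have h2 : pr (unif B) (fun g => (QuotientAddGroup.mk g : G ⧸ K)) (QuotientAddGroup.mk ω)
        = ((B.filter (fun b => b - ω ∈ K)).card : ℝ) / (B.card : ℝ) := by
      have h3 : pr (unif B) (fun g => (QuotientAddGroup.mk g : G ⧸ K)) (QuotientAddGroup.mk ω)
          = ∑ x, if x ∈ B.filter (fun b => b - ω ∈ K) then 1 / (B.card : ℝ) else 0 := by
        unfold pr pe unif
        refine Finset.sum_congr rfl fun x _ => ?_
        have h4 : ((QuotientAddGroup.mk x : G ⧸ K) = QuotientAddGroup.mk ω) ↔ x - ω ∈ K := by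
          rw [QuotientAddGroup.eq, ← neg_mem_iff]
          have h5 : -(-x + ω) = x - ω := by abel
          rw [h5]
        by_cases hx : x ∈ B
        · by_cases hk : x - ω ∈ K
          · rw [if_pos (h4.mpr hk), if_pos hx, if_pos (Finset.mem_filter.mpr ⟨hx, hk⟩)]
          · have h8 : x ∉ B.filter (fun b => b - ω ∈ K) := fun h => hk (Finset.mem_filter.mp h).2
            rw [if_neg (fun h => hk (h4.mp h)), if_neg h8]
        · have h8 : x ∉ B.filter (fun b => b - ω ∈ K) := fun h => hx (Finset.mem_filter.mp h).1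
          rw [if_neg hx, if_neg h8]
          split_ifs <;> rfl
      rw [h3, ← Finset.sum_filter, Finset.sum_const, nsmul_eq_mul]
      have h6 : (Finset.univ.filter (fun x => x ∈ B.filter (fun b => b - ω ∈ K)))
          = B.filter (fun b => b - ω ∈ K) := by
        ext x; simp
      rw [h6]
      ring
    have hpos : 0 < pr (unif B) (fun g => (QuotientAddGroup.mk g : G ⧸ K))
        (QuotientAddGroup.mk ω) := by
      refine pr_pos hp (fun g => (QuotientAddGroup.mk g : G ⧸ K)) (ω := ω) ?_
      unfold unif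
      rw [if_pos hω]
      positivity
    rw [← Real.log_exp (-((1 - q) * ci K))]
    refine Real.log_le_log hpos ?_
    rw [h2, div_le_iff₀ hN, mul_comm]
    have h7 := hs K ω
    convert h7 using 3
  have h2 : ∑ ω, unif B ω * Real.log (pr (unif B) (fun g => (QuotientAddGroup.mk g : G ⧸ K))
      (QuotientAddGroup.mk ω)) ≤ ∑ ω, unif B ω * (-((1 - q) * ci K)) := by
    refine Finset.sum_le_sum fun ω _ => ?_
    by_cases hω : ω ∈ B
    · exact mul_le_mul_of_nonneg_left (h1 ω hω) (hp.1 ω)
    · have h3 : unif B ω = 0 := by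
        unfold unif
        rw [if_neg hω]
      rw [h3, zero_mul, zero_mul]
  rw [← Finset.sum_mul, hp.2, one_mul] at h2
  unfold dl H
  linarith

end Pool.Agent.H65.SPD
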