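import Pool.Agent.H65.SPD.Ci
import Pool.Agent.H65.SPD.SetM
import Pool.Agent.H65.SPD.SetS
import Pool.Agent.H65.SPD.CvS
import Pool.Agent.H65.SPD.LwI
import Pool.Agent.H65.SPD.NmB
set_option autoImplicit false

/-!
# GrB (size 2).  Many summands, linear number.

As `Grp.lean` + `GrpK.lean`.  `Q` from `law_iter3`, `C = max 16 (1/Q)`.  `l = log|G| - log|A| ≥ 0`; `s` from `num3` with `b`, `l`;
`2^(s+1) ≤ 16 (1+y) ≤ C (1+y) ≤ k`.  `q = Q/b`.  `exists_spread A hA q`: `H, c, B`: `q ci H ≤ l`, so `ci H ≤ b l/Q ≤ C b l`; `ℓ_B ≤ l`.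
`law_iter3` for `unif B` on `H` (`dl_unif`, `df_unif`): `df (cvi s (unif B)) ≤ q^(2^s/2-1) ℓ_B ≤ q^(..) l < log 2`; `cover_s`: every `h ∈ H` is a sum of
`2^(s+1)` elements `b_i` of `B`, and `Σ (b_i + c) = h`.  For `k = 2^(s+1) + m` add `m` times a fixed `a₀ ∈ A` (`c' = m • a₀`; `Fin.append`).
-/
namespace Pool.Agent.H65.SPD
open Finset Pool.Agent.Ldc

private theorem GrB_dense {Q : ℝ}
    (hI : ∀ q : ℝ, 0 < q → q ≤ Q →
      ∀ (G : Type) [AddCommGroup G] [Fintype G], (∀ g : G, g + g = 0) → ∀ x : G → ℝ, IsP x →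
      (∀ K : AddSubgroup G, dl x K ≤ q * ci K) → ∀ s : ℕ,
        df (cvi s x) ≤ q ^ ((2 : ℝ) ^ s / 2 - 1) * df x)
    {G : Type} [AddCommGroup G] [Fintype G] {q : ℝ} (hq : 0 < q) (hq1 : q ≤ Q)
    (h2 : ∀ g : G, g + g = 0) (A : Finset G)
    (hA : A.Nonempty) (s : ℕ)
    (h : q ^ ((2 : ℝ) ^ s / 2 - 1)
      * (Real.log (Fintype.card G : ℝ) - Real.log (A.card : ℝ)) < Real.log 2) :
    ∃ H : AddSubgroup G, q * ci H ≤ Real.log (Fintype.card G : ℝ) - Real.log (A.card : ℝ) ∧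
      ∀ g ∈ H, ∃ f : Fin (2 ^ (s + 1)) → G, (∀ i, f i ∈ A) ∧ ∑ i, f i = g := by
  obtain ⟨H, c, B, hB, hmem, hsp, hle⟩ := exists_spread A hA q
  have hcard : (Nat.card H : ℝ) = (Fintype.card H : ℝ) := by
    rw [Nat.card_eq_fintype_card]
  have hBpos : (0 : ℝ) < (B.card : ℝ) := by
    exact_mod_cast Finset.card_pos.2 hB
  have hlB : Real.log (B.card : ℝ) ≤ Real.log (Nat.card H : ℝ) := by
    apply Real.log_le_log hBpos
    rw [hcard]
    exact_mod_cast Finset.card_le_univ B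
  have hci : 0 ≤ q * ci H := mul_nonneg hq.le (ci_nonneg H)
  have hq0 : 0 ≤ q ^ ((2 : ℝ) ^ s / 2 - 1) := Real.rpow_nonneg hq.le _
  refine ⟨H, by linarith, ?_⟩
  intro g hg
  have h2H : ∀ y : H, y + y = 0 := by
    intro y
    apply Subtype.ext
    exact h2 y
  have hlt : q ^ ((2 : ℝ) ^ s / 2 - 1)
      * (Real.log (Fintype.card H : ℝ) - Real.log (B.card : ℝ)) < Real.log 2 := by
    refine lt_of_le_of_lt (mul_le_mul_of_nonneg_left ?_ hq0) h
    rw [← hcard]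
    linarith
  have hdf := hI q hq hq1 H h2H (unif B) (unif_isP B hB) (fun K => dl_unif B hB hsp K) s
  rw [df_unif B hB] at hdf
  obtain ⟨f, hf1, hf2⟩ := cover_s B hB s (lt_of_le_of_lt hdf hlt) ⟨g, hg⟩
  refine ⟨fun i => (f i : G) + c, fun i => hmem _ (hf1 i), ?_⟩
  rw [Finset.sum_add_distrib, Finset.sum_const, Finset.card_univ, Fintype.card_fin]
  have e1 : ∑ i, (f i : G) = g := by
    have h5 := congrArg (fun y : H => (y : G)) hf2
    simpa using h5
  have e2 : (2 ^ (s + 1)) • c = 0 := by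
    rw [pow_succ, mul_smul, two_smul, h2 c, smul_zero]
  rw [e1, e2, add_zero]

theorem group_lin : ∃ C : ℝ, 1 ≤ C ∧ ∀ (G : Type) [AddCommGroup G] [Fintype G],
    (∀ g : G, g + g = 0) → ∀ A : Finset G, A.Nonempty → ∀ b : ℝ, 2 ≤ b → ∀ k : ℕ,
    C * (1 + Real.log (1 + (Real.log (Fintype.card G : ℝ) - Real.log (A.card : ℝ)))
      / Real.log b) ≤ (k : ℝ) →
    ∃ (H : AddSubgroup G) (c : G),
      Real.log (Fintype.card G : ℝ)
          - C * b * (Real.log (Fintype.card G : ℝ) - Real.log (A.card : ℝ))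
        ≤ Real.log (Nat.card H : ℝ) ∧
      ∀ h ∈ H, ∃ f : Fin k → G, (∀ i, f i ∈ A) ∧ ∑ i, f i = c + h := by
  obtain ⟨Q, hQ, hQ1, hI⟩ := law_iter3
  have h116 : (1 : ℝ) ≤ max 16 (1 / Q) := le_trans (by norm_num) (le_max_left _ _)
  refine ⟨max 16 (1 / Q), h116, ?_⟩
  intro G _ _ h2 A hA b hb k hk
  obtain ⟨C, hC⟩ : ∃ C : ℝ, C = max 16 (1 / Q) := ⟨_, rfl⟩
  rw [← hC] at hk h116 ⊢
  have hC16 : 16 ≤ C := by rw [hC]; exact le_max_left _ _
  have hCQ : 1 / Q ≤ C := by rw [hC]; exact le_max_right _ _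
  set l := Real.log (Fintype.card G : ℝ) - Real.log (A.card : ℝ) with hl
  have hb0 : 0 < b := by linarith
  have hApos : (0 : ℝ) < (A.card : ℝ) := by exact_mod_cast hA.card_pos
  have hl0 : 0 ≤ l := by
    have hle : (A.card : ℝ) ≤ (Fintype.card G : ℝ) := by exact_mod_cast Finset.card_le_univ A
    have := Real.log_le_log hApos hle
    rw [hl]; linarith
  obtain ⟨s, hs1, hs2⟩ := num3 hQ hQ1.le b l hb hl0
  have hlogb : 0 < Real.log b := Real.log_pos (by linarith)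
  have hy : 0 ≤ Real.log (1 + l) / Real.log b :=
    div_nonneg (Real.log_nonneg (by linarith)) hlogb.le
  have hkk : ((2 : ℝ)) ^ (s + 1) ≤ (k : ℝ) := by
    refine le_trans hs2 (le_trans ?_ hk)
    exact mul_le_mul_of_nonneg_right hC16 (by linarith)
  have hkn : 2 ^ (s + 1) ≤ k := by exact_mod_cast hkk
  have hqb : 0 < Q / b := div_pos hQ hb0
  have hqb1 : Q / b ≤ Q := div_le_self hQ.le (by linarith)
  obtain ⟨H, hH1, hH2⟩ := GrB_dense hI (G := G) hqb hqb1 h2 A hA s hs1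
  obtain ⟨a0, ha0⟩ := hA
  obtain ⟨m, rfl⟩ := Nat.exists_eq_add_of_le hkn
  refine ⟨H, m • a0, ?_, ?_⟩
  · have hci : ci H ≤ C * b * l := by
      have e1 : ci H ≤ l / (Q / b) := by
        rw [le_div_iff₀ hqb]
        rw [mul_comm]
        exact hH1
      have e2 : l / (Q / b) = (1 / Q) * b * l := by
        field_simp
      have e3 : (1 / Q) * b * l ≤ C * b * l :=
        mul_le_mul_of_nonneg_right (mul_le_mul_of_nonneg_right hCQ hb0.le) hl0
      linarith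
    unfold ci at hci
    linarith
  · intro h hh
    obtain ⟨f, hf1, hf2⟩ := hH2 h hh
    refine ⟨Fin.append f (fun _ : Fin m => a0), ?_, ?_⟩
    · intro i
      refine Fin.addCases (fun j => ?_) (fun j => ?_) i
      · rw [Fin.append_left]; exact hf1 j
      · rw [Fin.append_right]; exact ha0
    · rw [Fin.sum_univ_add]
      simp only [Fin.append_left, Fin.append_right, hf2, Finset.sum_const, Finset.card_univ, Fintype.card_fin]
      exact add_comm _ _

end Pool.Agent.H65.SPD
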