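import Pool.Agent.H65.SPD.NDefs
import Pool.Agent.H65.SPD.Ci
import Pool.Agent.H65.SPD.Dl
import Pool.Agent.H65.SPD.CvL
import Pool.Agent.H65.SPD.LwQ
set_option autoImplicit false

/-!
# LwK (size 3).  The sum of `k + 1` copies.

Claim by induction on `k`: there is `ρ`, `0 < ρ ≤ q`, `ρ ≤ 4^k q^(1 + k κ^k)`, with `dl (cvk k x) K ≤ (ρ/q) dl x K` for all `K`.
`k = 0`: `ρ = q`.  Step: `dl (cvk k x) K ≤ (ρ/q) q ci K = ρ ci K` (`hs`, `0 ≤ ρ/q`).  `lw_mixK` for `cvk k x`, `x`, `p = ρ ≤ q`,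
`θ = (2ρ)^κ` (`hB (2ρ)`, `2ρ ≤ 2q ≤ Q`): `dl (cvk (k+1) x) K ≤ (2ρ)^κ ((q/ρ)(ρ/q) dl x K + dl x K) = 2 (2ρ)^κ dl x K`.  Put
`ρ' = 2 q (2ρ)^κ`.  `ρ' ≤ 4 q ρ^κ` (`2^κ ≤ 2`), `≤ 4 q q^κ ≤ q` (`hq2`), and `4 q ρ^κ ≤ 4 q (4^k q^(1+kκ^k))^κ ≤ 4^(k+1) q^(1 + κ + k κ^(k+1))`
`≤ 4^(k+1) q^(1 + (k+1) κ^(k+1))` (`κ ≥ κ^(k+1)`, `q ≤ 1`; `(4^k)^κ ≤ 4^k`).
`law_k`: use `K = ⊥` (`dl_bot`): `df (cvk k x) ≤ (ρ/q) df x ≤ 4^k q^(k κ^k) df x` (`df_nonneg`).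
`q ≤ 1`: from `hq2` (`q^κ ≤ 1/4 < 1`, `κ > 0`).
-/
namespace Pool.Agent.H65.SPD
open Finset Pool.Agent.Ldc
variable {G : Type} [AddCommGroup G] [Fintype G] {x : G → ℝ}

theorem cvk_isP (hx : IsP x) (k : ℕ) : IsP (cvk k x) := by
  induction k with
  | zero => exact hx
  | succ k ih => exact cv_isP ih hx

private theorem LwK_step {κ q ρ : ℝ} (hκ0 : 0 < κ) (hκ1 : κ ≤ 1) (hq : 0 < q) (hq1 : q ≤ 1)
    (hρ : 0 < ρ) (k : ℕ) (h : ρ ≤ 4 ^ k * q ^ (1 + (k : ℝ) * κ ^ k)) :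
    2 * q * (2 * ρ) ^ κ ≤ 4 ^ (k + 1) * q ^ (1 + ((k + 1 : ℕ) : ℝ) * κ ^ (k + 1)) := by
  have h1 : (2 * ρ) ^ κ ≤ 2 * ρ ^ κ := by
    rw [Real.mul_rpow (by norm_num) hρ.le]
    apply mul_le_mul_of_nonneg_right _ (Real.rpow_nonneg hρ.le _)
    calc (2 : ℝ) ^ κ ≤ 2 ^ (1 : ℝ) := Real.rpow_le_rpow_of_exponent_le (by norm_num) hκ1
      _ = 2 := Real.rpow_one _
  have h2 : ρ ^ κ ≤ 4 ^ k * q ^ (κ + (k : ℝ) * κ ^ (k + 1)) := by
    calc ρ ^ κ ≤ (4 ^ k * q ^ (1 + (k : ℝ) * κ ^ k)) ^ κ := Real.rpow_le_rpow hρ.le h hκ0.le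
      _ = ((4 : ℝ) ^ k) ^ κ * q ^ (κ + (k : ℝ) * κ ^ (k + 1)) := by
        rw [Real.mul_rpow (by positivity) (Real.rpow_nonneg hq.le _), ← Real.rpow_mul hq.le]
        congr 2
        rw [pow_succ]; ring
      _ ≤ 4 ^ k * q ^ (κ + (k : ℝ) * κ ^ (k + 1)) := by
        apply mul_le_mul_of_nonneg_right _ (Real.rpow_nonneg hq.le _)
        calc ((4 : ℝ) ^ k) ^ κ ≤ ((4 : ℝ) ^ k) ^ (1 : ℝ) :=
              Real.rpow_le_rpow_of_exponent_le (one_le_pow₀ (by norm_num)) hκ1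
          _ = 4 ^ k := Real.rpow_one _
  have h3 : q * q ^ (κ + (k : ℝ) * κ ^ (k + 1)) ≤ q ^ (1 + ((k + 1 : ℕ) : ℝ) * κ ^ (k + 1)) := by
    have e : q * q ^ (κ + (k : ℝ) * κ ^ (k + 1)) = q ^ (1 + (κ + (k : ℝ) * κ ^ (k + 1))) := by
      rw [Real.rpow_add hq 1, Real.rpow_one]
    rw [e]
    apply Real.rpow_le_rpow_of_exponent_ge hq hq1
    have h4 : κ ^ (k + 1) ≤ κ := by
      calc κ ^ (k + 1) ≤ κ ^ 1 := pow_le_pow_of_le_one hκ0.le hκ1 (by omega)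
        _ = κ := pow_one _
    push_cast
    nlinarith
  calc 2 * q * (2 * ρ) ^ κ ≤ 2 * q * (2 * ρ ^ κ) := mul_le_mul_of_nonneg_left h1 (by positivity)
    _ = 4 * q * ρ ^ κ := by ring
    _ ≤ 4 * q * (4 ^ k * q ^ (κ + (k : ℝ) * κ ^ (k + 1))) :=
      mul_le_mul_of_nonneg_left h2 (by positivity)
    _ = 4 ^ (k + 1) * (q * q ^ (κ + (k : ℝ) * κ ^ (k + 1))) := by rw [pow_succ]; ring
    _ ≤ _ := mul_le_mul_of_nonneg_left h3 (by positivity)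

theorem law_k {κ Q q : ℝ} (hκ0 : 0 < κ) (hκ1 : κ ≤ 1)
    (hB : ∀ p : ℝ, 0 < p → p ≤ Q → Bd p (p ^ κ)) (hq : 0 < q) (hq1 : 2 * q ≤ Q)
    (hq2 : q ^ κ ≤ 1 / 4) (h2 : ∀ g : G, g + g = 0) (hx : IsP x)
    (hs : ∀ K : AddSubgroup G, dl x K ≤ q * ci K) (k : ℕ) :
    df (cvk k x) ≤ 4 ^ k * q ^ ((k : ℝ) * κ ^ k) * df x := by
  have hqκ : 0 < q ^ κ := Real.rpow_pos_of_pos hq _
  have hq11 : q ≤ 1 := by
    by_contra hcon
    have h1 : 1 ≤ q ^ κ := Real.one_le_rpow (not_le.mp hcon).le hκ0.le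
    linarith
  have key : ∀ j : ℕ, ∃ ρ : ℝ, 0 < ρ ∧ ρ ≤ q ∧ ρ ≤ 4 ^ j * q ^ (1 + (j : ℝ) * κ ^ j) ∧
      ∀ K : AddSubgroup G, dl (cvk j x) K ≤ ρ / q * dl x K := by
    intro j
    induction j with
    | zero =>
      refine ⟨q, hq, le_refl _, ?_, ?_⟩
      · simp
      · intro K
        rw [div_self hq.ne', one_mul]
        exact le_refl _
    | succ j ih =>
      obtain ⟨ρ, hρ0, hρq, hρ4, hρK⟩ := ih
      have hx' := cvk_isP hx j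
      have h1 : ∀ K : AddSubgroup G, dl (cvk j x) K ≤ ρ * ci K := by
        intro K
        calc dl (cvk j x) K ≤ ρ / q * dl x K := hρK K
          _ ≤ ρ / q * (q * ci K) := mul_le_mul_of_nonneg_left (hs K) (by positivity)
          _ = ρ * ci K := by field_simp
      have h2ρ : 0 < 2 * ρ := by positivity
      have hr0 : 0 < (2 * ρ) ^ κ := Real.rpow_pos_of_pos h2ρ _
      have hstep := lw_mixK hρ0 hρq hr0.le (hB (2 * ρ) h2ρ (by linarith)) h2 hx' hx h1 hs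
      refine ⟨2 * q * (2 * ρ) ^ κ, by positivity, ?_, LwK_step hκ0 hκ1 hq hq11 hρ0 j hρ4, ?_⟩
      · have h3 : (2 * ρ) ^ κ ≤ 2 * q ^ κ := by
          rw [Real.mul_rpow (by norm_num) hρ0.le]
          apply mul_le_mul _ (Real.rpow_le_rpow hρ0.le hρq hκ0.le) (Real.rpow_nonneg hρ0.le _)
            (by norm_num)
          calc (2 : ℝ) ^ κ ≤ 2 ^ (1 : ℝ) := Real.rpow_le_rpow_of_exponent_le (by norm_num) hκ1
            _ = 2 := Real.rpow_one _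
        have h4 : (2 * ρ) ^ κ ≤ 1 / 2 := by linarith
        calc 2 * q * (2 * ρ) ^ κ ≤ 2 * q * (1 / 2) := mul_le_mul_of_nonneg_left h4 (by positivity)
          _ = q := by ring
      · intro K
        have h5 := hstep K
        have h6 : q / ρ * dl (cvk j x) K ≤ dl x K := by
          calc q / ρ * dl (cvk j x) K ≤ q / ρ * (ρ / q * dl x K) :=
                mul_le_mul_of_nonneg_left (hρK K) (by positivity)
            _ = dl x K := by field_simp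
        have e : 2 * q * (2 * ρ) ^ κ / q * dl x K = (2 * ρ) ^ κ * (dl x K + dl x K) := by
          field_simp
          ring
        rw [e]
        refine h5.trans ?_
        exact mul_le_mul_of_nonneg_left (by linarith) hr0.le
  obtain ⟨ρ, hρ0, hρq, hρ4, hρK⟩ := key k
  have h1 := hρK ⊥
  rw [dl_bot (cvk_isP hx k), dl_bot hx] at h1
  refine h1.trans ?_
  apply mul_le_mul_of_nonneg_right _ (df_nonneg hx)
  rw [div_le_iff₀ hq]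
  refine hρ4.trans (le_of_eq ?_)
  rw [Real.rpow_add hq, Real.rpow_one]
  ring

end Pool.Agent.H65.SPD
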