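import Mathlib
set_option autoImplicit false

/-!
# NmE (size 2).  Numbers for the even sums.

`nm_kap`: `κ = (1/(1 + k ε))^(1/k)` (real power) if this is `< 1`: since `k ≥ 1`, `ε > 0` it is in `(0,1)`, and `κ^k = 1/(1 + k ε)`
(`Real.rpow_natCast`, `Real.rpow_mul`), so `1/(k κ^k) = (1 + k ε)/k = 1/k + ε`.
`nm_c`: `c = min` of `Q/2`, `(1/4)^(1/κ)`, `(1/(2 * 4^k))^(1/(k κ^k))`, `1` (all positive): `Real.rpow_le_rpow`, `Real.rpow_mul`.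
-/
namespace Pool.Agent.H65.SPD

theorem nm_kap (k : ℕ) (hk : 1 ≤ k) {ε : ℝ} (hε : 0 < ε) :
    ∃ κ : ℝ, 0 < κ ∧ κ < 1 ∧ 1 / ((k : ℝ) * κ ^ k) = 1 / (k : ℝ) + ε := by
  have hk0 : (0 : ℝ) < (k : ℝ) := by exact_mod_cast hk
  have hke : 0 < (k : ℝ) * ε := mul_pos hk0 hε
  have hb0 : 0 < 1 / (1 + (k : ℝ) * ε) := by positivity
  have hb1 : 1 / (1 + (k : ℝ) * ε) < 1 := by
    rw [div_lt_one (by linarith)]
    linarith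
  have hpow : ((1 / (1 + (k : ℝ) * ε)) ^ (1 / (k : ℝ))) ^ k = 1 / (1 + (k : ℝ) * ε) := by
    rw [← Real.rpow_natCast, ← Real.rpow_mul hb0.le, one_div_mul_cancel hk0.ne', Real.rpow_one]
  refine ⟨(1 / (1 + (k : ℝ) * ε)) ^ (1 / (k : ℝ)), Real.rpow_pos_of_pos hb0 _,
    Real.rpow_lt_one hb0.le hb1 (by positivity), ?_⟩
  rw [hpow]
  field_simp

theorem nm_c (k : ℕ) (hk : 1 ≤ k) {κ Q : ℝ} (hκ0 : 0 < κ) (hQ : 0 < Q) :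
    ∃ c : ℝ, 0 < c ∧ c ≤ 1 ∧ 2 * c ≤ Q ∧ c ^ κ ≤ 1 / 4 ∧
      4 ^ k * c ^ ((k : ℝ) * κ ^ k) ≤ 1 / 2 := by
  have hk0 : (0 : ℝ) < (k : ℝ) := by exact_mod_cast hk
  have he0 : 0 < (k : ℝ) * κ ^ k := by positivity
  have h4 : (0 : ℝ) < 1 / (2 * 4 ^ k) := by positivity
  obtain ⟨c1, hc1⟩ : ∃ c1 : ℝ, c1 = (1 / 4 : ℝ) ^ (1 / κ) := ⟨_, rfl⟩
  obtain ⟨c2, hc2⟩ : ∃ c2 : ℝ, c2 = (1 / (2 * 4 ^ k) : ℝ) ^ (1 / ((k : ℝ) * κ ^ k)) := ⟨_, rfl⟩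
  have hc1p : 0 < c1 := by rw [hc1]; exact Real.rpow_pos_of_pos (by norm_num) _
  have hc2p : 0 < c2 := by rw [hc2]; exact Real.rpow_pos_of_pos h4 _
  have e1 : c1 ^ κ = 1 / 4 := by
    rw [hc1, ← Real.rpow_mul (by norm_num), one_div_mul_cancel hκ0.ne', Real.rpow_one]
  have e2 : c2 ^ ((k : ℝ) * κ ^ k) = 1 / (2 * 4 ^ k) := by
    rw [hc2, ← Real.rpow_mul h4.le, one_div_mul_cancel he0.ne', Real.rpow_one]
  have hm0 : 0 < min (min (Q / 2) 1) (min c1 c2) :=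
    lt_min (lt_min (by linarith) one_pos) (lt_min hc1p hc2p)
  refine ⟨min (min (Q / 2) 1) (min c1 c2), hm0, ?_, ?_, ?_, ?_⟩
  · exact le_trans (min_le_left _ _) (min_le_right _ _)
  · have : min (min (Q / 2) 1) (min c1 c2) ≤ Q / 2 := le_trans (min_le_left _ _) (min_le_left _ _)
    linarith
  · rw [← e1]
    exact Real.rpow_le_rpow hm0.le (le_trans (min_le_right _ _) (min_le_left _ _)) hκ0.le
  · have h5 : (min (min (Q / 2) 1) (min c1 c2)) ^ ((k : ℝ) * κ ^ k) ≤ c2 ^ ((k : ℝ) * κ ^ k) :=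
      Real.rpow_le_rpow hm0.le (le_trans (min_le_right _ _) (min_le_right _ _)) he0.le
    have h6 : (0 : ℝ) < 4 ^ k := by positivity
    calc (4 : ℝ) ^ k * (min (min (Q / 2) 1) (min c1 c2)) ^ ((k : ℝ) * κ ^ k)
        ≤ 4 ^ k * c2 ^ ((k : ℝ) * κ ^ k) := mul_le_mul_of_nonneg_left h5 h6.le
      _ = 4 ^ k * (1 / (2 * 4 ^ k)) := by rw [e2]
      _ = 1 / 2 := by field_simp
      _ ≤ 1 / 2 := le_refl _

end Pool.Agent.H65.SPD
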