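import Pool.Agent.H65.SPD.NDefs
import Pool.Agent.H65.SPD.C1
import Pool.Agent.H65.SPD.Sft1
import Pool.Agent.H65.SPD.ThK
set_option autoImplicit false

/-!
# ThP (size 1).  Theorem A++ with a fixed exponent and without constant.

`C` from `thmK`, `n = ⌈2/(1-κ)⌉₊` (`n ≥ 1`, `1/n ≤ (1-κ)/2`), `Q = min (1/2) (C^(-2n/(1-κ)))` (real power).  For `0 < q ≤ Q`:
`C^n q^(1-1/n) ≤ C^n q^((1+κ)/2) = (C^n q^((1-κ)/2)) q^κ ≤ q^κ`, since `q^((1-κ)/2) ≤ Q^((1-κ)/2) ≤ C^(-n)`.  `Bd_theta`.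
-/
namespace Pool.Agent.H65.SPD
open Finset Pool.Agent.Ldc

theorem thmP {κ : ℝ} (h0 : 0 < κ) (h1 : κ < 1) :
    ∃ Q : ℝ, 0 < Q ∧ Q < 1 ∧ ∀ q : ℝ, 0 < q → q ≤ Q → Bd q (q ^ κ) := by
  obtain ⟨C, hC, hB⟩ := thmK
  obtain ⟨d, hd⟩ : ∃ d : ℝ, d = (1 - κ) / 2 := ⟨_, rfl⟩
  have hd0 : 0 < d := by rw [hd]; linarith
  have hκ : κ + d = 1 - d := by rw [hd]; ring
  obtain ⟨n, hn⟩ : ∃ n : ℕ, n = ⌈1 / d⌉₊ := ⟨_, rfl⟩
  have hn1 : 1 / d ≤ (n : ℝ) := by rw [hn]; exact Nat.le_ceil _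
  have hnp : (0 : ℝ) < n := lt_of_lt_of_le (by positivity) hn1
  have hn2 : 1 ≤ n := by exact_mod_cast hnp
  have hn3 : 1 / (n : ℝ) ≤ d := by
    rw [div_le_iff₀ hnp]
    rw [div_le_iff₀ hd0] at hn1
    linarith
  have hCn : (0 : ℝ) < C ^ n := by positivity
  have hQ0 : (0 : ℝ) < (C ^ n) ^ (-(1 / d)) := Real.rpow_pos_of_pos hCn _
  refine ⟨min (1 / 2) ((C ^ n) ^ (-(1 / d))), lt_min (by norm_num) hQ0,
    lt_of_le_of_lt (min_le_left _ _) (by norm_num), fun q hq0 hq => ?_⟩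
  have hq1 : q ≤ 1 := hq.trans ((min_le_left _ _).trans (by norm_num))
  have hq2 : q ≤ (C ^ n) ^ (-(1 / d)) := hq.trans (min_le_right _ _)
  refine Bd_theta ?_ (hB n hn2 q hq0 hq1)
  have e1 : q ^ (1 - 1 / (n : ℝ)) ≤ q ^ (κ + d) :=
    Real.rpow_le_rpow_of_exponent_ge hq0 hq1 (by rw [hκ]; linarith)
  have e2 : q ^ (κ + d) = q ^ κ * q ^ d := Real.rpow_add hq0 κ d
  have e3 : q ^ d ≤ ((C ^ n) ^ (-(1 / d))) ^ d := Real.rpow_le_rpow hq0.le hq2 hd0.le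
  have e4 : ((C ^ n) ^ (-(1 / d))) ^ d = (C ^ n)⁻¹ := by
    rw [← Real.rpow_mul hCn.le]
    have : -(1 / d) * d = -1 := by field_simp
    rw [this, Real.rpow_neg_one]
  have hk : 0 ≤ q ^ κ := Real.rpow_nonneg hq0.le κ
  calc C ^ n * q ^ (1 - 1 / (n : ℝ)) ≤ C ^ n * (q ^ κ * q ^ d) := by
        rw [← e2]
        exact mul_le_mul_of_nonneg_left e1 hCn.le
    _ ≤ C ^ n * (q ^ κ * (C ^ n)⁻¹) := by
        rw [e4] at e3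
        exact mul_le_mul_of_nonneg_left (mul_le_mul_of_nonneg_left e3 hk) hCn.le
    _ = q ^ κ := by
        field_simp

end Pool.Agent.H65.SPD
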