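import Pool.Agent.H65.SPD.Ci
import Pool.Agent.H65.SPD.SetM
import Pool.Agent.H65.SPD.SetS
import Pool.Agent.H65.SPD.ThP
import Pool.Agent.H65.SPD.LwK
import Pool.Agent.H65.SPD.CvS
import Pool.Agent.H65.SPD.NmE
set_option autoImplicit false

/-!
# GrE (size 3).  `2k + 2` summands, dense sets in groups of exponent 2.

`κ` from `nm_kap`, `Q` from `thmP` (`Q < 1`), `c` from `nm_c`, `e = 1/k + ε`, `x = e` (so `x * (k κ^k) = 1` as `1/(k κ^k) = e`).
`C = 1/c ≥ 1`.  `ℓ = log|G| - log|A| ≥ 0`, `t = 1 + ℓ`, `q = c t^(-e)`; `q ≤ c`, so `2q ≤ Q`, `q^κ ≤ 1/4`.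
1. `exists_spread A hA q`: `H₁, c₀, B`; `ℓ_B = log|H₁| - log|B| ≤ ℓ`, `q ci H₁ ≤ ℓ`, so `ci H₁ ≤ ℓ/q = ℓ t^e/c ≤ t^(1+e)/c`.
2. `law_k` for `unif B` in the group `H₁` (`dl_unif`, `unif_isP`, exponent 2): `df (cvk k (unif B)) ≤ 4^k q^(k κ^k) ℓ_B` (`df_unif`)
   `= 4^k c^(k κ^k) t^(-1) ℓ_B ≤ (1/2) (ℓ/t) ≤ 1/2 < log 2`.
3. `cover_k`: every `h ∈ H₁` is a sum of `2(k+1)` elements `b_i` of `B`, so `Σ (b_i + c₀) = h + (2(k+1)) • c₀ = h`, and `b_i + c₀ ∈ A`.
   (See `Grp.lean`, `Eight.lean` for the same bookkeeping.)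
-/
namespace Pool.Agent.H65.SPD
open Finset Pool.Agent.Ldc

theorem group_even (k : ℕ) (hk : 1 ≤ k) {ε : ℝ} (hε : 0 < ε) :
    ∃ C : ℝ, 1 ≤ C ∧ ∀ (G : Type) [AddCommGroup G] [Fintype G],
    (∀ g : G, g + g = 0) → ∀ A : Finset G, A.Nonempty → ∃ H : AddSubgroup G,
      Real.log (Fintype.card G : ℝ)
          - C * (1 + (Real.log (Fintype.card G : ℝ) - Real.log (A.card : ℝ))) ^ (1 + 1 / (k : ℝ) + ε)
        ≤ Real.log (Nat.card H : ℝ) ∧
      ∀ h ∈ H, ∃ f : Fin (2 * (k + 1)) → G, (∀ i, f i ∈ A) ∧ ∑ i, f i = h := by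
  obtain ⟨κ, hκ0, hκ1, hκk⟩ := nm_kap k hk hε
  obtain ⟨Q, hQ0, hQ1, hQB⟩ := thmP hκ0 hκ1
  obtain ⟨c, hc0, hc1, hcQ, hcκ, hck⟩ := nm_c k hk hκ0 hQ0 (Q := Q)
  have hk0 : (0 : ℝ) < (k : ℝ) := by exact_mod_cast hk
  have hkk : 0 < (k : ℝ) * κ ^ k := by positivity
  set e : ℝ := 1 / (k : ℝ) + ε with he
  have he0 : 0 < e := by positivity
  have hek : e * ((k : ℝ) * κ ^ k) = 1 := by
    rw [← hκk, one_div_mul_cancel hkk.ne']
  have hexp : 1 + 1 / (k : ℝ) + ε = 1 + e := by rw [he]; ring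
  rw [hexp]
  refine ⟨1 / c, by rw [le_div_iff₀ hc0]; linarith, ?_⟩
  intro G _ _ hG A hA
  set l := Real.log (Fintype.card G : ℝ) - Real.log (A.card : ℝ) with hl
  have hApos : (0 : ℝ) < (A.card : ℝ) := by exact_mod_cast hA.card_pos
  have hl0 : 0 ≤ l := by
    have h1 : (A.card : ℝ) ≤ (Fintype.card G : ℝ) := by exact_mod_cast Finset.card_le_univ A
    have := Real.log_le_log hApos h1
    rw [hl]
    linarith
  set t := 1 + l with htdef
  have ht : 1 ≤ t := by rw [htdef]; linarith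
  have ht0 : 0 < t := by linarith
  have hte : 0 < t ^ (-e) := Real.rpow_pos_of_pos ht0 _
  have hte1 : t ^ (-e) ≤ 1 := Real.rpow_le_one_of_one_le_of_nonpos ht (by linarith)
  set q := c * t ^ (-e) with hqdef
  have hq : 0 < q := by rw [hqdef]; positivity
  have hqc : q ≤ c := by
    rw [hqdef]
    nlinarith
  have hq2 : q ^ κ ≤ 1 / 4 := (Real.rpow_le_rpow hq.le hqc hκ0.le).trans hcκ
  obtain ⟨H₁, c₀, B, hB, hBA, hMS, hle⟩ := exists_spread A hA q
  have hBpos : (0 : ℝ) < (B.card : ℝ) := by exact_mod_cast hB.card_pos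
  have hcard : (Nat.card H₁ : ℝ) = (Fintype.card H₁ : ℝ) := by rw [Nat.card_eq_fintype_card]
  have hBle : Real.log (B.card : ℝ) ≤ Real.log (Nat.card H₁ : ℝ) := by
    rw [hcard]
    exact Real.log_le_log hBpos (by exact_mod_cast Finset.card_le_univ B)
  have hci0 := ci_nonneg H₁
  rw [← hl] at hle
  have hqci0 : 0 ≤ q * ci H₁ := mul_nonneg hq.le hci0
  have hqci : q * ci H₁ ≤ t := by linarith
  have hx : IsP (unif B) := unif_isP B hB
  have h2H : ∀ g : H₁, g + g = 0 := by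
    intro g
    apply Subtype.ext
    exact hG g
  have hs : ∀ K : AddSubgroup H₁, dl (unif B) K ≤ q * ci K := fun K => dl_unif B hB hMS K
  have hlaw := law_k hκ0 hκ1.le hQB hq (by linarith) hq2 h2H hx hs k
  have hdfx : df (unif B) = Real.log (Fintype.card H₁ : ℝ) - Real.log (B.card : ℝ) := df_unif B hB
  have hlB : df (unif B) ≤ t := by
    rw [hdfx, ← hcard]
    linarith
  have hlB0 : 0 ≤ df (unif B) := by
    rw [hdfx, ← hcard]
    linarith
  have hqk : q ^ ((k : ℝ) * κ ^ k) = c ^ ((k : ℝ) * κ ^ k) * t⁻¹ := by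
    rw [hqdef, Real.mul_rpow hc0.le hte.le, ← Real.rpow_mul ht0.le]
    congr 1
    rw [show -e * ((k : ℝ) * κ ^ k) = -1 by rw [neg_mul, hek], Real.rpow_neg_one]
  have hdf : df (cvk k (unif B)) < Real.log 2 := by
    have h1 : 4 ^ k * q ^ ((k : ℝ) * κ ^ k) * df (unif B) ≤ 1 / 2 := by
      calc 4 ^ k * q ^ ((k : ℝ) * κ ^ k) * df (unif B)
          = 4 ^ k * c ^ ((k : ℝ) * κ ^ k) * (t⁻¹ * df (unif B)) := by rw [hqk]; ring
        _ ≤ 1 / 2 * 1 := by
          apply mul_le_mul hck _ (by positivity) (by norm_num)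
          rw [inv_mul_le_iff₀ ht0]
          linarith
        _ = 1 / 2 := by ring
    have h2 := Real.log_two_gt_d9
    linarith
  refine ⟨H₁, ?_, ?_⟩
  · have hci : ci H₁ ≤ 1 / c * t ^ (1 + e) := by
      have h1 : t ^ (1 + e) = t * t ^ e := by
        rw [Real.rpow_add ht0, Real.rpow_one]
      have h3 : t ^ (-e) * t ^ e = 1 := by
        rw [← Real.rpow_add ht0, neg_add_cancel, Real.rpow_zero]
      have h4 : 0 < t ^ e := Real.rpow_pos_of_pos ht0 _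
      rw [h1, one_div, inv_mul_eq_div, le_div_iff₀ hc0]
      calc ci H₁ * c = q * ci H₁ * t ^ e := by
            rw [hqdef]
            calc ci H₁ * c = ci H₁ * c * (t ^ (-e) * t ^ e) := by rw [h3, mul_one]
              _ = _ := by ring
        _ ≤ t * t ^ e := mul_le_mul_of_nonneg_right hqci h4.le
    have hciG : ci H₁ = Real.log (Fintype.card G : ℝ) - Real.log (Nat.card H₁ : ℝ) := rfl
    linarith
  · intro g hg
    obtain ⟨f, hf1, hf2⟩ := cover_k B hB k hdf ⟨g, hg⟩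
    refine ⟨fun i => (f i : G) + c₀, fun i => hBA _ (hf1 i), ?_⟩
    rw [Finset.sum_add_distrib, Finset.sum_const, Finset.card_univ, Fintype.card_fin]
    have e1 : ∑ i, (f i : G) = g := by
      have h5 := congrArg (fun y : H₁ => (y : G)) hf2
      simpa using h5
    have e2 : (2 * (k + 1)) • c₀ = 0 := by
      rw [mul_comm, mul_smul, two_smul, hG c₀, smul_zero]
    rw [e1, e2, add_zero]

end Pool.Agent.H65.SPD
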