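import Pool.Agent.H65.SPD.Defs
import Pool.Agent.H65.SPD.Tls
import Pool.Agent.H65.SPD.Ci
import Pool.Agent.H65.SPD.C5
set_option autoImplicit false

/-!
# LawQ (size 3).  Theorem A for laws, also modulo a subgroup.

`law_df`: apply `thmA_real` to the family `r := fun u : G × Unit => x u.1` (trivial data): `IsP r`, `Lf r = df x`, `dK r K = dl x K`,
`D2 r = df (cv x x)`.  (`H r (fun u => u.2) = 0` by `H_const`; `H r (mk u.1, u.2) = H x mk`: `r = pr x (fun g => (g, ()))` and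
`H_law`, `H_congr`; for `D2`: `H_pp_pr`.)
`law_dl`: apply `law_df` to the law `x' := pr x (fun g => (mk g : G ⧸ K))` on the group `G ⧸ K` (exponent 2).
`df x' = dl x K` (`ci_eq`, `H_eq_ent`), `df (cv x' x') = dl (cv x x) K` (`H_pp_pr` or `pp_pr`, `H_law`, `ent_eq_H`;
`mk (a + b) = mk a + mk b`), and for `M : AddSubgroup (G ⧸ K)`, `M' := M.comap (QuotientAddGroup.mk' K)`:
`dl x' M = dl x M'` and `ci M = ci M'`  (`g - g' ∈ M'` iff `mk g - mk g' ∈ M`, so `H x' mk = H x mk` by `H_law`, `H_ker`;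
`(G ⧸ K) ⧸ M` and `G ⧸ M'` have the same number of elements: `QuotientAddGroup.quotientQuotientEquivQuotient` or: the map
`G → (G ⧸ K) ⧸ M` is onto with kernel `M'`; `ci_eq`).  So `x'` satisfies the hypothesis with the same `q`.
-/
namespace Pool.Agent.H65.SPD
open Finset Pool.Agent.Ldc
variable {G : Type} [AddCommGroup G] [Fintype G] {x : G → ℝ}

/-- the family of a law with trivial data -/
private noncomputable def LawQ_r (x : G → ℝ) : G × Unit → ℝ := pr x (fun g => (g, ()))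

private theorem LawQ_isP (hx : IsP x) : IsP (LawQ_r x) := pr_isP hx _

private theorem LawQ_H2 (hx : IsP x) : H (LawQ_r x) (fun u => u.2) = 0 := by
  unfold LawQ_r
  rw [H_law]
  exact H_const hx _ (fun _ _ => rfl)

private theorem LawQ_Lf (hx : IsP x) : Lf (LawQ_r x) = df x := by
  unfold Lf df
  rw [LawQ_H2 hx, sub_zero, ent_eq_H]
  congr 1
  unfold LawQ_r
  rw [H_law]
  refine H_ker _ _ _ fun ω ω' => ?_
  simp

private theorem LawQ_dK (hx : IsP x) (K : AddSubgroup G) : dK (LawQ_r x) K = dl x K := by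
  unfold dK dl
  rw [LawQ_H2 hx, sub_zero]
  congr 1
  unfold LawQ_r
  rw [H_law]
  refine H_ker _ _ _ fun ω ω' => ?_
  simp

private theorem LawQ_cv (hx : IsP x) : ent (cv x x) = H (pp x x) (fun u => u.1 + u.2) := by
  unfold cv
  rw [← H_eq_ent]

private theorem LawQ_D2 (hx : IsP x) : D2 (LawQ_r x) = df (cv x x) := by
  unfold D2 df
  rw [LawQ_H2 hx, mul_zero, sub_zero, LawQ_cv hx]
  congr 1
  unfold LawQ_r
  rw [H_pp_pr hx hx (fun g => (g, ())) (fun g => (g, ()))
    (fun u : (G × Unit) × (G × Unit) => (u.1.1 + u.2.1, u.1.2, u.2.2))]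
  refine H_ker _ _ _ fun ω ω' => ?_
  simp

theorem law_df {q : ℝ} (hq : 0 < q) (hq1 : q ≤ q0) (h2 : ∀ g : G, g + g = 0) (hx : IsP x)
    (hs : ∀ K : AddSubgroup G, dl x K ≤ q * ci K) : df (cv x x) ≤ q ^ kap * df x := by
  have h := thmA_real hq hq1 G Unit h2 (LawQ_r x) (LawQ_isP hx) (fun K => by
    rw [LawQ_dK hx]; exact hs K)
  rw [LawQ_D2 hx, LawQ_Lf hx] at h
  exact h

/-- the law modulo `K` -/
private noncomputable def LawQ_q (x : G → ℝ) (K : AddSubgroup G) : G ⧸ K → ℝ :=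
  pr x (fun g => (QuotientAddGroup.mk g : G ⧸ K))

private theorem LawQ_card (K : AddSubgroup G) (M : AddSubgroup (G ⧸ K)) :
    ci M = ci (M.comap (QuotientAddGroup.mk' K)) := by
  have h1 := AddSubgroup.card_eq_card_quotient_mul_card_addSubgroup (M.comap (QuotientAddGroup.mk' K))
  have h2 := AddSubgroup.card_eq_card_quotient_mul_card_addSubgroup M
  have h3 : Nat.card (G ⧸ (M.comap (QuotientAddGroup.mk' K))) = Nat.card ((G ⧸ K) ⧸ M) := by
    have h4 : (M.comap (QuotientAddGroup.mk' K)).index = M.index :=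
      AddSubgroup.index_comap_of_surjective M (QuotientAddGroup.mk'_surjective K)
    exact h4
  rw [ci_eq, ci_eq, ← Nat.card_eq_fintype_card, ← Nat.card_eq_fintype_card, h3]

private theorem LawQ_dl (hx : IsP x) (K : AddSubgroup G) (M : AddSubgroup (G ⧸ K)) :
    dl (LawQ_q x K) M = dl x (M.comap (QuotientAddGroup.mk' K)) := by
  unfold dl
  rw [← LawQ_card]
  congr 1
  unfold LawQ_q
  rw [H_law]
  refine H_ker _ _ _ fun ω ω' => ?_
  rw [QuotientAddGroup.eq, QuotientAddGroup.eq, AddSubgroup.mem_comap]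
  rfl

private theorem LawQ_df (hx : IsP x) (K : AddSubgroup G) : df (LawQ_q x K) = dl x K := by
  unfold df dl
  rw [ci_eq]
  congr 1
  unfold LawQ_q
  rw [← H_eq_ent]

private theorem LawQ_dfcv (hx : IsP x) (K : AddSubgroup G) :
    df (cv (LawQ_q x K) (LawQ_q x K)) = dl (cv x x) K := by
  unfold df dl
  rw [ci_eq]
  congr 1
  unfold cv
  rw [← H_eq_ent, H_law]
  unfold LawQ_q
  rw [H_pp_pr hx hx (fun g => (QuotientAddGroup.mk g : G ⧸ K))
    (fun g => (QuotientAddGroup.mk g : G ⧸ K)) (fun u : (G ⧸ K) × (G ⧸ K) => u.1 + u.2)]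
  rfl

theorem law_dl {q : ℝ} (hq : 0 < q) (hq1 : q ≤ q0) (h2 : ∀ g : G, g + g = 0) (hx : IsP x)
    (hs : ∀ K : AddSubgroup G, dl x K ≤ q * ci K) (K : AddSubgroup G) :
    dl (cv x x) K ≤ q ^ kap * dl x K := by
  have h2' : ∀ g : G ⧸ K, g + g = 0 := by
    intro g
    obtain ⟨a, rfl⟩ := QuotientAddGroup.mk_surjective g
    rw [← QuotientAddGroup.mk_add, h2]
    rfl
  have h := law_df hq hq1 h2' (pr_isP hx (fun g => (QuotientAddGroup.mk g : G ⧸ K)))
    (fun M => by
      have h3 := LawQ_dl hx K M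
      unfold LawQ_q at h3
      rw [h3, LawQ_card]
      exact hs _)
  have h4 := LawQ_dfcv hx K
  have h5 := LawQ_df hx K
  unfold LawQ_q at h4 h5
  rw [h4, h5] at h
  exact h

end Pool.Agent.H65.SPD
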