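import Pool.Agent.H65.SPD.Dl
import Pool.Agent.H65.SPD.CvL
import Pool.Agent.H65.SPD.C5
import Pool.Agent.H65.SPD.LawQ
set_option autoImplicit false

/-!
# LawI (size 2).  Iteration.

Induction on `s`.  Let `q_s = q ^ ((1+kap)^s)` (`0 < q_s ≤ q ≤ q0` since `q < 1` and `(1+kap)^s ≥ 1`), `x_s = cvi s x`.
`dl x_{s+1} K ≤ q_s ^ kap * dl x_s K ≤ q_s ^ kap * q_s * ci K = q_{s+1} ci K` (`law_dl`, `Real.rpow_add`, `Real.rpow_mul`, `ci_nonneg`).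
`df x_{s+1} ≤ q_s ^ kap * df x_s ≤ q ^ (kap (1+kap)^s) q ^ ((1+kap)^s - 1) df x = q ^ ((1+kap)^(s+1) - 1) df x` (`law_df`).
-/
namespace Pool.Agent.H65.SPD
open Finset Pool.Agent.Ldc
variable {G : Type} [AddCommGroup G] [Fintype G] {x : G → ℝ}

theorem law_iter {q : ℝ} (hq : 0 < q) (hq1 : q ≤ q0) (h2 : ∀ g : G, g + g = 0) (hx : IsP x)
    (hs : ∀ K : AddSubgroup G, dl x K ≤ q * ci K) (s : ℕ) :
    IsP (cvi s x) ∧ (∀ K : AddSubgroup G, dl (cvi s x) K ≤ q ^ ((1 + kap) ^ s : ℝ) * ci K) ∧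
      df (cvi s x) ≤ q ^ ((1 + kap) ^ s - 1 : ℝ) * df x := by
  have hk := kap_pos
  have hq1' : q ≤ 1 := hq1.trans q0_lt.le
  induction s with
  | zero =>
    refine ⟨hx, ?_, ?_⟩
    · intro K
      simpa [cvi] using hs K
    · simp [cvi]
  | succ s ih =>
    obtain ⟨hP, hdl, hdf⟩ := ih
    have hs1 : (1 : ℝ) ≤ (1 + kap) ^ s := one_le_pow₀ (by linarith)
    have hQ0 : 0 < q ^ ((1 + kap) ^ s : ℝ) := Real.rpow_pos_of_pos hq _
    have hQ1 : q ^ ((1 + kap) ^ s : ℝ) ≤ q0 := by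
      calc q ^ ((1 + kap) ^ s : ℝ) ≤ q ^ (1 : ℝ) :=
            Real.rpow_le_rpow_of_exponent_ge hq hq1' hs1
        _ = q := Real.rpow_one q
        _ ≤ q0 := hq1
    have hk0 : 0 ≤ (q ^ ((1 + kap) ^ s : ℝ)) ^ kap := (Real.rpow_pos_of_pos hQ0 _).le
    have e1 : (q ^ ((1 + kap) ^ s : ℝ)) ^ kap = q ^ (kap * (1 + kap) ^ s : ℝ) := by
      rw [← Real.rpow_mul hq.le, mul_comm]
    refine ⟨cv_isP hP hP, ?_, ?_⟩
    · intro K
      have h1 := law_dl hQ0 hQ1 h2 hP hdl K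
      have h3 : (q ^ ((1 + kap) ^ s : ℝ)) ^ kap * dl (cvi s x) K
          ≤ (q ^ ((1 + kap) ^ s : ℝ)) ^ kap * (q ^ ((1 + kap) ^ s : ℝ) * ci K) :=
        mul_le_mul_of_nonneg_left (hdl K) hk0
      have e2 : (q ^ ((1 + kap) ^ s : ℝ)) ^ kap * (q ^ ((1 + kap) ^ s : ℝ) * ci K)
          = q ^ ((1 + kap) ^ (s + 1) : ℝ) * ci K := by
        rw [e1, ← mul_assoc, ← Real.rpow_add hq]
        congr 2
        ring
      have e3 : dl (cvi (s + 1) x) K = dl (cv (cvi s x) (cvi s x)) K := rfl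
      rw [e3, ← e2]
      exact h1.trans h3
    · have h1 := law_df hQ0 hQ1 h2 hP hdl
      have h3 : (q ^ ((1 + kap) ^ s : ℝ)) ^ kap * df (cvi s x)
          ≤ (q ^ ((1 + kap) ^ s : ℝ)) ^ kap * (q ^ ((1 + kap) ^ s - 1 : ℝ) * df x) :=
        mul_le_mul_of_nonneg_left hdf hk0
      have e2 : (q ^ ((1 + kap) ^ s : ℝ)) ^ kap * (q ^ ((1 + kap) ^ s - 1 : ℝ) * df x)
          = q ^ ((1 + kap) ^ (s + 1) - 1 : ℝ) * df x := by
        rw [e1, ← mul_assoc, ← Real.rpow_add hq]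
        congr 2
        ring
      have e3 : df (cvi (s + 1) x) = df (cv (cvi s x) (cvi s x)) := rfl
      rw [e3, ← e2]
      exact h1.trans h3

end Pool.Agent.H65.SPD
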