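import Pool.Agent.H65.SPD.Ci
import Pool.Agent.H65.SPD.C5
import Pool.Agent.H65.SPD.LawI
import Pool.Agent.H65.SPD.SetM
import Pool.Agent.H65.SPD.SetS
import Pool.Agent.H65.SPD.SetT
set_option autoImplicit false

/-!
# Grp (size 2).  Dense sets in a group of exponent 2.

`spread_all`: `x = unif B` satisfies the hypotheses of `law_iter` (`dl_unif`, `unif_isP`), `df (cvi s x) ≤ q^(..) df x < log 2`
(`df_unif`); `exists_sum_of_df_lt` for `cvi s x`, then `cvi_support` for both summands, `Fin.append` (`2^(s+1) = 2^s + 2^s`);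
`0 < unif B a` implies `a ∈ B`.
`group_dense`: `exists_spread A hA q` gives `H, c, B`; `ℓ_B ≤ ℓ` since `q ci H ≥ 0`, and `q ci H ≤ ℓ` as `ℓ_B ≥ 0` (`|B| ≤ |H|`);
`spread_all` in the group `H` (`Fintype.card H = Nat.card H`; `q^(..) ≥ 0`): every `h ∈ H` is a sum of `2^(s+1)` elements `b_i` of `B`; then
`Σ (b_i + c) = h + 2^(s+1) • c = h`.
-/
namespace Pool.Agent.H65.SPD
open Finset Pool.Agent.Ldc
variable {G : Type} [AddCommGroup G] [Fintype G]

private theorem grp_append {m : ℕ} (B : Finset G) (fa fb : Fin m → G) (ha : ∀ i, fa i ∈ B)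
    (hb : ∀ i, fb i ∈ B) {k : ℕ} (hk : k = m + m) :
    ∃ f : Fin k → G, (∀ i, f i ∈ B) ∧ ∑ i, f i = ∑ i, fa i + ∑ i, fb i := by
  subst hk
  refine ⟨Fin.append fa fb, ?_, ?_⟩
  · intro j
    refine Fin.addCases (fun i => ?_) (fun i => ?_) j
    · rw [Fin.append_left]
      exact ha i
    · rw [Fin.append_right]
      exact hb i
  · rw [Fin.sum_univ_add]
    simp only [Fin.append_left, Fin.append_right]

theorem spread_all {q : ℝ} (hq : 0 < q) (hq1 : q ≤ q0) (h2 : ∀ g : G, g + g = 0) (B : Finset G)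
    (hB : B.Nonempty) (hs : MinSpread q B) (s : ℕ)
    (h : q ^ ((1 + kap) ^ s - 1 : ℝ)
      * (Real.log (Fintype.card G : ℝ) - Real.log (B.card : ℝ)) < Real.log 2) (g : G) :
    ∃ f : Fin (2 ^ (s + 1)) → G, (∀ i, f i ∈ B) ∧ ∑ i, f i = g := by
  have hP0 : IsP (unif B) := unif_isP B hB
  obtain ⟨hP, -, hdf⟩ := law_iter hq hq1 h2 hP0 (fun K => dl_unif B hB hs K) s
  rw [df_unif B hB] at hdf
  obtain ⟨a, b, ha, hb, hab⟩ := exists_sum_of_df_lt hP (lt_of_le_of_lt hdf h) g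
  obtain ⟨fa, hfa, hsa⟩ := cvi_support hP0 s a ha
  obtain ⟨fb, hfb, hsb⟩ := cvi_support hP0 s b hb
  have hpos : ∀ y : G, 0 < unif B y → y ∈ B := by
    intro y hy
    by_contra hn
    unfold unif at hy
    rw [if_neg hn] at hy
    exact lt_irrefl _ hy
  obtain ⟨f, hf1, hf2⟩ := grp_append B fa fb (fun i => hpos _ (hfa i)) (fun i => hpos _ (hfb i))
    (k := 2 ^ (s + 1)) (by rw [pow_succ]; ring)
  exact ⟨f, hf1, by rw [hf2, hsa, hsb, hab]⟩

theorem group_dense {q : ℝ} (hq : 0 < q) (hq1 : q ≤ q0) (h2 : ∀ g : G, g + g = 0) (A : Finset G)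
    (hA : A.Nonempty) (s : ℕ)
    (h : q ^ ((1 + kap) ^ s - 1 : ℝ)
      * (Real.log (Fintype.card G : ℝ) - Real.log (A.card : ℝ)) < Real.log 2) :
    ∃ H : AddSubgroup G, q * ci H ≤ Real.log (Fintype.card G : ℝ) - Real.log (A.card : ℝ) ∧
      ∀ g ∈ H, ∃ f : Fin (2 ^ (s + 1)) → G, (∀ i, f i ∈ A) ∧ ∑ i, f i = g := by
  obtain ⟨H, c, B, hB, hmem, hsp, hle⟩ := exists_spread A hA q
  have hcard : (Nat.card H : ℝ) = (Fintype.card H : ℝ) := by
    rw [Nat.card_eq_fintype_card]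
  have hBpos : (0 : ℝ) < (B.card : ℝ) := by
    exact_mod_cast Finset.card_pos.2 hB
  have hlB : Real.log (B.card : ℝ) ≤ Real.log (Nat.card H : ℝ) := by
    apply Real.log_le_log hBpos
    rw [hcard]
    exact_mod_cast Finset.card_le_univ B
  have hci : 0 ≤ q * ci H := mul_nonneg hq.le (ci_nonneg H)
  have hq0 : 0 ≤ q ^ ((1 + kap) ^ s - 1 : ℝ) := Real.rpow_nonneg hq.le _
  refine ⟨H, by linarith, ?_⟩
  intro g hg
  have h2H : ∀ y : H, y + y = 0 := by
    intro y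
    apply Subtype.ext
    exact h2 y
  have hlt : q ^ ((1 + kap) ^ s - 1 : ℝ)
      * (Real.log (Fintype.card H : ℝ) - Real.log (B.card : ℝ)) < Real.log 2 := by
    refine lt_of_le_of_lt (mul_le_mul_of_nonneg_left ?_ hq0) h
    rw [← hcard]
    linarith
  obtain ⟨f, hf1, hf2⟩ := spread_all hq hq1 h2H B hB hsp s hlt ⟨g, hg⟩
  refine ⟨fun i => (f i : G) + c, fun i => hmem _ (hf1 i), ?_⟩
  rw [Finset.sum_add_distrib, Finset.sum_const, Finset.card_univ, Fintype.card_fin]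
  have e1 : ∑ i, (f i : G) = g := by
    have h5 := congrArg (fun y : H => (y : G)) hf2
    simpa using h5
  have e2 : (2 ^ (s + 1)) • c = 0 := by
    rw [pow_succ, mul_smul, two_smul, h2 c, smul_zero]
  rw [e1, e2, add_zero]

end Pool.Agent.H65.SPD
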