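import Pool.Agent.H65.SPD.C5
set_option autoImplicit false

/-!
# Num.  Choice of the number of steps.
-/
namespace Pool.Agent.H65.SPD

theorem num_s : ∃ C : ℝ, 1 ≤ C ∧ ∀ b l : ℝ, 2 ≤ b → 0 ≤ l → ∃ s : ℕ,
    (q0 / b) ^ ((1 + kap) ^ s - 1 : ℝ) * l < Real.log 2 ∧
      (2 : ℝ) ^ (s + 1) ≤ C * (1 + Real.log (1 + l) / Real.log b) ^ C := by
  have hk := kap_pos
  have hq := q0_pos
  have hq1 := q0_lt
  obtain ⟨ρ, hρ⟩ : ∃ ρ : ℝ, ρ = 1 + kap := ⟨_, rfl⟩
  have hρ1 : 1 < ρ := by rw [hρ]; linarith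
  have hρ0 : 0 < ρ := by linarith
  have hlρ : 0 < Real.log ρ := Real.log_pos hρ1
  have hl2 : 0 < Real.log 2 := Real.log_pos (by norm_num)
  obtain ⟨E, hE⟩ : ∃ E : ℝ, E = Real.log 2 / Real.log ρ := ⟨_, rfl⟩
  have hE0 : 0 < E := by rw [hE]; positivity
  have h2E : 1 ≤ (2 : ℝ) ^ E := Real.one_le_rpow (by norm_num) hE0.le
  obtain ⟨C, hC⟩ : ∃ C : ℝ, C = max (4 * (2 : ℝ) ^ E) E := ⟨_, rfl⟩
  have hC1 : 4 * (2 : ℝ) ^ E ≤ C := by rw [hC]; exact le_max_left _ _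
  have hC2 : E ≤ C := by rw [hC]; exact le_max_right _ _
  refine ⟨C, by linarith, ?_⟩
  intro b l hb hl
  have hb0 : 0 < b := by linarith
  have hlb : 0 < Real.log b := Real.log_pos (by linarith)
  obtain ⟨y, hy⟩ : ∃ y : ℝ, y = Real.log (1 + l) / Real.log b := ⟨_, rfl⟩
  have hy0 : 0 ≤ y := by
    rw [hy]
    exact div_nonneg (Real.log_nonneg (by linarith)) hlb.le
  obtain ⟨s, hs⟩ : ∃ s : ℕ, s = ⌈Real.log (2 + y) / Real.log ρ⌉₊ := ⟨_, rfl⟩
  have hlog2y : 0 ≤ Real.log (2 + y) := Real.log_nonneg (by linarith)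
  have hs1 : Real.log (2 + y) / Real.log ρ ≤ (s : ℝ) := by rw [hs]; exact Nat.le_ceil _
  have hs2 : (s : ℝ) < Real.log (2 + y) / Real.log ρ + 1 := by
    rw [hs]; exact Nat.ceil_lt_add_one (by positivity)
  have hρs : 2 + y ≤ ρ ^ s := by
    have h1 : Real.log (2 + y) ≤ (s : ℝ) * Real.log ρ := by
      rwa [div_le_iff₀ hlρ] at hs1
    have h2 : ρ ^ s = Real.exp ((s : ℝ) * Real.log ρ) := by
      rw [mul_comm, Real.exp_mul, Real.exp_log hρ0, Real.rpow_natCast]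
    rw [h2]
    calc 2 + y = Real.exp (Real.log (2 + y)) := (Real.exp_log (by linarith)).symm
      _ ≤ Real.exp ((s : ℝ) * Real.log ρ) := Real.exp_le_exp.mpr h1
  refine ⟨s, ?_, ?_⟩
  · rw [← hρ]
    obtain ⟨e, he⟩ : ∃ e : ℝ, e = ρ ^ s - 1 := ⟨_, rfl⟩
    rw [← he]
    have he1 : 1 + y ≤ e := by rw [he]; linarith
    have hqb : 0 ≤ q0 / b := by positivity
    have hqb1 : q0 / b ≤ 1 / b := by
      exact div_le_div_of_nonneg_right hq1.le hb0.le
    have h1b : 0 < 1 / b := by positivity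
    have h1b1 : 1 / b ≤ 1 := by
      rw [div_le_one hb0]; linarith
    have h3 : (q0 / b) ^ e ≤ (1 / b) ^ e := Real.rpow_le_rpow hqb hqb1 (by linarith)
    have h4 : (1 / b) ^ e ≤ (1 / b) ^ (1 + y) := Real.rpow_le_rpow_of_exponent_ge h1b h1b1 he1
    have h5 : (1 / b) ^ (1 + y) = 1 / (b * (1 + l)) := by
      have h6 : b ^ y = 1 + l := by
        rw [hy, Real.rpow_def_of_pos hb0, mul_div_cancel₀ _ hlb.ne',
          Real.exp_log (by linarith)]
      rw [one_div, Real.inv_rpow hb0.le, Real.rpow_add hb0, Real.rpow_one, h6, one_div]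
    have h7 : (q0 / b) ^ e ≤ 1 / (b * (1 + l)) := by
      rw [← h5]; exact h3.trans h4
    have h8 : (q0 / b) ^ e * l ≤ 1 / (b * (1 + l)) * l := mul_le_mul_of_nonneg_right h7 hl
    have h9 : 1 / (b * (1 + l)) * l < 1 / b := by
      have e1 : 1 / (b * (1 + l)) * l = l / (b * (1 + l)) := by ring
      rw [e1, div_lt_div_iff₀ (by positivity) hb0]
      nlinarith
    have h10 : 1 / b ≤ 1 / 2 := one_div_le_one_div_of_le (by norm_num) hb
    have h11 := Real.log_two_gt_d9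
    linarith
  · rw [← hy]
    have h1 : (2 : ℝ) ^ (s + 1) ≤ 4 * (2 + y) ^ E := by
      have e1 : (2 : ℝ) ^ (s + 1) = Real.exp (((s : ℝ) + 1) * Real.log 2) := by
        rw [mul_comm, Real.exp_mul, Real.exp_log (by norm_num)]
        have : ((s : ℝ) + 1) = ((s + 1 : ℕ) : ℝ) := by push_cast; ring
        rw [this, Real.rpow_natCast]
      have e2 : 4 * (2 + y) ^ E = Real.exp (2 * Real.log 2 + Real.log (2 + y) * E) := by
        rw [Real.exp_add, Real.rpow_def_of_pos (by linarith)]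
        have : Real.exp (2 * Real.log 2) = 4 := by
          rw [mul_comm, Real.exp_mul, Real.exp_log (by norm_num)]
          norm_num
        rw [this]
      rw [e1, e2]
      apply Real.exp_le_exp.mpr
      have e3 : Real.log (2 + y) * E = Real.log (2 + y) / Real.log ρ * Real.log 2 := by
        rw [hE]; ring
      rw [e3]
      nlinarith
    have h2 : (2 + y) ^ E ≤ (2 : ℝ) ^ E * (1 + y) ^ E := by
      rw [← Real.mul_rpow (by norm_num) (by linarith)]
      exact Real.rpow_le_rpow (by linarith) (by linarith) hE0.le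
    have h3 : (1 + y) ^ E ≤ (1 + y) ^ C :=
      Real.rpow_le_rpow_of_exponent_le (by linarith) hC2
    have h4 : 0 < (1 + y) ^ E := Real.rpow_pos_of_pos (by linarith) _
    calc (2 : ℝ) ^ (s + 1) ≤ 4 * (2 + y) ^ E := h1
      _ ≤ 4 * ((2 : ℝ) ^ E * (1 + y) ^ E) := mul_le_mul_of_nonneg_left h2 (by norm_num)
      _ = (4 * (2 : ℝ) ^ E) * (1 + y) ^ E := by ring
      _ ≤ C * (1 + y) ^ E := mul_le_mul_of_nonneg_right hC1 h4.le
      _ ≤ C * (1 + y) ^ C := mul_le_mul_of_nonneg_left h3 (by linarith)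

end Pool.Agent.H65.SPD
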