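import Pool.Agent.H65.SPD.Ci
import Pool.Agent.H65.SPD.C5
import Pool.Agent.H65.SPD.Grp
import Pool.Agent.H65.SPD.Num
set_option autoImplicit false

/-!
# GrpK (size 2).  `k` summands.

`C = max C₁ (1/q0)`, `C₁` from `num_s`.  `l = log|G| - log|A| ≥ 0`; `s` from `num_s b l`; `2^(s+1) ≤ C₁ (1+y)^C₁ ≤ C (1+y)^C ≤ k`
(`y ≥ 0`).  `group_dense` with `q = q0/b ≤ q0`: `H` with `ci H ≤ l / q = b l / q0 ≤ C b l`.  `ci H = log|G| - log|H|`.
Write `k = 2^(s+1) + m`; `a₀ ∈ A`, `c = m • a₀`: `c + h` is the sum of the `2^(s+1)` elements for `h` and `m` times `a₀`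
(`Fin.append`, `Fin.cast`).
-/
namespace Pool.Agent.H65.SPD
open Finset Pool.Agent.Ldc

theorem group_k : ∃ C : ℝ, 1 ≤ C ∧ ∀ (G : Type) [AddCommGroup G] [Fintype G],
    (∀ g : G, g + g = 0) → ∀ A : Finset G, A.Nonempty → ∀ b : ℝ, 2 ≤ b → ∀ k : ℕ,
    C * (1 + Real.log (1 + (Real.log (Fintype.card G : ℝ) - Real.log (A.card : ℝ)))
      / Real.log b) ^ C ≤ (k : ℝ) →
    ∃ (H : AddSubgroup G) (c : G),
      Real.log (Fintype.card G : ℝ)
          - C * b * (Real.log (Fintype.card G : ℝ) - Real.log (A.card : ℝ))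
        ≤ Real.log (Nat.card H : ℝ) ∧
      ∀ h ∈ H, ∃ f : Fin k → G, (∀ i, f i ∈ A) ∧ ∑ i, f i = c + h := by
  obtain ⟨C1, hC1, h1⟩ := num_s
  have hq0 : 0 < q0 := q0_pos
  refine ⟨max C1 (1 / q0), le_trans hC1 (le_max_left _ _), ?_⟩
  intro G _ _ h2 A hA b hb k hk
  set C := max C1 (1 / q0) with hC
  set l := Real.log (Fintype.card G : ℝ) - Real.log (A.card : ℝ) with hl
  have hb0 : 0 < b := by linarith
  have hApos : (0 : ℝ) < (A.card : ℝ) := by exact_mod_cast hA.card_pos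
  have hl0 : 0 ≤ l := by
    have hle : (A.card : ℝ) ≤ (Fintype.card G : ℝ) := by exact_mod_cast Finset.card_le_univ A
    have := Real.log_le_log hApos hle
    rw [hl]; linarith
  obtain ⟨s, hs1, hs2⟩ := h1 b l hb hl0
  have hlogb : 0 < Real.log b := Real.log_pos (by linarith)
  have hy : 0 ≤ Real.log (1 + l) / Real.log b :=
    div_nonneg (Real.log_nonneg (by linarith)) hlogb.le
  have h1y : 1 ≤ 1 + Real.log (1 + l) / Real.log b := by linarith
  have hkk : ((2 : ℝ)) ^ (s + 1) ≤ (k : ℝ) := by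
    refine le_trans hs2 (le_trans ?_ hk)
    have hCC : C1 ≤ C := le_max_left _ _
    have e1 : (1 + Real.log (1 + l) / Real.log b) ^ C1 ≤ (1 + Real.log (1 + l) / Real.log b) ^ C :=
      Real.rpow_le_rpow_of_exponent_le h1y hCC
    have e2 : 0 ≤ (1 + Real.log (1 + l) / Real.log b) ^ C1 :=
      Real.rpow_nonneg (by linarith) _
    exact mul_le_mul hCC e1 e2 (by linarith)
  have hkn : 2 ^ (s + 1) ≤ k := by exact_mod_cast hkk
  have hqb : 0 < q0 / b := div_pos hq0 hb0
  have hqb1 : q0 / b ≤ q0 := div_le_self hq0.le (by linarith)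
  obtain ⟨H, hH1, hH2⟩ := group_dense (G := G) hqb hqb1 h2 A hA s hs1
  obtain ⟨a0, ha0⟩ := hA
  obtain ⟨m, rfl⟩ := Nat.exists_eq_add_of_le hkn
  refine ⟨H, m • a0, ?_, ?_⟩
  · have hci : ci H ≤ C * b * l := by
      have e1 : ci H ≤ l / (q0 / b) := by
        rw [le_div_iff₀ hqb]
        rw [mul_comm]
        exact hH1
      have e2 : l / (q0 / b) = (1 / q0) * b * l := by
        field_simp
      have e3 : (1 / q0) * b * l ≤ C * b * l := by
        have : 1 / q0 ≤ C := le_max_right _ _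
        exact mul_le_mul_of_nonneg_right (mul_le_mul_of_nonneg_right this hb0.le) hl0
      linarith
    unfold ci at hci
    linarith
  · intro h hh
    obtain ⟨f, hf1, hf2⟩ := hH2 h hh
    refine ⟨Fin.append f (fun _ : Fin m => a0), ?_, ?_⟩
    · intro i
      refine Fin.addCases (fun j => ?_) (fun j => ?_) i
      · rw [Fin.append_left]; exact hf1 j
      · rw [Fin.append_right]; exact ha0
    · rw [Fin.sum_univ_add]
      simp only [Fin.append_left, Fin.append_right, hf2, Finset.sum_const, Finset.card_univ, Fintype.card_fin]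
      exact add_comm _ _

end Pool.Agent.H65.SPD
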