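import Pool.Agent.H65.SPD.Defs
import Pool.Agent.H65.SPD.Tls
set_option autoImplicit false

/-!
# NDefs.  Definitions for Theorem A++ (second part of squad SPD, MP_9c415a_co, owner helper65).
-/
namespace Pool.Agent.H65.SPD
open Finset Pool.Agent.Ldc

/-- `n` independent copies of a law -/
noncomputable def pw {α : Type} (n : ℕ) (p : α → ℝ) : (Fin n → α) → ℝ := pf (fun _ : Fin n => p)

section fam
variable {G β γ τ : Type} [AddCommGroup G] [Fintype G] [Fintype β] [Fintype γ] [Fintype τ]

/-- the family modulo the subgroup `M`, `(X mod M ; Y)` -/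
noncomputable def fM (r : G × β → ℝ) (M : AddSubgroup G) : (G ⧸ M) × β → ℝ :=
  pr r (fun u => ((QuotientAddGroup.mk u.1 : G ⧸ M), u.2))

/-- deficit of the sum of a member of the family `p` and an independent member of `r`:
`Dx p r = log |G| - H(X + X' | Y, Y')` -/
noncomputable def Dx (p : G × β → ℝ) (r : G × γ → ℝ) : ℝ :=
  Real.log (Fintype.card G : ℝ)
    - (H (pp p r) (fun u => (u.1.1 + u.2.1, u.1.2, u.2.2))
      - H p (fun u => u.2) - H r (fun u => u.2))

/-- mixture of two families with the weights `t`, `1 - t`; the data remember which one was chosen -/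
noncomputable def fX (t : ℝ) (p : G × β → ℝ) (r : G × γ → ℝ) : G × (β ⊕ γ) → ℝ :=
  fun u => match u.2 with
    | Sum.inl b => t * p (u.1, b)
    | Sum.inr c => (1 - t) * r (u.1, c)

/-- `n + 1` independent members `(X_i, Y_i)`:
`DM n r = n log |G| - H((X_i + X_0)_{1 ≤ i ≤ n} | Y_0, ..., Y_n)` -/
noncomputable def DM (n : ℕ) (r : G × β → ℝ) : ℝ :=
  (n : ℝ) * Real.log (Fintype.card G : ℝ)
    - (H (pw (n + 1) r) (fun u => ((fun i : Fin n => (u i.succ).1 + (u 0).1), (fun i => (u i).2)))
      - ((n : ℝ) + 1) * H r (fun u => u.2))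

/-- `(X_0 ; (X_i + X_0)_{1 ≤ i ≤ n}, Y_0, ..., Y_n)` -/
noncomputable def fV (n : ℕ) (r : G × β → ℝ) : G × ((Fin n → G) × (Fin (n + 1) → β)) → ℝ :=
  pr (pw (n + 1) r) (fun u =>
    ((u 0).1, ((fun i : Fin n => (u i.succ).1 + (u 0).1), (fun i => (u i).2))))

/-- `DM` of a law: `Dc n x = n log |G| - H((x_i + x_0)_{1 ≤ i ≤ n})` -/
noncomputable def Dc (n : ℕ) (x : G → ℝ) : ℝ :=
  (n : ℝ) * Real.log (Fintype.card G : ℝ)
    - H (pw (n + 1) x) (fun u => (fun i : Fin n => u i.succ + u 0))

/-- the data and `n + 1` members of the family which are conditionally independent given the data -/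
noncomputable def kcp (n : ℕ) (P : G × τ → ℝ) : τ × (Fin (n + 1) → G) → ℝ :=
  fun u => wb P u.1 * ∏ i, xb P u.1 (u.2 i)

/-- spread up to the additive error `u` -/
def Soft (q u : ℝ) (r : G × β → ℝ) : Prop := ∀ K : AddSubgroup G, dK r K ≤ q * ci K + u

/-- a law as a family with trivial data -/
noncomputable def trv (x : G → ℝ) : G × Unit → ℝ := pr x (fun g => (g, ()))

/-- law of the sum of `k + 1` independent copies -/
noncomputable def cvk : ℕ → (G → ℝ) → (G → ℝ)
  | 0, x => x
  | k + 1, x => cv (cvk k x) x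

end fam

/-- every `q`-spread family on a group of exponent 2 has `DM n ≤ θ L` -/
def BdM (n : ℕ) (q θ : ℝ) : Prop :=
  ∀ (G β : Type) [AddCommGroup G] [Fintype G] [Fintype β], (∀ g : G, g + g = 0) →
    ∀ r : G × β → ℝ, IsP r → Spread q r → DM n r ≤ θ * Lf r

end Pool.Agent.H65.SPD
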